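import Pool.Agent.Lib.MP_1acd66_nt.Conic.Region

/-! The number of integral points of the height region in classes. -/

set_option linter.unusedSectionVars false

open MeasureTheory Metric Set Filter Topology

namespace Pool.Agent.Lib.MP_1acd66_nt.Conic

/-- integral vectors as real vectors -/
def castR (x : Fin 6 → ℤ) : Fin 6 → ℝ := fun i => (x i : ℝ)

theorem norm_castR (x : Fin 6 → ℤ) : ‖castR x‖ = ‖x‖ := by
  have h : ∀ i, ‖castR x i‖ = ‖x i‖ := fun i => by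
    simp only [castR, Real.norm_eq_abs, Int.norm_eq_abs]
  apply le_antisymm
  · rw [pi_norm_le_iff_of_nonneg (norm_nonneg _)]
    intro i; rw [h]; exact norm_le_pi_norm x i
  · rw [pi_norm_le_iff_of_nonneg (norm_nonneg _)]
    intro i; rw [← h]; exact norm_le_pi_norm (castR x) i

theorem adj_castR (x : Fin 6 → ℤ) : adj (castR x) = castR (adj x) :=
  adj_map (Int.castRingHom ℝ) x

theorem dt_castR (x : Fin 6 → ℤ) : dt (castR x) = ((dt x : ℤ) : ℝ) :=
  dt_map (Int.castRingHom ℝ) x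

theorem exists_crt {M g : ℕ} (h : M.Coprime g) (c : Fin 6 → ℤ) (κ : Fin 6 → ZMod g) :
    ∃ w : Fin 6 → ℤ, red M w = red M c ∧ red g w = κ := by
  obtain ⟨a, b, hab⟩ := Nat.isCoprime_iff_coprime.2 h
  have hk : ∀ i, ∃ k : ℤ, (k : ZMod g) = κ i := fun i => ZMod.intCast_surjective (κ i)
  choose k hk using hk
  refine ⟨fun i => c i * (b * g) + k i * (a * M), ?_, ?_⟩
  · rw [red_eq_red]
    intro i
    have : c i * (b * g) + k i * (a * M) - c i = M * ((k i - c i) * a) := by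
      have : (b * g : ℤ) = 1 - a * M := by linarith
      rw [this]; ring
    rw [this]
    exact dvd_mul_right _ _
  · funext i
    simp only [red]
    rw [← hk i]
    have : c i * (b * g) + k i * (a * M) = k i + g * ((c i - k i) * b) := by
      have : (a * M : ℤ) = 1 - b * g := by linarith
      rw [this]; ring
    rw [this]
    push_cast
    simp

theorem red_mul {M g : ℕ} (h : M.Coprime g) {x w : Fin 6 → ℤ} :
    (red M x = red M w ∧ red g x = red g w) ↔ ∀ i, ((M * g : ℕ) : ℤ) ∣ x i - w i := by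
  rw [red_eq_red, red_eq_red]
  constructor
  · rintro ⟨h1, h2⟩ i
    push_cast
    exact (Nat.isCoprime_iff_coprime.2 h).mul_dvd (h1 i) (h2 i)
  · intro h3
    push_cast at h3
    exact ⟨fun i => (dvd_mul_right _ _).trans (h3 i), fun i => (dvd_mul_left _ _).trans (h3 i)⟩

/-- the truncated region in one class -/
def boxSet (F : (Fin 6 → ℝ) → ℝ) (K X : ℝ) : Set (Fin 6 → ℤ) :=
  {x | ‖x‖ ≤ K * X ∧ 0 < dt x ∧ F (castR x) ≤ X ^ 6}

theorem boxSet_finite (F : (Fin 6 → ℝ) → ℝ) (K X : ℝ) : (boxSet F K X).Finite :=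
  (finite_ball (K * X)).subset fun _ hx => hx.1

variable {F : (Fin 6 → ℝ) → ℝ} {f0 f1 : ℝ}

theorem mem_reg_iff (hF : RealF F f0 f1) {K X : ℝ} (hX : 0 < X) (x : Fin 6 → ℤ) :
    X⁻¹ • castR x ∈ reg F K ↔ x ∈ boxSet F K X := by
  have hX' : 0 < X⁻¹ := inv_pos.2 hX
  have e1 : ‖X⁻¹ • castR x‖ ≤ K ↔ ‖x‖ ≤ K * X := by
    rw [norm_smul, Real.norm_eq_abs, abs_of_pos hX', norm_castR, inv_mul_le_iff₀ hX, mul_comm]
  have e2 : 0 < dt (X⁻¹ • castR x) ↔ 0 < dt x := by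
    rw [dt_smul, dt_castR, mul_pos_iff_of_pos_left (pow_pos hX' 3)]
    exact Int.cast_pos
  have e3 : F (X⁻¹ • castR x) ≤ 1 ↔ F (castR x) ≤ X ^ 6 := by
    rw [hF.hom _ _ hX', inv_pow, inv_mul_le_iff₀ (pow_pos hX 6), mul_one]
  simp only [reg, boxSet, mem_ofPred_eq, e1, e2, e3]

theorem class_ncard (hF : RealF F f0 f1) {K X : ℝ} (hX : 0 < X) {q : ℕ} (hq : 0 < q)
    (w : Fin 6 → ℤ) :
    {x ∈ boxSet F K X | ∀ i, (q : ℤ) ∣ x i - w i}.ncard =
      {z : Fin 6 → ℤ | corner (X / q) (fun i => (w i : ℝ) / q) z ∈ reg F K}.ncard := by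
  have hq' : (0:ℝ) < q := by exact_mod_cast hq
  have key : ∀ z : Fin 6 → ℤ, corner (X / q) (fun i => (w i : ℝ) / q) z =
      X⁻¹ • castR (fun i => w i + q * z i) := by
    intro z
    funext i
    simp only [corner, Pi.smul_apply, smul_eq_mul, castR]
    push_cast
    field_simp
    ring
  symm
  refine Set.ncard_congr (fun z _ => fun i => w i + q * z i) ?_ ?_ ?_
  · intro z hz
    have hz' : corner (X / q) (fun i => (w i : ℝ) / q) z ∈ reg F K := hz
    rw [key, mem_reg_iff hF hX] at hz'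
    refine ⟨hz', fun i => ?_⟩
    simp
  · intro z z' _ _ h
    funext i
    have h2 : (q:ℤ) * z i = q * z' i := by linarith [congrFun h i]
    exact mul_left_cancel₀ (by exact_mod_cast hq.ne') h2
  · rintro x ⟨hx, hd⟩
    choose z hz using hd
    refine ⟨z, ?_, ?_⟩
    · show corner (X / q) (fun i => (w i : ℝ) / q) z ∈ reg F K
      rw [key, mem_reg_iff hF hX]
      have : (fun i => w i + q * z i) = x := by
        funext i
        have := hz i
        linarith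
      rw [this]
      exact hx
    · funext i
      have := hz i
      linarith

/-- the truncated region in a class modulo `M` and in the classes `cl` modulo `g` -/
def bulk (F : (Fin 6 → ℝ) → ℝ) (M : ℕ) (c : Fin 6 → ℤ) (g : ℕ) (K X : ℝ) : Set (Fin 6 → ℤ) :=
  {x ∈ boxSet F K X | red M x = red M c ∧ red g x ∈ cl (ZMod g)}

theorem bulk_asymp (hF : RealF F f0 f1) {M : ℕ} (hM : 0 < M) (c : Fin 6 → ℤ) {K δ : ℝ}
    (hK : 0 < K) (hδ : 0 < δ) :
    ∃ X0 : ℝ, 0 < X0 ∧ ∀ g : ℕ, 0 < g → g.Coprime M → ∀ X : ℝ, X0 * g ≤ X →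
      |((bulk F M c g K X).ncard : ℝ) -
        (volume.real (reg F K) / M ^ 6) * (cl (ZMod g)).ncard * (X ^ 6 / g ^ 6)| ≤
        δ * (X ^ 6 / g ^ 3) := by
  classical
  obtain ⟨t0, ht0, hcount⟩ := lattice_count (reg_bounded (F := F) K) (reg_measurable hF K)
    (reg_frontier hF hK) hδ
  have hM' : (1:ℝ) ≤ M := by exact_mod_cast hM
  refine ⟨t0 * M, by positivity, ?_⟩
  intro g hg hgM X hX
  have : NeZero g := ⟨hg.ne'⟩
  have hg' : (1:ℝ) ≤ g := by exact_mod_cast hg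
  have hX0 : 0 < X := lt_of_lt_of_le (by positivity) hX
  set q : ℕ := M * g with hq
  have hq0 : 0 < q := Nat.mul_pos hM hg
  have hq' : (0:ℝ) < q := by exact_mod_cast hq0
  have ht : t0 ≤ X / q := by
    rw [le_div_iff₀ hq', hq]
    push_cast
    linarith
  have hfin : (bulk F M c g K X).Finite := (boxSet_finite F K X).subset fun x hx => hx.1
  set s := hfin.toFinset with hs
  have hcard : (bulk F M c g K X).ncard = s.card := Set.ncard_eq_toFinset_card _ hfin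
  set C : Finset (Fin 6 → ZMod g) := (Set.toFinite (cl (ZMod g))).toFinset with hC
  have hCcard : (cl (ZMod g)).ncard = C.card := Set.ncard_eq_toFinset_card _ _
  have h1 : s.card = ∑ κ ∈ C, (s.filter fun x => red g x = κ).card := by
    refine Finset.card_eq_sum_card_fiberwise fun x hx => ?_
    have hx' : x ∈ bulk F M c g K X := by simpa [hs] using hx
    simpa [hC] using hx'.2.2
  have h2 : ∀ κ ∈ C, |((s.filter fun x => red g x = κ).card : ℝ) -
      (X / q) ^ 6 * volume.real (reg F K)| ≤ δ * (X / q) ^ 6 := by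
    intro κ hκ
    obtain ⟨w, hw1, hw2⟩ := exists_crt (Nat.Coprime.symm hgM) c κ
    have e1 : (s.filter fun x => red g x = κ).card =
        {x ∈ boxSet F K X | ∀ i, (q : ℤ) ∣ x i - w i}.ncard := by
      rw [← Set.ncard_coe_finset]
      congr 1
      ext x
      have hκ' : κ ∈ cl (ZMod g) := by simpa [hC] using hκ
      simp only [Finset.coe_filter, hs, Set.Finite.mem_toFinset, bulk, mem_ofPred_eq]
      rw [hq, ← red_mul (Nat.Coprime.symm hgM)]
      constructor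
      · rintro ⟨⟨h3, h4, _⟩, h6⟩
        exact ⟨h3, h4.trans hw1.symm, h6.trans hw2.symm⟩
      · rintro ⟨h3, h4, h5⟩
        rw [hw2] at h5
        exact ⟨⟨h3, h4.trans hw1, by rw [h5]; exact hκ'⟩, h5⟩
    rw [e1, class_ncard hF hX0 hq0 w]
    exact hcount _ ht _
  have h3 : |((s.card : ℕ) : ℝ) - C.card * ((X / q) ^ 6 * volume.real (reg F K))| ≤
      C.card * (δ * (X / q) ^ 6) := by
    rw [h1]
    push_cast
    have e : ∑ κ ∈ C, ((s.filter fun x => red g x = κ).card : ℝ) -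
        C.card * ((X / q) ^ 6 * volume.real (reg F K)) =
        ∑ κ ∈ C, (((s.filter fun x => red g x = κ).card : ℝ) -
          (X / q) ^ 6 * volume.real (reg F K)) := by
      rw [Finset.sum_sub_distrib, Finset.sum_const, nsmul_eq_mul]
    rw [e]
    refine (Finset.abs_sum_le_sum_abs _ _).trans ?_
    refine (Finset.sum_le_sum h2).trans ?_
    rw [Finset.sum_const, nsmul_eq_mul]
  rw [hcard, hCcard]
  have e2 : (volume.real (reg F K) / (M:ℝ) ^ 6) * C.card * (X ^ 6 / (g:ℝ) ^ 6) =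
      C.card * ((X / q) ^ 6 * volume.real (reg F K)) := by
    rw [hq]
    push_cast
    field_simp
  rw [e2]
  refine h3.trans ?_
  have h4 : (C.card : ℝ) ≤ g ^ 3 := by
    rw [← hCcard]
    exact_mod_cast ncard_cl_le g hg
  have h5 : (X / q) ^ 6 ≤ X ^ 6 / g ^ 6 := by
    rw [div_pow]
    apply div_le_div_of_nonneg_left (by positivity) (by positivity)
    apply pow_le_pow_left₀ (by positivity)
    rw [hq]
    push_cast
    nlinarith
  calc (C.card : ℝ) * (δ * (X / q) ^ 6) ≤ g ^ 3 * (δ * (X ^ 6 / g ^ 6)) := by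
        apply mul_le_mul h4 _ (by positivity) (by positivity)
        exact mul_le_mul_of_nonneg_left h5 hδ.le
    _ = δ * (X ^ 6 / g ^ 3) := by
        field_simp

/-- the height region in a class modulo `M` and in the classes `cl` modulo `g`, on the side
`g1 g ‖x‖ ≤ ‖adj x‖` -/
def wset (F : (Fin 6 → ℝ) → ℝ) (M : ℕ) (c : Fin 6 → ℤ) (g1 g : ℕ) (X : ℝ) : Set (Fin 6 → ℤ) :=
  {x | red M x = red M c ∧ red g x ∈ cl (ZMod g) ∧ 0 < dt x ∧ ((g1 * g : ℕ) : ℝ) * ‖x‖ ≤ ‖adj x‖ ∧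
    F (castR x) ≤ X ^ 6}

theorem inCl_mul {g1 g : ℕ} (h : g1.Coprime g) {x : Fin 6 → ℤ} (h1 : red g1 x ∈ cl (ZMod g1))
    (h2 : red g x ∈ cl (ZMod g)) : red (g1 * g) x ∈ cl (ZMod (g1 * g)) := by
  rw [inCl_iff] at *
  exact ⟨h.mul_dvd_of_dvd_of_dvd h1.1 h2.1, Nat.Coprime.mul_right h1.2 h2.2⟩

theorem inCl_of_dvd {g1 g : ℕ} (h : g1 ∣ g) {x : Fin 6 → ℤ} (h1 : red g x ∈ cl (ZMod g)) :
    red g1 x ∈ cl (ZMod g1) := by
  rw [inCl_iff] at *
  exact ⟨h.trans h1.1, h1.2.coprime_dvd_right h⟩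

theorem red_of_dvd {g1 g : ℕ} (h : g1 ∣ g) {x y : Fin 6 → ℤ} (h1 : red g x = red g y) :
    red g1 x = red g1 y := by
  rw [red_eq_red] at *
  exact fun i => (Int.natCast_dvd_natCast.2 h).trans (h1 i)

/-- the scaling factor relating the two forms of the height condition -/
theorem exists_scale {f0 : ℝ} (h : 0 < f0) : ∃ s : ℝ, 0 < s ∧ s ^ 6 * f0 = 1 := by
  refine ⟨(f0⁻¹) ^ ((1:ℝ) / 6), by positivity, ?_⟩
  rw [← Real.rpow_natCast, ← Real.rpow_mul (by positivity)]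
  norm_num
  exact inv_mul_cancel₀ h.ne'

theorem height_cond (hF : RealF F f0 f1) {s : ℝ} (hs : 0 < s) (hs6 : s ^ 6 * f0 = 1) {X : ℝ}
    (hX : 0 < X) {x : Fin 6 → ℤ} (h : F (castR x) ≤ X ^ 6) : ‖x‖ * ‖adj x‖ ≤ (s * X) ^ 3 := by
  have h1 := (hF.lo (castR x)).trans h
  rw [adj_castR, norm_castR, norm_castR] at h1
  have h2 : (‖x‖ * ‖adj x‖) ^ 2 ≤ ((s * X) ^ 3) ^ 2 := by
    have e : ((s * X) ^ 3) ^ 2 = s ^ 6 * X ^ 6 := by ring
    rw [e]
    have := mul_le_mul_of_nonneg_left h1 (pow_pos hs 6).le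
    calc (‖x‖ * ‖adj x‖) ^ 2 = (s ^ 6 * f0) * (‖x‖ * ‖adj x‖) ^ 2 := by rw [hs6, one_mul]
      _ = s ^ 6 * (f0 * (‖x‖ * ‖adj x‖) ^ 2) := by ring
      _ ≤ _ := this
  exact le_of_sq_le_sq h2 (by positivity)

theorem wset_subset_hset (hF : RealF F f0 f1) {s : ℝ} (hs : 0 < s) (hs6 : s ^ 6 * f0 = 1) {M : ℕ}
    {c : Fin 6 → ℤ} {g1 g : ℕ} (hg1 : red g1 c ∈ cl (ZMod g1)) (hg1M : g1 ∣ M) (hgM : g.Coprime M)
    {X : ℝ} (hX : 0 < X) : wset F M c g1 g X ⊆ hset (g1 * g) (s * X) := by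
  rintro x ⟨h1, h2, h3, h4, h5⟩
  have h6 : red g1 x ∈ cl (ZMod g1) := by
    rw [red_of_dvd hg1M h1]; exact hg1
  refine ⟨inCl_mul (Nat.Coprime.coprime_dvd_left hg1M hgM.symm) h6 h2, ?_, h4,
    height_cond hF hs hs6 hX h5⟩
  exact ne_zero_of_adj (adj_ne_zero_of_dt_pos h3)

/-- The main counting result in a class. -/
theorem W_asymp (hF : RealF F f0 f1) {M : ℕ} (hM : 0 < M) {c : Fin 6 → ℤ} {g1 : ℕ} (hg10 : 0 < g1)
    (hg1 : red g1 c ∈ cl (ZMod g1)) (hg1M : g1 ∣ M) :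
    ∃ v0 : ℝ, 0 < v0 ∧ ∀ δ : ℝ, 0 < δ →
    ∃ v X0 : ℝ, v0 ≤ v ∧ 0 < X0 ∧ ∀ g : ℕ, 0 < g → g.Coprime M → ∀ X : ℝ, X0 * g ≤ X →
      |((wset F M c g1 g X).ncard : ℝ) - v * (cl (ZMod g)).ncard * (X ^ 6 / g ^ 6)| ≤
        δ * (X ^ 6 / g ^ 3) := by
  obtain ⟨s, hs, hs6⟩ := exists_scale hF.pos
  have hM0 : (0:ℝ) < M := by exact_mod_cast hM
  refine ⟨volume.real (reg F s) / M ^ 6, div_pos (reg_volume_pos hF hs) (by positivity), ?_⟩
  intro δ hδ
  obtain ⟨K, hK0, hKs, hK⟩ : ∃ K : ℝ, 0 < K ∧ s ≤ K ∧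
      640000000 * (s ^ 8 / K ^ 2) ≤ δ / 3 := by
    set A : ℝ := 640000000 * s ^ 8 * 3 / δ with hA
    have hA0 : 0 < A := by positivity
    refine ⟨s + A + 1, by positivity, by linarith, ?_⟩
    have h1 : A ≤ (s + A + 1) ^ 2 := by nlinarith
    rw [← mul_div_assoc, div_le_iff₀ (by positivity)]
    rw [hA, div_le_iff₀ hδ] at h1
    linarith
  have hM' : (1:ℝ) ≤ M := by exact_mod_cast hM
  obtain ⟨X1, hX1, hbulk⟩ := bulk_asymp hF hM c hK0 (show 0 < δ / 3 by positivity)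
  set Q : ℝ := 6000000000 * K ^ 3 / δ with hQ
  have hQ0 : 0 < Q := by positivity
  refine ⟨volume.real (reg F K) / M ^ 6, X1 + g1 / K + Q + 1, ?_, by positivity, ?_⟩
  · apply div_le_div_of_nonneg_right _ (by positivity)
    apply measureReal_mono
    · intro u hu
      exact ⟨hu.1.trans hKs, hu.2⟩
    · exact (reg_bounded (F := F) K).measure_lt_top.ne
  intro g hg hgM X hX
  have hg' : (1:ℝ) ≤ g := by exact_mod_cast hg
  have hg1' : (1:ℝ) ≤ g1 := by exact_mod_cast hg10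
  have hX0 : 0 < X := lt_of_lt_of_le (by positivity) hX
  have hb := hbulk g hg hgM X (le_trans (by
    have : 0 ≤ (g1 / K + Q + 1) * g := by positivity
    linarith) hX)
  set G := g1 * g with hG
  have hG0 : 0 < G := Nat.mul_pos hg10 hg
  have hGc : ((G : ℕ) : ℝ) = g1 * g := by rw [hG]; push_cast; ring
  have hGK : ((G : ℕ) : ℝ) ≤ K * X := by
    have h1 : (g1 / K) * g ≤ X := le_trans (by
      have : 0 ≤ (X1 + Q + 1) * g := by positivity
      linarith) hX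
    rw [hGc]
    have h2 := mul_le_mul_of_nonneg_left h1 hK0.le
    calc (g1:ℝ) * g = K * (g1 / K * g) := by field_simp
      _ ≤ _ := h2
  have hQX : Q * g ≤ X := le_trans (by
      have : 0 ≤ (X1 + g1 / K + 1) * g := by positivity
      linarith) hX
  have h1X : (g:ℝ) ≤ X := le_trans (by
      have : 0 ≤ (X1 + g1 / K + Q) * g := by positivity
      linarith) hX
  have hWfin : (wset F M c g1 g X).Finite :=
    (hset_finite hG0).subset (wset_subset_hset hF hs hs6 hg1 hg1M hgM hX0)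
  -- upper bound
  have hup : ((wset F M c g1 g X).ncard : ℝ) ≤ (bulk F M c g K X).ncard + δ / 3 * (X ^ 6 / g ^ 3) := by
    have hsub : wset F M c g1 g X ⊆ bulk F M c g K X ∪ {x ∈ hset G (s * X) | (K / s) * (s * X) ≤ ‖x‖} := by
      intro x hx
      by_cases hxK : ‖x‖ ≤ K * X
      · exact Or.inl ⟨⟨hxK, hx.2.2.1, hx.2.2.2.2⟩, hx.1, hx.2.1⟩
      · right
        refine ⟨wset_subset_hset hF hs hs6 hg1 hg1M hgM hX0 hx, ?_⟩
        have e : K / s * (s * X) = K * X := by field_simp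
        rw [e]
        exact (not_le.1 hxK).le
    have h1 := Set.ncard_le_ncard hsub (((boxSet_finite F K X).subset fun x hx => hx.1).union
      ((hset_finite hG0).subset fun x hx => hx.1))
    have h2 := h1.trans (Set.ncard_union_le _ _)
    have h3 : ((wset F M c g1 g X).ncard : ℝ) ≤ ((bulk F M c g K X).ncard : ℝ) +
        (({x ∈ hset G (s * X) | (K / s) * (s * X) ≤ ‖x‖}.ncard : ℕ) : ℝ) := by exact_mod_cast h2
    have h4 := hset_cusp hG0 (X := s * X) (K := K / s) (by positivity) ((one_le_div hs).2 hKs)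
    have h5 : 640000000 * (1 / (K / s) ^ 2) * ((s * X) ^ 6 / ((G:ℕ):ℝ) ^ 3) ≤
        δ / 3 * (X ^ 6 / g ^ 3) := by
      have e : 640000000 * (1 / (K / s) ^ 2) * ((s * X) ^ 6 / ((G:ℕ):ℝ) ^ 3) =
          (640000000 * (s ^ 8 / K ^ 2)) * (X ^ 6 / ((G:ℕ):ℝ) ^ 3) := by
        field_simp
      rw [e]
      apply mul_le_mul hK _ (by positivity) (by positivity)
      apply div_le_div_of_nonneg_left (by positivity) (by positivity)
      apply pow_le_pow_left₀ (by positivity)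
      rw [hGc]
      nlinarith
    linarith
  -- lower bound
  have hlo : ((bulk F M c g K X).ncard : ℝ) ≤ (wset F M c g1 g X).ncard + δ / 3 * (X ^ 6 / g ^ 3) := by
    have hsub : bulk F M c g K X ⊆ wset F M c g1 g X ∪
        {x : Fin 6 → ℤ | red G x ∈ cl (ZMod G) ∧ x ≠ 0 ∧ ‖x‖ ≤ K * X ∧ ‖adj x‖ ≤ G * ‖x‖} := by
      rintro x ⟨⟨h1, h2, h3⟩, h4, h5⟩
      by_cases hxG : ((G:ℕ):ℝ) * ‖x‖ ≤ ‖adj x‖
      · exact Or.inl ⟨h4, h5, h2, hxG, h3⟩
      · right
        have h6 : red g1 x ∈ cl (ZMod g1) := by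
          rw [red_of_dvd hg1M h4]; exact hg1
        exact ⟨inCl_mul (Nat.Coprime.coprime_dvd_left hg1M hgM.symm) h6 h5,
          ne_zero_of_adj (adj_ne_zero_of_dt_pos h2), h1, (not_le.1 hxG).le⟩
    have h1 := Set.ncard_le_ncard hsub (hWfin.union ((finite_ball (K * X)).subset fun x hx => hx.2.2.1))
    have h2 := h1.trans (Set.ncard_union_le _ _)
    have h3 : ((bulk F M c g K X).ncard : ℝ) ≤ ((wset F M c g1 g X).ncard : ℝ) +
        (({x : Fin 6 → ℤ | red G x ∈ cl (ZMod G) ∧ x ≠ 0 ∧ ‖x‖ ≤ K * X ∧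
          ‖adj x‖ ≤ G * ‖x‖}.ncard : ℕ) : ℝ) := by exact_mod_cast h2
    have h4 := small_count hG0 hGK
    have h5 : 2000000000 * (K * X) ^ 3 ≤ δ / 3 * (X ^ 6 / g ^ 3) := by
      have h6 : Q * g ^ 3 ≤ X ^ 3 := by
        have h7 : (g:ℝ) ^ 2 ≤ X ^ 2 := pow_le_pow_left₀ (by positivity) h1X 2
        calc Q * (g:ℝ) ^ 3 = (Q * g) * g ^ 2 := by ring
          _ ≤ X * X ^ 2 := mul_le_mul hQX h7 (by positivity) hX0.le
          _ = X ^ 3 := by ring
      rw [hQ, div_mul_eq_mul_div, div_le_iff₀ hδ] at h6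
      rw [← mul_div_assoc, le_div_iff₀ (by positivity)]
      have h8 : 0 < X ^ 3 := by positivity
      nlinarith
    linarith
  rw [abs_le] at hb ⊢
  constructor <;> linarith [hb.1, hb.2]

end Pool.Agent.Lib.MP_1acd66_nt.Conic
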