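import Pool.Agent.Lib.MP_1acd66_nt.Conic.Harm
import Pool.Agent.Lib.MP_1acd66_nt.Conic.Wcount

/-! Summation over the modulus. -/

set_option linter.unusedSectionVars false

open MeasureTheory Metric Set Filter Topology

namespace Pool.Agent.Lib.MP_1acd66_nt.Conic

/-- the height region with bound `T` for the real height, in classes -/
def tset (F : (Fin 6 → ℝ) → ℝ) (M : ℕ) (c : Fin 6 → ℤ) (g1 g : ℕ) (T : ℝ) : Set (Fin 6 → ℤ) :=
  {x | red M x = red M c ∧ red g x ∈ cl (ZMod g) ∧ 0 < dt x ∧ ((g1 * g : ℕ) : ℝ) * ‖x‖ ≤ ‖adj x‖ ∧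
    F (castR x) ≤ T}

theorem exists_root {T : ℝ} (hT : 0 < T) : ∃ X : ℝ, 0 < X ∧ X ^ 6 = T := by
  refine ⟨T ^ ((1:ℝ) / 6), by positivity, ?_⟩
  rw [← Real.rpow_natCast, ← Real.rpow_mul hT.le]
  norm_num

theorem rpow_quarter {T : ℝ} (hT : 0 ≤ T) : (T ^ ((1:ℝ) / 4)) ^ 4 = T := by
  rw [← Real.rpow_natCast, ← Real.rpow_mul hT]
  norm_num

variable {F : (Fin 6 → ℝ) → ℝ} {f0 f1 : ℝ}

theorem tset_bound (hF : RealF F f0 f1) {s : ℝ} (hs : 0 < s) (hs6 : s ^ 6 * f0 = 1) {M : ℕ}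
    {c : Fin 6 → ℤ} {g1 g : ℕ} (hg10 : 0 < g1) (hg0 : 0 < g) (hg1 : red g1 c ∈ cl (ZMod g1))
    (hg1M : g1 ∣ M) (hgM : g.Coprime M) {A : ℝ} (hA : 0 < A) :
    (tset F M c g1 g (A * g ^ 2)).Finite ∧
    ((tset F M c g1 g (A * g ^ 2)).ncard : ℝ) ≤ 640000000 * s ^ 6 * (A / g) ∧
      (16 * s ^ 6 * A < (g:ℝ) ^ 4 → tset F M c g1 g (A * g ^ 2) = ∅) := by
  have hg' : (0:ℝ) < g := by exact_mod_cast hg0
  have hg1' : (1:ℝ) ≤ g1 := by exact_mod_cast hg10
  obtain ⟨X, hX, hX6⟩ := exists_root (show 0 < A * (g:ℝ) ^ 2 by positivity)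
  have hsub : tset F M c g1 g (A * g ^ 2) ⊆ hset (g1 * g) (s * X) := by
    have := wset_subset_hset hF hs hs6 hg1 hg1M hgM hX
    rw [← hX6]
    exact this
  have hG : 0 < g1 * g := Nat.mul_pos hg10 hg0
  have hGc : ((g1 * g : ℕ) : ℝ) = g1 * g := by push_cast; ring
  have hGg : (g:ℝ) ≤ ((g1 * g : ℕ) : ℝ) := by rw [hGc]; nlinarith
  refine ⟨(hset_finite hG).subset hsub, ?_, ?_⟩
  · have h1 := Nat.cast_le (α := ℝ).2 (Set.ncard_le_ncard hsub (hset_finite hG))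
    have h2 := hset_count hG (X := s * X) (by positivity)
    refine (h1.trans h2).trans ?_
    rw [mul_pow, hX6]
    have h3 : s ^ 6 * (A * (g:ℝ) ^ 2) / ((g1 * g : ℕ) : ℝ) ^ 3 ≤ s ^ 6 * (A * (g:ℝ) ^ 2) / (g:ℝ) ^ 3 := by
      apply div_le_div_of_nonneg_left (by positivity) (by positivity)
      exact pow_le_pow_left₀ hg'.le hGg 3
    calc 640000000 * (s ^ 6 * (A * (g:ℝ) ^ 2) / ((g1 * g : ℕ) : ℝ) ^ 3)
        ≤ 640000000 * (s ^ 6 * (A * (g:ℝ) ^ 2) / (g:ℝ) ^ 3) :=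
          mul_le_mul_of_nonneg_left h3 (by norm_num)
      _ = 640000000 * s ^ 6 * (A / g) := by field_simp
  · intro h
    have h4 : hset (g1 * g) (s * X) = ∅ := by
      refine hset_eq_zero hG ?_
      have h5 : (4 * (s * X) ^ 3) ^ 2 < (((g1 * g : ℕ) : ℝ) ^ 3) ^ 2 := by
        have e : (4 * (s * X) ^ 3) ^ 2 = 16 * s ^ 6 * A * (g:ℝ) ^ 2 := by
          calc (4 * (s * X) ^ 3) ^ 2 = 16 * s ^ 6 * X ^ 6 := by ring
            _ = _ := by rw [hX6]; ring
        rw [e]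
        have h6 : 16 * s ^ 6 * A * (g:ℝ) ^ 2 < (g:ℝ) ^ 4 * (g:ℝ) ^ 2 :=
          mul_lt_mul_of_pos_right h (by positivity)
        have h7 : ((g:ℝ) ^ 3) ^ 2 ≤ (((g1 * g : ℕ) : ℝ) ^ 3) ^ 2 := by
          apply pow_le_pow_left₀ (by positivity)
          exact pow_le_pow_left₀ hg'.le hGg 3
        calc _ < (g:ℝ) ^ 4 * (g:ℝ) ^ 2 := h6
          _ = ((g:ℝ) ^ 3) ^ 2 := by ring
          _ ≤ _ := h7
      exact lt_of_pow_lt_pow_left₀ 2 (by positivity) h5
    exact Set.subset_eq_empty hsub h4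

set_option maxHeartbeats 4000000 in
theorem sumC (hF : RealF F f0 f1) {M : ℕ} (hM : 0 < M) {c : Fin 6 → ℤ} {g1 : ℕ} (hg10 : 0 < g1)
    (hg1 : red g1 c ∈ cl (ZMod g1)) (hg1M : g1 ∣ M) {P : ℕ} (hP : 1 ≤ P)
    (hPM : ∀ p, p.Prime → p ≤ P → p ∣ M) :
    ∃ κ0 : ℝ, 0 < κ0 ∧ ∀ δ : ℝ, 0 < δ →
    ∃ κ : ℝ, κ0 ≤ κ ∧ ∀ θ : ℝ, 0 < θ → ∀ᶠ B : ℝ in atTop,
      (∀ N : ℕ, ∑ g ∈ (Finset.Icc 1 N).filter (fun g => g.Coprime M),
        ((tset F M c g1 g (θ * B * g ^ 2)).ncard : ℝ) ≤ (κ + δ) * θ * (B * Real.log B)) ∧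
      (∀ N : ℕ, B ≤ N → ((P:ℝ) / (P + 1) * κ - δ) * θ * (B * Real.log B) ≤
        ∑ g ∈ (Finset.Icc 1 N).filter (fun g => g.Coprime M),
        ((tset F M c g1 g (θ * B * g ^ 2)).ncard : ℝ)) := by
  classical
  obtain ⟨s, hs, hs6⟩ := exists_scale hF.pos
  obtain ⟨v0, hv0, hWW⟩ := W_asymp hF hM hg10 hg1 hg1M
  set lam : ℝ := (M.totient : ℝ) / M with hlam
  have hM' : (0:ℝ) < M := by exact_mod_cast hM
  have hlam0 : 0 < lam := by
    have := Nat.totient_pos.2 hM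
    positivity
  have hlam1 : lam ≤ 1 := by
    rw [hlam, div_le_one hM']
    exact_mod_cast Nat.totient_le M
  have hP0 : (0:ℝ) < P := by exact_mod_cast hP
  set ρ : ℝ := (P:ℝ) / (P + 1) with hρ
  have hρ0 : 0 < ρ := by positivity
  refine ⟨v0 * lam / 4, by positivity, ?_⟩
  intro δ hδ
  obtain ⟨v, X0, hv0v, hX0, hW⟩ := hWW (δ / 2) (by positivity)
  have hv : 0 < v := by linarith
  refine ⟨v * lam / 4, by
    have := mul_le_mul_of_nonneg_right hv0v hlam0.le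
    linarith, ?_⟩
  intro θ hθ
  set c1 : ℝ := (θ / X0 ^ 6) ^ ((1:ℝ) / 4) with hc1
  have hc10 : 0 < c1 := by positivity
  have hc14 : c1 ^ 4 = θ / X0 ^ 6 := rpow_quarter (by positivity)
  set c2 : ℝ := (16 * s ^ 6 * θ) ^ ((1:ℝ) / 4) with hc2
  have hc20 : 0 < c2 := by positivity
  have hc24 : c2 ^ 4 = 16 * s ^ 6 * θ := rpow_quarter (by positivity)
  set C3 : ℝ := c2 * (640000000 * s ^ 6 * θ) / c1 with hC3
  have hts := tendsto_hsum hM hc10
  have hlog : Tendsto (fun B : ℝ => Real.log B) atTop atTop := Real.tendsto_log_atTop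
  have l1 : Tendsto (fun B : ℝ => (v + δ / 2) * θ * (hsum M ⌊c1 * B ^ ((1:ℝ) / 4)⌋₊ / Real.log B) +
      C3 / Real.log B) atTop (𝓝 ((v + δ / 2) * θ * (lam * (1 / 4)) + 0)) :=
    (hts.const_mul _).add (hlog.const_div_atTop _)
  have l2 : Tendsto (fun B : ℝ => (ρ * v - δ / 2) * θ * (hsum M ⌊c1 * B ^ ((1:ℝ) / 4)⌋₊ / Real.log B))
      atTop (𝓝 ((ρ * v - δ / 2) * θ * (lam * (1 / 4)))) := hts.const_mul _
  have u1 : (v + δ / 2) * θ * (lam * (1 / 4)) + 0 < (v * lam / 4 + δ) * θ := by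
    have : δ / 2 * (lam * (1 / 4)) < δ := by nlinarith
    nlinarith
  have u2 : (ρ * (v * lam / 4) - δ) * θ < (ρ * v - δ / 2) * θ * (lam * (1 / 4)) := by
    have : δ / 2 * (lam * (1 / 4)) < δ := by nlinarith
    nlinarith
  have hB4 : ∀ᶠ B : ℝ in atTop, c1 * B ^ ((1:ℝ) / 4) ≤ B := by
    have h1 : Tendsto (fun B : ℝ => B ^ ((3:ℝ) / 4)) atTop atTop := tendsto_rpow_atTop (by norm_num)
    filter_upwards [h1.eventually_ge_atTop c1, eventually_gt_atTop (0:ℝ)] with B h2 h3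
    have e : B = B ^ ((3:ℝ) / 4) * B ^ ((1:ℝ) / 4) := by
      rw [← Real.rpow_add h3]; norm_num
    conv_rhs => rw [e]
    exact mul_le_mul_of_nonneg_right h2 (by positivity)
  filter_upwards [eventually_gt_atTop (1:ℝ), (tendsto_order.1 l1).2 _ u1, (tendsto_order.1 l2).1 _ u2,
    hB4] with B hB1 hup hlo hB4
  have hB0 : 0 < B := by linarith
  have hlB : 0 < Real.log B := Real.log_pos hB1
  set N1 : ℕ := ⌊c1 * B ^ ((1:ℝ) / 4)⌋₊ with hN1
  have hBq : 0 < B ^ ((1:ℝ) / 4) := by positivity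
  have hBq4 : (B ^ ((1:ℝ) / 4)) ^ 4 = B := rpow_quarter hB0.le
  have hmain : ∀ g : ℕ, 0 < g → g ≤ N1 → g.Coprime M →
      |((tset F M c g1 g (θ * B * g ^ 2)).ncard : ℝ) - v * (cl (ZMod g)).ncard * (θ * B / g ^ 4)| ≤
        δ / 2 * (θ * B / g) := by
    intro g hg hgN hgM
    have hg' : (0:ℝ) < g := by exact_mod_cast hg
    obtain ⟨X, hX, hX6⟩ := exists_root (show 0 < θ * B * (g:ℝ) ^ 2 by positivity)
    have hgle : (g:ℝ) ≤ c1 * B ^ ((1:ℝ) / 4) := by
      calc (g:ℝ) ≤ N1 := by exact_mod_cast hgN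
        _ ≤ _ := Nat.floor_le (by positivity)
    have hXg : X0 * g ≤ X := by
      have h4 : (g:ℝ) ^ 4 ≤ θ / X0 ^ 6 * B := by
        have := pow_le_pow_left₀ hg'.le hgle 4
        rwa [mul_pow, hc14, hBq4] at this
      have h5 : (X0 * g) ^ 6 ≤ X ^ 6 := by
        rw [hX6]
        calc (X0 * g) ^ 6 = X0 ^ 6 * (g:ℝ) ^ 2 * (g:ℝ) ^ 4 := by ring
          _ ≤ X0 ^ 6 * (g:ℝ) ^ 2 * (θ / X0 ^ 6 * B) := mul_le_mul_of_nonneg_left h4 (by positivity)
          _ = θ * B * (g:ℝ) ^ 2 := by field_simp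
      exact le_of_pow_le_pow_left₀ (by norm_num) hX.le h5
    have h6 := hW g hg hgM X hXg
    have e1 : X ^ 6 / (g:ℝ) ^ 6 = θ * B / g ^ 4 := by rw [hX6]; field_simp
    have e2 : X ^ 6 / (g:ℝ) ^ 3 = θ * B / g := by rw [hX6]; field_simp
    rw [e1, e2] at h6
    have e3 : tset F M c g1 g (θ * B * g ^ 2) = wset F M c g1 g X := by
      rw [← hX6]; rfl
    rw [e3]
    exact h6
  constructor
  · intro N
    have hsplit : ∑ g ∈ (Finset.Icc 1 N).filter (fun g => g.Coprime M),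
        ((tset F M c g1 g (θ * B * g ^ 2)).ncard : ℝ) ≤
        ∑ g ∈ (Finset.Icc 1 N1).filter (fun g => g.Coprime M),
          ((tset F M c g1 g (θ * B * g ^ 2)).ncard : ℝ) +
        ∑ g ∈ (Finset.Icc (N1 + 1) ⌊c2 * B ^ ((1:ℝ) / 4)⌋₊).filter (fun g => g.Coprime M),
          ((tset F M c g1 g (θ * B * g ^ 2)).ncard : ℝ) := by
      rw [← Finset.sum_union (Finset.disjoint_filter_filter (by
        rw [Finset.disjoint_left]
        intro g h1 h2
        rw [Finset.mem_Icc] at h1 h2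
        omega))]
      have hzero : ∑ g ∈ (Finset.Icc 1 N).filter (fun g => g.Coprime M),
          ((tset F M c g1 g (θ * B * g ^ 2)).ncard : ℝ) =
          ∑ g ∈ ((Finset.Icc 1 N).filter (fun g => g.Coprime M)).filter
            (fun g : ℕ => (g:ℝ) ≤ c2 * B ^ ((1:ℝ) / 4)), ((tset F M c g1 g (θ * B * g ^ 2)).ncard : ℝ) := by
        symm
        refine Finset.sum_filter_of_ne fun g hg hne => ?_
        rw [Finset.mem_filter, Finset.mem_Icc] at hg
        by_contra hcon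
        push Not at hcon
        apply hne
        have h1 := (tset_bound hF hs hs6 hg10 (by omega) hg1 hg1M hg.2 (A := θ * B)
          (by positivity)).2.2 (by
            have := pow_lt_pow_left₀ hcon (by positivity) (show (4:ℕ) ≠ 0 by norm_num)
            rw [mul_pow, hc24, hBq4] at this
            linarith)
        rw [h1, Set.ncard_empty, Nat.cast_zero]
      rw [hzero]
      refine Finset.sum_le_sum_of_subset_of_nonneg ?_ (fun _ _ _ => Nat.cast_nonneg _)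
      intro g hg
      rw [Finset.mem_filter, Finset.mem_filter, Finset.mem_Icc] at hg
      have h2 : g ≤ ⌊c2 * B ^ ((1:ℝ) / 4)⌋₊ := Nat.le_floor hg.2
      rw [Finset.mem_union, Finset.mem_filter, Finset.mem_filter, Finset.mem_Icc, Finset.mem_Icc]
      by_cases h3 : g ≤ N1
      · exact Or.inl ⟨⟨hg.1.1.1, h3⟩, hg.1.2⟩
      · exact Or.inr ⟨⟨by omega, h2⟩, hg.1.2⟩
    have hfirst : ∑ g ∈ (Finset.Icc 1 N1).filter (fun g => g.Coprime M),
        ((tset F M c g1 g (θ * B * g ^ 2)).ncard : ℝ) ≤ (v + δ / 2) * θ * B * hsum M N1 := by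
      rw [Conic.hsum, Finset.mul_sum]
      refine Finset.sum_le_sum fun g hg => ?_
      rw [Finset.mem_filter, Finset.mem_Icc] at hg
      have hg0 : 0 < g := by omega
      have hg' : (0:ℝ) < g := by exact_mod_cast hg0
      have h1 := (abs_le.1 (hmain g hg0 hg.1.2 hg.2)).2
      have h2 : ((cl (ZMod g)).ncard : ℝ) ≤ g ^ 3 := by exact_mod_cast ncard_cl_le g hg0
      have h3 : v * (cl (ZMod g)).ncard * (θ * B / g ^ 4) ≤ v * g ^ 3 * (θ * B / g ^ 4) := by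
        apply mul_le_mul_of_nonneg_right _ (by positivity)
        exact mul_le_mul_of_nonneg_left h2 hv.le
      have e : v * (g:ℝ) ^ 3 * (θ * B / g ^ 4) = v * (θ * B / g) := by field_simp
      rw [e] at h3
      have e2 : (v + δ / 2) * θ * B * (1 / (g:ℝ)) = v * (θ * B / g) + δ / 2 * (θ * B / g) := by ring
      rw [e2]
      linarith
    have hsecond : ∑ g ∈ (Finset.Icc (N1 + 1) ⌊c2 * B ^ ((1:ℝ) / 4)⌋₊).filter (fun g => g.Coprime M),
          ((tset F M c g1 g (θ * B * g ^ 2)).ncard : ℝ) ≤ C3 * B := by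
      have h1 : ∀ g ∈ (Finset.Icc (N1 + 1) ⌊c2 * B ^ ((1:ℝ) / 4)⌋₊).filter (fun g => g.Coprime M),
          ((tset F M c g1 g (θ * B * g ^ 2)).ncard : ℝ) ≤
            640000000 * s ^ 6 * (θ * B / (c1 * B ^ ((1:ℝ) / 4))) := by
        intro g hg
        rw [Finset.mem_filter, Finset.mem_Icc] at hg
        have hg0 : 0 < g := by omega
        refine ((tset_bound hF hs hs6 hg10 hg0 hg1 hg1M hg.2 (A := θ * B)
          (by positivity)).2.1).trans ?_
        apply mul_le_mul_of_nonneg_left _ (by positivity)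
        apply div_le_div_of_nonneg_left (by positivity) (by positivity)
        have h2 := Nat.lt_floor_add_one (c1 * B ^ ((1:ℝ) / 4))
        have h3 : ((N1 + 1 : ℕ) : ℝ) ≤ g := by exact_mod_cast hg.1.1
        push_cast at h3
        linarith
      refine (Finset.sum_le_card_nsmul _ _ _ h1).trans ?_
      rw [nsmul_eq_mul]
      have h4 : (((Finset.Icc (N1 + 1) ⌊c2 * B ^ ((1:ℝ) / 4)⌋₊).filter
          (fun g => g.Coprime M)).card : ℝ) ≤ c2 * B ^ ((1:ℝ) / 4) := by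
        have h5 : ((Finset.Icc (N1 + 1) ⌊c2 * B ^ ((1:ℝ) / 4)⌋₊).filter
          (fun g => g.Coprime M)).card ≤ ⌊c2 * B ^ ((1:ℝ) / 4)⌋₊ := by
          refine (Finset.card_filter_le _ _).trans ?_
          rw [Nat.card_Icc]
          omega
        calc _ ≤ ((⌊c2 * B ^ ((1:ℝ) / 4)⌋₊ : ℕ) : ℝ) := by exact_mod_cast h5
          _ ≤ _ := Nat.floor_le (by positivity)
      refine (mul_le_mul_of_nonneg_right h4 (by positivity)).trans (le_of_eq ?_)
      rw [hC3]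
      field_simp
    have hfin : (v + δ / 2) * θ * B * hsum M N1 + C3 * B ≤ (v * lam / 4 + δ) * θ * (B * Real.log B) := by
      have h1 := hup.le
      have e : (v + δ / 2) * θ * B * hsum M N1 + C3 * B =
          ((v + δ / 2) * θ * (hsum M N1 / Real.log B) + C3 / Real.log B) * (B * Real.log B) := by
        field_simp
      rw [e]
      exact mul_le_mul_of_nonneg_right h1 (by positivity)
    linarith
  · intro N hN
    have hN1N : N1 ≤ N := by
      have h1 : (N1:ℝ) ≤ N := ((Nat.floor_le (by positivity)).trans hB4).trans hN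
      exact_mod_cast h1
    have h1 : (ρ * v - δ / 2) * θ * B * hsum M N1 ≤ ∑ g ∈ (Finset.Icc 1 N1).filter (fun g => g.Coprime M),
        ((tset F M c g1 g (θ * B * g ^ 2)).ncard : ℝ) := by
      rw [Conic.hsum, Finset.mul_sum]
      refine Finset.sum_le_sum fun g hg => ?_
      rw [Finset.mem_filter, Finset.mem_Icc] at hg
      have hg0 : 0 < g := by omega
      have hg' : (0:ℝ) < g := by exact_mod_cast hg0
      have h1 := (abs_le.1 (hmain g hg0 hg.1.2 hg.2)).1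
      have h2 : ρ * (g:ℝ) ^ 3 ≤ (cl (ZMod g)).ncard := by
        refine ncard_cl_ge hP hg0 ?_
        intro p hp hpg
        by_contra hcon
        push Not at hcon
        have h3 := Nat.dvd_gcd hpg (hPM p hp hcon)
        rw [hg.2] at h3
        exact hp.one_lt.ne' (Nat.dvd_one.1 h3)
      have h3 : v * (ρ * (g:ℝ) ^ 3) * (θ * B / g ^ 4) ≤ v * (cl (ZMod g)).ncard * (θ * B / g ^ 4) := by
        apply mul_le_mul_of_nonneg_right _ (by positivity)
        exact mul_le_mul_of_nonneg_left h2 hv.le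
      have e : v * (ρ * (g:ℝ) ^ 3) * (θ * B / g ^ 4) = ρ * v * (θ * B / g) := by field_simp
      rw [e] at h3
      have e2 : (ρ * v - δ / 2) * θ * B * (1 / (g:ℝ)) =
          ρ * v * (θ * B / g) - δ / 2 * (θ * B / g) := by ring
      rw [e2]
      linarith
    have h2 : ∑ g ∈ (Finset.Icc 1 N1).filter (fun g => g.Coprime M),
        ((tset F M c g1 g (θ * B * g ^ 2)).ncard : ℝ) ≤
        ∑ g ∈ (Finset.Icc 1 N).filter (fun g => g.Coprime M),
        ((tset F M c g1 g (θ * B * g ^ 2)).ncard : ℝ) := by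
      refine Finset.sum_le_sum_of_subset_of_nonneg ?_ (fun _ _ _ => Nat.cast_nonneg _)
      exact Finset.filter_subset_filter _ (Finset.Icc_subset_Icc_right hN1N)
    have h3 : (ρ * (v * lam / 4) - δ) * θ * (B * Real.log B) ≤ (ρ * v - δ / 2) * θ * B * hsum M N1 := by
      have h1 := hlo.le
      have e : (ρ * v - δ / 2) * θ * B * hsum M N1 =
          ((ρ * v - δ / 2) * θ * (hsum M N1 / Real.log B)) * (B * Real.log B) := by
        field_simp
      rw [e]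
      exact mul_le_mul_of_nonneg_right h1 (by positivity)
    linarith

end Pool.Agent.Lib.MP_1acd66_nt.Conic
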