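import Pool.Agent.Lib.MP_1acd66_nt.Conic.HeightF
import Pool.Agent.Lib.MP_1acd66_nt.Conic.SumC

/-! The a priori upper bound. -/

set_option linter.unusedSectionVars false

open Metric Set Filter Topology

namespace Pool.Agent.Lib.MP_1acd66_nt.Conic

/-- the region used for all upper bounds -/
def hs (g : ℕ) (a : ℝ) : Set (Fin 6 → ℤ) :=
  {x | red g x ∈ cl (ZMod g) ∧ x ≠ 0 ∧ g * ‖x‖ ≤ ‖adj x‖ ∧ (‖x‖ * ‖adj x‖) ^ 2 ≤ a * g ^ 2}

theorem hs_bound {g : ℕ} (hg : 0 < g) {a : ℝ} (ha : 0 < a) :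
    (hs g a).Finite ∧ ((hs g a).ncard : ℝ) ≤ 640000000 * (a / g) ∧
      (16 * a < (g:ℝ) ^ 4 → hs g a = ∅) := by
  have hg' : (0:ℝ) < g := by exact_mod_cast hg
  obtain ⟨X, hX, hX6⟩ := exists_root (show 0 < a * (g:ℝ) ^ 2 by positivity)
  have hsub : hs g a ⊆ hset g X := by
    rintro x ⟨h1, h2, h3, h4⟩
    refine ⟨h1, h2, h3, ?_⟩
    rw [← hX6] at h4
    have : (‖x‖ * ‖adj x‖) ^ 2 ≤ (X ^ 3) ^ 2 := by rw [← pow_mul]; exact h4
    exact le_of_pow_le_pow_left₀ two_ne_zero (by positivity) this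
  refine ⟨(hset_finite hg).subset hsub, ?_, ?_⟩
  · have h1 := Nat.cast_le (α := ℝ).2 (Set.ncard_le_ncard hsub (hset_finite hg))
    have h2 := hset_count hg hX
    refine (h1.trans h2).trans (le_of_eq ?_)
    rw [hX6]
    field_simp
  · intro h
    refine Set.subset_eq_empty hsub (hset_eq_zero hg ?_)
    have h5 : (4 * X ^ 3) ^ 2 < ((g:ℝ) ^ 3) ^ 2 := by
      have e : (4 * X ^ 3) ^ 2 = 16 * a * (g:ℝ) ^ 2 := by
        calc (4 * X ^ 3) ^ 2 = 16 * X ^ 6 := by ring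
          _ = _ := by rw [hX6]; ring
      rw [e]
      calc 16 * a * (g:ℝ) ^ 2 < (g:ℝ) ^ 4 * (g:ℝ) ^ 2 := mul_lt_mul_of_pos_right h (by positivity)
        _ = _ := by ring
    exact lt_of_pow_lt_pow_left₀ 2 (by positivity) h5

theorem log_two_add_pos {a : ℝ} (ha : 0 < a) : 1 / 2 < Real.log (2 + a) := by
  have h1 := Real.log_two_gt_d9
  have h2 : Real.log 2 < Real.log (2 + a) := Real.log_lt_log (by norm_num) (by linarith)
  linarith

theorem harmonic_sum_le (N : ℕ) {a : ℝ} (ha : 0 < a) :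
    ∑ g ∈ (Finset.Icc 1 N).filter (fun g : ℕ => (g:ℝ) ^ 4 ≤ 16 * a), 1 / (g:ℝ) ≤
      10 * Real.log (2 + a) := by
  have hl := log_two_add_pos ha
  by_cases h16 : 16 * a < 1
  · have : (Finset.Icc 1 N).filter (fun g : ℕ => (g:ℝ) ^ 4 ≤ 16 * a) = ∅ := by
      rw [Finset.filter_eq_empty_iff]
      intro g hg
      rw [Finset.mem_Icc] at hg
      have h1 : (1:ℝ) ≤ g := by exact_mod_cast hg.1
      have h2 : (1:ℝ) ≤ (g:ℝ) ^ 4 := one_le_pow₀ h1
      linarith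
    rw [this, Finset.sum_empty]
    linarith
  · push Not at h16
    have hsub : (Finset.Icc 1 N).filter (fun g : ℕ => (g:ℝ) ^ 4 ≤ 16 * a) ⊆
        Finset.Icc 1 ⌊16 * a⌋₊ := by
      intro g hg
      rw [Finset.mem_filter, Finset.mem_Icc] at hg
      rw [Finset.mem_Icc]
      refine ⟨hg.1.1, Nat.le_floor ?_⟩
      have h1 : (1:ℝ) ≤ g := by exact_mod_cast hg.1.1
      refine le_trans ?_ hg.2
      exact le_self_pow₀ h1 (by norm_num)
    have h1 : ∑ g ∈ (Finset.Icc 1 N).filter (fun g : ℕ => (g:ℝ) ^ 4 ≤ 16 * a), 1 / (g:ℝ) ≤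
        ∑ g ∈ Finset.Icc 1 ⌊16 * a⌋₊, 1 / (g:ℝ) :=
      Finset.sum_le_sum_of_subset_of_nonneg hsub fun _ _ _ => by positivity
    have h2 := harmonic_le_one_add_log ⌊16 * a⌋₊
    have h3 : ∑ g ∈ Finset.Icc 1 ⌊16 * a⌋₊, 1 / (g:ℝ) = ((harmonic ⌊16 * a⌋₊ : ℚ) : ℝ) := by
      rw [harmonic_eq_sum_Icc]
      push_cast
      refine Finset.sum_congr rfl fun g _ => one_div _
    have h4 : Real.log (⌊16 * a⌋₊ : ℝ) ≤ Real.log (16 * a) := by
      apply Real.log_le_log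
      · have : 1 ≤ ⌊16 * a⌋₊ := Nat.le_floor (by exact_mod_cast h16)
        exact_mod_cast this
      · exact Nat.floor_le (by linarith)
    have h5 : Real.log (16 * a) ≤ Real.log 16 + Real.log (2 + a) := by
      rw [← Real.log_mul (by norm_num) (by linarith)]
      exact Real.log_le_log (by linarith) (by linarith)
    have h6 : Real.log 16 = 4 * Real.log 2 := by
      have : (16:ℝ) = 2 ^ 4 := by norm_num
      rw [this, Real.log_pow]
      norm_num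
    have h7 : Real.log 2 ≤ Real.log (2 + a) := Real.log_le_log (by norm_num) (by linarith)
    linarith

theorem hs_sum {a : ℝ} (ha : 0 < a) (N : ℕ) :
    ∑ g ∈ Finset.Icc 1 N, ((hs g a).ncard : ℝ) ≤ 6400000000 * (a * Real.log (2 + a)) := by
  have h1 : ∑ g ∈ Finset.Icc 1 N, ((hs g a).ncard : ℝ) =
      ∑ g ∈ (Finset.Icc 1 N).filter (fun g : ℕ => (g:ℝ) ^ 4 ≤ 16 * a), ((hs g a).ncard : ℝ) := by
    symm
    refine Finset.sum_filter_of_ne fun g hg hne => ?_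
    rw [Finset.mem_Icc] at hg
    by_contra hcon
    push Not at hcon
    apply hne
    rw [(hs_bound (by omega) ha).2.2 hcon, Set.ncard_empty, Nat.cast_zero]
  rw [h1]
  calc _ ≤ ∑ g ∈ (Finset.Icc 1 N).filter (fun g : ℕ => (g:ℝ) ^ 4 ≤ 16 * a),
        640000000 * a * (1 / (g:ℝ)) := by
        refine Finset.sum_le_sum fun g hg => ?_
        rw [Finset.mem_filter, Finset.mem_Icc] at hg
        refine ((hs_bound (by omega) ha).2.1).trans (le_of_eq (by ring))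
    _ = 640000000 * a * ∑ g ∈ (Finset.Icc 1 N).filter (fun g : ℕ => (g:ℝ) ^ 4 ≤ 16 * a),
        1 / (g:ℝ) := by rw [Finset.mul_sum]
    _ ≤ 640000000 * a * (10 * Real.log (2 + a)) :=
        mul_le_mul_of_nonneg_left (harmonic_sum_le N ha) (by positivity)
    _ = _ := by ring

theorem log_scale {q : ℝ} (hq : 0 < q) :
    ∃ C : ℝ, 0 < C ∧ ∀ B : ℝ, 0 < B → Real.log (2 + q * B) ≤ C * Real.log (2 + B) := by
  have hq1 : 1 ≤ max q 1 := le_max_right _ _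
  refine ⟨1 + 2 * Real.log (max q 1), ?_, ?_⟩
  · have := Real.log_nonneg hq1
    linarith
  · intro B hB
    have h1 := log_two_add_pos hB
    have h2 : Real.log (2 + q * B) ≤ Real.log (max q 1) + Real.log (2 + B) := by
      rw [← Real.log_mul (by positivity) (by positivity)]
      apply Real.log_le_log (by positivity)
      have h3 : q * B ≤ max q 1 * B := mul_le_mul_of_nonneg_right (le_max_left _ _) hB.le
      nlinarith
    have h4 := Real.log_nonneg hq1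
    nlinarith

/-- the two functions defining a height on integral vectors -/
structure Dat (F : (Fin 6 → ℝ) → ℝ) (Ψ : (Fin 6 → ℤ) → ℝ) (f0 f1 m0 m1 : ℝ) : Prop where
  real : RealF F f0 f1
  pos : 0 < m0
  le : m0 ≤ m1
  lo : ∀ x, adj x ≠ 0 → m0 ≤ Ψ x
  hi : ∀ x, adj x ≠ 0 → Ψ x ≤ m1

variable {F : (Fin 6 → ℝ) → ℝ} {Ψ : (Fin 6 → ℤ) → ℝ} {f0 f1 m0 m1 : ℝ}

/-- the height of a vector is comparable with the standard one -/
theorem Dat.prod_le (D : Dat F Ψ f0 f1 m0 m1) {x : Fin 6 → ℤ} (hx : adj x ≠ 0) {T : ℝ}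
    (h : F (castR x) * Ψ x ≤ T) : (‖x‖ * ‖adj x‖) ^ 2 ≤ T / (f0 * m0) := by
  have h1 := D.real.lo (castR x)
  rw [adj_castR, norm_castR, norm_castR] at h1
  have h2 := D.lo x hx
  have h3 := D.real.pos
  have h4 := D.pos
  rw [le_div_iff₀ (by positivity)]
  calc (‖x‖ * ‖adj x‖) ^ 2 * (f0 * m0) = (f0 * (‖x‖ * ‖adj x‖) ^ 2) * m0 := by ring
    _ ≤ F (castR x) * Ψ x := by
      apply mul_le_mul h1 h2 h4.le
      exact le_trans (by positivity) h1
    _ ≤ T := h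

/-- primitive vectors of height at most `B` on the first side -/
def AF (F : (Fin 6 → ℝ) → ℝ) (Ψ : (Fin 6 → ℤ) → ℝ) (B : ℝ) : Set (Fin 6 → ℤ) :=
  {x | Pos x ∧ F (castR x) * Ψ x ≤ B * (gc x : ℝ) ^ 2 ∧ (gc x : ℝ) * ‖x‖ ≤ ‖adj x‖}

theorem red_gc_mem {x : Fin 6 → ℤ} (h : Pos x) : red (gc x) x ∈ cl (ZMod (gc x)) := by
  rw [inCl_iff]
  exact ⟨dvd_rfl, by rw [h.prim]; exact Nat.coprime_one_left _⟩

theorem AF_mem_hs (D : Dat F Ψ f0 f1 m0 m1) {B : ℝ} {x : Fin 6 → ℤ} (hx : x ∈ AF F Ψ B) :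
    x ∈ hs (gc x) (B / (f0 * m0)) := by
  obtain ⟨h1, h2, h3⟩ := hx
  refine ⟨red_gc_mem h1, h1.ne_zero, h3, ?_⟩
  refine (D.prod_le h1.adj_ne_zero h2).trans (le_of_eq (by ring))

theorem AF_bound (D : Dat F Ψ f0 f1 m0 m1) {B : ℝ} (hB : 0 < B) :
    (AF F Ψ B).Finite ∧ ((AF F Ψ B).ncard : ℝ) ≤
      6400000000 * (B / (f0 * m0) * Real.log (2 + B / (f0 * m0))) ∧
      (16 * (B / (f0 * m0)) < 1 → AF F Ψ B = ∅) := by
  have hfm : 0 < f0 * m0 := mul_pos D.real.pos D.pos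
  set a := B / (f0 * m0) with ha
  have ha0 : 0 < a := by positivity
  have hgc : ∀ x ∈ AF F Ψ B, 0 < gc x ∧ ((gc x : ℕ) : ℝ) ^ 4 ≤ 16 * a := by
    intro x hx
    refine ⟨hx.1.gc_pos, ?_⟩
    by_contra hcon
    push Not at hcon
    have h1 := (hs_bound hx.1.gc_pos ha0).2.2 hcon
    have h2 := AF_mem_hs D hx
    rw [← ha, h1] at h2
    exact h2
  set N := ⌊16 * a⌋₊ with hN
  have hsub : AF F Ψ B ⊆ ⋃ g ∈ Finset.Icc 1 N, hs g a := by
    intro x hx
    obtain ⟨h1, h2⟩ := hgc x hx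
    simp only [Set.mem_iUnion, Finset.mem_Icc]
    refine ⟨gc x, ⟨h1, Nat.le_floor ?_⟩, AF_mem_hs D hx⟩
    have h3 : (1:ℝ) ≤ gc x := by exact_mod_cast h1
    exact le_trans (le_self_pow₀ h3 (by norm_num)) h2
  have hfin : (⋃ g ∈ Finset.Icc 1 N, hs g a).Finite := by
    refine Set.Finite.biUnion (Finset.finite_toSet _) fun g hg => ?_
    rw [Finset.mem_coe, Finset.mem_Icc] at hg
    exact (hs_bound (by omega) ha0).1
  refine ⟨hfin.subset hsub, ?_, ?_⟩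
  · have h1 := (Set.ncard_le_ncard hsub hfin).trans (Finset.set_ncard_biUnion_le _ _)
    have h2 : ((AF F Ψ B).ncard : ℝ) ≤ ∑ g ∈ Finset.Icc 1 N, ((hs g a).ncard : ℝ) := by
      exact_mod_cast h1
    exact h2.trans (hs_sum ha0 N)
  · intro h
    rw [Set.eq_empty_iff_forall_notMem]
    intro x hx
    obtain ⟨h1, h2⟩ := hgc x hx
    have h3 : (1:ℝ) ≤ gc x := by exact_mod_cast h1
    have h4 : (1:ℝ) ≤ (gc x : ℝ) ^ 4 := one_le_pow₀ h3
    linarith

/-- the data attached to an adelic norm -/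
theorem exists_dat (h : AdelicNorm) (S : Finset Nat.Primes) :
    ∃ f0 f1 m0 m1 : ℝ, Dat (realF h.inf) (psi h S) f0 f1 m0 m1 := by
  obtain ⟨f0, f1, hF⟩ := h.isNorm_inf.realF
  obtain ⟨m0, m1, hT⟩ := psi_tame h (m := ∏ p ∈ S, (p:ℕ)) S (fun p hp => Finset.dvd_prod_of_mem _ hp)
  exact ⟨f0, f1, m0, m1, hF, hT.pos, hT.le, hT.lo, hT.hi⟩

theorem hx_le_iff (h : AdelicNorm) (S : Finset Nat.Primes) {x : Fin 6 → ℤ} (hx : Pos x) (B : ℝ) :
    Conic.hx h S x ≤ B ↔ realF h.inf (castR x) * psi h S x ≤ B * (gc x : ℝ) ^ 2 := by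
  have h1 : (0:ℝ) < gc x := by exact_mod_cast hx.gc_pos
  rw [Conic.hx, div_le_iff₀ (by positivity)]

theorem norm_dual_le_iff {x : Fin 6 → ℤ} (hx : Pos x) :
    ‖x‖ ≤ ‖dual x‖ ↔ (gc x : ℝ) * ‖x‖ ≤ ‖adj x‖ := by
  have h1 : (0:ℝ) < gc x := by exact_mod_cast hx.gc_pos
  rw [← gc_mul_norm_dual x]
  exact (mul_le_mul_iff_right₀ h1).symm

theorem NU_split {h : AdelicNorm} {S : Finset Nat.Primes} (hS : Good h S) (B : ℝ) :
    NU h S B ⊆ AF (realF h.inf) (psi h S) B ∪ dual '' (AF (realF h.swap.inf) (psi h.swap S) B) := by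
  rintro x ⟨h1, h2⟩
  rcases le_total ‖x‖ ‖dual x‖ with h3 | h3
  · left
    exact ⟨h1, (hx_le_iff h S h1 B).1 h2, (norm_dual_le_iff h1).1 h3⟩
  · right
    refine ⟨dual x, ⟨h1.dual, ?_, ?_⟩, h1.dual_dual⟩
    · rw [← hx_le_iff h.swap S h1.dual, hx_dual hS h1]
      exact h2
    · rw [← norm_dual_le_iff h1.dual, h1.dual_dual]
      exact h3

theorem NU_bound {h : AdelicNorm} {S : Finset Nat.Primes} (hS : Good h S) :
    ∃ C b : ℝ, 0 < C ∧ 0 < b ∧ ∀ B : ℝ, 0 < B → (NU h S B).Finite ∧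
      ((NU h S B).ncard : ℝ) ≤ C * (B * Real.log (2 + B)) ∧ (B < b → NU h S B = ∅) := by
  obtain ⟨f0, f1, m0, m1, D⟩ := exists_dat h S
  obtain ⟨f0', f1', m0', m1', D'⟩ := exists_dat h.swap S
  have hfm : 0 < f0 * m0 := mul_pos D.real.pos D.pos
  have hfm' : 0 < f0' * m0' := mul_pos D'.real.pos D'.pos
  obtain ⟨C1, hC1, hC1b⟩ := log_scale (inv_pos.2 hfm)
  obtain ⟨C2, hC2, hC2b⟩ := log_scale (inv_pos.2 hfm')
  refine ⟨6400000000 * ((f0 * m0)⁻¹ * C1) + 6400000000 * ((f0' * m0')⁻¹ * C2),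
    min (f0 * m0 / 16) (f0' * m0' / 16), by positivity, by positivity, ?_⟩
  intro B hB
  obtain ⟨a1, a2, a3⟩ := AF_bound D hB
  obtain ⟨b1, b2, b3⟩ := AF_bound D' hB
  have hsub := NU_split hS B
  have hfin : (AF (realF h.inf) (psi h S) B ∪
    dual '' (AF (realF h.swap.inf) (psi h.swap S) B)).Finite := a1.union (b1.image _)
  refine ⟨hfin.subset hsub, ?_, ?_⟩
  · have h1 := (Set.ncard_le_ncard hsub hfin).trans ((Set.ncard_union_le _ _).trans
      (Nat.add_le_add_left (Set.ncard_image_le b1) _))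
    have h2 : ((NU h S B).ncard : ℝ) ≤ ((AF (realF h.inf) (psi h S) B).ncard : ℝ) +
      ((AF (realF h.swap.inf) (psi h.swap S) B).ncard : ℝ) := by exact_mod_cast h1
    have h3 := hC1b B hB
    have h4 := hC2b B hB
    have e1 : B / (f0 * m0) = (f0 * m0)⁻¹ * B := by ring
    have e2 : B / (f0' * m0') = (f0' * m0')⁻¹ * B := by ring
    rw [e1] at a2
    rw [e2] at b2
    have h5 : 6400000000 * ((f0 * m0)⁻¹ * B * Real.log (2 + (f0 * m0)⁻¹ * B)) ≤
        6400000000 * ((f0 * m0)⁻¹ * B * (C1 * Real.log (2 + B))) :=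
      mul_le_mul_of_nonneg_left (mul_le_mul_of_nonneg_left h3 (by positivity)) (by norm_num)
    have h6 : 6400000000 * ((f0' * m0')⁻¹ * B * Real.log (2 + (f0' * m0')⁻¹ * B)) ≤
        6400000000 * ((f0' * m0')⁻¹ * B * (C2 * Real.log (2 + B))) :=
      mul_le_mul_of_nonneg_left (mul_le_mul_of_nonneg_left h4 (by positivity)) (by norm_num)
    have e3 : (6400000000 * ((f0 * m0)⁻¹ * C1) + 6400000000 * ((f0' * m0')⁻¹ * C2)) *
        (B * Real.log (2 + B)) = 6400000000 * ((f0 * m0)⁻¹ * B * (C1 * Real.log (2 + B))) +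
        6400000000 * ((f0' * m0')⁻¹ * B * (C2 * Real.log (2 + B))) := by ring
    rw [e3]
    linarith
  · intro hBb
    have h1 : B < f0 * m0 / 16 := hBb.trans_le (min_le_left _ _)
    have h2 : B < f0' * m0' / 16 := hBb.trans_le (min_le_right _ _)
    have h3 := a3 (by
      rw [← mul_div_assoc, div_lt_one hfm]
      linarith)
    have h4 := b3 (by
      rw [← mul_div_assoc, div_lt_one hfm']
      linarith)
    rw [h3, h4, Set.image_empty, Set.union_empty] at hsub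
    exact Set.subset_eq_empty hsub rfl

end Pool.Agent.Lib.MP_1acd66_nt.Conic
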