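import Pool.Agent.Lib.MP_1acd66_nt.Conic.Apriori

/-! The boundary between the two sides, and the count in terms of the sides. -/

set_option linter.unusedSectionVars false

open Metric Set Filter Topology

namespace Pool.Agent.Lib.MP_1acd66_nt.Conic

variable {F : (Fin 6 → ℝ) → ℝ} {Ψ : (Fin 6 → ℤ) → ℝ} {f0 f1 m0 m1 : ℝ}

/-- the vectors on both sides -/
def bd (F : (Fin 6 → ℝ) → ℝ) (Ψ : (Fin 6 → ℤ) → ℝ) (B : ℝ) : Set (Fin 6 → ℤ) :=
  {x ∈ AF F Ψ B | (gc x : ℝ) * ‖x‖ = ‖adj x‖}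

theorem bd_bound (D : Dat F Ψ f0 f1 m0 m1) :
    ∃ C : ℝ, 0 < C ∧ ∀ B : ℝ, 0 < B → ((bd F Ψ B).ncard : ℝ) ≤ C * B := by
  have hfm : 0 < f0 * m0 := mul_pos D.real.pos D.pos
  refine ⟨2000000000 * 16 / (f0 * m0), by positivity, ?_⟩
  intro B hB
  set a := B / (f0 * m0) with ha
  have ha0 : 0 < a := by positivity
  set Y := a ^ ((1:ℝ) / 4) with hY
  have hY0 : 0 < Y := by positivity
  have hY4 : Y ^ 4 = a := rpow_quarter ha0.le
  set N := ⌊2 * Y⌋₊ with hN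
  have hsub : bd F Ψ B ⊆ ⋃ g ∈ Finset.Icc 1 N,
      {x : Fin 6 → ℤ | red g x ∈ cl (ZMod g) ∧ x ≠ 0 ∧ ‖x‖ ≤ 2 * Y ∧ ‖adj x‖ ≤ g * ‖x‖} := by
    rintro x ⟨hx, hx2⟩
    have h1 := hx.1
    have hg : (0:ℝ) < gc x := by exact_mod_cast h1.gc_pos
    have hn := one_le_norm h1.ne_zero
    have h2 : (‖x‖ * ‖adj x‖) ^ 2 ≤ a * (gc x : ℝ) ^ 2 :=
      (D.prod_le h1.adj_ne_zero hx.2.1).trans (le_of_eq (by rw [ha]; ring))
    rw [← hx2] at h2
    have h3 : ‖x‖ ^ 4 ≤ a := by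
      have : ‖x‖ ^ 4 * (gc x : ℝ) ^ 2 ≤ a * (gc x : ℝ) ^ 2 := by
        calc _ = (‖x‖ * ((gc x : ℝ) * ‖x‖)) ^ 2 := by ring
          _ ≤ _ := h2
      exact le_of_mul_le_mul_right this (by positivity)
    have h4 : ‖x‖ ≤ Y := by
      rw [← hY4] at h3
      exact le_of_pow_le_pow_left₀ (by norm_num) hY0.le h3
    have h5 := norm_adj_le x
    have h6 : (gc x : ℝ) ≤ 2 * ‖x‖ := by
      have : (gc x : ℝ) * ‖x‖ ≤ (2 * ‖x‖) * ‖x‖ := by rw [hx2]; linarith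
      exact le_of_mul_le_mul_right this (by linarith)
    simp only [Set.mem_iUnion, Finset.mem_Icc]
    exact ⟨gc x, ⟨h1.gc_pos, Nat.le_floor (by linarith)⟩, red_gc_mem h1, h1.ne_zero, by linarith,
      hx2.symm.le⟩
  have hfin : (⋃ g ∈ Finset.Icc 1 N,
      {x : Fin 6 → ℤ | red g x ∈ cl (ZMod g) ∧ x ≠ 0 ∧ ‖x‖ ≤ 2 * Y ∧ ‖adj x‖ ≤ g * ‖x‖}).Finite := by
    refine Set.Finite.biUnion (Finset.finite_toSet _) fun g _ => ?_
    exact (finite_ball (2 * Y)).subset fun x hx => hx.2.2.1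
  have h1 := (Set.ncard_le_ncard hsub hfin).trans (Finset.set_ncard_biUnion_le _ _)
  have h2 : ((bd F Ψ B).ncard : ℝ) ≤ ∑ g ∈ Finset.Icc 1 N, (({x : Fin 6 → ℤ | red g x ∈ cl (ZMod g) ∧
      x ≠ 0 ∧ ‖x‖ ≤ 2 * Y ∧ ‖adj x‖ ≤ g * ‖x‖}.ncard : ℕ) : ℝ) := by exact_mod_cast h1
  have h3 : ∑ g ∈ Finset.Icc 1 N, (({x : Fin 6 → ℤ | red g x ∈ cl (ZMod g) ∧
      x ≠ 0 ∧ ‖x‖ ≤ 2 * Y ∧ ‖adj x‖ ≤ g * ‖x‖}.ncard : ℕ) : ℝ) ≤
      ∑ g ∈ Finset.Icc 1 N, 2000000000 * (2 * Y) ^ 3 := by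
    refine Finset.sum_le_sum fun g hg => ?_
    rw [Finset.mem_Icc] at hg
    refine small_count (by omega) ?_
    calc (g:ℝ) ≤ N := by exact_mod_cast hg.2
      _ ≤ 2 * Y := Nat.floor_le (by positivity)
  rw [Finset.sum_const, Nat.card_Icc, nsmul_eq_mul] at h3
  have h4 : ((N + 1 - 1 : ℕ) : ℝ) ≤ 2 * Y := by
    rw [Nat.add_sub_cancel]
    exact Nat.floor_le (by positivity)
  calc _ ≤ _ := h2
    _ ≤ _ := h3
    _ ≤ (2 * Y) * (2000000000 * (2 * Y) ^ 3) := mul_le_mul_of_nonneg_right h4 (by positivity)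
    _ = 2000000000 * 16 * Y ^ 4 := by ring
    _ = _ := by rw [hY4, ha]; ring

theorem NU_ncard {h : AdelicNorm} {S : Finset Nat.Primes} (hS : Good h S) {B : ℝ} (hB : 0 < B) :
    ((NU h S B).ncard : ℝ) = (AF (realF h.inf) (psi h S) B).ncard +
      (AF (realF h.swap.inf) (psi h.swap S) B).ncard -
      (bd (realF h.swap.inf) (psi h.swap S) B).ncard := by
  obtain ⟨f0, f1, m0, m1, D⟩ := exists_dat h S
  obtain ⟨f0', f1', m0', m1', D'⟩ := exists_dat h.swap S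
  obtain ⟨a1, _, _⟩ := AF_bound D hB
  obtain ⟨b1, _, _⟩ := AF_bound D' hB
  set A := AF (realF h.inf) (psi h S) B with hA
  set A' := AF (realF h.swap.inf) (psi h.swap S) B with hA'
  set E := bd (realF h.swap.inf) (psi h.swap S) B with hE
  have hEA : E ⊆ A' := fun x hx => hx.1
  have hEfin : E.Finite := b1.subset hEA
  have key : NU h S B = A ∪ dual '' (A' \ E) := by
    ext x
    constructor
    · rintro ⟨h1, h2⟩
      rcases le_or_gt ‖x‖ ‖dual x‖ with h3 | h3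
      · left
        exact ⟨h1, (hx_le_iff h S h1 B).1 h2, (norm_dual_le_iff h1).1 h3⟩
      · right
        refine ⟨dual x, ⟨⟨h1.dual, ?_, ?_⟩, ?_⟩, h1.dual_dual⟩
        · rw [← hx_le_iff h.swap S h1.dual, hx_dual hS h1]
          exact h2
        · rw [← norm_dual_le_iff h1.dual, h1.dual_dual]
          exact h3.le
        · rintro ⟨_, h4⟩
          rw [← gc_mul_norm_dual (dual x), h1.dual_dual] at h4
          have h5 : (gc (dual x) : ℝ) ≠ 0 := by exact_mod_cast h1.dual.gc_pos.ne'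
          have h6 := mul_left_cancel₀ h5 h4
          exact absurd h6 h3.ne
    · rintro (hx | ⟨y, ⟨hy, _⟩, rfl⟩)
      · exact ⟨hx.1, (hx_le_iff h S hx.1 B).2 hx.2.1⟩
      · refine ⟨hy.1.dual, ?_⟩
        have e := hx_dual hS.swap hy.1
        rw [swap_swap] at e
        rw [e, hx_le_iff h.swap S hy.1]
        exact hy.2.1
  have hdisj : Disjoint A (dual '' (A' \ E)) := by
    rw [Set.disjoint_left]
    rintro x hx ⟨y, ⟨hy, hyE⟩, rfl⟩
    apply hyE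
    refine ⟨hy, ?_⟩
    have h1 := (norm_dual_le_iff hx.1).2 hx.2.2
    rw [hy.1.dual_dual] at h1
    have h2 := (norm_dual_le_iff hy.1).2 hy.2.2
    have h3 : ‖y‖ = ‖dual y‖ := le_antisymm h2 h1
    rw [← gc_mul_norm_dual y, ← h3]
  have hinj : Set.InjOn dual (A' \ E) := by
    intro x hx y hy hxy
    have h1 := hx.1.1.dual_dual
    have h2 := hy.1.1.dual_dual
    rw [← h1, ← h2, hxy]
  rw [key, Set.ncard_union_eq hdisj a1 ((b1.subset Set.sdiff_subset).image _),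
    hinj.ncard_image]
  have h5 := Set.ncard_sdiff_add_ncard_of_subset hEA b1
  have h6 : (((A' \ E).ncard : ℕ) : ℝ) + (E.ncard : ℝ) = A'.ncard := by exact_mod_cast h5
  push_cast
  linarith

end Pool.Agent.Lib.MP_1acd66_nt.Conic
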