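import Pool.Agent.Lib.MP_1acd66_nt.Conic.Classes

/-! Bounds for the number of classes modulo `g`. -/

set_option linter.unusedSectionVars false

namespace Pool.Agent.Lib.MP_1acd66_nt.Conic

theorem isUnit_zmod_iff {p k : ℕ} (hp : p.Prime) (hk : 0 < k) (a : ZMod (p ^ k)) :
    IsUnit a ↔ ¬ p ∣ a.val := by
  have : NeZero (p ^ k) := ⟨pow_ne_zero _ hp.ne_zero⟩
  conv_lhs => rw [← ZMod.natCast_zmod_val a]
  rw [ZMod.isUnit_iff_coprime, Nat.coprime_pow_right_iff hk, Nat.coprime_comm,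
    hp.coprime_iff_not_dvd]

theorem isLocalRing_zmod {p k : ℕ} (hp : p.Prime) (hk : 0 < k) : IsLocalRing (ZMod (p ^ k)) := by
  have h0 : NeZero (p ^ k) := ⟨pow_ne_zero _ hp.ne_zero⟩
  have h1 : Fact (1 < p ^ k) := ⟨Nat.one_lt_pow hk.ne' hp.one_lt⟩
  refine IsLocalRing.of_nonunits_add ?_
  intro a b ha hb
  rw [mem_nonunits_iff, isUnit_zmod_iff hp hk, not_not] at ha hb ⊢
  rw [ZMod.val_add]
  rw [Nat.dvd_mod_iff (dvd_pow_self p hk.ne')]
  exact dvd_add ha hb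

theorem ncard_nonunits_zmod {p k : ℕ} (hp : p.Prime) (hk : 0 < k) :
    (nonunits (ZMod (p ^ k))).ncard = p ^ (k - 1) := by
  have h0 : NeZero (p ^ k) := ⟨pow_ne_zero _ hp.ne_zero⟩
  have := isLocalRing_zmod hp hk
  have h1 := card_units_add (R := ZMod (p ^ k))
  rw [Nat.card_zmod, Nat.card_eq_fintype_card, ZMod.card_units_eq_totient,
    Nat.totient_prime_pow hp hk] at h1
  obtain ⟨j, rfl⟩ : ∃ j, k = j + 1 := ⟨k - 1, by omega⟩
  simp only [Nat.add_sub_cancel] at h1 ⊢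
  have h2 : p ^ j * (p - 1) + p ^ j = p ^ (j + 1) := by
    obtain ⟨q, rfl⟩ : ∃ q, p = q + 1 := ⟨p - 1, by have := hp.pos; omega⟩
    simp only [Nat.add_sub_cancel]
    ring
  omega

theorem ncard_cl_prime_pow {p k : ℕ} (hp : p.Prime) (hk : 0 < k) :
    (cl (ZMod (p ^ k))).ncard + (p ^ (k - 1)) ^ 3 = (p ^ k) ^ 3 := by
  have h0 : NeZero (p ^ k) := ⟨pow_ne_zero _ hp.ne_zero⟩
  have := isLocalRing_zmod hp hk
  have h1 := ncard_cl_add (R := ZMod (p ^ k))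
  rw [ncard_nonunits_zmod hp hk, Nat.card_zmod] at h1
  exact h1

theorem ncard_cl_one : (cl (ZMod 1)).ncard = 1 := by
  have : cl (ZMod 1) = {0} := by
    apply Set.eq_singleton_iff_unique_mem.2
    refine ⟨⟨Subsingleton.elim _ _, 0, Subsingleton.elim _ _⟩, ?_⟩
    intro x _
    exact Subsingleton.elim _ _
  rw [this, Set.ncard_singleton]

theorem ncard_cl_mul {a b : ℕ} (h : a.Coprime b) :
    (cl (ZMod (a * b))).ncard = (cl (ZMod a)).ncard * (cl (ZMod b)).ncard := by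
  rw [ncard_cl_equiv (ZMod.chineseRemainder h), ncard_cl_prod]

theorem ncard_cl_le (g : ℕ) : 0 < g → (cl (ZMod g)).ncard ≤ g ^ 3 := by
  refine Nat.recOnPosPrimePosCoprime (motive := fun g => 0 < g → (cl (ZMod g)).ncard ≤ g ^ 3)
    ?_ ?_ ?_ ?_ g
  · intro p k hp hk _
    have := ncard_cl_prime_pow hp hk
    omega
  · intro h
    exact absurd h (lt_irrefl _)
  · intro _
    rw [ncard_cl_one, one_pow]
  · intro a b ha hb hab iha ihb _
    rw [ncard_cl_mul hab, mul_pow]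
    exact Nat.mul_le_mul (iha (by omega)) (ihb (by omega))

theorem ncard_cl_ge_prod (g : ℕ) : 0 < g →
    (g:ℝ) ^ 3 * ∏ p ∈ g.primeFactors, (1 - 1 / (p:ℝ) ^ 2) ≤ (cl (ZMod g)).ncard := by
  refine Nat.recOnPosPrimePosCoprime (motive := fun g => 0 < g →
    (g:ℝ) ^ 3 * ∏ p ∈ g.primeFactors, (1 - 1 / (p:ℝ) ^ 2) ≤ (cl (ZMod g)).ncard)
    ?_ ?_ ?_ ?_ g
  · intro p k hp hk _
    rw [Nat.primeFactors_prime_pow hk.ne' hp, Finset.prod_singleton]
    have h1 := ncard_cl_prime_pow hp hk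
    have h2 : ((cl (ZMod (p ^ k))).ncard : ℝ) + ((p:ℝ) ^ (k - 1)) ^ 3 = ((p:ℝ) ^ k) ^ 3 := by
      exact_mod_cast h1
    obtain ⟨j, rfl⟩ : ∃ j, k = j + 1 := ⟨k - 1, by omega⟩
    simp only [Nat.add_sub_cancel] at h2
    have hp1 : (1:ℝ) ≤ p := by exact_mod_cast hp.one_lt.le
    have hp0 : (p:ℝ) ≠ 0 := by positivity
    have e : ((p ^ (j + 1) : ℕ) : ℝ) ^ 3 * (1 - 1 / (p:ℝ) ^ 2) =
        ((p:ℝ) ^ (j + 1)) ^ 3 - ((p:ℝ) ^ j) ^ 3 * p := by
      push_cast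
      field_simp
      ring
    rw [e]
    have h3 : ((p:ℝ) ^ j) ^ 3 ≤ ((p:ℝ) ^ j) ^ 3 * p := le_mul_of_one_le_right (by positivity) hp1
    linarith
  · intro h
    exact absurd h (lt_irrefl _)
  · intro _
    rw [ncard_cl_one]
    simp
  · intro a b ha hb hab iha ihb _
    rw [ncard_cl_mul hab, Nat.Coprime.primeFactors_mul hab,
      Finset.prod_union (Nat.Coprime.disjoint_primeFactors hab)]
    push_cast
    have h1 := iha (by omega)
    have h2 := ihb (by omega)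
    have hn : ∀ n : ℕ, 0 ≤ ∏ p ∈ n.primeFactors, (1 - 1 / (p:ℝ) ^ 2) := by
      intro n
      refine Finset.prod_nonneg fun p hp => ?_
      have hp1 : (1:ℝ) ≤ p := by exact_mod_cast (Nat.prime_of_mem_primeFactors hp).one_lt.le
      have : 1 / (p:ℝ) ^ 2 ≤ 1 := by
        rw [div_le_one (by positivity)]
        nlinarith
      linarith
    calc ((a:ℝ) * b) ^ 3 * ((∏ p ∈ a.primeFactors, (1 - 1 / (p:ℝ) ^ 2)) *
          ∏ p ∈ b.primeFactors, (1 - 1 / (p:ℝ) ^ 2))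
        = ((a:ℝ) ^ 3 * ∏ p ∈ a.primeFactors, (1 - 1 / (p:ℝ) ^ 2)) *
          ((b:ℝ) ^ 3 * ∏ p ∈ b.primeFactors, (1 - 1 / (p:ℝ) ^ 2)) := by ring
      _ ≤ _ := mul_le_mul h1 h2 (mul_nonneg (by positivity) (hn b)) (by positivity)

theorem telescope (P n : ℕ) (hP : 1 ≤ P) :
    (P:ℝ) / (P + 1) * ((P + n + 1) / (P + n)) ≤
      ∏ m ∈ Finset.Ico (P + 1) (P + n + 1), (1 - 1 / (m:ℝ) ^ 2) := by
  have hP0 : (0:ℝ) < P := by exact_mod_cast hP
  induction n with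
  | zero =>
    simp only [Nat.cast_zero, add_zero, Finset.Ico_self, Finset.prod_empty]
    apply le_of_eq
    field_simp
  | succ n ih =>
    rw [show P + (n + 1) + 1 = (P + n + 1) + 1 by ring, Finset.prod_Ico_succ_top (by omega)]
    have h1 : (0:ℝ) ≤ 1 - 1 / ((P + n + 1 : ℕ) : ℝ) ^ 2 := by
      push_cast
      have : 1 / ((P:ℝ) + n + 1) ^ 2 ≤ 1 := by
        rw [div_le_one (by positivity)]
        nlinarith [Nat.cast_nonneg (α := ℝ) n]
      linarith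
    refine le_trans (le_of_eq ?_) (mul_le_mul_of_nonneg_right ih h1)
    have h2 : (0:ℝ) < P + n := by positivity
    push_cast
    field_simp
    ring

theorem prod_ge {P : ℕ} (hP : 1 ≤ P) (s : Finset ℕ) (hs : ∀ p ∈ s, P < p) :
    (P:ℝ) / (P + 1) ≤ ∏ p ∈ s, (1 - 1 / (p:ℝ) ^ 2) := by
  have hP0 : (0:ℝ) < P := by exact_mod_cast hP
  obtain ⟨n, hn⟩ : ∃ n, ∀ p ∈ s, p < P + n + 1 := by
    refine ⟨s.sup id, fun p hp => ?_⟩
    have := Finset.le_sup (f := id) hp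
    simp only [id] at this
    omega
  have h1 : s ⊆ Finset.Ico (P + 1) (P + n + 1) := by
    intro p hp
    rw [Finset.mem_Ico]
    exact ⟨hs p hp, hn p hp⟩
  have hb : ∀ m ∈ Finset.Ico (P + 1) (P + n + 1), 0 ≤ 1 - 1 / (m:ℝ) ^ 2 ∧
      1 - 1 / (m:ℝ) ^ 2 ≤ 1 := by
    intro m hm
    rw [Finset.mem_Ico] at hm
    have hm1 : (1:ℝ) ≤ m := by exact_mod_cast (by omega : 1 ≤ m)
    have : 1 / (m:ℝ) ^ 2 ≤ 1 := by
      rw [div_le_one (by positivity)]
      nlinarith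
    have : 0 ≤ 1 / (m:ℝ) ^ 2 := by positivity
    constructor <;> linarith
  have h2 := Finset.prod_le_prod_of_subset_of_le_one h1 (fun i hi => (hb i hi).1)
    (fun i hi _ => (hb i hi).2)
  refine le_trans ?_ ((telescope P n hP).trans h2)
  have h3 : (0:ℝ) < P + n := by positivity
  have h4 : (1:ℝ) ≤ (P + n + 1) / (P + n) := by
    rw [one_le_div h3]; linarith
  have h5 : (0:ℝ) ≤ P / (P + 1) := by positivity
  nlinarith

/-- If all prime factors of `g` exceed `P`, then the number of classes is close to `g ^ 3`. -/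
theorem ncard_cl_ge {P g : ℕ} (hP : 1 ≤ P) (hg : 0 < g) (h : ∀ p, p.Prime → p ∣ g → P < p) :
    (P:ℝ) / (P + 1) * g ^ 3 ≤ (cl (ZMod g)).ncard := by
  refine le_trans ?_ (ncard_cl_ge_prod g hg)
  rw [mul_comm]
  refine mul_le_mul_of_nonneg_left (prod_ge hP _ ?_) (by positivity)
  intro p hp
  exact h p (Nat.prime_of_mem_primeFactors hp) (Nat.dvd_of_mem_primeFactors hp)

end Pool.Agent.Lib.MP_1acd66_nt.Conic
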