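import Pool.Agent.Lib.MP_1acd66_nt.Conic.Split

/-! Decomposition into classes for a given `m`-part. -/

set_option linter.unusedSectionVars false

open Metric Set Filter Topology

namespace Pool.Agent.Lib.MP_1acd66_nt.Conic

theorem ex_of_red {m g : ℕ} {J : ℕ} (hg0 : 0 < g) (hJ : 1 ≤ J) {x c : Fin 6 → ℤ} (hc : Ex m g c)
    (hx : adj x ≠ 0) (hr : red (m ^ J * g) x = red (m ^ J * g) c) : Ex m g x := by
  rw [red_eq_red] at hr
  have hadj := adj_congr hr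
  have hmJ : m ∣ m ^ J := dvd_pow_self m (by omega)
  refine ⟨hx, ?_, ?_, ?_⟩
  · refine Nat.coprime_of_dvd fun p hp h1 h2 => ?_
    have h3 : p ∣ cont c := by
      rw [dvd_cont_iff] at h1 ⊢
      intro i
      have h4 : (p:ℤ) ∣ x i - c i :=
        (Int.natCast_dvd_natCast.2 ((h2.trans hmJ).mul_right g)).trans (hr i)
      have h5 := dvd_sub (h1 i) h4
      rwa [sub_sub_cancel] at h5
    have h6 := Nat.dvd_gcd h3 h2
    rw [hc.cop] at h6
    exact hp.one_lt.ne' (Nat.dvd_one.1 h6)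
  · rw [gc, dvd_cont_iff]
    intro i
    have h1 : (g:ℤ) ∣ adj x i - adj c i :=
      (Int.natCast_dvd_natCast.2 (dvd_mul_left g (m ^ J))).trans (hadj i)
    have h2 : (g:ℤ) ∣ adj c i := (Int.natCast_dvd_natCast.2 hc.dvd).trans (cont_dvd (adj c) i)
    have h3 := dvd_add h1 h2
    rwa [sub_add_cancel] at h3
  · refine Nat.coprime_of_dvd fun p hp h1 h2 => ?_
    have hgx : g ∣ gc x := by
      rw [gc, dvd_cont_iff]
      intro i
      have h1 : (g:ℤ) ∣ adj x i - adj c i :=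
        (Int.natCast_dvd_natCast.2 (dvd_mul_left g (m ^ J))).trans (hadj i)
      have h2 : (g:ℤ) ∣ adj c i := (Int.natCast_dvd_natCast.2 hc.dvd).trans (cont_dvd (adj c) i)
      have h3 := dvd_add h1 h2
      rwa [sub_add_cancel] at h3
    have h3 : p * g ∣ gc x := by
      obtain ⟨k, hk⟩ := hgx
      rw [hk, Nat.mul_div_cancel_left _ hg0] at h1
      rw [hk, mul_comm p g]
      exact mul_dvd_mul_left g h1
    have h4 : p * g ∣ gc c := by
      rw [gc, dvd_cont_iff] at h3 ⊢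
      intro i
      have h5 : ((p * g : ℕ) : ℤ) ∣ adj x i - adj c i :=
        (Int.natCast_dvd_natCast.2 (mul_dvd_mul_right (h2.trans hmJ) g)).trans (hadj i)
      have h6 := dvd_sub (h3 i) h5
      rwa [sub_sub_cancel] at h6
    have h5 : p ∣ gc c / g := by
      obtain ⟨k, hk⟩ := hc.dvd
      rw [hk, Nat.mul_div_cancel_left _ hg0]
      rw [hk, mul_comm p g] at h4
      exact Nat.dvd_of_mul_dvd_mul_left hg0 h4
    have h6 := Nat.dvd_gcd h5 h2
    rw [hc.exact] at h6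
    exact hp.one_lt.ne' (Nat.dvd_one.1 h6)

variable {h : AdelicNorm} {S : Finset Nat.Primes}

theorem ex_of_tg {m g b : ℕ} {B : ℝ} (hg0 : 0 < g) (hb0 : 0 < b) (hb : b.Coprime m)
    {x : Fin 6 → ℤ} (hx : x ∈ tg h S m B (g * b)) : Ex m g x := by
  obtain ⟨⟨_, h1, h2, h3⟩, h4, h5, h6⟩ := hx
  simp only at h1 h2 h3 h4 h5 h6
  obtain ⟨h7, h8⟩ := (inCl_iff x).1 h1
  obtain ⟨k, hk⟩ := h7
  refine ⟨adj_ne_zero_of_dt_pos h2, h4, ?_, ?_⟩
  · rw [hk, mul_assoc]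
    exact dvd_mul_right _ _
  · rw [hk, Nat.mul_div_cancel_left _ (Nat.mul_pos hg0 hb0)] at h5
    rw [hk, mul_assoc, Nat.mul_div_cancel_left _ hg0]
    exact Nat.Coprime.mul_left hb h5

theorem mem_tset_of_tg {f0 f1 m0 m1 : ℝ} (D : Dat (realF h.inf) (psi h S) f0 f1 m0 m1)
    {m g b M : ℕ} {B ε : ℝ} (hε : 0 < ε) {x c : Fin 6 → ℤ} (hc : adj c ≠ 0)
    (hx : x ∈ tg h S m B (g * b)) (hr : red M x = red M c) (hψ : psi h S c ≤ (1 + ε) * psi h S x) :
    x ∈ tset (realF h.inf) M c g b ((1 + ε) * ((g:ℝ) ^ 2 / psi h S c) * B * (b:ℝ) ^ 2) := by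
  obtain ⟨⟨h0, h1, h2, h3⟩, h4, h5, h6⟩ := hx
  simp only at h0 h1 h2 h3 h4 h5 h6
  have h7 : red b x ∈ cl (ZMod b) := inCl_of_dvd (dvd_mul_left b g) h1
  have hadj := adj_ne_zero_of_dt_pos h2
  have hpx : 0 < psi h S x := D.pos.trans_le (D.lo x hadj)
  have hpc : 0 < psi h S c := D.pos.trans_le (D.lo c hc)
  refine ⟨hr, h7, h2, h6, ?_⟩
  push_cast at h3
  have hF : 0 ≤ realF h.inf (castR x) := le_trans (mul_nonneg D.real.pos.le (by positivity))
    (D.real.lo (castR x))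
  have h8 : realF h.inf (castR x) * psi h S c ≤ (1 + ε) * (B * ((g:ℝ) * b) ^ 2) := by
    calc realF h.inf (castR x) * psi h S c ≤ realF h.inf (castR x) * ((1 + ε) * psi h S x) :=
          mul_le_mul_of_nonneg_left hψ hF
      _ = (1 + ε) * (realF h.inf (castR x) * psi h S x) := by ring
      _ ≤ _ := mul_le_mul_of_nonneg_left h3 (by linarith)
  have e : (1 + ε) * ((g:ℝ) ^ 2 / psi h S c) * B * (b:ℝ) ^ 2 =
      (1 + ε) * (B * ((g:ℝ) * b) ^ 2) / psi h S c := by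
    field_simp
  rw [e, le_div_iff₀ hpc]
  exact h8

theorem tg_of_mem_tset {f0 f1 m0 m1 : ℝ} (D : Dat (realF h.inf) (psi h S) f0 f1 m0 m1)
    {m g b J : ℕ} (hm : 0 < m) (hJ : 1 ≤ J) {B ε : ℝ} (hε : 0 < ε) (hg : g ∈ sm m) (hb0 : 0 < b)
    (hb : b.Coprime m) {x c : Fin 6 → ℤ} (hc : Ex m g c)
    (hx : x ∈ tset (realF h.inf) (m ^ J * g) c g b ((1 + ε)⁻¹ * ((g:ℝ) ^ 2 / psi h S c) * B * (b:ℝ) ^ 2))
    (hψ : psi h S x ≤ (1 + ε) * psi h S c) : x ∈ tg h S m B (g * b) := by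
  obtain ⟨h1, h2, h3, h4, h5⟩ := hx
  have hg0 := sm_pos hg
  have hadj := adj_ne_zero_of_dt_pos h3
  have hE := ex_of_red hg0 hJ hc hadj h1
  have hpc : 0 < psi h S c := D.pos.trans_le (D.lo c hc.ne)
  have hpx : 0 < psi h S x := D.pos.trans_le (D.lo x hadj)
  have hbg : b.Coprime g := coprime_of_sm hm hg hb
  obtain ⟨h6, h7⟩ := (inCl_iff x).1 h2
  have hcg : (cont x).Coprime g := coprime_of_sm hm hg hE.cop
  have hdvd : g * b ∣ gc x := Nat.Coprime.mul_dvd_of_dvd_of_dvd hbg.symm hE.dvd h6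
  refine ⟨⟨Nat.mul_pos hg0 hb0, ?_, h3, ?_⟩, hE.cop, ?_, h4⟩
  · exact (inCl_iff x).2 ⟨hdvd, Nat.Coprime.mul_right hcg h7⟩
  · simp only
    push_cast
    have hF : 0 ≤ realF h.inf (castR x) := le_trans (mul_nonneg D.real.pos.le (by positivity))
      (D.real.lo (castR x))
    calc realF h.inf (castR x) * psi h S x ≤ realF h.inf (castR x) * ((1 + ε) * psi h S c) :=
          mul_le_mul_of_nonneg_left hψ hF
      _ ≤ ((1 + ε)⁻¹ * ((g:ℝ) ^ 2 / psi h S c) * B * (b:ℝ) ^ 2) * ((1 + ε) * psi h S c) :=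
          mul_le_mul_of_nonneg_right h5 (by positivity)
      _ = B * ((g:ℝ) * b) ^ 2 := by
          field_simp
  · simp only
    obtain ⟨k, hk⟩ := hdvd
    have h8 := hE.exact
    rw [hk, mul_assoc, Nat.mul_div_cancel_left _ hg0] at h8
    rw [hk, Nat.mul_div_cancel_left _ (Nat.mul_pos hg0 hb0)]
    exact Nat.Coprime.coprime_mul_left h8

theorem disj_sum_le {ι α : Type*} {W : Set α} (hW : W.Finite) (D : Finset ι)
    (T : ι → Set α) (f : α → ι) (h : ∀ i ∈ D, ∀ x ∈ T i, x ∈ W ∧ f x = i) :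
    ∑ i ∈ D, ((T i).ncard : ℝ) ≤ W.ncard := by
  classical
  set w := hW.toFinset with hw
  have h1 : W.ncard = w.card := Set.ncard_eq_toFinset_card _ hW
  have h2 : (w.filter fun z => f z ∈ D).card = ∑ i ∈ D, ((w.filter fun z => f z ∈ D).filter
      fun z => f z = i).card := by
    refine Finset.card_eq_sum_card_fiberwise fun z hz => ?_
    rw [Finset.mem_coe, Finset.mem_filter] at hz
    exact hz.2
  have h3 : ∀ i ∈ D, (T i).ncard ≤ ((w.filter fun z => f z ∈ D).filter fun z => f z = i).card := by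
    intro i hi
    rw [← Set.ncard_coe_finset]
    refine Set.ncard_le_ncard ?_ (Finset.finite_toSet _)
    intro x hx
    obtain ⟨h4, h5⟩ := h i hi x hx
    rw [Finset.mem_coe, Finset.mem_filter, Finset.mem_filter]
    exact ⟨⟨hW.mem_toFinset.2 h4, by rw [h5]; exact hi⟩, h5⟩
  have h4 : ∑ i ∈ D, (T i).ncard ≤ W.ncard := by
    rw [h1]
    refine le_trans ?_ (Finset.card_filter_le w fun z => f z ∈ D)
    rw [h2]
    exact Finset.sum_le_sum h3
  exact_mod_cast h4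

set_option maxHeartbeats 4000000 in
theorem class_sum {f0 f1 m0 m1 : ℝ} (D : Dat (realF h.inf) (psi h S) f0 f1 m0 m1)
    {m P J : ℕ} (hm : 0 < m) (hP : 1 ≤ P) (hPm : ∀ p, p.Prime → p ≤ P → p ∣ m) (hJ : 1 ≤ J) {ε : ℝ}
    (hε : 0 < ε) (hlp : ∀ g : ℕ, 0 < g → ∀ x x' : Fin 6 → ℤ, Ex m g x → Ex m g x' →
      red (m ^ J * g) x = red (m ^ J * g) x' → psi h S x ≤ (1 + ε) * psi h S x')
    {g : ℕ} (hg : g ∈ sm m) {ε' : ℝ} (hε' : 0 < ε') :
    ∃ L : ℝ, 0 ≤ L ∧ ∀ᶠ B : ℝ in atTop,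
      (∀ N : ℕ, ∑ b ∈ (Finset.Icc 1 N).filter (fun g => g.Coprime m),
        ((tg h S m B (g * b)).ncard : ℝ) ≤ (1 + ε) * (L + ε') * (B * Real.log B)) ∧
      (∀ N : ℕ, B ≤ N → (1 + ε)⁻¹ * ((P:ℝ) / (P + 1) * L - ε') * (B * Real.log B) ≤
        ∑ b ∈ (Finset.Icc 1 N).filter (fun g => g.Coprime m),
        ((tg h S m B (g * b)).ncard : ℝ)) := by
  classical
  have hg0 := sm_pos hg
  set M := m ^ J * g with hM
  have hM0 : 0 < M := Nat.mul_pos (pow_pos hm J) hg0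
  have hmM : m ∣ M := (dvd_pow_self m (by omega : J ≠ 0)).mul_right g
  have : NeZero M := ⟨hM0.ne'⟩
  obtain ⟨s, hs, hs6⟩ := exists_scale D.real.pos
  set Cl : Finset (Fin 6 → ZMod M) :=
    Finset.univ.filter (fun κ => ∃ c, red M c = κ ∧ Ex m g c) with hCl
  have hrep : ∀ κ : Fin 6 → ZMod M, ∃ c : Fin 6 → ℤ, κ ∈ Cl → red M c = κ ∧ Ex m g c := by
    intro κ
    by_cases hκ : κ ∈ Cl
    · obtain ⟨c, hc⟩ := (Finset.mem_filter.1 hκ).2
      exact ⟨c, fun _ => hc⟩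
    · exact ⟨0, fun h => absurd h hκ⟩
  choose c hc using hrep
  have hψ0 : ∀ κ ∈ Cl, 0 < psi h S (c κ) := fun κ hκ => D.pos.trans_le (D.lo _ (hc κ hκ).2.ne)
  set w : (Fin 6 → ZMod M) → ℝ := fun κ => (g:ℝ) ^ 2 / psi h S (c κ) with hw
  have hg' : (0:ℝ) < g := by exact_mod_cast hg0
  have hw0 : ∀ κ ∈ Cl, 0 < w κ := fun κ hκ => div_pos (by positivity) (hψ0 κ hκ)
  set W : ℝ := ∑ κ ∈ Cl, w κ with hW
  have hW0 : 0 ≤ W := Finset.sum_nonneg fun κ hκ => (hw0 κ hκ).le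
  set δ : ℝ := ε' / (W + 1) with hδ
  have hδ0 : 0 < δ := by positivity
  have hδW : δ * W ≤ ε' := by
    rw [hδ, div_mul_eq_mul_div, div_le_iff₀ (by positivity)]
    nlinarith
  have hcl : ∀ κ ∈ Cl, red g (c κ) ∈ cl (ZMod g) := by
    intro κ hκ
    rw [inCl_iff]
    exact ⟨(hc κ hκ).2.dvd, coprime_of_sm hm hg (hc κ hκ).2.cop⟩
  have hex : ∀ κ : Fin 6 → ZMod M, ∃ k : ℝ, κ ∈ Cl → 0 ≤ k ∧ ∀ θ : ℝ, 0 < θ → ∀ᶠ B : ℝ in atTop,
      (∀ N : ℕ, ∑ b ∈ (Finset.Icc 1 N).filter (fun g => g.Coprime M),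
        ((tset (realF h.inf) M (c κ) g b (θ * B * b ^ 2)).ncard : ℝ) ≤ (k + δ) * θ * (B * Real.log B)) ∧
      (∀ N : ℕ, B ≤ N → ((P:ℝ) / (P + 1) * k - δ) * θ * (B * Real.log B) ≤
        ∑ b ∈ (Finset.Icc 1 N).filter (fun g => g.Coprime M),
        ((tset (realF h.inf) M (c κ) g b (θ * B * b ^ 2)).ncard : ℝ)) := by
    intro κ
    by_cases hκ : κ ∈ Cl
    · obtain ⟨κ0, hκ0, hsum⟩ := sumC D.real hM0 hg0 (hcl κ hκ) (dvd_mul_left g (m ^ J)) hP
        (fun p hp hpP => (hPm p hp hpP).trans hmM)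
      obtain ⟨k, hk, hk2⟩ := hsum δ hδ0
      exact ⟨k, fun _ => ⟨by linarith, hk2⟩⟩
    · exact ⟨0, fun h => absurd h hκ⟩
  choose k hk using hex
  set L : ℝ := ∑ κ ∈ Cl, k κ * w κ with hL
  have hL0 : 0 ≤ L := Finset.sum_nonneg fun κ hκ => mul_nonneg (hk κ hκ).1 (hw0 κ hκ).le
  have hε1 : 0 < (1 + ε)⁻¹ := by positivity
  have hfilt : ∀ N : ℕ, (Finset.Icc 1 N).filter (fun b => b.Coprime M) =
      (Finset.Icc 1 N).filter (fun b => b.Coprime m) := by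
    intro N
    refine Finset.filter_congr fun b _ => ?_
    constructor
    · intro hb
      exact Nat.Coprime.coprime_dvd_right hmM hb
    · intro hb
      exact Nat.Coprime.mul_right (Nat.Coprime.pow_right J hb) (coprime_of_sm hm hg hb)
  refine ⟨L, hL0, ?_⟩
  have ev1 : ∀ᶠ B : ℝ in atTop, ∀ κ ∈ Cl, ∀ N : ℕ,
      ∑ b ∈ (Finset.Icc 1 N).filter (fun g => g.Coprime M),
        ((tset (realF h.inf) M (c κ) g b ((1 + ε) * w κ * B * b ^ 2)).ncard : ℝ) ≤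
        (k κ + δ) * ((1 + ε) * w κ) * (B * Real.log B) := by
    rw [Filter.eventually_all_finset]
    intro κ hκ
    filter_upwards [(hk κ hκ).2 ((1 + ε) * w κ) (mul_pos (by linarith) (hw0 κ hκ))] with B hB
    exact hB.1
  have ev2 : ∀ᶠ B : ℝ in atTop, ∀ κ ∈ Cl, ∀ N : ℕ, B ≤ N →
      ((P:ℝ) / (P + 1) * k κ - δ) * ((1 + ε)⁻¹ * w κ) * (B * Real.log B) ≤
      ∑ b ∈ (Finset.Icc 1 N).filter (fun g => g.Coprime M),
        ((tset (realF h.inf) M (c κ) g b ((1 + ε)⁻¹ * w κ * B * b ^ 2)).ncard : ℝ) := by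
    rw [Filter.eventually_all_finset]
    intro κ hκ
    filter_upwards [(hk κ hκ).2 ((1 + ε)⁻¹ * w κ) (mul_pos hε1 (hw0 κ hκ))] with B hB
    exact hB.2
  filter_upwards [ev1, ev2, eventually_gt_atTop (1:ℝ)] with B h1 h2 hB1
  have hB0 : 0 < B := by linarith
  have hlB : 0 < Real.log B := Real.log_pos hB1
  have hfint : ∀ κ ∈ Cl, ∀ b : ℕ, 0 < b → b.Coprime M → ∀ θ : ℝ, 0 < θ →
      (tset (realF h.inf) M (c κ) g b (θ * B * b ^ 2)).Finite := by
    intro κ hκ b hb hbM θ hθ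
    exact (tset_bound D.real hs hs6 hg0 hb (hcl κ hκ) (dvd_mul_left g (m ^ J)) hbM
      (A := θ * B) (by positivity)).1
  have hfintg : ∀ b : ℕ, 0 < b → (tg h S m B (g * b)).Finite := by
    intro b hb
    have hfm : 0 < f0 * m0 := mul_pos D.real.pos D.pos
    exact (hs_bound (Nat.mul_pos hg0 hb) (a := B / (f0 * m0)) (by positivity)).1.subset
      (tg_sub_hs D)
  constructor
  · intro N
    rw [← hfilt N]
    have h3 : ∀ b ∈ (Finset.Icc 1 N).filter (fun g => g.Coprime M),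
        ((tg h S m B (g * b)).ncard : ℝ) ≤ ∑ κ ∈ Cl,
          ((tset (realF h.inf) M (c κ) g b ((1 + ε) * w κ * B * b ^ 2)).ncard : ℝ) := by
      intro b hb
      rw [Finset.mem_filter, Finset.mem_Icc] at hb
      have hbm : b.Coprime m := Nat.Coprime.coprime_dvd_right hmM hb.2
      have hsub : tg h S m B (g * b) ⊆ ⋃ κ ∈ Cl,
          tset (realF h.inf) M (c κ) g b ((1 + ε) * w κ * B * b ^ 2) := by
        intro x hx
        have hE := ex_of_tg hg0 hb.1.1 hbm hx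
        have hκ : red M x ∈ Cl := Finset.mem_filter.2 ⟨Finset.mem_univ _, x, rfl, hE⟩
        simp only [Set.mem_iUnion]
        refine ⟨red M x, hκ, ?_⟩
        obtain ⟨h4, h5⟩ := hc _ hκ
        exact mem_tset_of_tg D hε h5.ne hx h4.symm (hlp g hg0 _ _ h5 hE h4)
      have hfin : (⋃ κ ∈ Cl, tset (realF h.inf) M (c κ) g b ((1 + ε) * w κ * B * b ^ 2)).Finite :=
        Set.Finite.biUnion (Finset.finite_toSet _) fun κ hκ =>
          hfint κ hκ b hb.1.1 hb.2 _ (mul_pos (by linarith) (hw0 κ hκ))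
      exact_mod_cast (Set.ncard_le_ncard hsub hfin).trans (Finset.set_ncard_biUnion_le _ _)
    refine (Finset.sum_le_sum h3).trans ?_
    rw [Finset.sum_comm]
    refine (Finset.sum_le_sum fun κ hκ => h1 κ hκ N).trans ?_
    have e : ∑ κ ∈ Cl, (k κ + δ) * ((1 + ε) * w κ) * (B * Real.log B) =
        (1 + ε) * (L + δ * W) * (B * Real.log B) := by
      rw [hL, hW, Finset.mul_sum, ← Finset.sum_add_distrib, Finset.mul_sum, Finset.sum_mul]
      refine Finset.sum_congr rfl fun κ _ => ?_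
      ring
    rw [e]
    apply mul_le_mul_of_nonneg_right _ (by positivity)
    apply mul_le_mul_of_nonneg_left _ (by linarith)
    linarith
  · intro N hN
    rw [← hfilt N]
    have h3 : ∀ b ∈ (Finset.Icc 1 N).filter (fun g => g.Coprime M),
        ∑ κ ∈ Cl, ((tset (realF h.inf) M (c κ) g b ((1 + ε)⁻¹ * w κ * B * b ^ 2)).ncard : ℝ) ≤
        ((tg h S m B (g * b)).ncard : ℝ) := by
      intro b hb
      rw [Finset.mem_filter, Finset.mem_Icc] at hb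
      have hbm : b.Coprime m := Nat.Coprime.coprime_dvd_right hmM hb.2
      refine disj_sum_le (hfintg b hb.1.1) Cl _ (red M) ?_
      intro κ hκ x hx
      obtain ⟨h4, h5⟩ := hc _ hκ
      have hxr : red M x = red M (c κ) := hx.1
      have hE := ex_of_red hg0 hJ h5 (adj_ne_zero_of_dt_pos hx.2.2.1) hxr
      exact ⟨tg_of_mem_tset D hm hJ hε hg hb.1.1 hbm h5 hx (hlp g hg0 _ _ hE h5 hxr), hxr.trans h4⟩
    refine le_trans ?_ (Finset.sum_le_sum h3)
    rw [Finset.sum_comm]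
    refine le_trans ?_ (Finset.sum_le_sum fun κ hκ => h2 κ hκ N hN)
    have e : ∑ κ ∈ Cl, ((P:ℝ) / (P + 1) * k κ - δ) * ((1 + ε)⁻¹ * w κ) * (B * Real.log B) =
        (1 + ε)⁻¹ * ((P:ℝ) / (P + 1) * L - δ * W) * (B * Real.log B) := by
      rw [hL, hW, Finset.mul_sum, Finset.mul_sum, ← Finset.sum_sub_distrib, Finset.mul_sum,
        Finset.sum_mul]
      refine Finset.sum_congr rfl fun κ _ => ?_
      ring
    rw [e]
    apply mul_le_mul_of_nonneg_right _ (by positivity)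
    apply mul_le_mul_of_nonneg_left _ hε1.le
    linarith

end Pool.Agent.Lib.MP_1acd66_nt.Conic
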