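import Pool.Agent.Lib.MP_1acd66_nt.Conic.Content

/-! Counting the primitive vectors with vanishing adjugate modulo `g`. -/

set_option linter.unusedSectionVars false

namespace Pool.Agent.Lib.MP_1acd66_nt.Conic

/-- unimodular vectors with vanishing adjugate -/
def cl (R : Type*) [CommRing R] : Set (Fin 6 → R) :=
  {x | adj x = 0 ∧ ∃ r : Fin 6 → R, ∑ i, r i * x i = 1}

section local_ring

variable {R : Type*} [CommRing R]

/-- the vector with `x 0 = u`, `x 3 = s`, `x 4 = t` -/
def phi1 (z : Rˣ × R × R) : Fin 6 → R :=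
  ![z.1, (z.1⁻¹ : Rˣ) * z.2.1 ^ 2, (z.1⁻¹ : Rˣ) * z.2.2 ^ 2, z.2.1, z.2.2,
    (z.1⁻¹ : Rˣ) * (z.2.1 * z.2.2)]

/-- the vector with `x 1 = u`, `x 3 = s`, `x 5 = t` -/
def phi2 (z : Rˣ × R × R) : Fin 6 → R :=
  ![(z.1⁻¹ : Rˣ) * z.2.1 ^ 2, z.1, (z.1⁻¹ : Rˣ) * z.2.2 ^ 2, z.2.1,
    (z.1⁻¹ : Rˣ) * (z.2.1 * z.2.2), z.2.2]

/-- the vector with `x 2 = u`, `x 4 = s`, `x 5 = t` -/
def phi3 (z : Rˣ × R × R) : Fin 6 → R :=
  ![(z.1⁻¹ : Rˣ) * z.2.1 ^ 2, (z.1⁻¹ : Rˣ) * z.2.2 ^ 2, z.1, (z.1⁻¹ : Rˣ) * (z.2.1 * z.2.2),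
    z.2.1, z.2.2]

theorem unimod_of_isUnit {x : Fin 6 → R} (i : Fin 6) (h : IsUnit (x i)) :
    ∃ r : Fin 6 → R, ∑ i, r i * x i = 1 := by
  obtain ⟨u, hu⟩ := h
  refine ⟨Pi.single i ((u⁻¹ : Rˣ) : R), ?_⟩
  rw [Finset.sum_eq_single i]
  · rw [Pi.single_eq_same, ← hu, Units.inv_mul]
  · intro j _ hj
    rw [Pi.single_eq_of_ne hj, zero_mul]
  · intro h; exact absurd (Finset.mem_univ _) h

theorem phi1_mem (z : Rˣ × R × R) : phi1 z ∈ cl R := by
  obtain ⟨u, s, t⟩ := z
  have hu : (u : R) * ((u⁻¹ : Rˣ) : R) = 1 := Units.mul_inv u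
  refine ⟨?_, unimod_of_isUnit 0 ⟨u, rfl⟩⟩
  apply six_ext <;> simp only [adj_0, adj_1, adj_2, adj_3, adj_4, adj_5, phi1, Pi.zero_apply,
    Matrix.cons_val]
  · ring
  · linear_combination t ^ 2 * hu
  · linear_combination s ^ 2 * hu
  · ring
  · ring
  · linear_combination (-(s * t)) * hu

theorem phi2_mem (z : Rˣ × R × R) : phi2 z ∈ cl R := by
  obtain ⟨u, s, t⟩ := z
  have hu : (u : R) * ((u⁻¹ : Rˣ) : R) = 1 := Units.mul_inv u
  refine ⟨?_, unimod_of_isUnit 1 ⟨u, rfl⟩⟩
  apply six_ext <;> simp only [adj_0, adj_1, adj_2, adj_3, adj_4, adj_5, phi2, Pi.zero_apply,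
    Matrix.cons_val]
  · linear_combination t ^ 2 * hu
  · ring
  · linear_combination s ^ 2 * hu
  · ring
  · linear_combination (-(s * t)) * hu
  · ring

theorem phi3_mem (z : Rˣ × R × R) : phi3 z ∈ cl R := by
  obtain ⟨u, s, t⟩ := z
  have hu : (u : R) * ((u⁻¹ : Rˣ) : R) = 1 := Units.mul_inv u
  refine ⟨?_, unimod_of_isUnit 2 ⟨u, rfl⟩⟩
  apply six_ext <;> simp only [adj_0, adj_1, adj_2, adj_3, adj_4, adj_5, phi3, Pi.zero_apply,
    Matrix.cons_val]
  · linear_combination t ^ 2 * hu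
  · linear_combination s ^ 2 * hu
  · ring
  · linear_combination (-(s * t)) * hu
  · ring
  · ring

theorem phi1_inj : Function.Injective (phi1 (R := R)) := by
  rintro ⟨u, s, t⟩ ⟨u', s', t'⟩ h
  have h0 := congrFun h 0
  have h3 := congrFun h 3
  have h4 := congrFun h 4
  simp only [phi1, Matrix.cons_val] at h0 h3 h4
  rw [Units.ext h0, h3, h4]

theorem phi2_inj : Function.Injective (phi2 (R := R)) := by
  rintro ⟨u, s, t⟩ ⟨u', s', t'⟩ h
  have h0 := congrFun h 1
  have h3 := congrFun h 3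
  have h4 := congrFun h 5
  simp only [phi2, Matrix.cons_val] at h0 h3 h4
  rw [Units.ext h0, h3, h4]

theorem phi3_inj : Function.Injective (phi3 (R := R)) := by
  rintro ⟨u, s, t⟩ ⟨u', s', t'⟩ h
  have h0 := congrFun h 2
  have h3 := congrFun h 4
  have h4 := congrFun h 5
  simp only [phi3, Matrix.cons_val] at h0 h3 h4
  rw [Units.ext h0, h3, h4]

theorem adj_eqs {x : Fin 6 → R} (h : adj x = 0) : x 5 ^ 2 = x 1 * x 2 ∧ x 4 ^ 2 = x 0 * x 2 ∧
    x 3 ^ 2 = x 0 * x 1 ∧ x 4 * x 5 = x 2 * x 3 ∧ x 3 * x 5 = x 1 * x 4 ∧ x 3 * x 4 = x 0 * x 5 := by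
  have h0 := congrFun h 0
  have h1 := congrFun h 1
  have h2 := congrFun h 2
  have h3 := congrFun h 3
  have h4 := congrFun h 4
  have h5 := congrFun h 5
  simp only [adj_0, adj_1, adj_2, adj_3, adj_4, adj_5, Pi.zero_apply] at h0 h1 h2 h3 h4 h5
  refine ⟨?_, ?_, ?_, ?_, ?_, ?_⟩
  · linear_combination -h0
  · linear_combination -h1
  · linear_combination -h2
  · linear_combination h3
  · linear_combination h4
  · linear_combination h5

theorem eq_inv_mul {u : Rˣ} {a b : R} (h : b = u * a) : a = (u⁻¹ : Rˣ) * b := by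
  rw [h, ← mul_assoc, Units.inv_mul, one_mul]

variable [IsLocalRing R]

theorem exists_isUnit_diag {x : Fin 6 → R} (h : x ∈ cl R) :
    IsUnit (x 0) ∨ IsUnit (x 1) ∨ IsUnit (x 2) := by
  obtain ⟨h0, r, hr⟩ := h
  obtain ⟨e5, e4, e3, _, _, _⟩ := adj_eqs h0
  have key : ∃ i, IsUnit (x i) := by
    by_contra hcon
    push Not at hcon
    have h1 : ∑ i, r i * x i ∈ IsLocalRing.maximalIdeal R := by
      refine Ideal.sum_mem _ fun i _ => Ideal.mul_mem_left _ _ ?_
      exact (IsLocalRing.mem_maximalIdeal _).2 (hcon i)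
    rw [hr] at h1
    exact (IsLocalRing.mem_maximalIdeal _).1 h1 isUnit_one
  obtain ⟨i, hi⟩ := key
  fin_cases i
  · exact Or.inl hi
  · exact Or.inr (Or.inl hi)
  · exact Or.inr (Or.inr hi)
  · left
    have : IsUnit (x 0 * x 1) := by rw [← e3]; exact hi.pow 2
    exact isUnit_of_mul_isUnit_left this
  · left
    have : IsUnit (x 0 * x 2) := by rw [← e4]; exact hi.pow 2
    exact isUnit_of_mul_isUnit_left this
  · right; left
    have : IsUnit (x 1 * x 2) := by rw [← e5]; exact hi.pow 2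
    exact isUnit_of_mul_isUnit_left this

theorem cl_eq : cl R = (phi1 '' Set.univ ∪ phi2 '' (Set.univ ×ˢ (nonunits R ×ˢ Set.univ))) ∪
    phi3 '' (Set.univ ×ˢ (nonunits R ×ˢ nonunits R)) := by
  apply Set.Subset.antisymm
  · intro x hx
    obtain ⟨e5, e4, e3, e45, e35, e34⟩ := adj_eqs hx.1
    by_cases h0 : IsUnit (x 0)
    · left; left
      obtain ⟨u, hu⟩ := h0
      refine ⟨(u, x 3, x 4), Set.mem_univ _, ?_⟩
      apply six_ext <;> simp only [phi1, Matrix.cons_val]
      · exact hu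
      · exact (eq_inv_mul (by rw [hu]; exact e3)).symm
      · exact (eq_inv_mul (by rw [hu]; exact e4)).symm
      · exact (eq_inv_mul (by rw [hu]; exact e34)).symm
    by_cases h1 : IsUnit (x 1)
    · left; right
      obtain ⟨u, hu⟩ := h1
      refine ⟨(u, x 3, x 5), ⟨Set.mem_univ _, ?_, Set.mem_univ _⟩, ?_⟩
      · intro h3
        apply h0
        have : IsUnit (x 0 * x 1) := by rw [← e3]; exact h3.pow 2
        exact isUnit_of_mul_isUnit_left this
      · apply six_ext <;> simp only [phi2, Matrix.cons_val]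
        · exact (eq_inv_mul (by rw [hu, e3]; ring)).symm
        · exact hu
        · exact (eq_inv_mul (by rw [hu, e5])).symm
        · exact (eq_inv_mul (by rw [hu, e35])).symm
    · right
      have h2 : IsUnit (x 2) := by
        rcases exists_isUnit_diag hx with h | h | h
        · exact absurd h h0
        · exact absurd h h1
        · exact h
      obtain ⟨u, hu⟩ := h2
      refine ⟨(u, x 4, x 5), ⟨Set.mem_univ _, ?_, ?_⟩, ?_⟩
      · intro h4
        apply h0
        have : IsUnit (x 0 * x 2) := by rw [← e4]; exact h4.pow 2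
        exact isUnit_of_mul_isUnit_left this
      · intro h5
        apply h1
        have : IsUnit (x 1 * x 2) := by rw [← e5]; exact h5.pow 2
        exact isUnit_of_mul_isUnit_left this
      · apply six_ext <;> simp only [phi3, Matrix.cons_val]
        · exact (eq_inv_mul (by rw [hu, e4]; ring)).symm
        · exact (eq_inv_mul (by rw [hu, e5]; ring)).symm
        · exact hu
        · exact (eq_inv_mul (by rw [hu, e45])).symm
  · rintro x ((⟨z, _, rfl⟩ | ⟨z, _, rfl⟩) | ⟨z, _, rfl⟩)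
    · exact phi1_mem z
    · exact phi2_mem z
    · exact phi3_mem z

theorem nonunit_mul_sq {u a : R} (ha : a ∈ nonunits R) : u * a ^ 2 ∈ nonunits R := by
  intro h
  apply ha
  have := isUnit_of_mul_isUnit_right h
  exact (isUnit_pow_iff two_ne_zero).1 this

variable [Finite R]

theorem ncard_cl_local : (cl R).ncard =
    Nat.card Rˣ * ((Nat.card R) ^ 2 + (nonunits R).ncard * Nat.card R + (nonunits R).ncard ^ 2) := by
  have d1 : Disjoint (phi1 (R := R) '' Set.univ)
      (phi2 '' (Set.univ ×ˢ (nonunits R ×ˢ Set.univ))) := by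
    rw [Set.disjoint_left]
    rintro x ⟨z, _, rfl⟩ ⟨w, ⟨_, hw, _⟩, hx⟩
    have := congrFun hx 0
    simp only [phi1, phi2, Matrix.cons_val] at this
    exact nonunit_mul_sq (u := ((w.1⁻¹ : Rˣ) : R)) hw (by rw [this]; exact Units.isUnit _)
  have d2 : Disjoint (phi1 (R := R) '' Set.univ ∪
      phi2 '' (Set.univ ×ˢ (nonunits R ×ˢ Set.univ)))
      (phi3 '' (Set.univ ×ˢ (nonunits R ×ˢ nonunits R))) := by
    rw [Set.disjoint_left]
    rintro x (⟨z, _, rfl⟩ | ⟨z, ⟨_, hz, _⟩, rfl⟩) ⟨w, ⟨_, hw, hw'⟩, hx⟩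
    · have := congrFun hx 0
      simp only [phi1, phi3, Matrix.cons_val] at this
      exact nonunit_mul_sq (u := ((w.1⁻¹ : Rˣ) : R)) hw (by rw [this]; exact Units.isUnit _)
    · have := congrFun hx 1
      simp only [phi2, phi3, Matrix.cons_val] at this
      exact nonunit_mul_sq (u := ((w.1⁻¹ : Rˣ) : R)) hw' (by rw [this]; exact Units.isUnit _)
  rw [cl_eq, Set.ncard_union_eq d2 (Set.toFinite _) (Set.toFinite _),
    Set.ncard_union_eq d1 (Set.toFinite _) (Set.toFinite _),
    Set.ncard_image_of_injective _ phi1_inj, Set.ncard_image_of_injective _ phi2_inj,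
    Set.ncard_image_of_injective _ phi3_inj]
  simp only [Set.ncard_prod, Set.ncard_univ, Nat.card_prod]
  ring

theorem card_units_add : Nat.card Rˣ + (nonunits R).ncard = Nat.card R := by
  have h1 : (nonunits R)ᶜ = Set.range (Units.val : Rˣ → R) := by
    ext x
    simp [nonunits, IsUnit]
  have h2 := Set.ncard_add_ncard_compl (nonunits R)
  rw [h1, ← Set.image_univ, Set.ncard_image_of_injective _ Units.val_injective,
    Set.ncard_univ] at h2
  omega

theorem ncard_cl_add : (cl R).ncard + (nonunits R).ncard ^ 3 = (Nat.card R) ^ 3 := by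
  rw [ncard_cl_local, ← card_units_add (R := R)]
  ring

end local_ring

section ring_equiv

variable {R S T : Type*} [CommRing R] [CommRing S] [CommRing T]

theorem cl_equiv_mem (e : R ≃+* S) (x : Fin 6 → R) : x ∈ cl R ↔ (fun i => e (x i)) ∈ cl S := by
  have h1 : adj (fun i => e (x i)) = fun i => e (adj x i) := adj_map (e : R →+* S) x
  constructor
  · rintro ⟨h, r, hr⟩
    refine ⟨?_, fun i => e (r i), ?_⟩
    · rw [h1, h]; funext i; simp
    · have := congrArg e hr
      rw [map_sum, map_one] at this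
      rw [← this]
      exact Finset.sum_congr rfl fun i _ => (map_mul e _ _).symm
  · rintro ⟨h, r, hr⟩
    refine ⟨?_, fun i => e.symm (r i), ?_⟩
    · funext i
      have := congrFun (h1.symm.trans h) i
      simpa using this
    · apply e.injective
      rw [map_sum, map_one, ← hr]
      refine Finset.sum_congr rfl fun i _ => ?_
      rw [map_mul, RingEquiv.apply_symm_apply]

theorem ncard_cl_equiv (e : R ≃+* S) : (cl R).ncard = (cl S).ncard := by
  refine Set.ncard_congr (fun x _ => fun i => e (x i)) (fun x hx => (cl_equiv_mem e x).1 hx) ?_ ?_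
  · intro x y _ _ h
    funext i
    exact e.injective (congrFun h i)
  · intro y hy
    refine ⟨fun i => e.symm (y i), (cl_equiv_mem e _).2 (by simpa using hy), ?_⟩
    funext i; simp

theorem ncard_cl_prod : (cl (S × T)).ncard = (cl S).ncard * (cl T).ncard := by
  rw [← Set.ncard_prod]
  refine Set.ncard_congr (fun x _ => (fun i => (x i).1, fun i => (x i).2)) ?_ ?_ ?_
  · rintro x ⟨h, r, hr⟩
    have h1 := adj_map (RingHom.fst S T) x
    have h2 := adj_map (RingHom.snd S T) x
    refine ⟨⟨?_, fun i => (r i).1, ?_⟩, ⟨?_, fun i => (r i).2, ?_⟩⟩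
    · have : adj (fun i => (x i).1) = fun i => (adj x i).1 := h1
      simp only [this, h]; funext i; simp
    · have := congrArg Prod.fst hr
      rw [Prod.fst_sum] at this
      simpa using this
    · have : adj (fun i => (x i).2) = fun i => (adj x i).2 := h2
      simp only [this, h]; funext i; simp
    · have := congrArg Prod.snd hr
      rw [Prod.snd_sum] at this
      simpa using this
  · intro x y _ _ h
    rw [Prod.mk.injEq] at h
    funext i
    exact Prod.ext (congrFun h.1 i) (congrFun h.2 i)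
  · rintro ⟨a, b⟩ ⟨⟨ha, r, hr⟩, ⟨hb, s, hs⟩⟩
    refine ⟨fun i => (a i, b i), ⟨?_, fun i => (r i, s i), ?_⟩, rfl⟩
    · have h1 := adj_map (RingHom.fst S T) (fun i => (a i, b i))
      have h2 := adj_map (RingHom.snd S T) (fun i => (a i, b i))
      funext i
      have e1 := congrFun h1 i
      have e2 := congrFun h2 i
      simp only [RingHom.coe_fst, RingHom.coe_snd] at e1 e2
      apply Prod.ext
      · rw [← e1]; exact congrFun ha i
      · rw [← e2]; exact congrFun hb i
    · apply Prod.ext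
      · rw [Prod.fst_sum]; simpa using hr
      · rw [Prod.snd_sum]; simpa using hs

end ring_equiv

end Pool.Agent.Lib.MP_1acd66_nt.Conic
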