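import Pool.Agent.Lib.MP_1acd66_nt.Conic.Vec

/-! Content of integral vectors, and the duality `x ↦ adj x / content`. -/

namespace Pool.Agent.Lib.MP_1acd66_nt.Conic

/-- the content of an integral vector -/
def cont (x : Fin 6 → ℤ) : ℕ := Finset.univ.gcd fun i => (x i).natAbs

theorem dvd_cont_iff {d : ℕ} {x : Fin 6 → ℤ} : d ∣ cont x ↔ ∀ i, (d : ℤ) ∣ x i := by
  unfold cont
  rw [Finset.dvd_gcd_iff]
  constructor
  · intro h i
    exact Int.natCast_dvd.2 (h i (Finset.mem_univ _))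
  · intro h i _
    exact Int.natCast_dvd.1 (h i)

theorem cont_dvd (x : Fin 6 → ℤ) (i : Fin 6) : (cont x : ℤ) ∣ x i :=
  dvd_cont_iff.1 dvd_rfl i

theorem cont_eq_zero {x : Fin 6 → ℤ} : cont x = 0 ↔ x = 0 := by
  unfold cont
  rw [Finset.gcd_eq_zero_iff]
  constructor
  · intro h
    funext i
    exact Int.natAbs_eq_zero.1 (h i (Finset.mem_univ _))
  · rintro rfl i _
    rfl

theorem cont_pos {x : Fin 6 → ℤ} (h : x ≠ 0) : 0 < cont x :=
  Nat.pos_of_ne_zero fun h0 => h (cont_eq_zero.1 h0)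

theorem cont_smul (n : ℕ) (x : Fin 6 → ℤ) : cont ((n : ℤ) • x) = n * cont x := by
  unfold cont
  have : (fun i => (((n : ℤ) • x) i).natAbs) = fun i => n * (x i).natAbs := by
    funext i
    simp [Int.natAbs_mul]
  rw [this, Finset.gcd_mul_left]
  simp

theorem cont_neg (x : Fin 6 → ℤ) : cont (-x) = cont x := by
  unfold cont
  simp

theorem exists_prim {x : Fin 6 → ℤ} (h : x ≠ 0) :
    ∃ x0 : Fin 6 → ℤ, cont x0 = 1 ∧ x = (cont x : ℤ) • x0 := by
  refine ⟨fun i => x i / cont x, ?_, ?_⟩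
  · have h1 : x = (cont x : ℤ) • (fun i => x i / cont x) := by
      funext i
      simp only [Pi.smul_apply, smul_eq_mul]
      exact (Int.mul_ediv_cancel' (cont_dvd x i)).symm
    have h2 := congrArg cont h1
    rw [cont_smul] at h2
    have h3 := cont_pos h
    exact Nat.eq_of_mul_eq_mul_left h3 (by rw [mul_one]; exact h2.symm)
  · funext i
    simp only [Pi.smul_apply, smul_eq_mul]
    exact (Int.mul_ediv_cancel' (cont_dvd x i)).symm

/-- a primitive vector is determined up to sign by the line it spans -/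
theorem prim_unique {x y : Fin 6 → ℤ} (hx : cont x = 1) (hy : cont y = 1) {a b : ℤ} (ha : 0 < a)
    (hb : 0 < b) (h : a • x = b • y) : x = y := by
  lift a to ℕ using ha.le
  lift b to ℕ using hb.le
  have h1 := congrArg cont h
  rw [cont_smul, cont_smul, hx, hy, mul_one, mul_one] at h1
  subst h1
  funext i
  have := congrFun h i
  simp only [Pi.smul_apply, smul_eq_mul] at this
  exact mul_left_cancel₀ ha.ne' this

/-- primitive vectors of positive determinant -/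
structure Pos (x : Fin 6 → ℤ) : Prop where
  prim : cont x = 1
  det : 0 < dt x

theorem Pos.ne_zero {x : Fin 6 → ℤ} (h : Pos x) : x ≠ 0 := by
  rintro rfl
  have := h.det
  simp [dt] at this

theorem adj_ne_zero_of_dt_pos {x : Fin 6 → ℤ} (h : 0 < dt x) : adj x ≠ 0 := by
  intro h0
  have h1 := dt_adj x
  rw [h0] at h1
  have h2 : dt (0 : Fin 6 → ℤ) = 0 := by simp [dt]
  rw [h2] at h1
  have := pow_pos h 2
  omega

theorem Pos.adj_ne_zero {x : Fin 6 → ℤ} (h : Pos x) : adj x ≠ 0 := adj_ne_zero_of_dt_pos h.det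

/-- the content of the adjugate -/
def gc (x : Fin 6 → ℤ) : ℕ := cont (adj x)

theorem Pos.gc_pos {x : Fin 6 → ℤ} (h : Pos x) : 0 < gc x := cont_pos h.adj_ne_zero

/-- the dual vector -/
def dual (x : Fin 6 → ℤ) : Fin 6 → ℤ := fun i => adj x i / gc x

theorem gc_smul_dual (x : Fin 6 → ℤ) : (gc x : ℤ) • dual x = adj x := by
  funext i
  simp only [Pi.smul_apply, smul_eq_mul, dual]
  exact Int.mul_ediv_cancel' (cont_dvd (adj x) i)

theorem Pos.dual {x : Fin 6 → ℤ} (h : Pos x) : Pos (dual x) where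
  prim := by
    have h1 := congrArg cont (gc_smul_dual x)
    rw [cont_smul] at h1
    have h3 := h.gc_pos
    exact Nat.eq_of_mul_eq_mul_left h3 (by rw [mul_one]; exact h1)
  det := by
    have h1 := congrArg dt (gc_smul_dual x)
    rw [dt_smul, dt_adj] at h1
    have h2 : (0:ℤ) < dt x ^ 2 := pow_pos h.det 2
    rw [← h1] at h2
    have h3 : (0:ℤ) < (gc x : ℤ) ^ 3 := pow_pos (by exact_mod_cast h.gc_pos) 3
    exact pos_of_mul_pos_right h2 h3.le

theorem Pos.dual_dual {x : Fin 6 → ℤ} (h : Pos x) : Conic.dual (Conic.dual x) = x := by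
  have h1 := h.dual
  have e1 : (gc x : ℤ) ^ 2 • adj (Conic.dual x) = dt x • x := by
    rw [← adj_smul, gc_smul_dual, adj_adj]
  have e2 := gc_smul_dual (Conic.dual x)
  rw [← e2, smul_smul] at e1
  exact prim_unique h1.dual.prim h.prim
    (mul_pos (pow_pos (by exact_mod_cast h.gc_pos) 2) (by exact_mod_cast h1.gc_pos)) h.det e1

theorem norm_int_smul (n : ℕ) (x : Fin 6 → ℤ) : ‖(n : ℤ) • x‖ = n * ‖x‖ := by
  rw [norm_smul, Int.norm_natCast]

theorem gc_mul_norm_dual (x : Fin 6 → ℤ) : (gc x : ℝ) * ‖dual x‖ = ‖adj x‖ := by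
  rw [← gc_smul_dual x, norm_int_smul]

theorem one_le_norm {x : Fin 6 → ℤ} (h : x ≠ 0) : 1 ≤ ‖x‖ := by
  obtain ⟨i, hi⟩ := Function.ne_iff.1 h
  refine le_trans ?_ (norm_le_pi_norm x i)
  rw [Int.norm_eq_abs]
  have h1 : (1:ℤ) ≤ |x i| := Int.one_le_abs hi
  exact_mod_cast h1

theorem norm_adj_le {K : Type*} [NormedCommRing K] (u : Fin 6 → K) : ‖adj u‖ ≤ 2 * ‖u‖ ^ 2 := by
  have hm : ∀ i j, ‖u i * u j‖ ≤ ‖u‖ ^ 2 := by
    intro i j
    calc ‖u i * u j‖ ≤ ‖u i‖ * ‖u j‖ := norm_mul_le _ _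
      _ ≤ ‖u‖ * ‖u‖ := mul_le_mul (norm_le_pi_norm _ _) (norm_le_pi_norm _ _) (norm_nonneg _)
          (norm_nonneg _)
      _ = ‖u‖ ^ 2 := by ring
  have hs : ∀ i j k l, ‖u i * u j - u k * u l‖ ≤ 2 * ‖u‖ ^ 2 := by
    intro i j k l
    calc _ ≤ ‖u i * u j‖ + ‖u k * u l‖ := norm_sub_le _ _
      _ ≤ ‖u‖ ^ 2 + ‖u‖ ^ 2 := add_le_add (hm _ _) (hm _ _)
      _ = _ := by ring
  rw [pi_norm_le_iff_of_nonneg (by positivity)]
  intro i
  fin_cases i
  · have := hs 1 2 5 5; simpa [adj, sq] using this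
  · have := hs 0 2 4 4; simpa [adj, sq] using this
  · have := hs 0 1 3 3; simpa [adj, sq] using this
  · exact hs 4 5 2 3
  · exact hs 3 5 1 4
  · exact hs 3 4 0 5

end Pool.Agent.Lib.MP_1acd66_nt.Conic
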