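import Mathlib

/-!
The variety of complete conics `V ⊂ P(Sym²) × P(Sym²)` (the blow-up of `P⁵` along the Veronese
surface): pairs `(x, y)` of nonzero symmetric `3 × 3` matrices with `x * y` scalar, up to scaling
of each of them. Its anticanonical bundle is the restriction of `O(2,2)`; adelic norms on it and
the associated heights over `ℚ`.
-/

namespace Pool.Agent.Lib.MP_1acd66_nt.Conic

/-- Homogeneous coordinates `(x, y)` of a point of the variety of complete conics: nonzero
symmetric matrices with scalar product. -/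
structure IsPair {K : Type*} [Field K] (x y : Matrix (Fin 3) (Fin 3) K) : Prop where
  symm_x : x.IsSymm
  symm_y : y.IsSymm
  ne_x : x ≠ 0
  ne_y : y ≠ 0
  scalar : ∃ c : K, x * y = c • (1 : Matrix (Fin 3) (Fin 3) K)

/-- The maximum of the absolute values of the entries. -/
noncomputable def size {K : Type*} [NormedField K] (x : Matrix (Fin 3) (Fin 3) K) : ℝ :=
  ‖(fun i j => x i j : Fin 3 → Fin 3 → K)‖

/-- The norms on the anticanonical bundle `O(2,2)` over a local field, as functions of the
coordinates: continuous, positive, and homogeneous of degree `2` in `x` and in `y`. -/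
structure IsLocalNorm (K : Type*) [NormedField K]
    (M : Matrix (Fin 3) (Fin 3) K → Matrix (Fin 3) (Fin 3) K → ℝ) : Prop where
  cont : ContinuousOn (fun z : Matrix (Fin 3) (Fin 3) K × Matrix (Fin 3) (Fin 3) K => M z.1 z.2)
    {z | IsPair z.1 z.2}
  pos : ∀ x y, IsPair x y → 0 < M x y
  scale : ∀ x y, IsPair x y → ∀ s t : K, s ≠ 0 → t ≠ 0 →
    M (s • x) (t • y) = ‖s‖ ^ 2 * ‖t‖ ^ 2 * M x y

instance factPrime (p : Nat.Primes) : Fact p.1.Prime := ⟨p.2⟩

/-- An adelic metric on the anticanonical bundle: local norms at all places of `ℚ`, given by the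
standard integral model at all but finitely many primes. -/
structure AdelicNorm where
  /-- the norm at the real place -/
  inf : Matrix (Fin 3) (Fin 3) ℝ → Matrix (Fin 3) (Fin 3) ℝ → ℝ
  /-- the norm at the prime `p` -/
  fin : ∀ p : Nat.Primes, Matrix (Fin 3) (Fin 3) ℚ_[(p : ℕ)] →
    Matrix (Fin 3) (Fin 3) ℚ_[(p : ℕ)] → ℝ
  isNorm_inf : IsLocalNorm ℝ inf
  isNorm_fin : ∀ p : Nat.Primes, IsLocalNorm ℚ_[(p : ℕ)] (fin p)
  almost : ∃ S : Finset Nat.Primes, ∀ p : Nat.Primes, p ∉ S → ∀ x y, IsPair x y →
    fin p x y = size x ^ 2 * size y ^ 2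

/-- Rational coordinates of a point. -/
structure Rep where
  /-- the first matrix -/
  x : Matrix (Fin 3) (Fin 3) ℚ
  /-- the second matrix -/
  y : Matrix (Fin 3) (Fin 3) ℚ
  pair : IsPair x y

/-- Two coordinate systems describe the same point: they differ by two scalars. -/
def Same (a b : Rep) : Prop :=
  ∃ s t : ℚ, s ≠ 0 ∧ t ≠ 0 ∧ b.x = s • a.x ∧ b.y = t • a.y

/-- The set `V(ℚ)` of rational points of the variety of complete conics. -/
def Pt : Type := Quot Same

/-- The point with given coordinates. -/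
def pt (a : Rep) : Pt := Quot.mk _ a

/-- A rational matrix with entries regarded in a field `K`. -/
def castK (K : Type*) [Field K] (x : Matrix (Fin 3) (Fin 3) ℚ) : Matrix (Fin 3) (Fin 3) K :=
  fun i j => (x i j : K)

/-- The relative anticanonical height in terms of coordinates. -/
noncomputable def AdelicNorm.height (h : AdelicNorm) (a : Rep) : ℝ :=
  h.inf (castK ℝ a.x) (castK ℝ a.y) *
    ∏ᶠ p : Nat.Primes, h.fin p (castK ℚ_[(p : ℕ)] a.x) (castK ℚ_[(p : ℕ)] a.y)

/-- The points `(x, y)` of height at most `B` with `x` nondegenerate, that is, the smooth conics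
of height at most `B`. -/
def countSet (h : AdelicNorm) (B : ℝ) : Set Pt :=
  {P | ∃ a, pt a = P ∧ a.x.det ≠ 0 ∧ h.height a ≤ B}

end Pool.Agent.Lib.MP_1acd66_nt.Conic
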