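import Pool.Agent.Lib.MP_1acd66_nt.Conic.Near

/-! Summation over dyadic shells. -/

set_option linter.unusedSectionVars false

namespace Pool.Agent.Lib.MP_1acd66_nt.Conic

/-- an auxiliary potential -/
noncomputable def pot (t : ℝ) : ℝ := if t ≤ 1 then 2 * t else 4 - 2 / t

theorem pot_nonneg {t : ℝ} (ht : 0 < t) : 0 ≤ pot t := by
  unfold pot
  split_ifs with h
  · linarith
  · push Not at h
    have : 2 / t ≤ 2 := by
      rw [div_le_iff₀ ht]; linarith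
    linarith

theorem pot_le {t : ℝ} (ht : 0 < t) : pot t ≤ 4 := by
  unfold pot
  split_ifs with h
  · linarith
  · have : 0 < 2 / t := by positivity
    linarith

theorem pot_step {t : ℝ} (ht : 0 < t) : pot t + min (2 * t) (2 * t)⁻¹ ≤ pot (2 * t) := by
  unfold pot
  by_cases h1 : 2 * t ≤ 1
  · have h2 : t ≤ 1 := by linarith
    rw [if_pos h1, if_pos h2]
    have := min_le_left (2 * t) (2 * t)⁻¹
    linarith
  · rw [if_neg h1]
    push Not at h1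
    have h3 := min_le_right (2 * t) (2 * t)⁻¹
    by_cases h2 : t ≤ 1
    · rw [if_pos h2]
      have h4 : 2 * t + (2 * t)⁻¹ ≤ 4 - 2 / (2 * t) := by
        have e : 4 - 2 / (2 * t) - (2 * t + (2 * t)⁻¹) = (2 * t - 1) * (3 - 2 * t) / (2 * t) := by
          field_simp; ring
        have : 0 ≤ (2 * t - 1) * (3 - 2 * t) / (2 * t) := by
          apply div_nonneg _ (by positivity)
          apply mul_nonneg <;> linarith
        linarith
      linarith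
    · rw [if_neg h2]
      have e : (4 - 2 / (2 * t)) - (4 - 2 / t) - (2 * t)⁻¹ = (2 * t)⁻¹ := by
        field_simp; ring
      have : 0 < (2 * t)⁻¹ := by positivity
      linarith

theorem sum_min_le {X : ℝ} (hX : 0 < X) (n : ℕ) :
    ∑ i ∈ Finset.range n, min ((2:ℝ) ^ (i + 1) / X) (X / 2 ^ (i + 1)) ≤ 4 := by
  have key : ∑ i ∈ Finset.range n, min ((2:ℝ) ^ (i + 1) / X) (X / 2 ^ (i + 1)) ≤
      pot (2 ^ n / X) := by
    induction n with
    | zero => simpa using pot_nonneg (t := 1 / X) (by positivity)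
    | succ n ih =>
      rw [Finset.sum_range_succ]
      have h1 := pot_step (t := 2 ^ n / X) (by positivity)
      have e1 : 2 * ((2:ℝ) ^ n / X) = 2 ^ (n + 1) / X := by rw [pow_succ]; ring
      rw [e1, inv_div] at h1
      linarith
  exact key.trans (pot_le (by positivity))

theorem min_pow_le {u : ℝ} (hu : 0 < u) : min (u ^ 6) ((u⁻¹) ^ 3) ≤ min u u⁻¹ := by
  rcases le_total u 1 with h | h
  · have h1 : u ^ 6 ≤ u := pow_le_of_le_one hu.le h (by norm_num)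
    have h2 : 1 ≤ u⁻¹ := (one_le_inv₀ hu).2 h
    exact (min_le_left _ _).trans (le_min h1 (h1.trans (h.trans h2)))
  · have h2 : u⁻¹ ≤ 1 := inv_le_one_of_one_le₀ h
    have h3 : (u⁻¹) ^ 3 ≤ u⁻¹ := pow_le_of_le_one (by positivity) h2 (by norm_num)
    exact (min_le_right _ _).trans (le_min (h3.trans (h2.trans h)) h3)

/-- The set of points satisfying the height condition `‖x‖ ‖adj x‖ ≤ X ^ 3` in the classes
modulo `g`, on the side `‖x‖ ≤ ‖adj x‖ / g`. -/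
def hset (g : ℕ) (X : ℝ) : Set (Fin 6 → ℤ) :=
  {x | red g x ∈ cl (ZMod g) ∧ x ≠ 0 ∧ g * ‖x‖ ≤ ‖adj x‖ ∧ ‖x‖ * ‖adj x‖ ≤ X ^ 3}

theorem hset_norm_ge {g : ℕ} {X : ℝ} {x : Fin 6 → ℤ} (hx : x ∈ hset g X) : (g:ℝ) ≤ 2 * ‖x‖ := by
  obtain ⟨_, h1, h2, _⟩ := hx
  have h3 := one_le_norm h1
  have h4 := norm_adj_le x
  have : (g:ℝ) * ‖x‖ ≤ (2 * ‖x‖) * ‖x‖ := by nlinarith
  exact le_of_mul_le_mul_right this (by linarith)

theorem hset_norm_le {g : ℕ} (_hg : 0 < g) {X : ℝ} {x : Fin 6 → ℤ} (hx : x ∈ hset g X) :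
    g * ‖x‖ ^ 2 ≤ X ^ 3 := by
  obtain ⟨_, h1, h2, h3⟩ := hx
  have := norm_nonneg x
  nlinarith

theorem hset_finite {g : ℕ} (hg : 0 < g) {X : ℝ} : (hset g X).Finite := by
  refine (finite_ball (X ^ 3)).subset fun x hx => ?_
  have h1 := hset_norm_le hg hx
  have h2 := one_le_norm hx.2.1
  have hg' : (1:ℝ) ≤ g := by exact_mod_cast hg
  have : ‖x‖ ≤ g * ‖x‖ ^ 2 := by nlinarith
  exact this.trans h1

theorem hset_eq_zero {g : ℕ} (hg : 0 < g) {X : ℝ} (h : (4:ℝ) * X ^ 3 < g ^ 3) : hset g X = ∅ := by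
  rw [Set.eq_empty_iff_forall_notMem]
  intro x hx
  have h1 := hset_norm_le hg hx
  have h2 := hset_norm_ge hx
  have hg' : (0:ℝ) < g := by exact_mod_cast hg
  have h3 : (g:ℝ) ^ 2 ≤ (2 * ‖x‖) ^ 2 := pow_le_pow_left₀ hg'.le h2 2
  nlinarith

theorem shell_count {g : ℕ} (hg : 0 < g) {X : ℝ} (hX : 0 < X) (i : ℕ) :
    ((({x ∈ hset g X | 2 ^ i ≤ ‖x‖ ∧ ‖x‖ < 2 ^ (i + 1)}).ncard : ℕ) : ℝ) ≤
      160000000 * (X ^ 6 / g ^ 3) *
        min (((2:ℝ) ^ (i + 1) / X) ^ 6) (((2:ℝ) ^ (i + 1) / X)⁻¹ ^ 3) := by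
  have hg' : (0:ℝ) < g := by exact_mod_cast hg
  set S := {x ∈ hset g X | (2:ℝ) ^ i ≤ ‖x‖ ∧ ‖x‖ < 2 ^ (i + 1)} with hS
  rcases S.eq_empty_or_nonempty with h0 | ⟨x0, hx0⟩
  · rw [h0, Set.ncard_empty, Nat.cast_zero]
    positivity
  set R : ℝ := 2 ^ (i + 1) with hR
  have hR0 : 0 < R := by positivity
  have hR2 : (2:ℝ) ^ i = R / 2 := by rw [hR, pow_succ]; ring
  set T : ℝ := min (2 * R) (2 * X ^ 3 / R ^ 2) with hT
  have hgR : (g:ℝ) ≤ 2 * R := by
    have := hset_norm_ge hx0.1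
    have := hx0.2.2
    linarith
  have hgT : (g:ℝ) ≤ 4 * T := by
    rw [hT, mul_min_of_nonneg _ _ (by norm_num : (0:ℝ) ≤ 4)]
    apply le_min
    · linarith
    · have h1 := hset_norm_le hg hx0.1
      have h2 : R / 2 ≤ ‖x0‖ := by rw [← hR2]; exact hx0.2.1
      have h3 : (R / 2) ^ 2 ≤ ‖x0‖ ^ 2 := pow_le_pow_left₀ (by positivity) h2 2
      have h4 : g * (R / 2) ^ 2 ≤ X ^ 3 := (mul_le_mul_of_nonneg_left h3 hg'.le).trans h1
      have h5 : (g:ℝ) * R ^ 2 ≤ 4 * (2 * X ^ 3) := by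
        have : 0 < X ^ 3 := by positivity
        nlinarith
      rw [← mul_div_assoc, le_div_iff₀ (by positivity)]
      exact h5
  have h1 := near_count hg hgR hgT
  have h2 : S ⊆ {x : Fin 6 → ℤ | red g x ∈ cl (ZMod g) ∧ ‖x‖ ≤ R ∧ R / 2 ≤ ‖x‖ ∧ ‖adj x‖ ≤ T * R} := by
    rintro x ⟨hx, hx1, hx2⟩
    rw [hR2] at hx1
    refine ⟨hx.1, hx2.le, hx1, ?_⟩
    rw [hT, min_mul_of_nonneg _ _ hR0.le]
    apply le_min
    · have h3 := norm_adj_le x
      have h4 : ‖x‖ ^ 2 ≤ R ^ 2 := pow_le_pow_left₀ (norm_nonneg _) hx2.le 2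
      nlinarith
    · have h3 := hx.2.2.2
      have e : 2 * X ^ 3 / R ^ 2 * R = X ^ 3 / (R / 2) := by field_simp
      rw [e, le_div_iff₀ (by positivity)]
      have h4 : ‖adj x‖ * (R / 2) ≤ ‖adj x‖ * ‖x‖ := mul_le_mul_of_nonneg_left hx1 (norm_nonneg _)
      linarith [mul_comm ‖x‖ ‖adj x‖]
  have h3 : ((S.ncard : ℕ) : ℝ) ≤ 20000000 * (R * T / g) ^ 3 := by
    refine le_trans ?_ h1
    norm_cast
    exact Set.ncard_le_ncard h2 ((finite_ball R).subset fun x hx => hx.2.1)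
  refine h3.trans (le_of_eq ?_)
  have e1 : (R * T) ^ 3 = 8 * X ^ 6 * min ((R / X) ^ 6) ((R / X)⁻¹ ^ 3) := by
    rw [hT]
    rcases le_total (2 * R) (2 * X ^ 3 / R ^ 2) with h | h
    · rw [min_eq_left h]
      have h5 : (R / X) ^ 6 ≤ (R / X)⁻¹ ^ 3 := by
        have h6 : R ^ 3 ≤ X ^ 3 := by
          rw [le_div_iff₀ (by positivity)] at h
          nlinarith
        rw [inv_div, div_pow, div_pow, div_le_div_iff₀ (by positivity) (by positivity)]
        have e2 : R ^ 6 * R ^ 3 = (R ^ 3) ^ 3 := by ring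
        have e3 : X ^ 3 * X ^ 6 = (X ^ 3) ^ 3 := by ring
        rw [e2, e3]
        exact pow_le_pow_left₀ (by positivity) h6 3
      rw [min_eq_left h5]
      field_simp
      ring
    · rw [min_eq_right h]
      have h5 : (R / X)⁻¹ ^ 3 ≤ (R / X) ^ 6 := by
        have h6 : X ^ 3 ≤ R ^ 3 := by
          rw [div_le_iff₀ (by positivity)] at h
          nlinarith
        rw [inv_div, div_pow, div_pow, div_le_div_iff₀ (by positivity) (by positivity)]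
        have e2 : R ^ 6 * R ^ 3 = (R ^ 3) ^ 3 := by ring
        have e3 : X ^ 3 * X ^ 6 = (X ^ 3) ^ 3 := by ring
        rw [e2, e3]
        exact pow_le_pow_left₀ (by positivity) h6 3
      rw [min_eq_right h5]
      field_simp
      ring
  have e2 : (R * T / g) ^ 3 = (R * T) ^ 3 / g ^ 3 := by rw [div_pow]
  rw [e2, e1]
  ring

theorem shells_sum {g : ℕ} (hg : 0 < g) {X : ℝ} (hX : 0 < X) {S : Set (Fin 6 → ℤ)}
    (hS : S ⊆ hset g X) {δ : ℝ} (hδ : 0 ≤ δ)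
    (h : ∀ i : ℕ, (∃ x ∈ S, (2:ℝ) ^ i ≤ ‖x‖ ∧ ‖x‖ < 2 ^ (i + 1)) →
      min (((2:ℝ) ^ (i + 1) / X) ^ 6) (((2:ℝ) ^ (i + 1) / X)⁻¹ ^ 3) ≤
        δ * min ((2:ℝ) ^ (i + 1) / X) (X / 2 ^ (i + 1))) :
    (S.ncard : ℝ) ≤ 640000000 * δ * (X ^ 6 / g ^ 3) := by
  classical
  have hfin : S.Finite := (hset_finite hg).subset hS
  obtain ⟨n, hn⟩ : ∃ n : ℕ, ∀ x ∈ S, ‖x‖ < 2 ^ n := by
    obtain ⟨M, hM⟩ := (hfin.image (fun x => ‖x‖)).bddAbove
    obtain ⟨n, hn⟩ := pow_unbounded_of_one_lt M (one_lt_two : (1:ℝ) < 2)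
    exact ⟨n, fun x hx => (hM (Set.mem_image_of_mem _ hx)).trans_lt hn⟩
  set sh : ℕ → Set (Fin 6 → ℤ) := fun i => {x ∈ S | (2:ℝ) ^ i ≤ ‖x‖ ∧ ‖x‖ < 2 ^ (i + 1)} with hsh
  have hcov : S ⊆ ⋃ i ∈ Finset.range n, sh i := by
    intro x hx
    have h1 := one_le_norm (hS hx).2.1
    obtain ⟨i, hi⟩ := exists_nat_pow_near h1 (one_lt_two : (1:ℝ) < 2)
    simp only [Set.mem_iUnion, Finset.mem_range]
    refine ⟨i, ?_, hx, hi⟩
    by_contra hcon
    push Not at hcon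
    have : (2:ℝ) ^ n ≤ 2 ^ i := pow_le_pow_right₀ one_le_two hcon
    linarith [hn x hx, hi.1]
  have hle : (S.ncard : ℝ) ≤ ∑ i ∈ Finset.range n, ((sh i).ncard : ℝ) := by
    have h1 := Set.ncard_le_ncard hcov (Set.Finite.biUnion (Finset.finite_toSet _)
      (fun i _ => hfin.subset fun x hx => hx.1))
    have h2 := h1.trans (Finset.set_ncard_biUnion_le _ _)
    exact_mod_cast h2
  refine hle.trans ?_
  calc ∑ i ∈ Finset.range n, ((sh i).ncard : ℝ)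
      ≤ ∑ i ∈ Finset.range n, (160000000 * (X ^ 6 / g ^ 3) * δ) *
          min ((2:ℝ) ^ (i + 1) / X) (X / 2 ^ (i + 1)) := by
        refine Finset.sum_le_sum fun i _ => ?_
        rcases (sh i).eq_empty_or_nonempty with h0 | ⟨x0, hx0⟩
        · rw [h0, Set.ncard_empty, Nat.cast_zero]
          positivity
        · have h1 := shell_count hg hX i
          have h2 : ((sh i).ncard : ℝ) ≤
              (({x ∈ hset g X | (2:ℝ) ^ i ≤ ‖x‖ ∧ ‖x‖ < 2 ^ (i + 1)}.ncard : ℕ) : ℝ) := by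
            exact Nat.cast_le.2 (Set.ncard_le_ncard (fun x hx => ⟨hS hx.1, hx.2⟩)
              ((hset_finite hg).subset fun x hx => hx.1))
          refine (h2.trans h1).trans ?_
          have h3 := h i ⟨x0, hx0.1, hx0.2⟩
          have h4 : 0 ≤ 160000000 * (X ^ 6 / (g:ℝ) ^ 3) := by positivity
          calc _ ≤ 160000000 * (X ^ 6 / (g:ℝ) ^ 3) *
                (δ * min ((2:ℝ) ^ (i + 1) / X) (X / 2 ^ (i + 1))) :=
                mul_le_mul_of_nonneg_left h3 h4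
            _ = _ := by ring
    _ = (160000000 * (X ^ 6 / g ^ 3) * δ) *
          ∑ i ∈ Finset.range n, min ((2:ℝ) ^ (i + 1) / X) (X / 2 ^ (i + 1)) := by
        rw [Finset.mul_sum]
    _ ≤ (160000000 * (X ^ 6 / g ^ 3) * δ) * 4 :=
        mul_le_mul_of_nonneg_left (sum_min_le hX n) (by positivity)
    _ = _ := by ring

/-- Lemma U: the number of points in the height region. -/
theorem hset_count {g : ℕ} (hg : 0 < g) {X : ℝ} (hX : 0 < X) :
    ((hset g X).ncard : ℝ) ≤ 640000000 * (X ^ 6 / g ^ 3) := by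
  have := shells_sum hg hX (S := hset g X) subset_rfl (δ := 1) zero_le_one (by
    intro i _
    have := min_pow_le (u := (2:ℝ) ^ (i + 1) / X) (by positivity)
    rw [one_mul]
    rwa [inv_div] at this ⊢)
  rwa [mul_one] at this

/-- The cusp: points of large norm. -/
theorem hset_cusp {g : ℕ} (hg : 0 < g) {X K : ℝ} (hX : 0 < X) (hK : 1 ≤ K) :
    (({x ∈ hset g X | K * X ≤ ‖x‖}.ncard : ℕ) : ℝ) ≤ 640000000 * (1 / K ^ 2) * (X ^ 6 / g ^ 3) := by
  refine shells_sum hg hX (S := {x ∈ hset g X | K * X ≤ ‖x‖}) (fun x hx => hx.1) (δ := 1 / K ^ 2)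
    (by positivity) ?_
  rintro i ⟨x, ⟨_, hx1⟩, _, hx2⟩
  have h1 : K < (2:ℝ) ^ (i + 1) / X := by
    rw [lt_div_iff₀ hX]; linarith
  set u : ℝ := (2:ℝ) ^ (i + 1) / X with hu
  have hu0 : 0 < u := by linarith
  have h2 : X / 2 ^ (i + 1) = u⁻¹ := by rw [hu, inv_div]
  rw [h2]
  have h3 : min u u⁻¹ = u⁻¹ := min_eq_right ((inv_le_one_of_one_le₀ (by linarith)).trans (by linarith))
  rw [h3]
  refine (min_le_right _ _).trans ?_
  have h4 : (u⁻¹) ^ 2 ≤ 1 / K ^ 2 := by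
    rw [inv_pow, one_div]
    exact inv_anti₀ (by positivity) (pow_le_pow_left₀ (by positivity) h1.le 2)
  calc (u⁻¹) ^ 3 = (u⁻¹) ^ 2 * u⁻¹ := by ring
    _ ≤ _ := mul_le_mul_of_nonneg_right h4 (by positivity)

end Pool.Agent.Lib.MP_1acd66_nt.Conic
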