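import Mathlib

/-! The sum of reciprocals of the integers coprime to `M`. -/

open Filter Topology

namespace Pool.Agent.Lib.MP_1acd66_nt.Conic

/-- the sum of `1 / g` over `1 ≤ g ≤ N` coprime to `M` -/
noncomputable def hsum (M N : ℕ) : ℝ :=
  ∑ g ∈ (Finset.Icc 1 N).filter (fun g => g.Coprime M), 1 / (g : ℝ)

theorem hsum_nonneg (M N : ℕ) : 0 ≤ hsum M N := Finset.sum_nonneg fun _ _ => by positivity

theorem hsum_mono (M : ℕ) {N N' : ℕ} (h : N ≤ N') : hsum M N ≤ hsum M N' := by
  unfold hsum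
  refine Finset.sum_le_sum_of_subset_of_nonneg ?_ (fun _ _ _ => by positivity)
  exact Finset.filter_subset_filter _ (Finset.Icc_subset_Icc_right h)

/-- one block -/
theorem block_sum {M : ℕ} (hM : 0 < M) {j : ℕ} (hj : 0 < j) :
    (M.totient : ℝ) / M * (1 / ((j:ℝ) + 1)) ≤
      ∑ g ∈ (Finset.Ico (j * M) (j * M + M)).filter (fun g => g.Coprime M), 1 / (g : ℝ) ∧
    ∑ g ∈ (Finset.Ico (j * M) (j * M + M)).filter (fun g => g.Coprime M), 1 / (g : ℝ) ≤
      (M.totient : ℝ) / M * (1 / (j:ℝ)) := by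
  have hM' : (0:ℝ) < M := by exact_mod_cast hM
  have hj' : (0:ℝ) < j := by exact_mod_cast hj
  have hcard : ((Finset.Ico (j * M) (j * M + M)).filter (fun g => g.Coprime M)).card = M.totient := by
    have := Nat.filter_coprime_Ico_eq_totient M (j * M)
    rw [← this]
    congr 1
    ext g
    simp [Nat.coprime_comm]
  constructor
  · have : ∀ g ∈ (Finset.Ico (j * M) (j * M + M)).filter (fun g => g.Coprime M),
        1 / (((j:ℝ) + 1) * M) ≤ 1 / (g:ℝ) := by
      intro g hg
      rw [Finset.mem_filter, Finset.mem_Ico] at hg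
      have h1 : 0 < g := lt_of_lt_of_le (Nat.mul_pos hj hM) hg.1.1
      have h2 : (g:ℝ) ≤ ((j:ℝ) + 1) * M := by
        have : (g:ℝ) ≤ ((j * M + M : ℕ) : ℝ) := by exact_mod_cast hg.1.2.le
        push_cast at this
        linarith
      exact one_div_le_one_div_of_le (by exact_mod_cast h1) h2
    have h3 := Finset.card_nsmul_le_sum _ _ _ this
    rw [hcard, nsmul_eq_mul] at h3
    refine le_trans (le_of_eq ?_) h3
    field_simp
  · have : ∀ g ∈ (Finset.Ico (j * M) (j * M + M)).filter (fun g => g.Coprime M),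
        1 / (g:ℝ) ≤ 1 / ((j:ℝ) * M) := by
      intro g hg
      rw [Finset.mem_filter, Finset.mem_Ico] at hg
      have h2 : ((j:ℝ) * M) ≤ g := by exact_mod_cast hg.1.1
      exact one_div_le_one_div_of_le (by positivity) h2
    have h3 := Finset.sum_le_card_nsmul _ _ _ this
    rw [hcard, nsmul_eq_mul] at h3
    refine h3.trans (le_of_eq ?_)
    field_simp

/-- the sum over blocks -/
theorem blocks_sum {M : ℕ} (hM : 0 < M) (J : ℕ) :
    (M.totient : ℝ) / M * ((harmonic (J + 1) : ℝ) - 1) ≤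
      ∑ g ∈ (Finset.Ico M ((J + 1) * M)).filter (fun g => g.Coprime M), 1 / (g : ℝ) ∧
    ∑ g ∈ (Finset.Ico M ((J + 1) * M)).filter (fun g => g.Coprime M), 1 / (g : ℝ) ≤
      (M.totient : ℝ) / M * (harmonic J : ℝ) := by
  induction J with
  | zero => simp [harmonic]
  | succ J ih =>
    have h1 := block_sum hM (j := J + 1) (by omega)
    have hsplit : ∑ g ∈ (Finset.Ico M ((J + 1 + 1) * M)).filter (fun g => g.Coprime M), 1 / (g : ℝ) =
        (∑ g ∈ (Finset.Ico M ((J + 1) * M)).filter (fun g => g.Coprime M), 1 / (g : ℝ)) +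
        ∑ g ∈ (Finset.Ico ((J + 1) * M) ((J + 1) * M + M)).filter (fun g => g.Coprime M),
          1 / (g : ℝ) := by
      rw [← Finset.sum_union]
      · congr 1
        rw [← Finset.filter_union, Finset.Ico_union_Ico_eq_Ico]
        · congr 2; ring
        · nlinarith
        · nlinarith
      · refine Finset.disjoint_filter_filter ?_
        exact Finset.Ico_disjoint_Ico_consecutive _ _ _
    rw [hsplit]
    have hJ : (0:ℝ) < (M.totient : ℝ) / M := by
      have := Nat.totient_pos.2 hM
      positivity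
    have e1 : (harmonic (J + 1 + 1) : ℝ) = harmonic (J + 1) + 1 / ((J:ℝ) + 1 + 1) := by
      rw [harmonic_succ]; push_cast; ring
    have e2 : (harmonic (J + 1) : ℝ) = harmonic J + 1 / ((J:ℝ) + 1) := by
      rw [harmonic_succ]; push_cast; ring
    push_cast at h1
    constructor
    · rw [e1]
      have := ih.1
      have := h1.1
      nlinarith
    · rw [e2]
      have := ih.2
      have := h1.2
      nlinarith

theorem hsum_bounds {M : ℕ} (hM : 0 < M) {N : ℕ} (hN : M ≤ N) :
    (M.totient : ℝ) / M * (Real.log N - Real.log M - 1) ≤ hsum M N ∧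
      hsum M N ≤ M + (M.totient : ℝ) / M * (1 + Real.log N) := by
  have hM' : (0:ℝ) < M := by exact_mod_cast hM
  have hN' : (0:ℝ) < N := by exact_mod_cast (lt_of_lt_of_le hM hN)
  have hφ : (0:ℝ) < (M.totient : ℝ) / M := by
    have := Nat.totient_pos.2 hM
    positivity
  set J := N / M with hJ
  have hJ1 : 1 ≤ J := (Nat.one_le_div_iff hM).2 hN
  have hJM : J * M ≤ N := Nat.div_mul_le_self N M
  have hJM2 : N < (J + 1) * M := by
    have h := Nat.lt_div_mul_add (a := N) hM
    rw [← hJ] at h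
    linarith [h, (by ring : (J + 1) * M = J * M + M)]
  constructor
  · obtain ⟨j, hj⟩ : ∃ j, J = j + 1 := ⟨J - 1, by omega⟩
    have h1 := (blocks_sum hM j).1
    have h2 : ∑ g ∈ (Finset.Ico M ((j + 1) * M)).filter (fun g => g.Coprime M), 1 / (g : ℝ) ≤
        hsum M N := by
      unfold hsum
      refine Finset.sum_le_sum_of_subset_of_nonneg ?_ (fun _ _ _ => by positivity)
      refine Finset.filter_subset_filter _ ?_
      intro g hg
      rw [Finset.mem_Ico] at hg
      rw [Finset.mem_Icc]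
      rw [← hj] at hg
      exact ⟨by omega, by omega⟩
    refine le_trans ?_ (h1.trans h2)
    apply mul_le_mul_of_nonneg_left _ hφ.le
    have h3 := log_add_one_le_harmonic (j + 1)
    have h4 : Real.log N - Real.log M ≤ Real.log ((j + 1 : ℕ) + 1 : ℝ) := by
      rw [← Real.log_div hN'.ne' hM'.ne']
      apply Real.log_le_log (by positivity)
      rw [div_le_iff₀ hM', ← hj]
      exact_mod_cast hJM2.le
    push_cast at h3 h4
    linarith
  · have h1 := (blocks_sum hM J).2
    have h2 : hsum M N ≤ (∑ g ∈ (Finset.Ico 1 M).filter (fun g => g.Coprime M), 1 / (g : ℝ)) +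
        ∑ g ∈ (Finset.Ico M ((J + 1) * M)).filter (fun g => g.Coprime M), 1 / (g : ℝ) := by
      rw [← Finset.sum_union]
      · unfold hsum
        refine Finset.sum_le_sum_of_subset_of_nonneg ?_ (fun _ _ _ => by positivity)
        rw [← Finset.filter_union, Finset.Ico_union_Ico_eq_Ico hM (by nlinarith)]
        refine Finset.filter_subset_filter _ ?_
        intro g hg
        rw [Finset.mem_Icc] at hg
        rw [Finset.mem_Ico]
        exact ⟨hg.1, by omega⟩
      · exact Finset.disjoint_filter_filter (Finset.Ico_disjoint_Ico_consecutive _ _ _)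
    have h3 : ∑ g ∈ (Finset.Ico 1 M).filter (fun g => g.Coprime M), 1 / (g : ℝ) ≤ M := by
      have : ∀ g ∈ (Finset.Ico 1 M).filter (fun g => g.Coprime M), 1 / (g:ℝ) ≤ 1 := by
        intro g hg
        rw [Finset.mem_filter, Finset.mem_Ico] at hg
        have : (1:ℝ) ≤ g := by exact_mod_cast hg.1.1
        rw [div_le_one (by linarith)]
        exact this
      refine (Finset.sum_le_card_nsmul _ _ _ this).trans ?_
      rw [nsmul_eq_mul, mul_one]
      have h4 : ((Finset.Ico 1 M).filter (fun g => g.Coprime M)).card ≤ M := by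
        refine (Finset.card_filter_le _ _).trans ?_
        rw [Nat.card_Ico]
        omega
      exact_mod_cast h4
    have h5 := harmonic_le_one_add_log J
    have h6 : Real.log J ≤ Real.log N := by
      apply Real.log_le_log
      · exact_mod_cast (by omega : 0 < J)
      · exact_mod_cast Nat.div_le_self N M
    have h7 : (M.totient : ℝ) / M * (harmonic J : ℝ) ≤ (M.totient : ℝ) / M * (1 + Real.log N) :=
      mul_le_mul_of_nonneg_left (by linarith) hφ.le
    linarith

theorem tendsto_log_floor {c : ℝ} (hc : 0 < c) :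
    Tendsto (fun B : ℝ => Real.log (⌊c * B ^ ((1:ℝ) / 4)⌋₊ : ℝ) / Real.log B) atTop (𝓝 (1 / 4)) := by
  have hlog : Tendsto (fun B : ℝ => Real.log B) atTop atTop := Real.tendsto_log_atTop
  have hY : Tendsto (fun B : ℝ => c * B ^ ((1:ℝ) / 4)) atTop atTop :=
    (tendsto_rpow_atTop (by norm_num)).const_mul_atTop hc
  have h1 : ∀ a : ℝ, 0 < a → Tendsto (fun B : ℝ => Real.log (a * B ^ ((1:ℝ) / 4)) / Real.log B)
      atTop (𝓝 (1 / 4)) := by
    intro a ha
    have e : (fun B : ℝ => Real.log a / Real.log B + 1 / 4) =ᶠ[atTop]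
        fun B : ℝ => Real.log (a * B ^ ((1:ℝ) / 4)) / Real.log B := by
      filter_upwards [eventually_gt_atTop (1:ℝ)] with B hB
      have hB0 : 0 < B := by linarith
      have hl : 0 < Real.log B := Real.log_pos hB
      rw [Real.log_mul ha.ne' (by positivity), Real.log_rpow hB0]
      field_simp
    refine Tendsto.congr' e ?_
    have := (hlog.const_div_atTop (Real.log a)).add_const (1 / 4)
    rwa [zero_add] at this
  refine tendsto_of_tendsto_of_tendsto_of_le_of_le' (h1 (c / 2) (by positivity)) (h1 c hc) ?_ ?_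
  · filter_upwards [eventually_gt_atTop (1:ℝ), hY.eventually_ge_atTop 2] with B hB hB2
    have hl : 0 < Real.log B := Real.log_pos hB
    apply div_le_div_of_nonneg_right _ hl.le
    apply Real.log_le_log (by positivity)
    have h2 := Nat.lt_floor_add_one (c * B ^ ((1:ℝ) / 4))
    have e : c / 2 * B ^ ((1:ℝ) / 4) = (c * B ^ ((1:ℝ) / 4)) / 2 := by ring
    rw [e]
    linarith
  · filter_upwards [eventually_gt_atTop (1:ℝ), hY.eventually_ge_atTop 2] with B hB hB2
    have hl : 0 < Real.log B := Real.log_pos hB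
    apply div_le_div_of_nonneg_right _ hl.le
    apply Real.log_le_log
    · have : 1 ≤ ⌊c * B ^ ((1:ℝ) / 4)⌋₊ := Nat.le_floor (by push_cast; linarith)
      exact_mod_cast this
    · exact Nat.floor_le (by linarith)

theorem tendsto_hsum {M : ℕ} (hM : 0 < M) {c : ℝ} (hc : 0 < c) :
    Tendsto (fun B : ℝ => hsum M ⌊c * B ^ ((1:ℝ) / 4)⌋₊ / Real.log B) atTop
      (𝓝 ((M.totient : ℝ) / M * (1 / 4))) := by
  have hlog : Tendsto (fun B : ℝ => Real.log B) atTop atTop := Real.tendsto_log_atTop
  have hY : Tendsto (fun B : ℝ => c * B ^ ((1:ℝ) / 4)) atTop atTop :=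
    (tendsto_rpow_atTop (by norm_num)).const_mul_atTop hc
  have h0 := tendsto_log_floor hc
  set φ : ℝ := (M.totient : ℝ) / M with hφ
  have l1 : Tendsto (fun B : ℝ => φ * (Real.log (⌊c * B ^ ((1:ℝ) / 4)⌋₊ : ℝ) / Real.log B) +
      (φ * (- Real.log M - 1)) / Real.log B) atTop (𝓝 (φ * (1 / 4))) := by
    have := (h0.const_mul φ).add (hlog.const_div_atTop (φ * (- Real.log M - 1)))
    rwa [add_zero] at this
  have l2 : Tendsto (fun B : ℝ => φ * (Real.log (⌊c * B ^ ((1:ℝ) / 4)⌋₊ : ℝ) / Real.log B) +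
      (M + φ) / Real.log B) atTop (𝓝 (φ * (1 / 4))) := by
    have := (h0.const_mul φ).add (hlog.const_div_atTop (M + φ))
    rwa [add_zero] at this
  refine tendsto_of_tendsto_of_tendsto_of_le_of_le' l1 l2 ?_ ?_
  · filter_upwards [eventually_gt_atTop (1:ℝ), hY.eventually_ge_atTop M] with B hB hB2
    have hl : 0 < Real.log B := Real.log_pos hB
    have h3 := (hsum_bounds hM (N := ⌊c * B ^ ((1:ℝ) / 4)⌋₊) (Nat.le_floor hB2)).1
    have e : φ * (Real.log (⌊c * B ^ ((1:ℝ) / 4)⌋₊ : ℝ) / Real.log B) +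
      (φ * (- Real.log M - 1)) / Real.log B =
      (φ * (Real.log (⌊c * B ^ ((1:ℝ) / 4)⌋₊ : ℝ) - Real.log M - 1)) / Real.log B := by
      field_simp
      ring
    rw [e]
    exact div_le_div_of_nonneg_right h3 hl.le
  · filter_upwards [eventually_gt_atTop (1:ℝ), hY.eventually_ge_atTop M] with B hB hB2
    have hl : 0 < Real.log B := Real.log_pos hB
    have h3 := (hsum_bounds hM (N := ⌊c * B ^ ((1:ℝ) / 4)⌋₊) (Nat.le_floor hB2)).2
    have e : φ * (Real.log (⌊c * B ^ ((1:ℝ) / 4)⌋₊ : ℝ) / Real.log B) +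
      (M + φ) / Real.log B =
      (M + φ * (1 + Real.log (⌊c * B ^ ((1:ℝ) / 4)⌋₊ : ℝ))) / Real.log B := by
      field_simp
      ring
    rw [e]
    exact div_le_div_of_nonneg_right h3 hl.le

end Pool.Agent.Lib.MP_1acd66_nt.Conic
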