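import Pool.Agent.Lib.MP_1acd66_nt.Conic.Points

/-! The height of the point of a primitive vector, the counting set, and duality. -/

set_option linter.unusedSectionVars false

namespace Pool.Agent.Lib.MP_1acd66_nt.Conic

open Filter

/-- the finite set `S` contains all the primes at which the norm is not standard -/
def Good (h : AdelicNorm) (S : Finset Nat.Primes) : Prop :=
  ∀ p : Nat.Primes, p ∉ S → ∀ x y, IsPair x y → h.fin p x y = size x ^ 2 * size y ^ 2

/-- the height in terms of the primitive vector -/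
noncomputable def hx (h : AdelicNorm) (S : Finset Nat.Primes) (x : Fin 6 → ℤ) : ℝ :=
  realF h.inf (castR x) * psi h S x / (gc x : ℝ) ^ 2

theorem castK_real (x : Fin 6 → ℤ) : castK ℝ (mat (castQ x)) = mat (castR x) := castK_mat x

theorem castK_padic (p : ℕ) [Fact p.Prime] (x : Fin 6 → ℤ) :
    castK ℚ_[p] (mat (castQ x)) = mat (toP p x) := castK_mat x

theorem castR_ne_zero {x : Fin 6 → ℤ} (h : x ≠ 0) : castR x ≠ 0 := by
  intro h0
  apply h
  funext i
  have := congrFun h0 i
  simpa [castR] using this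

theorem norm_toP_adj (p : Nat.Primes) {x : Fin 6 → ℤ} (h : Pos x) :
    ‖toP (p:ℕ) (adj x)‖ = pn (gc x : ℚ) p := by
  have hp : (p:ℕ).Prime := p.2
  rw [← gc_smul_dual x, toP_smul, norm_smul, norm_toP_eq_one, mul_one]
  · simp [pn]
  · rw [h.dual.prim]
    exact fun h1 => hp.one_lt.ne' (Nat.dvd_one.1 h1)

theorem loc_rep (h : AdelicNorm) {x : Fin 6 → ℤ} (hp : Pos x) (p : Nat.Primes) :
    h.loc (rep x hp) p = phi (p:ℕ) (h.fin p) x * pn (gc x : ℚ) p ^ 2 := by
  have e1 : h.loc (rep x hp) p = h.fin p (mat (toP (p:ℕ) x)) (mat (toP (p:ℕ) (adj x))) := by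
    rw [← castK_padic, ← castK_padic]
    rfl
  have h1 : ‖toP (p:ℕ) x‖ = 1 := norm_toP_eq_one _ (by
    rw [hp.prim]
    exact fun h1 => p.2.one_lt.ne' (Nat.dvd_one.1 h1))
  have h2 : 0 < ‖toP (p:ℕ) (adj x)‖ := norm_pos_iff.2 (toP_ne_zero _ hp.adj_ne_zero)
  rw [e1, phi, ← norm_toP_adj p hp, h1, one_mul]
  field_simp

theorem phi_good {h : AdelicNorm} {S : Finset Nat.Primes} (hS : Good h S) {p : Nat.Primes}
    (hp : p ∉ S) {x : Fin 6 → ℤ} (hx : adj x ≠ 0) : phi (p:ℕ) (h.fin p) x = 1 := by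
  have h1 : 0 < ‖toP (p:ℕ) x‖ := norm_pos_iff.2 (toP_ne_zero _ (ne_zero_of_adj hx))
  have h2 : 0 < ‖toP (p:ℕ) (adj x)‖ := norm_pos_iff.2 (toP_ne_zero _ hx)
  rw [phi, hS p hp _ _ (isPair_toP _ hx), size_mat, size_mat]
  field_simp

theorem height_rep {h : AdelicNorm} {S : Finset Nat.Primes} (hS : Good h S) {x : Fin 6 → ℤ}
    (hp : Pos x) : h.height (rep x hp) = hx h S x := by
  have hadj := hp.adj_ne_zero
  have e1 : h.height (rep x hp) = h.inf (castK ℝ (mat (castQ x))) (castK ℝ (mat (castQ (adj x)))) *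
    ∏ᶠ p, h.loc (rep x hp) p := rfl
  have hg : (gc x : ℚ) ≠ 0 := by exact_mod_cast hp.gc_pos.ne'
  have f1 : Function.HasFiniteMulSupport (fun p : Nat.Primes => phi (p:ℕ) (h.fin p) x) := by
    refine (S.finite_toSet).subset ?_
    intro p hp'
    by_contra hpS
    exact hp' (phi_good hS hpS hadj)
  have f2 : Function.HasFiniteMulSupport (fun p => pn (gc x : ℚ) p ^ 2) :=
    hasFinite_of_eventually (by
      filter_upwards [pn_eventually hg] with p hp
      rw [hp, one_pow])
  have e2 : ∏ᶠ p : Nat.Primes, phi (p:ℕ) (h.fin p) x = psi h S x := by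
    rw [psi, finprod_eq_prod_of_mulSupport_subset]
    intro p hp'
    rw [Finset.mem_coe]
    by_contra hpS
    exact hp' (phi_good hS hpS hadj)
  have e3 : ∏ᶠ p, h.loc (rep x hp) p = psi h S x * (1 / (gc x : ℝ)) ^ 2 := by
    rw [finprod_congr (loc_rep h hp), finprod_mul_distrib f1 f2, e2, ← finprod_pow (pn_hasFinite hg),
      finprod_pn_nat _ hp.gc_pos.ne', one_div]
  have e4 : h.inf (castK ℝ (mat (castQ x))) (castK ℝ (mat (castQ (adj x)))) =
      realF h.inf (castR x) := by
    rw [castK_real, castK_real, realF_of_ne, adj_castR]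
    rw [adj_castR]
    exact castR_ne_zero hadj
  rw [e1, e3, e4, hx]
  ring

/-- the set of primitive vectors of height at most `B` -/
def NU (h : AdelicNorm) (S : Finset Nat.Primes) (B : ℝ) : Set (Fin 6 → ℤ) :=
  {x | Pos x ∧ hx h S x ≤ B}

theorem countSet_eq {h : AdelicNorm} {S : Finset Nat.Primes} (hS : Good h S) (B : ℝ) :
    ∃ f : {x : Fin 6 → ℤ // Pos x} → Pt, Function.Injective f ∧
      countSet h B = f '' {x | hx h S x.1 ≤ B} := by
  refine ⟨fun x => pt (rep x.1 x.2), ?_, ?_⟩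
  · intro x y hxy
    exact Subtype.ext (rep_inj x.2 y.2 hxy)
  · ext P
    constructor
    · rintro ⟨a, rfl, hdet, hB⟩
      obtain ⟨x, hx1, hx2⟩ := exists_rep a hdet
      refine ⟨⟨x, hx1⟩, ?_, pt_eq_iff.2 hx2⟩
      change hx h S x ≤ B
      rw [← height_rep hS hx1, ← h.height_same hx2]
      exact hB
    · rintro ⟨⟨x, hx1⟩, hx2, rfl⟩
      refine ⟨rep x hx1, rfl, rep_det x hx1, ?_⟩
      rw [height_rep hS hx1]
      exact hx2

theorem NU_eq (h : AdelicNorm) (S : Finset Nat.Primes) (B : ℝ) :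
    NU h S B = Subtype.val '' {x : {x : Fin 6 → ℤ // Pos x} | hx h S x.1 ≤ B} := by
  ext x
  constructor
  · rintro ⟨h1, h2⟩
    exact ⟨⟨x, h1⟩, h2, rfl⟩
  · rintro ⟨⟨y, h1⟩, h2, rfl⟩
    exact ⟨h1, h2⟩

theorem ncard_countSet {h : AdelicNorm} {S : Finset Nat.Primes} (hS : Good h S) (B : ℝ) :
    (countSet h B).ncard = (NU h S B).ncard := by
  obtain ⟨f, hf, e⟩ := countSet_eq hS B
  rw [e, NU_eq, Set.ncard_image_of_injective _ hf,
    Set.ncard_image_of_injective _ Subtype.val_injective]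

theorem finite_countSet {h : AdelicNorm} {S : Finset Nat.Primes} (hS : Good h S) {B : ℝ}
    (hfin : (NU h S B).Finite) : (countSet h B).Finite := by
  obtain ⟨f, hf, e⟩ := countSet_eq hS B
  rw [e]
  refine Set.Finite.image f ?_
  rw [NU_eq] at hfin
  exact hfin.of_finite_image Subtype.val_injective.injOn

/-- the local norm with the roles of the two matrices exchanged -/
theorem IsLocalNorm.swap {K : Type*} [NormedField K]
    {M : Matrix (Fin 3) (Fin 3) K → Matrix (Fin 3) (Fin 3) K → ℝ} (hM : IsLocalNorm K M) :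
    IsLocalNorm K (fun x y => M y x) where
  cont := by
    have h1 : ContinuousOn (fun z : Matrix (Fin 3) (Fin 3) K × Matrix (Fin 3) (Fin 3) K =>
      (z.2, z.1)) {z | IsPair z.1 z.2} := (continuous_snd.prodMk continuous_fst).continuousOn
    exact hM.cont.comp h1 (fun z hz => hz.symm)
  pos x y hxy := hM.pos y x hxy.symm
  scale x y hxy s t hs ht := by
    rw [hM.scale y x hxy.symm t s ht hs]
    ring

/-- the dual adelic norm -/
def AdelicNorm.swap (h : AdelicNorm) : AdelicNorm where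
  inf x y := h.inf y x
  fin p x y := h.fin p y x
  isNorm_inf := h.isNorm_inf.swap
  isNorm_fin p := (h.isNorm_fin p).swap
  almost := by
    obtain ⟨S, hS⟩ := h.almost
    refine ⟨S, fun p hp x y hxy => ?_⟩
    rw [hS p hp y x hxy.symm]
    ring

theorem Good.swap {h : AdelicNorm} {S : Finset Nat.Primes} (hS : Good h S) : Good h.swap S := by
  intro p hp x y hxy
  change h.fin p y x = _
  rw [hS p hp y x hxy.symm]
  ring

/-- the representative with the two matrices exchanged -/
def Rep.swap (a : Rep) : Rep := ⟨a.y, a.x, a.pair.symm⟩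

theorem height_swap (h : AdelicNorm) (a : Rep) : h.swap.height a.swap = h.height a := rfl

theorem Same.swap {a b : Rep} (h : Same a b) : Same a.swap b.swap := by
  obtain ⟨s, t, hs, ht, h1, h2⟩ := h
  exact ⟨t, s, ht, hs, h2, h1⟩

theorem rep_dual {x : Fin 6 → ℤ} (h : Pos x) : Same (rep (dual x) h.dual) (rep x h).swap := by
  have hg : (gc x : ℚ) ≠ 0 := by exact_mod_cast h.gc_pos.ne'
  have hg2 : (gc (dual x) : ℚ) ≠ 0 := by exact_mod_cast h.dual.gc_pos.ne'
  refine ⟨gc x, (gc (dual x) : ℚ)⁻¹, hg, inv_ne_zero hg2, ?_, ?_⟩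
  · change mat (castQ (adj x)) = (gc x : ℚ) • mat (castQ (dual x))
    rw [← gc_smul_dual x, castQ_smul, mat_smul]
    push_cast
    rfl
  · change mat (castQ x) = (gc (dual x) : ℚ)⁻¹ • mat (castQ (adj (dual x)))
    have e : castQ (adj (dual x)) = (gc (dual x) : ℚ) • castQ x := by
      rw [← gc_smul_dual (dual x), castQ_smul, h.dual_dual]
      push_cast
      rfl
    rw [e, mat_smul, smul_smul, inv_mul_cancel₀ hg2, one_smul]

theorem hx_dual {h : AdelicNorm} {S : Finset Nat.Primes} (hS : Good h S) {x : Fin 6 → ℤ}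
    (hp : Pos x) : hx h.swap S (dual x) = hx h S x := by
  rw [← height_rep hS.swap hp.dual, ← height_rep hS hp, ← height_swap h (rep x hp)]
  exact (h.swap.height_same (rep_dual hp)).symm

theorem swap_swap (h : AdelicNorm) : h.swap.swap = h := rfl

end Pool.Agent.Lib.MP_1acd66_nt.Conic
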