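import Pool.Agent.Lib.MP_1acd66_nt.Conic.ClassBound

/-! Integral vectors in the classes. -/

set_option linter.unusedSectionVars false

namespace Pool.Agent.Lib.MP_1acd66_nt.Conic

/-- reduction of an integral vector -/
def red (g : ℕ) (x : Fin 6 → ℤ) : Fin 6 → ZMod g := fun i => (x i : ZMod g)

theorem adj_red (g : ℕ) (x : Fin 6 → ℤ) : adj (red g x) = red g (adj x) :=
  adj_map (Int.castRingHom (ZMod g)) x

theorem red_eq_zero {g : ℕ} {x : Fin 6 → ℤ} : red g x = 0 ↔ g ∣ cont x := by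
  rw [dvd_cont_iff]
  constructor
  · intro h i
    exact (ZMod.intCast_zmod_eq_zero_iff_dvd _ _).1 (congrFun h i)
  · intro h
    funext i
    exact (ZMod.intCast_zmod_eq_zero_iff_dvd _ _).2 (h i)

theorem red_eq_red {g : ℕ} {x y : Fin 6 → ℤ} : red g x = red g y ↔ ∀ i, (g : ℤ) ∣ x i - y i := by
  constructor
  · intro h i
    have := congrFun h i
    simp only [red] at this
    rw [← ZMod.intCast_zmod_eq_zero_iff_dvd]
    push_cast
    rw [this, sub_self]
  · intro h
    funext i
    have := (ZMod.intCast_zmod_eq_zero_iff_dvd _ _).2 (h i)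
    push_cast at this
    simp only [red]
    exact sub_eq_zero.1 this

theorem exists_bezout (x : Fin 6 → ℤ) : ∃ r : Fin 6 → ℤ, ∑ i, r i * x i = cont x := by
  obtain ⟨f, hf⟩ := Finset.gcd_eq_sum_mul Finset.univ x
  have h1 : (cont x : ℤ) = Finset.univ.gcd x := by
    apply Int.dvd_antisymm (by positivity)
    · have := Finset.normalize_gcd (s := Finset.univ) (f := x)
      rw [← this]
      exact Int.nonneg_of_normalize_eq_self (by rw [this, this])
    · rw [Finset.dvd_gcd_iff]
      exact fun i _ => cont_dvd x i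
    · have h2 : (Finset.univ.gcd x).natAbs ∣ cont x := by
        rw [dvd_cont_iff]
        intro i
        rw [Int.natAbs_dvd]
        exact Finset.gcd_dvd (Finset.mem_univ i)
      exact Int.natAbs_dvd.1 (Int.natCast_dvd_natCast.2 h2)
  rw [h1, hf]
  exact ⟨f, Finset.sum_congr rfl fun i _ => by ring⟩

theorem inCl_iff {g : ℕ} (x : Fin 6 → ℤ) :
    red g x ∈ cl (ZMod g) ↔ g ∣ gc x ∧ (cont x).Coprime g := by
  have h0 : adj (red g x) = 0 ↔ g ∣ gc x := by
    rw [adj_red, red_eq_zero, gc]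
  constructor
  · rintro ⟨h1, r, hr⟩
    refine ⟨h0.1 h1, ?_⟩
    set d := (cont x).gcd g with hd
    have hdg : d ∣ g := Nat.gcd_dvd_right _ _
    have hdx : d ∣ cont x := Nat.gcd_dvd_left _ _
    have h2 := congrArg (ZMod.castHom hdg (ZMod d)) hr
    rw [map_sum, map_one] at h2
    have h3 : ∀ i, (ZMod.castHom hdg (ZMod d)) (r i * red g x i) = 0 := by
      intro i
      rw [map_mul]
      have : (ZMod.castHom hdg (ZMod d)) (red g x i) = 0 := by
        simp only [red, map_intCast]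
        exact (ZMod.intCast_zmod_eq_zero_iff_dvd _ _).2 (dvd_cont_iff.1 hdx i)
      rw [this, mul_zero]
    rw [Finset.sum_eq_zero (fun i _ => h3 i)] at h2
    have h4 : ((1:ℕ) : ZMod d) = 0 := by rw [Nat.cast_one]; exact h2.symm
    rw [ZMod.natCast_eq_zero_iff] at h4
    exact Nat.dvd_one.1 h4
  · rintro ⟨h1, h2⟩
    refine ⟨h0.2 h1, ?_⟩
    obtain ⟨r, hr⟩ := exists_bezout x
    obtain ⟨s, hs⟩ : ∃ s : ZMod g, s * (cont x : ZMod g) = 1 := by
      have : IsUnit ((cont x : ℕ) : ZMod g) := (ZMod.isUnit_iff_coprime _ _).2 h2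
      obtain ⟨u, hu⟩ := this
      exact ⟨(u⁻¹ : (ZMod g)ˣ), by rw [← hu, Units.inv_mul]⟩
    refine ⟨fun i => s * (r i : ZMod g), ?_⟩
    have h3 := congrArg (Int.castRingHom (ZMod g)) hr
    rw [map_sum] at h3
    simp only [eq_intCast, Int.cast_mul, Int.cast_natCast] at h3
    rw [← hs, ← h3, Finset.mul_sum]
    refine Finset.sum_congr rfl fun i _ => ?_
    simp only [red]
    ring

end Pool.Agent.Lib.MP_1acd66_nt.Conic
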