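import Mathlib

/-! Counting points of shifted lattices in bounded sets with null boundary, uniformly in the
shift. -/

open MeasureTheory Metric Set Filter Topology

namespace Pool.Agent.Lib.MP_1acd66_nt.Conic

/-- the half-open cell with corner `(z + v) / t` and side `1 / t` -/
def cell (t : ℝ) (v : Fin 6 → ℝ) (z : Fin 6 → ℤ) : Set (Fin 6 → ℝ) :=
  Set.pi univ fun i => Ico (((z i : ℝ) + v i) / t) (((z i : ℝ) + v i + 1) / t)

/-- the corner of the cell -/
noncomputable def corner (t : ℝ) (v : Fin 6 → ℝ) (z : Fin 6 → ℤ) : Fin 6 → ℝ :=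
  fun i => ((z i : ℝ) + v i) / t

theorem volume_cell {t : ℝ} (ht : 0 < t) (v : Fin 6 → ℝ) (z : Fin 6 → ℤ) :
    volume (cell t v z) = ENNReal.ofReal ((1 / t) ^ 6) := by
  rw [cell, Real.volume_pi_Ico]
  have : ∀ i : Fin 6, ENNReal.ofReal (((z i : ℝ) + v i + 1) / t - ((z i : ℝ) + v i) / t) =
      ENNReal.ofReal (1 / t) := by
    intro i
    congr 1
    field_simp
    ring
  rw [Finset.prod_congr rfl fun i _ => this i, Finset.prod_const, Finset.card_univ,
    Fintype.card_fin, ← ENNReal.ofReal_pow (by positivity)]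

theorem measurableSet_cell (t : ℝ) (v : Fin 6 → ℝ) (z : Fin 6 → ℤ) :
    MeasurableSet (cell t v z) :=
  MeasurableSet.univ_pi fun _ => measurableSet_Ico

theorem mem_cell_iff {t : ℝ} (ht : 0 < t) {v : Fin 6 → ℝ} {z : Fin 6 → ℤ} {y : Fin 6 → ℝ} :
    y ∈ cell t v z ↔ ∀ i, ⌊t * y i - v i⌋ = z i := by
  simp only [cell, Set.mem_pi, mem_univ, forall_true_left, mem_Ico]
  refine forall_congr' fun i => ?_
  rw [Int.floor_eq_iff, div_le_iff₀ ht, lt_div_iff₀ ht]
  constructor
  · rintro ⟨h1, h2⟩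
    constructor <;> nlinarith
  · rintro ⟨h1, h2⟩
    constructor <;> nlinarith

theorem dist_corner {t : ℝ} (ht : 0 < t) {v : Fin 6 → ℝ} {z : Fin 6 → ℤ} {y : Fin 6 → ℝ}
    (h : y ∈ cell t v z) : dist y (corner t v z) ≤ 1 / t := by
  rw [dist_pi_le_iff (by positivity)]
  intro i
  have hi := h i (mem_univ i)
  rw [mem_Ico] at hi
  rw [Real.dist_eq, abs_le]
  simp only [corner]
  have : ((z i : ℝ) + v i + 1) / t = ((z i : ℝ) + v i) / t + 1 / t := by ring
  rw [this] at hi
  have h0 : 0 ≤ 1 / t := by positivity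
  constructor <;> linarith [hi.1, hi.2]

theorem exists_cell {t : ℝ} (ht : 0 < t) (v : Fin 6 → ℝ) (y : Fin 6 → ℝ) :
    ∃ z, y ∈ cell t v z :=
  ⟨fun i => ⌊t * y i - v i⌋, (mem_cell_iff ht).2 fun _ => rfl⟩

theorem disjoint_cell {t : ℝ} (ht : 0 < t) (v : Fin 6 → ℝ) {z w : Fin 6 → ℤ} (h : z ≠ w) :
    Disjoint (cell t v z) (cell t v w) := by
  rw [Set.disjoint_left]
  intro y h1 h2
  apply h
  funext i
  rw [← (mem_cell_iff ht).1 h1 i, (mem_cell_iff ht).1 h2 i]

theorem frontier_near {R : Set (Fin 6 → ℝ)} {x y : Fin 6 → ℝ} (hx : x ∈ R) (hy : y ∉ R) :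
    ∃ z ∈ frontier R, dist x z ≤ dist x y := by
  obtain ⟨z, hz, h⟩ := exists_mem_frontier_infDist_compl_eq_dist hx
    (fun h => hy (h ▸ mem_univ y))
  exact ⟨z, hz, h ▸ infDist_le_dist_of_mem hy⟩

theorem finite_corner {R : Set (Fin 6 → ℝ)} (hb : Bornology.IsBounded R) {t : ℝ} (ht : 0 < t)
    (v : Fin 6 → ℝ) : {z : Fin 6 → ℤ | corner t v z ∈ R}.Finite := by
  obtain ⟨K, hK⟩ := hb.exists_norm_le
  refine (Set.finite_Icc (fun i => -⌈t * K + |v i|⌉ : Fin 6 → ℤ) (fun i => ⌈t * K + |v i|⌉)).subset ?_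
  intro z hz
  have h : ∀ i, |z i| ≤ ⌈t * K + |v i|⌉ := by
    intro i
    have h1 := (norm_le_pi_norm (corner t v z) i).trans (hK _ hz)
    rw [Real.norm_eq_abs] at h1
    simp only [corner] at h1
    rw [abs_div, abs_of_pos ht, div_le_iff₀ ht] at h1
    have h2 : |(z i : ℝ)| ≤ t * K + |v i| := by
      calc |(z i : ℝ)| = |((z i : ℝ) + v i) - v i| := by ring_nf
        _ ≤ |(z i : ℝ) + v i| + |v i| := abs_sub _ _
        _ ≤ _ := by linarith
    have h3 := h2.trans (Int.le_ceil _)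
    exact_mod_cast h3
  exact ⟨fun i => (abs_le.1 (h i)).1, fun i => (abs_le.1 (h i)).2⟩

/-- Uniform lattice point count. -/
theorem lattice_count {R : Set (Fin 6 → ℝ)} (hb : Bornology.IsBounded R) (_hm : MeasurableSet R)
    (hf : volume (frontier R) = 0) {δ : ℝ} (hδ : 0 < δ) :
    ∃ t0 : ℝ, 0 < t0 ∧ ∀ t, t0 ≤ t → ∀ v : Fin 6 → ℝ,
      |(({z : Fin 6 → ℤ | corner t v z ∈ R}.ncard : ℕ) : ℝ) - t ^ 6 * volume.real R| ≤ δ * t ^ 6 := by
  have hcomp : IsCompact (frontier R) :=
    Metric.isCompact_of_isClosed_isBounded isClosed_frontier (hb.closure.subset frontier_subset_closure)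
  have h1 := tendsto_measure_cthickening_of_isCompact (μ := (volume : Measure (Fin 6 → ℝ))) hcomp
  rw [hf] at h1
  have h2 : ∀ᶠ r in 𝓝 (0:ℝ), volume (cthickening r (frontier R)) < ENNReal.ofReal δ :=
    (tendsto_order.1 h1).2 _ (by simpa using hδ)
  obtain ⟨r0, hr0, hr⟩ := Metric.eventually_nhds_iff.1 h2
  refine ⟨4 / r0, by positivity, ?_⟩
  intro t ht v
  have ht0 : 0 < t := lt_of_lt_of_le (by positivity) ht
  have hrt : 2 / t < r0 := by
    rw [div_le_iff₀ hr0] at ht
    rw [div_lt_iff₀ ht0]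
    linarith
  have hN : volume (cthickening (2 / t) (frontier R)) < ENNReal.ofReal δ := by
    apply hr
    rw [Real.dist_eq, sub_zero, abs_of_pos (by positivity)]
    exact hrt
  set N := cthickening (2 / t) (frontier R) with hNdef
  have hfin := finite_corner hb ht0 v
  set S := hfin.toFinset with hS
  have hmemS : ∀ z, z ∈ S ↔ corner t v z ∈ R := by
    intro z; simp [hS]
  set U : Set (Fin 6 → ℝ) := ⋃ z ∈ S, cell t v z with hU
  have hUvol : volume U = ENNReal.ofReal ((1 / t) ^ 6 * S.card) := by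
    rw [hU, measure_biUnion_finset]
    · simp only [volume_cell ht0, Finset.sum_const, nsmul_eq_mul]
      rw [mul_comm ((1 / t) ^ 6), ENNReal.ofReal_mul (by positivity), ENNReal.ofReal_natCast]
    · intro z _ w _ hzw
      exact disjoint_cell ht0 v hzw
    · intro z _
      exact measurableSet_cell t v z
  have hsub1 : U ⊆ R ∪ N := by
    intro y hy
    simp only [hU, mem_iUnion] at hy
    obtain ⟨z, hz, hyz⟩ := hy
    by_cases hyR : y ∈ R
    · exact Or.inl hyR
    · right
      obtain ⟨w, hw, hd⟩ := frontier_near ((hmemS z).1 hz) hyR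
      have h3 := dist_corner ht0 hyz
      refine mem_cthickening_of_dist_le y w _ _ hw ?_
      calc dist y w ≤ dist y (corner t v z) + dist (corner t v z) w := dist_triangle _ _ _
        _ ≤ 1 / t + 1 / t := add_le_add h3 (hd.trans (by rw [dist_comm]; exact h3))
        _ = 2 / t := by ring
  have hsub2 : R ⊆ U ∪ N := by
    intro y hy
    obtain ⟨z, hz⟩ := exists_cell ht0 v y
    by_cases hzR : corner t v z ∈ R
    · left
      simp only [hU, mem_iUnion]
      exact ⟨z, (hmemS z).2 hzR, hz⟩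
    · right
      obtain ⟨w, hw, hd⟩ := frontier_near hy hzR
      have h3 := dist_corner ht0 hz
      refine mem_cthickening_of_dist_le y w _ _ hw ?_
      calc dist y w ≤ 1 / t := hd.trans h3
        _ ≤ 2 / t := by
          apply div_le_div_of_nonneg_right _ ht0.le
          norm_num
  have hRtop : volume R ≠ ⊤ := hb.measure_lt_top.ne
  have hNtop : volume N ≠ ⊤ := (hN.trans ENNReal.ofReal_lt_top).ne
  have hUtop : volume U ≠ ⊤ := by rw [hUvol]; exact ENNReal.ofReal_ne_top
  have hNr : volume.real N ≤ δ := by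
    rw [Measure.real]
    have := ENNReal.toReal_mono ENNReal.ofReal_ne_top hN.le
    rwa [ENNReal.toReal_ofReal hδ.le] at this
  have hUr : volume.real U = (1 / t) ^ 6 * S.card := by
    rw [Measure.real, hUvol, ENNReal.toReal_ofReal (by positivity)]
  have e1 : volume.real U ≤ volume.real R + volume.real N := by
    have := ENNReal.toReal_mono (ENNReal.add_ne_top.2 ⟨hRtop, hNtop⟩)
      ((measure_mono hsub1).trans (measure_union_le _ _))
    rwa [ENNReal.toReal_add hRtop hNtop] at this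
  have e2 : volume.real R ≤ volume.real U + volume.real N := by
    have := ENNReal.toReal_mono (ENNReal.add_ne_top.2 ⟨hUtop, hNtop⟩)
      ((measure_mono hsub2).trans (measure_union_le _ _))
    rwa [ENNReal.toReal_add hUtop hNtop] at this
  rw [hUr] at e1 e2
  have hc : {z : Fin 6 → ℤ | corner t v z ∈ R}.ncard = S.card := Set.ncard_eq_toFinset_card _ hfin
  rw [hc]
  have ht6 : 0 < t ^ 6 := by positivity
  have e3 : t ^ 6 * ((1 / t) ^ 6 * (S.card : ℝ)) = S.card := by
    field_simp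
  rw [abs_le]
  constructor
  · have := mul_le_mul_of_nonneg_left e2 ht6.le
    have := mul_le_mul_of_nonneg_left hNr ht6.le
    nlinarith
  · have := mul_le_mul_of_nonneg_left e1 ht6.le
    have := mul_le_mul_of_nonneg_left hNr ht6.le
    nlinarith

end Pool.Agent.Lib.MP_1acd66_nt.Conic
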