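import Pool.Agent.Lib.MP_1acd66_nt.Conic.ClassSum

/-! The asymptotic formula. -/

set_option linter.unusedSectionVars false

open Metric Set Filter Topology

namespace Pool.Agent.Lib.MP_1acd66_nt.Conic

variable {h : AdelicNorm} {S : Finset Nat.Primes}

/-- the modulus -/
theorem exists_modulus (S : Finset Nat.Primes) (P : ℕ) : ∃ m : ℕ, 0 < m ∧ (∀ p ∈ S, (p:ℕ) ∣ m) ∧
    ∀ p : ℕ, p.Prime → p ≤ P → p ∣ m := by
  refine ⟨(∏ p ∈ S, (p:ℕ)) * P.factorial, ?_, ?_, ?_⟩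
  · exact Nat.mul_pos (Finset.prod_pos fun p _ => p.2.pos) (Nat.factorial_pos P)
  · intro p hp
    exact (Finset.dvd_prod_of_mem (fun p : Nat.Primes => (p:ℕ)) hp).mul_right _
  · intro p hp hpP
    exact (Nat.dvd_factorial hp.pos hpP).mul_left _

/-- one step of the sandwich -/
theorem sandwich (hS : Good h S) {f0 f1 m0 m1 : ℝ} (D : Dat (realF h.inf) (psi h S) f0 f1 m0 m1)
    {C : ℝ} (hC : 0 < C) (hPR : ∀ B : ℝ, 0 < B → (PR h S B).Finite ∧ ∀ K : ℕ, 1 ≤ K →
      (({z ∈ PR h S B | K < cont z.1 ∨ K < ff z}.ncard : ℕ) : ℝ) ≤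
        C * (B * Real.log (2 + B)) / K) {C2 : ℝ} (hC2 : 0 < C2)
    (hA : ∀ B : ℝ, 2 ≤ B → 6400000000 * (B / (f0 * m0) * Real.log (2 + B / (f0 * m0))) ≤
      C2 * (B * Real.log B))
    {ε : ℝ} (hε : 0 < ε) {P : ℕ} (hP : 1 ≤ P) :
    ∃ L : ℝ, 0 ≤ L ∧ ∀ᶠ B : ℝ in atTop,
      (((AF (realF h.inf) (psi h S) B).ncard : ℝ) ≤
        ((1 + ε) * (L + ε) + ε) * (B * Real.log B)) ∧
      (((1 + ε)⁻¹ * ((P:ℝ) / (P + 1) * L - ε) - 2 * C / P) * (B * Real.log B) ≤
        (AF (realF h.inf) (psi h S) B).ncard) ∧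
      (((AF (realF h.inf) (psi h S) B).ncard : ℝ) ≤ C2 * (B * Real.log B)) := by
  classical
  obtain ⟨m, hm, hmS, hmP⟩ := exists_modulus S P
  obtain ⟨_, _, hT⟩ := psi_tame h S hmS
  obtain ⟨J0, hJ0⟩ := hT.lp ε hε
  set J := max J0 1 with hJdef
  have hJ : 1 ≤ J := le_max_right _ _
  have hlp : ∀ g : ℕ, 0 < g → ∀ x x' : Fin 6 → ℤ, Ex m g x → Ex m g x' →
      red (m ^ J * g) x = red (m ^ J * g) x' → psi h S x ≤ (1 + ε) * psi h S x' := by
    intro g hg x x' hx hx' hr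
    exact hJ0 g hg x x' hx hx' (red_dvd (Nat.mul_dvd_mul_right (pow_dvd_pow m (le_max_left _ _)) g) hr)
  set η := ε / (C2 + 1) with hη
  have hη0 : 0 < η := by positivity
  obtain ⟨T, hTsm, hTtail⟩ := sm_tail m hη0
  set ε' := ε / (T.card + 1) with hε'
  have hε'0 : 0 < ε' := by positivity
  have hε'T : T.card * ε' ≤ ε := by
    rw [hε', mul_div_assoc', div_le_iff₀ (by positivity)]
    nlinarith
  have hex : ∀ g : ℕ, ∃ L : ℝ, g ∈ T → 0 ≤ L ∧ ∀ᶠ B : ℝ in atTop,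
      (∀ N : ℕ, ∑ b ∈ (Finset.Icc 1 N).filter (fun g => g.Coprime m),
        ((tg h S m B (g * b)).ncard : ℝ) ≤ (1 + ε) * (L + ε') * (B * Real.log B)) ∧
      (∀ N : ℕ, B ≤ N → (1 + ε)⁻¹ * ((P:ℝ) / (P + 1) * L - ε') * (B * Real.log B) ≤
        ∑ b ∈ (Finset.Icc 1 N).filter (fun g => g.Coprime m),
        ((tg h S m B (g * b)).ncard : ℝ)) := by
    intro g
    by_cases hg : g ∈ T
    · obtain ⟨L, hL, hev⟩ := class_sum D hm hP hmP hJ hε hlp (hTsm g hg) hε'0
      exact ⟨L, fun _ => ⟨hL, hev⟩⟩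
    · exact ⟨0, fun h => absurd h hg⟩
  choose Lg hLg using hex
  set L := ∑ g ∈ T, Lg g with hL
  have hL0 : 0 ≤ L := Finset.sum_nonneg fun g hg => (hLg g hg).1
  refine ⟨L, hL0, ?_⟩
  have ev : ∀ᶠ B : ℝ in atTop, ∀ g ∈ T,
      (∀ N : ℕ, ∑ b ∈ (Finset.Icc 1 N).filter (fun g => g.Coprime m),
        ((tg h S m B (g * b)).ncard : ℝ) ≤ (1 + ε) * (Lg g + ε') * (B * Real.log B)) ∧
      (∀ N : ℕ, B ≤ N → (1 + ε)⁻¹ * ((P:ℝ) / (P + 1) * Lg g - ε') * (B * Real.log B) ≤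
        ∑ b ∈ (Finset.Icc 1 N).filter (fun g => g.Coprime m),
        ((tg h S m B (g * b)).ncard : ℝ)) := by
    rw [Filter.eventually_all_finset]
    exact fun g hg => (hLg g hg).2
  filter_upwards [ev, eventually_ge_atTop (2:ℝ)] with B hB hB2
  have hB0 : 0 < B := by linarith
  have hlB : 0 < Real.log B := Real.log_pos (by linarith)
  have hBB : 0 < B * Real.log B := by positivity
  obtain ⟨hfinPR, hK⟩ := hPR B hB0
  obtain ⟨hfinA, hAle, _⟩ := AF_bound D hB0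
  have hAB := hA B hB2
  have h1 : ((AF (realF h.inf) (psi h S) B).ncard : ℝ) ≤ (TT h S m B).ncard := by
    exact_mod_cast AF_le_TT hS m hB0
  have h2 := TT_le (h := h) (S := S) hmP hfinPR hfinA
  have h3 : (({z ∈ PR h S B | P < cont z.1 ∨ P < ff z}.ncard : ℕ) : ℝ) ≤
      2 * C / P * (B * Real.log B) := by
    refine (hK P hP).trans ?_
    have h7 := log_two_add_le hB2
    calc C * (B * Real.log (2 + B)) / P ≤ C * (B * (2 * Real.log B)) / P := by
          apply div_le_div_of_nonneg_right _ (Nat.cast_nonneg P)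
          exact mul_le_mul_of_nonneg_left (mul_le_mul_of_nonneg_left h7 hB0.le) hC.le
      _ = _ := by ring
  refine ⟨?_, ?_, hAle.trans hAB⟩
  · obtain ⟨N, hN⟩ := upper_sum D hm hB0 T hTtail
    have h4 : ∑ a ∈ T, ∑ b ∈ (Finset.Icc 1 N).filter (fun g => g.Coprime m),
        ((tg h S m B (a * b)).ncard : ℝ) ≤ (1 + ε) * (L + ε) * (B * Real.log B) := by
      refine (Finset.sum_le_sum fun a ha => (hB a ha).1 N).trans ?_
      have e : ∑ a ∈ T, (1 + ε) * (Lg a + ε') * (B * Real.log B) =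
          (1 + ε) * (L + T.card * ε') * (B * Real.log B) := by
        rw [← Finset.sum_mul, ← Finset.mul_sum, Finset.sum_add_distrib, Finset.sum_const,
          nsmul_eq_mul]
      rw [e]
      apply mul_le_mul_of_nonneg_right _ hBB.le
      apply mul_le_mul_of_nonneg_left _ (by linarith)
      linarith
    have h5 : 6400000000 * (B / (f0 * m0) * Real.log (2 + B / (f0 * m0))) * η ≤
        ε * (B * Real.log B) := by
      calc _ ≤ (C2 * (B * Real.log B)) * η := mul_le_mul_of_nonneg_right hAB hη0.le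
        _ = (C2 * η) * (B * Real.log B) := by ring
        _ ≤ _ := by
          apply mul_le_mul_of_nonneg_right _ hBB.le
          rw [hη, mul_div_assoc', div_le_iff₀ (by positivity)]
          nlinarith
    have e2 : ((1 + ε) * (L + ε) + ε) * (B * Real.log B) =
        (1 + ε) * (L + ε) * (B * Real.log B) + ε * (B * Real.log B) := by ring
    rw [e2]
    linarith
  · obtain ⟨N, hN⟩ := exists_nat_ge B
    have hfinTT : (TT h S m B).Finite := hfinPR.subset fun z hz => hz.1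
    have h4 := lower_sum hm hfinTT T hTsm N
    have h5 : (1 + ε)⁻¹ * ((P:ℝ) / (P + 1) * L - ε) * (B * Real.log B) ≤
        ∑ a ∈ T, ∑ b ∈ (Finset.Icc 1 N).filter (fun g => g.Coprime m),
        ((tg h S m B (a * b)).ncard : ℝ) := by
      refine le_trans ?_ (Finset.sum_le_sum fun a ha => (hB a ha).2 N hN)
      have e : ∑ a ∈ T, (1 + ε)⁻¹ * ((P:ℝ) / (P + 1) * Lg a - ε') * (B * Real.log B) =
          (1 + ε)⁻¹ * ((P:ℝ) / (P + 1) * L - T.card * ε') * (B * Real.log B) := by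
        rw [← Finset.sum_mul, ← Finset.mul_sum, Finset.sum_sub_distrib, Finset.sum_const,
          nsmul_eq_mul, ← Finset.mul_sum]
      rw [e]
      apply mul_le_mul_of_nonneg_right _ hBB.le
      apply mul_le_mul_of_nonneg_left _ (by positivity)
      linarith
    have e2 : ((1 + ε)⁻¹ * ((P:ℝ) / (P + 1) * L - ε) - 2 * C / P) * (B * Real.log B) =
        (1 + ε)⁻¹ * ((P:ℝ) / (P + 1) * L - ε) * (B * Real.log B) -
        2 * C / P * (B * Real.log B) := by ring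
    rw [e2]
    linarith

theorem AF_limit (hS : Good h S) : ∃ l : ℝ, Tendsto (fun B : ℝ =>
    ((AF (realF h.inf) (psi h S) B).ncard : ℝ) / (B * Real.log B)) atTop (𝓝 l) := by
  obtain ⟨f0, f1, m0, m1, D⟩ := exists_dat h S
  obtain ⟨C, hC, hPR⟩ := PR_bound hS
  have hPR' : ∀ B : ℝ, 0 < B → (PR h S B).Finite ∧ ∀ K : ℕ, 1 ≤ K →
      (({z ∈ PR h S B | K < cont z.1 ∨ K < ff z}.ncard : ℕ) : ℝ) ≤
        C * (B * Real.log (2 + B)) / K := fun B hB =>
    ⟨(hPR B hB).1, fun K hK => ((hPR B hB).2 K hK).1⟩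
  have hfm : 0 < f0 * m0 := mul_pos D.real.pos D.pos
  obtain ⟨C1, hC1, hC1b⟩ := log_scale (inv_pos.2 hfm)
  set C2 : ℝ := 6400000000 * ((f0 * m0)⁻¹ * C1) * 2 with hC2
  have hC20 : 0 < C2 := by positivity
  have hA : ∀ B : ℝ, 2 ≤ B → 6400000000 * (B / (f0 * m0) * Real.log (2 + B / (f0 * m0))) ≤
      C2 * (B * Real.log B) := by
    intro B hB2
    have hB0 : 0 < B := by linarith
    have e1 : B / (f0 * m0) = (f0 * m0)⁻¹ * B := by ring
    have h3 := hC1b B hB0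
    have h4 := log_two_add_le hB2
    have h5 : Real.log (2 + (f0 * m0)⁻¹ * B) ≤ C1 * (2 * Real.log B) :=
      h3.trans (mul_le_mul_of_nonneg_left h4 hC1.le)
    rw [e1]
    calc 6400000000 * ((f0 * m0)⁻¹ * B * Real.log (2 + (f0 * m0)⁻¹ * B)) ≤
        6400000000 * ((f0 * m0)⁻¹ * B * (C1 * (2 * Real.log B))) :=
          mul_le_mul_of_nonneg_left (mul_le_mul_of_nonneg_left h5 (by positivity)) (by norm_num)
      _ = _ := by rw [hC2]; ring
  set C3 : ℝ := 4 * (C2 + 2 * C) + 2 with hC3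
  have hC30 : 0 < C3 := by positivity
  refine exists_limit fun η hη => ?_
  set ε : ℝ := min 1 (η / 2 / (2 * C3 + 4)) with hε
  have hε0 : 0 < ε := lt_min one_pos (by positivity)
  have hε1 : ε ≤ 1 := min_le_left _ _
  have hε2 : ε * (2 * C3 + 4) ≤ η / 2 := by
    have : ε ≤ η / 2 / (2 * C3 + 4) := min_le_right _ _
    rwa [le_div_iff₀ (by positivity)] at this
  obtain ⟨P, hPge⟩ := exists_nat_ge (2 * (C3 + 2 * C) / η + 1)
  have hP1 : (1:ℝ) ≤ P := by
    have : 0 < 2 * (C3 + 2 * C) / η := by positivity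
    linarith
  have hP : 1 ≤ P := by exact_mod_cast hP1
  have hP0 : (0:ℝ) < P := by linarith
  have hP2 : (C3 + 2 * C) / P ≤ η / 2 := by
    rw [div_le_iff₀ hP0]
    have h1 : 2 * (C3 + 2 * C) / η ≤ P := by linarith
    rw [div_le_iff₀ hη] at h1
    linarith
  obtain ⟨L, hL0, hev⟩ := sandwich hS D hC hPR' hC20 hA hε0 hP
  set ρ : ℝ := (P:ℝ) / (P + 1) with hρ
  have hρ1 : 1 - 1 / P ≤ ρ := by
    rw [hρ, le_div_iff₀ (by positivity)]
    have : (1 - 1 / (P:ℝ)) * (P + 1) = P - 1 / P := by field_simp; ring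
    rw [this]
    have : 0 < 1 / (P:ℝ) := by positivity
    linarith
  have hρ2 : 1 / 2 ≤ ρ := by
    rw [hρ, div_le_div_iff₀ (by norm_num) (by positivity)]
    linarith
  have hinv : 1 - ε ≤ (1 + ε)⁻¹ := by
    rw [← one_div, le_div_iff₀ (by positivity)]
    nlinarith
  have hinv1 : (1 + ε)⁻¹ ≤ 1 := inv_le_one_of_one_le₀ (by linarith)
  have hinv0 : 0 < (1 + ε)⁻¹ := by positivity
  have h2P : 2 * C / (P:ℝ) ≤ 2 * C := div_le_self (by positivity) hP1
  -- bound for L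
  have hL : L ≤ C3 := by
    obtain ⟨B, hB, hB2⟩ := (hev.and (eventually_ge_atTop (2:ℝ))).exists
    have hlB : 0 < Real.log B := Real.log_pos (by linarith)
    have hBB : 0 < B * Real.log B := by
      have : 0 < B := by linarith
      positivity
    have h1 : ((1 + ε)⁻¹ * (ρ * L - ε) - 2 * C / P) * (B * Real.log B) ≤
      C2 * (B * Real.log B) := hB.2.1.trans hB.2.2
    have h2 := le_of_mul_le_mul_right h1 hBB
    have h3 : (1 + ε)⁻¹ * (ρ * L - ε) ≤ C2 + 2 * C := by linarith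
    have h4 : ρ * L - ε ≤ (1 + ε) * (C2 + 2 * C) := by
      have := mul_le_mul_of_nonneg_left h3 (show 0 ≤ 1 + ε by linarith)
      rwa [← mul_assoc, mul_inv_cancel₀ (by positivity), one_mul] at this
    have h5 : 0 < C2 + 2 * C := by positivity
    have h6 : ρ * L ≤ 2 * (C2 + 2 * C) + 1 := by nlinarith
    have h7 : 1 / 2 * L ≤ ρ * L := mul_le_mul_of_nonneg_right hρ2 hL0
    rw [hC3]
    linarith
  refine ⟨(1 + ε)⁻¹ * (ρ * L - ε) - 2 * C / P, (1 + ε) * (L + ε) + ε, ?_, ?_⟩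
  · have h1 : (1 - ε - 1 / P) * L ≤ (1 + ε)⁻¹ * ρ * L := by
      apply mul_le_mul_of_nonneg_right _ hL0
      have h2 : 0 < 1 / (P:ℝ) := by positivity
      have h3 : 1 / (P:ℝ) ≤ 1 := by
        rw [div_le_one hP0]; exact hP1
      have h4 : (1 + ε)⁻¹ * (1 - 1 / P) ≤ (1 + ε)⁻¹ * ρ := mul_le_mul_of_nonneg_left hρ1 hinv0.le
      have h5 : (1 - ε) * (1 - 1 / P) ≤ (1 + ε)⁻¹ * (1 - 1 / P) :=
        mul_le_mul_of_nonneg_right hinv (by linarith)
      have h6 : (1 - ε) * (1 - 1 / (P:ℝ)) = 1 - ε - 1 / P + ε * (1 / P) := by ring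
      have h7 : 0 < ε * (1 / (P:ℝ)) := by positivity
      linarith
    have h2 : (1 + ε)⁻¹ * ε ≤ ε := by nlinarith
    have h3 : (2 * ε + 1 / P) * L ≤ (2 * ε + 1 / P) * C3 :=
      mul_le_mul_of_nonneg_left hL (by positivity)
    have h4 : ε * ε ≤ ε := by nlinarith
    have e1 : (C3 + 2 * C) / (P:ℝ) = 1 / P * C3 + 2 * C / P := by ring
    rw [e1] at hP2
    have e2 : (1 + ε) * (L + ε) + ε - ((1 + ε)⁻¹ * (ρ * L - ε) - 2 * C / P) =
        (L + ε * L + ε + ε * ε + ε) - (1 + ε)⁻¹ * ρ * L + (1 + ε)⁻¹ * ε + 2 * C / P := by ring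
    rw [e2]
    linarith
  · filter_upwards [hev, eventually_ge_atTop (2:ℝ)] with B hB hB2
    have hlB : 0 < Real.log B := Real.log_pos (by linarith)
    have hBB : 0 < B * Real.log B := by
      have : 0 < B := by linarith
      positivity
    constructor
    · rw [le_div_iff₀ hBB]
      exact hB.2.1
    · rw [div_le_iff₀ hBB]
      exact hB.1

theorem NU_limit (hS : Good h S) : ∃ l : ℝ, 0 < l ∧ Tendsto (fun B : ℝ =>
    ((NU h S B).ncard : ℝ) / (B * Real.log B)) atTop (𝓝 l) := by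
  obtain ⟨l1, h1⟩ := AF_limit hS
  obtain ⟨l2, h2⟩ := AF_limit hS.swap
  obtain ⟨f0, f1, m0, m1, D⟩ := exists_dat h.swap S
  obtain ⟨C, hC, hbd⟩ := bd_bound D
  have h3 : Tendsto (fun B : ℝ => ((bd (realF h.swap.inf) (psi h.swap S) B).ncard : ℝ) /
      (B * Real.log B)) atTop (𝓝 0) := by
    have hlog : Tendsto (fun B : ℝ => C / Real.log B) atTop (𝓝 0) :=
      Real.tendsto_log_atTop.const_div_atTop C
    refine squeeze_zero' ?_ ?_ hlog
    · filter_upwards [eventually_gt_atTop (1:ℝ)] with B hB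
      have := Real.log_pos hB
      positivity
    · filter_upwards [eventually_gt_atTop (1:ℝ)] with B hB
      have hl := Real.log_pos hB
      have hB0 : 0 < B := by linarith
      rw [div_le_div_iff₀ (by positivity) hl]
      have := mul_le_mul_of_nonneg_right (hbd B hB0) hl.le
      linarith
  have h4 : Tendsto (fun B : ℝ => ((NU h S B).ncard : ℝ) / (B * Real.log B)) atTop
      (𝓝 (l1 + l2 - 0)) := by
    refine ((h1.add h2).sub h3).congr' ?_
    filter_upwards [eventually_gt_atTop (0:ℝ)] with B hB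
    rw [NU_ncard hS hB]
    ring
  refine ⟨_, ?_, h4⟩
  obtain ⟨c, hc, hev⟩ := NU_lower hS
  refine hc.trans_le (ge_of_tendsto h4 ?_)
  filter_upwards [hev, eventually_gt_atTop (1:ℝ)] with B hB hB1
  have hl := Real.log_pos hB1
  have hB0 : 0 < B := by linarith
  rw [le_div_iff₀ (by positivity)]
  exact hB

/-- the main theorem -/
theorem main (h : AdelicNorm) : (∀ B : ℝ, (countSet h B).Finite) ∧
    ∃ c : ℝ, 0 < c ∧ Tendsto (fun B : ℝ => ((countSet h B).ncard : ℝ) / (B * Real.log B)) atTop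
      (𝓝 c) := by
  obtain ⟨S, hS⟩ := h.almost
  have hS' : Good h S := hS
  constructor
  · intro B
    obtain ⟨C, b, hC, hb, hNU⟩ := NU_bound hS'
    refine finite_countSet hS' ((hNU (max B 1) (lt_max_of_lt_right one_pos)).1.subset ?_)
    exact fun x hx => ⟨hx.1, hx.2.trans (le_max_left _ _)⟩
  · obtain ⟨l, hl, ht⟩ := NU_limit hS'
    refine ⟨l, hl, ht.congr fun B => ?_⟩
    rw [ncard_countSet hS']

end Pool.Agent.Lib.MP_1acd66_nt.Conic
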