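import Pool.Agent.Lib.MP_1acd66_nt.Conic.Dyadic

/-! Points with small adjugate. -/

set_option linter.unusedSectionVars false

namespace Pool.Agent.Lib.MP_1acd66_nt.Conic

/-- Lemma S: points of norm at most `Y` with `‖adj x‖ ≤ g ‖x‖`. -/
theorem small_count {g : ℕ} (hg : 0 < g) {Y : ℝ} (hY : (g:ℝ) ≤ Y) :
    (({x : Fin 6 → ℤ | red g x ∈ cl (ZMod g) ∧ x ≠ 0 ∧ ‖x‖ ≤ Y ∧ ‖adj x‖ ≤ g * ‖x‖}.ncard : ℕ) : ℝ) ≤
      2000000000 * Y ^ 3 := by
  classical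
  have hg' : (0:ℝ) < g := by exact_mod_cast hg
  have hg1 : (1:ℝ) ≤ g := by exact_mod_cast hg
  have hY0 : 0 < Y := by linarith
  set S := {x : Fin 6 → ℤ | red g x ∈ cl (ZMod g) ∧ x ≠ 0 ∧ ‖x‖ ≤ Y ∧ ‖adj x‖ ≤ g * ‖x‖} with hS
  have hfin : S.Finite := (finite_ball Y).subset fun x hx => hx.2.2.1
  obtain ⟨n, hn1, hn2⟩ := exists_nat_pow_near (show (1:ℝ) ≤ Y by linarith) (one_lt_two : (1:ℝ) < 2)
  set sh : ℕ → Set (Fin 6 → ℤ) := fun i =>
    {x ∈ S | (2:ℝ) ^ i ≤ ‖x‖ ∧ ‖x‖ < 2 ^ (i + 1) ∧ (g:ℝ) < ‖x‖} with hsh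
  have hcov : S ⊆ {x : Fin 6 → ℤ | red g x ∈ cl (ZMod g) ∧ ‖x‖ ≤ g} ∪
      ⋃ i ∈ Finset.range (n + 1), sh i := by
    intro x hx
    by_cases hxg : ‖x‖ ≤ g
    · exact Or.inl ⟨hx.1, hxg⟩
    · right
      push Not at hxg
      obtain ⟨i, hi1, hi2⟩ := exists_nat_pow_near (one_le_norm hx.2.1) (one_lt_two : (1:ℝ) < 2)
      simp only [Set.mem_iUnion, Finset.mem_range]
      refine ⟨i, ?_, hx, hi1, hi2, hxg⟩
      by_contra hcon
      push Not at hcon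
      have : (2:ℝ) ^ (n + 1) ≤ 2 ^ i := pow_le_pow_right₀ one_le_two hcon
      linarith [hx.2.2.1]
  have hle : (S.ncard : ℝ) ≤ (({x : Fin 6 → ℤ | red g x ∈ cl (ZMod g) ∧ ‖x‖ ≤ g}.ncard : ℕ) : ℝ) +
      ∑ i ∈ Finset.range (n + 1), ((sh i).ncard : ℝ) := by
    have h1 := Set.ncard_le_ncard hcov (((finite_ball g).subset fun x hx => hx.2).union
      (Set.Finite.biUnion (Finset.finite_toSet _) (fun i _ => hfin.subset fun x hx => hx.1)))
    have h2 := h1.trans ((Set.ncard_union_le _ _).trans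
      (Nat.add_le_add_left (Finset.set_ncard_biUnion_le _ _) _))
    exact_mod_cast h2
  have hb := ball_count hg (R := g) (by linarith)
  have hb2 : 4096 * ((g:ℝ) ^ 6 / g ^ 3) = 4096 * g ^ 3 := by field_simp
  rw [hb2] at hb
  have hshell : ∀ i, ((sh i).ncard : ℝ) ≤ 20000000 * 8 * 8 ^ i := by
    intro i
    rcases (sh i).eq_empty_or_nonempty with h0 | ⟨x0, hx0⟩
    · rw [h0, Set.ncard_empty, Nat.cast_zero]
      positivity
    set R : ℝ := 2 ^ (i + 1) with hR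
    have hR0 : 0 < R := by positivity
    have hR2 : (2:ℝ) ^ i = R / 2 := by rw [hR, pow_succ]; ring
    have hgR : (g:ℝ) ≤ 2 * R := by
      have := hx0.2.2.2
      have := hx0.2.2.1
      linarith
    have h1 := near_count hg (R := R) (T := g) hgR (by linarith)
    have h2 : sh i ⊆ {x : Fin 6 → ℤ | red g x ∈ cl (ZMod g) ∧ ‖x‖ ≤ R ∧ R / 2 ≤ ‖x‖ ∧
        ‖adj x‖ ≤ g * R} := by
      rintro x ⟨hx, hx1, hx2, hx3⟩
      rw [hR2] at hx1
      exact ⟨hx.1, hx2.le, hx1, hx.2.2.2.trans (mul_le_mul_of_nonneg_left hx2.le hg'.le)⟩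
    have h3 := Nat.cast_le (α := ℝ).2 (Set.ncard_le_ncard h2
      ((finite_ball R).subset fun x hx => hx.2.1))
    refine (h3.trans h1).trans (le_of_eq ?_)
    have e : R * g / g = R := by field_simp
    rw [e, hR]
    have : (8:ℝ) ^ i = (2 ^ i) ^ 3 := by
      rw [← pow_mul, mul_comm, pow_mul]; norm_num
    rw [this, pow_succ]
    ring
  have hsum : ∑ i ∈ Finset.range (n + 1), ((sh i).ncard : ℝ) ≤ 20000000 * 8 * (8 ^ (n + 1)) := by
    calc ∑ i ∈ Finset.range (n + 1), ((sh i).ncard : ℝ)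
        ≤ ∑ i ∈ Finset.range (n + 1), 20000000 * 8 * (8:ℝ) ^ i := Finset.sum_le_sum fun i _ => hshell i
      _ = 20000000 * 8 * ∑ i ∈ Finset.range (n + 1), (8:ℝ) ^ i := by rw [Finset.mul_sum]
      _ ≤ _ := by
        apply mul_le_mul_of_nonneg_left _ (by norm_num)
        rw [geom_sum_eq (by norm_num)]
        rw [div_le_iff₀ (by norm_num)]
        have : (0:ℝ) < 8 ^ (n + 1) := by positivity
        linarith
  have h8 : (8:ℝ) ^ (n + 1) ≤ (2 * Y) ^ 3 / 8 * 8 := by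
    have e : (8:ℝ) ^ (n + 1) = (2 ^ (n + 1)) ^ 3 := by
      rw [← pow_mul, mul_comm, pow_mul]; norm_num
    rw [e]
    have h5 : (2:ℝ) ^ (n + 1) ≤ 2 * Y := by rw [pow_succ]; linarith
    have := pow_le_pow_left₀ (by positivity) h5 3
    linarith
  have hg3 : (g:ℝ) ^ 3 ≤ Y ^ 3 := pow_le_pow_left₀ hg'.le hY 3
  have hY3 : 0 < Y ^ 3 := by positivity
  have e8 : (2 * Y) ^ 3 / 8 * 8 = 8 * Y ^ 3 := by ring
  rw [e8] at h8
  linarith

end Pool.Agent.Lib.MP_1acd66_nt.Conic
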