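import Pool.Agent.Lib.MP_1acd66_nt.Conic.Lattice
import Pool.Agent.Lib.MP_1acd66_nt.Conic.Small

/-! The real height region. -/

set_option linter.unusedSectionVars false

open MeasureTheory Metric Set Filter Topology

namespace Pool.Agent.Lib.MP_1acd66_nt.Conic

/-- the real height as a function on all symmetric matrices -/
structure RealF (F : (Fin 6 → ℝ) → ℝ) (f0 f1 : ℝ) : Prop where
  cont : Continuous F
  hom : ∀ u, ∀ t : ℝ, 0 < t → F (t • u) = t ^ 6 * F u
  pos : 0 < f0
  lo : ∀ u, f0 * (‖u‖ * ‖adj u‖) ^ 2 ≤ F u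
  hi : ∀ u, F u ≤ f1 * (‖u‖ * ‖adj u‖) ^ 2

/-- a measurable set meeting its translates in a direction only trivially is null -/
theorem null_of_translates {E : Set (Fin 6 → ℝ)} (hE : MeasurableSet E) (w : Fin 6 → ℝ)
    (h : ∀ u ∈ E, ∀ s : ℝ, s ≠ 0 → u + s • w ∉ E) : volume E = 0 := by
  have key : ∀ n : ℕ, volume (E ∩ closedBall 0 n) = 0 := by
    intro n
    set A := E ∩ closedBall (0 : Fin 6 → ℝ) n with hA
    have hAm : MeasurableSet A := hE.inter measurableSet_closedBall
    set s : ℕ → ℝ := fun j => 1 / ((j:ℝ) + 1) with hs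
    have hs01 : ∀ j, 0 < s j ∧ s j ≤ 1 := by
      intro j
      constructor
      · positivity
      · rw [hs]
        simp only
        rw [div_le_one (by positivity)]
        have : (0:ℝ) ≤ j := Nat.cast_nonneg j
        linarith
    have hsinj : ∀ i j, s i = s j → i = j := by
      intro i j hij
      simp only [hs] at hij
      have : (i:ℝ) + 1 = j + 1 := by
        have hi : (0:ℝ) < i + 1 := by positivity
        have hj : (0:ℝ) < j + 1 := by positivity
        rw [div_eq_div_iff hi.ne' hj.ne'] at hij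
        linarith
      exact_mod_cast (by linarith : (i:ℝ) = j)
    set T : ℕ → Set (Fin 6 → ℝ) := fun j => (fun y => y + (-(s j • w))) ⁻¹' A with hT
    have hTm : ∀ j, MeasurableSet (T j) := fun j => (measurable_add_const _) hAm
    have hTv : ∀ j, volume (T j) = volume A := fun j => measure_preimage_add_right _ _ _
    have hdisj : Pairwise (Function.onFun Disjoint T) := by
      intro i j hij
      rw [Function.onFun, Set.disjoint_left]
      intro y h1 h2
      simp only [hT, mem_preimage] at h1 h2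
      have h3 := h _ h1.1 (s i - s j) (sub_ne_zero.2 fun h => hij (hsinj i j h))
      apply h3
      have : y + -(s i • w) + (s i - s j) • w = y + -(s j • w) := by
        rw [sub_smul]; abel
      rw [this]
      exact h2.1
    have hsub : (⋃ j, T j) ⊆ closedBall 0 (n + ‖w‖) := by
      intro y hy
      obtain ⟨j, hj⟩ := mem_iUnion.1 hy
      have h1 : ‖y + -(s j • w)‖ ≤ n := mem_closedBall_zero_iff.1 hj.2
      rw [mem_closedBall_zero_iff]
      calc ‖y‖ = ‖(y + -(s j • w)) + s j • w‖ := by congr 1; abel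
        _ ≤ ‖y + -(s j • w)‖ + ‖s j • w‖ := norm_add_le _ _
        _ ≤ n + ‖w‖ := by
          rw [norm_smul, Real.norm_eq_abs, abs_of_pos (hs01 j).1]
          have := mul_le_mul_of_nonneg_right (hs01 j).2 (norm_nonneg w)
          linarith
    have h1 := measure_mono (μ := volume) hsub
    rw [measure_iUnion hdisj hTm] at h1
    simp only [hTv] at h1
    by_contra hne
    rw [ENNReal.tsum_const_eq_top_of_ne_zero hne] at h1
    exact absurd h1 (not_le.2 measure_closedBall_lt_top)
  have : E = ⋃ n : ℕ, E ∩ closedBall 0 n := by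
    rw [← Set.inter_iUnion]
    have : (⋃ n : ℕ, closedBall (0 : Fin 6 → ℝ) n) = univ := iUnion_closedBall_nat 0
    rw [this, inter_univ]
  rw [this]
  exact measure_iUnion_null key

/-- a measurable set meeting its dilates only trivially is null -/
theorem null_of_dilates {E : Set (Fin 6 → ℝ)} (hE : MeasurableSet E)
    (h : ∀ u ∈ E, ∀ s : ℝ, 1 < s → s • u ∉ E) : volume E = 0 := by
  have key : ∀ n : ℕ, volume (E ∩ closedBall 0 n) = 0 := by
    intro n
    set A := E ∩ closedBall (0 : Fin 6 → ℝ) n with hA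
    have hAm : MeasurableSet A := hE.inter measurableSet_closedBall
    set s : ℕ → ℝ := fun j => 1 + 1 / ((j:ℝ) + 1) with hs
    have hs01 : ∀ j, 1 < s j ∧ s j ≤ 2 := by
      intro j
      have h0 : 0 < 1 / ((j:ℝ) + 1) := by positivity
      have h1 : 1 / ((j:ℝ) + 1) ≤ 1 := by
        rw [div_le_one (by positivity)]
        have : (0:ℝ) ≤ j := Nat.cast_nonneg j
        linarith
      constructor <;> simp only [hs] <;> linarith
    have hsinj : ∀ i j, s i = s j → i = j := by
      intro i j hij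
      simp only [hs] at hij
      have hij : 1 / ((i:ℝ) + 1) = 1 / ((j:ℝ) + 1) := by linarith
      have : (i:ℝ) + 1 = j + 1 := by
        have hi : (0:ℝ) < i + 1 := by positivity
        have hj : (0:ℝ) < j + 1 := by positivity
        rw [div_eq_div_iff hi.ne' hj.ne'] at hij
        linarith
      exact_mod_cast (by linarith : (i:ℝ) = j)
    set T : ℕ → Set (Fin 6 → ℝ) := fun j => (fun y => (s j)⁻¹ • y) ⁻¹' A with hT
    have hTm : ∀ j, MeasurableSet (T j) := fun j => (measurable_const_smul _) hAm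
    have hTv : ∀ j, volume A ≤ volume (T j) := by
      intro j
      have hsj : s j ≠ 0 := by linarith [(hs01 j).1]
      rw [hT]
      simp only
      rw [Measure.addHaar_preimage_smul _ (inv_ne_zero hsj)]
      refine le_mul_of_one_le_left zero_le ?_
      rw [ENNReal.one_le_ofReal, inv_pow, inv_inv, abs_of_pos (pow_pos (by linarith [(hs01 j).1]) _)]
      exact one_le_pow₀ (hs01 j).1.le
    have hdisj : Pairwise (Function.onFun Disjoint T) := by
      have aux : ∀ i j, s i < s j → Disjoint (T i) (T j) := by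
        intro i j hij
        rw [Set.disjoint_left]
        intro y h1 h2
        simp only [hT, mem_preimage] at h1 h2
        have hi : 0 < s i := by linarith [(hs01 i).1]
        have hj : 0 < s j := by linarith [(hs01 j).1]
        have h3 := h _ h2.1 (s j / s i) ((one_lt_div hi).2 hij)
        apply h3
        rw [smul_smul]
        have : s j / s i * (s j)⁻¹ = (s i)⁻¹ := by field_simp
        rw [this]
        exact h1.1
      intro i j hij
      rcases lt_or_gt_of_ne (fun h => hij (hsinj i j h)) with h1 | h1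
      · exact aux i j h1
      · exact (aux j i h1).symm
    have hsub : (⋃ j, T j) ⊆ closedBall 0 (2 * n) := by
      intro y hy
      obtain ⟨j, hj⟩ := mem_iUnion.1 hy
      have h1 : ‖(s j)⁻¹ • y‖ ≤ n := mem_closedBall_zero_iff.1 hj.2
      have hj0 : 0 < s j := by linarith [(hs01 j).1]
      rw [mem_closedBall_zero_iff]
      rw [norm_smul, norm_inv, Real.norm_eq_abs, abs_of_pos hj0, inv_mul_le_iff₀ hj0] at h1
      have : s j * n ≤ 2 * n := mul_le_mul_of_nonneg_right (hs01 j).2 (Nat.cast_nonneg n)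
      linarith
    have h1 := measure_mono (μ := volume) hsub
    rw [measure_iUnion hdisj hTm] at h1
    have h2 : ∑' _ : ℕ, volume A ≤ ∑' j, volume (T j) := ENNReal.tsum_le_tsum hTv
    by_contra hne
    rw [ENNReal.tsum_const_eq_top_of_ne_zero hne] at h2
    exact absurd (h2.trans h1) (not_le.2 measure_closedBall_lt_top)
  have : E = ⋃ n : ℕ, E ∩ closedBall 0 n := by
    rw [← Set.inter_iUnion]
    have : (⋃ n : ℕ, closedBall (0 : Fin 6 → ℝ) n) = univ := iUnion_closedBall_nat 0
    rw [this, inter_univ]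
  rw [this]
  exact measure_iUnion_null key

theorem continuous_adj : Continuous (adj (R := ℝ)) := by
  refine continuous_pi fun i => ?_
  fin_cases i <;> simp only [adj_0, adj_1, adj_2, adj_3, adj_4, adj_5, Fin.zero_eta, Fin.mk_one,
    Fin.reduceFinMk] <;> fun_prop

theorem continuous_dt : Continuous (dt (R := ℝ)) := by
  unfold dt; fun_prop

theorem volume_dt_zero : volume {u : Fin 6 → ℝ | dt u = 0} = 0 := by
  have m0 : MeasurableSet {u : Fin 6 → ℝ | dt u = 0} :=
    (isClosed_eq continuous_dt continuous_const).measurableSet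
  have m1 : MeasurableSet {u : Fin 6 → ℝ | u 1 * u 2 - u 5 ^ 2 = 0} :=
    (isClosed_eq (by fun_prop) continuous_const).measurableSet
  have m2 : MeasurableSet {u : Fin 6 → ℝ | u 2 = 0} :=
    (isClosed_eq (by fun_prop) continuous_const).measurableSet
  have h1 : volume ({u : Fin 6 → ℝ | dt u = 0} \ {u | u 1 * u 2 - u 5 ^ 2 = 0}) = 0 := by
    refine null_of_translates (m0.diff m1) (Pi.single 0 1) ?_
    rintro u ⟨h1, h2⟩ s hs ⟨h3, _⟩
    simp only [mem_ofPred_eq] at h1 h2 h3
    have e : dt (u + s • (Pi.single (0 : Fin 6) (1:ℝ) : Fin 6 → ℝ)) = dt u + s * (u 1 * u 2 - u 5 ^ 2) := by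
      simp [dt]
      ring
    rw [e, h1, zero_add] at h3
    exact (mul_ne_zero hs h2) h3
  have h2 : volume ({u : Fin 6 → ℝ | u 1 * u 2 - u 5 ^ 2 = 0} \ {u | u 2 = 0}) = 0 := by
    refine null_of_translates (m1.diff m2) (Pi.single 1 1) ?_
    rintro u ⟨h1, h2⟩ s hs ⟨h3, _⟩
    simp only [mem_ofPred_eq] at h1 h2 h3
    have e : (u + s • (Pi.single (1 : Fin 6) (1:ℝ) : Fin 6 → ℝ)) 1 *
        (u + s • (Pi.single (1 : Fin 6) (1:ℝ) : Fin 6 → ℝ)) 2 -
        (u + s • (Pi.single (1 : Fin 6) (1:ℝ) : Fin 6 → ℝ)) 5 ^ 2 =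
        (u 1 * u 2 - u 5 ^ 2) + s * u 2 := by
      simp
      ring
    rw [e, h1, zero_add] at h3
    exact (mul_ne_zero hs h2) h3
  have h3 : volume {u : Fin 6 → ℝ | u 2 = 0} = 0 := by
    refine null_of_translates m2 (Pi.single 2 1) ?_
    intro u h1 s hs h3
    simp only [mem_ofPred_eq] at h1 h3
    have e : (u + s • (Pi.single (2 : Fin 6) (1:ℝ) : Fin 6 → ℝ)) 2 = u 2 + s := by simp
    rw [e, h1, zero_add] at h3
    exact hs h3
  refine measure_mono_null (t := ({u : Fin 6 → ℝ | dt u = 0} \ {u | u 1 * u 2 - u 5 ^ 2 = 0}) ∪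
    (({u : Fin 6 → ℝ | u 1 * u 2 - u 5 ^ 2 = 0} \ {u | u 2 = 0}) ∪ {u : Fin 6 → ℝ | u 2 = 0})) ?_
    (measure_union_null h1 (measure_union_null h2 h3))
  intro u hu
  by_cases c1 : u 1 * u 2 - u 5 ^ 2 = 0
  · by_cases c2 : u 2 = 0
    · exact Or.inr (Or.inr c2)
    · exact Or.inr (Or.inl ⟨c1, c2⟩)
  · exact Or.inl ⟨hu, c1⟩

/-- the truncated height region -/
def reg (F : (Fin 6 → ℝ) → ℝ) (K : ℝ) : Set (Fin 6 → ℝ) := {u | ‖u‖ ≤ K ∧ 0 < dt u ∧ F u ≤ 1}

variable {F : (Fin 6 → ℝ) → ℝ} {f0 f1 : ℝ}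

theorem reg_bounded (K : ℝ) : Bornology.IsBounded (reg F K) :=
  (isBounded_closedBall (x := (0 : Fin 6 → ℝ)) (r := K)).subset fun _ hu =>
    mem_closedBall_zero_iff.2 hu.1

theorem reg_measurable (hF : RealF F f0 f1) (K : ℝ) : MeasurableSet (reg F K) := by
  have h1 : MeasurableSet {u : Fin 6 → ℝ | ‖u‖ ≤ K} :=
    (isClosed_le continuous_norm continuous_const).measurableSet
  have h2 : MeasurableSet {u : Fin 6 → ℝ | 0 < dt u} :=
    (isOpen_lt continuous_const continuous_dt).measurableSet
  have h3 : MeasurableSet {u : Fin 6 → ℝ | F u ≤ 1} :=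
    (isClosed_le hF.cont continuous_const).measurableSet
  exact h1.inter (h2.inter h3)

theorem reg_frontier (hF : RealF F f0 f1) {K : ℝ} (hK : 0 < K) : volume (frontier (reg F K)) = 0 := by
  have hsub : frontier (reg F K) ⊆ {u : Fin 6 → ℝ | ‖u‖ = K} ∪ ({u | 0 = dt u} ∪ {u | F u = 1}) := by
    have e : reg F K = {u : Fin 6 → ℝ | ‖u‖ ≤ K} ∩ ({u | 0 < dt u} ∩ {u | F u ≤ 1}) := rfl
    rw [e]
    refine (frontier_inter_subset _ _).trans (union_subset ?_ ?_)
    · refine (inter_subset_left).trans ?_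
      exact (frontier_le_subset_eq continuous_norm continuous_const).trans subset_union_left
    · refine (inter_subset_right).trans ?_
      refine (frontier_inter_subset _ _).trans (union_subset ?_ ?_)
      · refine (inter_subset_left).trans ?_
        exact (frontier_lt_subset_eq continuous_const continuous_dt).trans
          (subset_union_left.trans subset_union_right)
      · refine (inter_subset_right).trans ?_
        exact (frontier_le_subset_eq hF.cont continuous_const).trans
          (subset_union_right.trans subset_union_right)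
  refine measure_mono_null hsub (measure_union_null ?_ (measure_union_null ?_ ?_))
  · refine null_of_dilates ((isClosed_eq continuous_norm continuous_const).measurableSet) ?_
    intro u hu s hs h
    simp only [mem_ofPred_eq] at hu h
    rw [norm_smul, hu, Real.norm_eq_abs, abs_of_pos (by linarith)] at h
    nlinarith
  · have : {u : Fin 6 → ℝ | 0 = dt u} = {u | dt u = 0} := by ext u; exact eq_comm
    rw [this]
    exact volume_dt_zero
  · refine null_of_dilates ((isClosed_eq hF.cont continuous_const).measurableSet) ?_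
    intro u hu s hs h
    simp only [mem_ofPred_eq] at hu h
    rw [hF.hom u s (by linarith), hu, mul_one] at h
    have : 1 < s ^ 6 := one_lt_pow₀ hs (by norm_num)
    linarith

theorem reg_volume_pos (hF : RealF F f0 f1) {K : ℝ} (hK : 0 < K) : 0 < volume.real (reg F K) := by
  set e : Fin 6 → ℝ := ![1, 1, 1, 0, 0, 0] with he
  have hedt : dt e = 1 := by simp [dt, he]
  have hO : IsOpen {u : Fin 6 → ℝ | ‖u‖ < K ∧ 0 < dt u ∧ F u < 1} := by
    have h1 : IsOpen {u : Fin 6 → ℝ | ‖u‖ < K} := isOpen_lt continuous_norm continuous_const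
    have h2 : IsOpen {u : Fin 6 → ℝ | 0 < dt u} := isOpen_lt continuous_const continuous_dt
    have h3 : IsOpen {u : Fin 6 → ℝ | F u < 1} := isOpen_lt hF.cont continuous_const
    exact h1.inter (h2.inter h3)
  obtain ⟨t, ht0, ht1, ht2⟩ : ∃ t : ℝ, 0 < t ∧ t * ‖e‖ < K ∧ t ^ 6 * F e < 1 := by
    have c1 : Tendsto (fun t : ℝ => t * ‖e‖) (𝓝 0) (𝓝 (0 * ‖e‖)) :=
      (continuous_id.mul continuous_const).tendsto 0
    have c2 : Tendsto (fun t : ℝ => t ^ 6 * F e) (𝓝 0) (𝓝 (0 ^ 6 * F e)) :=
      ((continuous_id.pow 6).mul continuous_const).tendsto 0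
    rw [zero_mul] at c1
    rw [zero_pow (by norm_num), zero_mul] at c2
    have e1 : ∀ᶠ t : ℝ in 𝓝[>] 0, t * ‖e‖ < K :=
      ((tendsto_order.1 c1).2 K hK).filter_mono nhdsWithin_le_nhds
    have e2 : ∀ᶠ t : ℝ in 𝓝[>] 0, t ^ 6 * F e < 1 :=
      ((tendsto_order.1 c2).2 1 one_pos).filter_mono nhdsWithin_le_nhds
    have e3 : ∀ᶠ t : ℝ in 𝓝[>] 0, 0 < t := self_mem_nhdsWithin
    obtain ⟨t, h1, h2, h3⟩ := (e3.and (e1.and e2)).exists
    exact ⟨t, h1, h2, h3⟩
  have hne : {u : Fin 6 → ℝ | ‖u‖ < K ∧ 0 < dt u ∧ F u < 1}.Nonempty := by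
    refine ⟨t • e, ?_, ?_, ?_⟩
    · rw [norm_smul, Real.norm_eq_abs, abs_of_pos ht0]
      exact ht1
    · rw [dt_smul, hedt, mul_one]
      positivity
    · rw [hF.hom e t ht0]
      exact ht2
  have hpos := hO.measure_pos volume hne
  rw [Measure.real, ENNReal.toReal_pos_iff]
  refine ⟨hpos.trans_le (measure_mono ?_), (reg_bounded K).measure_lt_top⟩
  intro u hu
  exact ⟨hu.1.le, hu.2.1, hu.2.2.le⟩

end Pool.Agent.Lib.MP_1acd66_nt.Conic
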