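import Pool.Agent.Lib.MP_1acd66_nt.Conic.Vec
import Pool.Agent.Lib.MP_1acd66_nt.Conic.Region

/-! Local norms: bounds by compactness, and the real height function. -/

set_option linter.unusedSectionVars false

open Metric Set Filter Topology

namespace Pool.Agent.Lib.MP_1acd66_nt.Conic

section general

variable {K : Type*} [NormedField K]

/-- pairs of unit vectors giving points of the variety -/
def unitPairs (K : Type*) [NormedField K] : Set ((Fin 6 → K) × (Fin 6 → K)) :=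
  {z | ‖z.1‖ = 1 ∧ ‖z.2‖ = 1 ∧ IsPair (mat z.1) (mat z.2)}

theorem continuous_mat : Continuous (mat (R := K)) := by
  refine continuous_pi fun i => continuous_pi fun j => ?_
  fin_cases i <;> fin_cases j <;> exact continuous_apply _

theorem ne_zero_of_norm_one {u : Fin 6 → K} (h : ‖u‖ = 1) : u ≠ 0 := by
  rintro rfl
  rw [norm_zero] at h
  exact zero_ne_one h

theorem scalar_iff {x : Matrix (Fin 3) (Fin 3) K} :
    (∃ c : K, x = c • (1 : Matrix (Fin 3) (Fin 3) K)) ↔ x = x 0 0 • (1 : Matrix (Fin 3) (Fin 3) K) := by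
  constructor
  · rintro ⟨c, rfl⟩
    simp
  · intro h
    exact ⟨_, h⟩

theorem isPair_mat_iff {u v : Fin 6 → K} (hu : u ≠ 0) (hv : v ≠ 0) :
    IsPair (mat u) (mat v) ↔ mat u * mat v = (mat u * mat v) 0 0 • (1 : Matrix (Fin 3) (Fin 3) K) := by
  constructor
  · intro h
    exact scalar_iff.1 h.scalar
  · intro h
    exact ⟨mat_symm _, mat_symm _, mat_ne_zero hu, mat_ne_zero hv, _, h⟩

theorem isClosed_unitPairs : IsClosed (unitPairs K) := by
  have e : unitPairs K = {z | ‖z.1‖ = 1} ∩ ({z | ‖z.2‖ = 1} ∩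
      {z | mat z.1 * mat z.2 = (mat z.1 * mat z.2) 0 0 • (1 : Matrix (Fin 3) (Fin 3) K)}) := by
    ext z
    constructor
    · rintro ⟨h1, h2, h3⟩
      exact ⟨h1, h2, (isPair_mat_iff (ne_zero_of_norm_one h1) (ne_zero_of_norm_one h2)).1 h3⟩
    · rintro ⟨h1, h2, h3⟩
      exact ⟨h1, h2, (isPair_mat_iff (ne_zero_of_norm_one h1) (ne_zero_of_norm_one h2)).2 h3⟩
  rw [e]
  have c1 : Continuous fun z : (Fin 6 → K) × (Fin 6 → K) => mat z.1 * mat z.2 :=
    (continuous_mat.comp continuous_fst).matrix_mul (continuous_mat.comp continuous_snd)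
  refine (isClosed_eq (by fun_prop) continuous_const).inter
    ((isClosed_eq (by fun_prop) continuous_const).inter (isClosed_eq c1 ?_))
  exact ((c1.matrix_elem 0 0).smul continuous_const)

theorem isCompact_unitPairs [ProperSpace K] : IsCompact (unitPairs K) := by
  have h1 : IsCompact ((closedBall (0 : Fin 6 → K) 1) ×ˢ (closedBall (0 : Fin 6 → K) 1)) :=
    (isCompact_closedBall _ _).prod (isCompact_closedBall _ _)
  have h2 : unitPairs K = ((closedBall (0 : Fin 6 → K) 1) ×ˢ (closedBall (0 : Fin 6 → K) 1)) ∩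
      unitPairs K := by
    ext z
    refine ⟨fun h => ⟨⟨?_, ?_⟩, h⟩, fun h => h.2⟩
    · rw [mem_closedBall_zero_iff]; exact h.1.le
    · rw [mem_closedBall_zero_iff]; exact h.2.1.le
  rw [h2]
  exact h1.inter_right isClosed_unitPairs

variable {M : Matrix (Fin 3) (Fin 3) K → Matrix (Fin 3) (Fin 3) K → ℝ}

theorem IsLocalNorm.cont_unit (hM : IsLocalNorm K M) :
    ContinuousOn (fun z : (Fin 6 → K) × (Fin 6 → K) => M (mat z.1) (mat z.2)) (unitPairs K) := by
  have h1 : Continuous fun z : (Fin 6 → K) × (Fin 6 → K) => (mat z.1, mat z.2) :=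
    (continuous_mat.comp continuous_fst).prodMk (continuous_mat.comp continuous_snd)
  exact hM.cont.comp h1.continuousOn (fun z hz => hz.2.2)

theorem exists_norm_apply (u : Fin 6 → K) : ∃ i, ‖u i‖ = ‖u‖ := by
  obtain ⟨i, hi⟩ := Finite.exists_max (fun i => ‖u i‖)
  refine ⟨i, le_antisymm (norm_le_pi_norm u i) ?_⟩
  rw [pi_norm_le_iff_of_nonneg (norm_nonneg _)]
  exact hi

theorem exists_norm_scale {u : Fin 6 → K} (hu : u ≠ 0) :
    ∃ s : K, s ≠ 0 ∧ ‖s‖ = ‖u‖⁻¹ ∧ ‖s • u‖ = 1 := by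
  obtain ⟨i, hi⟩ := exists_norm_apply u
  have h0 : 0 < ‖u‖ := norm_pos_iff.2 hu
  have h1 : u i ≠ 0 := by
    rw [← norm_pos_iff, hi]; exact h0
  refine ⟨(u i)⁻¹, inv_ne_zero h1, by rw [norm_inv, hi], ?_⟩
  rw [norm_smul, norm_inv, hi, inv_mul_cancel₀ h0.ne']

/-- a local norm is comparable with the standard one -/
theorem IsLocalNorm.bounds [ProperSpace K] (hM : IsLocalNorm K M) :
    ∃ m0 m1 : ℝ, 0 < m0 ∧ m0 ≤ m1 ∧ ∀ u v : Fin 6 → K, IsPair (mat u) (mat v) →
      m0 * (‖u‖ * ‖v‖) ^ 2 ≤ M (mat u) (mat v) ∧ M (mat u) (mat v) ≤ m1 * (‖u‖ * ‖v‖) ^ 2 := by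
  have key : ∀ m0 m1 : ℝ, (∀ z ∈ unitPairs K, m0 ≤ M (mat z.1) (mat z.2) ∧
      M (mat z.1) (mat z.2) ≤ m1) → ∀ u v : Fin 6 → K, IsPair (mat u) (mat v) →
      m0 * (‖u‖ * ‖v‖) ^ 2 ≤ M (mat u) (mat v) ∧ M (mat u) (mat v) ≤ m1 * (‖u‖ * ‖v‖) ^ 2 := by
    intro m0 m1 H u v huv
    have hu : u ≠ 0 := by
      rintro rfl
      exact huv.ne_x mat_zero
    have hv : v ≠ 0 := by
      rintro rfl
      exact huv.ne_y mat_zero
    obtain ⟨s, hs0, hs1, hs2⟩ := exists_norm_scale hu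
    obtain ⟨t, ht0, ht1, ht2⟩ := exists_norm_scale hv
    have h1 : IsPair (mat (s • u)) (mat (t • v)) := by
      rw [mat_smul, mat_smul]; exact huv.smul hs0 ht0
    obtain ⟨h2, h3⟩ := H (s • u, t • v) ⟨hs2, ht2, h1⟩
    simp only at h2 h3
    rw [mat_smul, mat_smul, hM.scale _ _ huv s t hs0 ht0, hs1, ht1] at h2 h3
    have hu' : 0 < ‖u‖ := norm_pos_iff.2 hu
    have hv' : 0 < ‖v‖ := norm_pos_iff.2 hv
    have e : M (mat u) (mat v) = (‖u‖⁻¹ ^ 2 * ‖v‖⁻¹ ^ 2 * M (mat u) (mat v)) * (‖u‖ * ‖v‖) ^ 2 := by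
      field_simp
    constructor
    · rw [e]; exact mul_le_mul_of_nonneg_right h2 (by positivity)
    · rw [e]; exact mul_le_mul_of_nonneg_right h3 (by positivity)
  have hc := isCompact_unitPairs (K := K)
  have hcont := hM.cont_unit
  rcases (unitPairs K).eq_empty_or_nonempty with hE | hne
  · refine ⟨1, 1, one_pos, le_rfl, key 1 1 ?_⟩
    intro z hz
    rw [hE] at hz
    exact absurd hz (Set.notMem_empty _)
  · obtain ⟨z0, hz0, hmin⟩ := hc.exists_isMinOn hne hcont
    obtain ⟨z1, hz1, hmax⟩ := hc.exists_isMaxOn hne hcont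
    have hpos := hM.pos _ _ hz0.2.2
    exact ⟨_, _, hpos, hmin hz1, key _ _ fun x hx => ⟨hmin hx, hmax hx⟩⟩

end general

/-- the real height function of a vector -/
noncomputable def realF (M : Matrix (Fin 3) (Fin 3) ℝ → Matrix (Fin 3) (Fin 3) ℝ → ℝ)
    (u : Fin 6 → ℝ) : ℝ :=
  open scoped Classical in if adj u = 0 then 0 else M (mat u) (mat (adj u))

theorem realF_of_ne {M : Matrix (Fin 3) (Fin 3) ℝ → Matrix (Fin 3) (Fin 3) ℝ → ℝ} {u : Fin 6 → ℝ}
    (h : adj u ≠ 0) : realF M u = M (mat u) (mat (adj u)) := by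
  rw [realF, if_neg h]

theorem realF_of_eq {M : Matrix (Fin 3) (Fin 3) ℝ → Matrix (Fin 3) (Fin 3) ℝ → ℝ} {u : Fin 6 → ℝ}
    (h : adj u = 0) : realF M u = 0 := by
  rw [realF, if_pos h]

theorem IsLocalNorm.realF {M : Matrix (Fin 3) (Fin 3) ℝ → Matrix (Fin 3) (Fin 3) ℝ → ℝ}
    (hM : IsLocalNorm ℝ M) : ∃ f0 f1 : ℝ, RealF (Conic.realF M) f0 f1 := by
  obtain ⟨f0, f1, h0, h01, hb⟩ := hM.bounds
  have lo : ∀ u, f0 * (‖u‖ * ‖adj u‖) ^ 2 ≤ Conic.realF M u := by
    intro u
    by_cases h : adj u = 0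
    · rw [realF_of_eq h, h, norm_zero]; simp
    · rw [realF_of_ne h]
      exact (hb _ _ (isPair_adj h)).1
  have hi : ∀ u, Conic.realF M u ≤ f1 * (‖u‖ * ‖adj u‖) ^ 2 := by
    intro u
    by_cases h : adj u = 0
    · rw [realF_of_eq h, h, norm_zero]; simp
    · rw [realF_of_ne h]
      exact (hb _ _ (isPair_adj h)).2
  refine ⟨f0, f1, ?_, ?_, h0, lo, hi⟩
  · rw [continuous_iff_continuousAt]
    intro u
    by_cases h : adj u = 0
    · have e : Conic.realF M u = 0 := realF_of_eq h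
      rw [ContinuousAt, e]
      have hup : Tendsto (fun w : Fin 6 → ℝ => f1 * (‖w‖ * ‖adj w‖) ^ 2) (𝓝 u) (𝓝 0) := by
        have hc : Continuous fun w : Fin 6 → ℝ => f1 * (‖w‖ * ‖adj w‖) ^ 2 :=
          continuous_const.mul ((continuous_norm.mul continuous_adj.norm).pow 2)
        have := hc.tendsto u
        simp only [h, norm_zero, mul_zero] at this
        simpa using this
      refine squeeze_zero (fun w => ?_) hi hup
      exact le_trans (by positivity) (lo w)
    · have hopen : IsOpen {w : Fin 6 → ℝ | adj w ≠ 0} :=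
        isOpen_ne_fun continuous_adj continuous_const
      have hcont : ContinuousOn (fun w : Fin 6 → ℝ => M (mat w) (mat (adj w))) {w | adj w ≠ 0} := by
        have h1 : Continuous fun w : Fin 6 → ℝ => (mat w, mat (adj w)) :=
          continuous_mat.prodMk (continuous_mat.comp continuous_adj)
        exact hM.cont.comp h1.continuousOn (fun w hw => isPair_adj hw)
      have hat := hcont.continuousAt (hopen.mem_nhds h)
      refine hat.congr ?_
      filter_upwards [hopen.mem_nhds h] with w hw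
      rw [realF_of_ne hw]
  · intro u t ht
    by_cases h : adj u = 0
    · rw [realF_of_eq h, realF_of_eq (by rw [adj_smul, h, smul_zero]), mul_zero]
    · have h' : adj (t • u) ≠ 0 := by
        rw [adj_smul]; exact smul_ne_zero (by positivity) h
      rw [realF_of_ne h, realF_of_ne h', adj_smul, mat_smul, mat_smul,
        hM.scale _ _ (isPair_adj h) t (t ^ 2) ht.ne' (by positivity)]
      rw [norm_pow, Real.norm_eq_abs, abs_of_pos ht]
      ring

end Pool.Agent.Lib.MP_1acd66_nt.Conic
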