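import Pool.Agent.Lib.MP_1acd66_nt.Conic.InCl

/-! Upper bounds for the number of integral points near the cone of matrices of rank one, in the
classes modulo `g`. -/

set_option linter.unusedSectionVars false

namespace Pool.Agent.Lib.MP_1acd66_nt.Conic

theorem abs_le_norm (x : Fin 6 → ℤ) (i : Fin 6) : |(x i : ℝ)| ≤ ‖x‖ := by
  have := norm_le_pi_norm x i
  rwa [Int.norm_eq_abs] at this

theorem finite_ball (R : ℝ) : {x : Fin 6 → ℤ | ‖x‖ ≤ R}.Finite := by
  refine (Set.finite_Icc (fun _ => -⌈R⌉ : Fin 6 → ℤ) (fun _ => ⌈R⌉)).subset ?_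
  intro x hx
  have hx' : ‖x‖ ≤ R := hx
  have h : ∀ i, |x i| ≤ ⌈R⌉ := by
    intro i
    have h1 := (abs_le_norm x i).trans (hx'.trans (Int.le_ceil R))
    exact_mod_cast h1
  exact ⟨fun i => (abs_le.1 (h i)).1, fun i => (abs_le.1 (h i)).2⟩

theorem floor_inj {g : ℕ} (hg : 0 < g) {a b : ℤ} (h : (g : ℤ) ∣ a - b) {t w : ℝ}
    (hf : ⌊((a:ℝ) - t + w) / g⌋ = ⌊((b:ℝ) - t + w) / g⌋) : a = b := by
  have hg' : (0:ℝ) < g := by exact_mod_cast hg
  have h1 := Int.abs_sub_lt_one_of_floor_eq_floor hf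
  have h2 : ((a:ℝ) - t + w) / g - ((b:ℝ) - t + w) / g = ((a - b : ℤ) : ℝ) / g := by
    push_cast; ring
  rw [h2, abs_div, abs_of_pos hg', div_lt_one hg'] at h1
  have h3 : |a - b| < (g : ℤ) := by
    have : ((|a - b| : ℤ) : ℝ) < ((g : ℤ) : ℝ) := by push_cast; push_cast at h1; exact h1
    exact_mod_cast this
  have := Int.eq_zero_of_abs_lt_dvd h h3
  omega

/-- Counting a set contained in one residue class, given by a triangular system. -/
theorem ncard_triangular {g : ℕ} (hg : 0 < g) {S : Set (Fin 6 → ℤ)} {κ : Fin 6 → ZMod g}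
    (_hκ : ∀ x ∈ S, red g x = κ) (c : Fin 6 → (Fin 6 → ℤ) → ℝ) (W : Fin 6 → ℝ) (hW : ∀ i, 0 ≤ W i)
    (hc : ∀ x ∈ S, ∀ i, |(x i : ℝ) - c i x| ≤ W i)
    (ht : ∀ x ∈ S, ∀ y ∈ S, (∀ i, ⌊((x i : ℝ) - c i x + W i) / g⌋ = ⌊((y i : ℝ) - c i y + W i) / g⌋) →
      x = y) :
    (S.ncard : ℝ) ≤ ∏ i, (2 * W i / g + 1) := by
  have hg' : (0:ℝ) < g := by exact_mod_cast hg
  set F : (Fin 6 → ℤ) → (Fin 6 → ℤ) := fun x i => ⌊((x i : ℝ) - c i x + W i) / g⌋ with hF
  set B : Finset (Fin 6 → ℤ) := Fintype.piFinset fun i => Finset.Icc 0 ⌊2 * W i / g⌋ with hB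
  have h1 : ∀ x ∈ S, F x ∈ (B : Set (Fin 6 → ℤ)) := by
    intro x hx
    rw [Finset.mem_coe, hB, Fintype.mem_piFinset]
    intro i
    rw [Finset.mem_Icc]
    have h2 := abs_le.1 (hc x hx i)
    constructor
    · apply Int.floor_nonneg.2
      apply div_nonneg _ hg'.le
      linarith
    · apply Int.floor_le_floor
      apply div_le_div_of_nonneg_right _ hg'.le
      linarith
  have h2 := Set.ncard_le_ncard_of_injOn F h1
    (fun x hx y hy h => ht x hx y hy fun i => congrFun h i) B.finite_toSet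
  rw [Set.ncard_coe_finset, hB, Fintype.card_piFinset] at h2
  calc (S.ncard : ℝ) ≤ ((∏ i, (Finset.Icc 0 ⌊2 * W i / g⌋).card : ℕ) : ℝ) := by exact_mod_cast h2
    _ = ∏ i, ((Finset.Icc 0 ⌊2 * W i / g⌋).card : ℝ) := by push_cast; rfl
    _ ≤ _ := by
      refine Finset.prod_le_prod (fun i _ => Nat.cast_nonneg _) fun i _ => ?_
      rw [Int.card_Icc]
      have h3 : 0 ≤ ⌊2 * W i / g⌋ := Int.floor_nonneg.2 (div_nonneg (by linarith [hW i]) hg'.le)
      have h4 : (((⌊2 * W i / g⌋ + 1 - 0).toNat : ℤ) : ℝ) = ⌊2 * W i / g⌋ + 1 := by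
        rw [Int.toNat_of_nonneg (by omega)]
        push_cast; ring
      have h5 : (((⌊2 * W i / g⌋ + 1 - 0).toNat : ℕ) : ℝ) = ⌊2 * W i / g⌋ + 1 := by
        rw [← h4]; push_cast; rfl
      rw [h5]
      linarith [Int.floor_le (2 * W i / g)]

/-- From one class to all classes. -/
theorem ncard_classes {g : ℕ} (hg : 0 < g) {S : Set (Fin 6 → ℤ)} (hfin : S.Finite)
    (hS : ∀ x ∈ S, red g x ∈ cl (ZMod g)) {b : ℝ} (hb : 0 ≤ b)
    (h : ∀ κ ∈ cl (ZMod g), (({x ∈ S | red g x = κ}.ncard : ℕ) : ℝ) ≤ b) :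
    (S.ncard : ℝ) ≤ g ^ 3 * b := by
  classical
  have : NeZero g := ⟨hg.ne'⟩
  set s := hfin.toFinset with hs
  have h1 : S.ncard = s.card := Set.ncard_eq_toFinset_card _ hfin
  have h2 := Finset.card_le_mul_card_image (f := red g) s ⌊b⌋₊ (by
    intro κ hκ
    obtain ⟨x, hx, rfl⟩ := Finset.mem_image.1 hκ
    have hx' : x ∈ S := by simpa [hs] using hx
    have h3 := h _ (hS x hx')
    have h4 : {y ∈ S | red g y = red g x}.ncard = (Finset.filter (fun y => red g y = red g x) s).card := by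
      rw [← Set.ncard_coe_finset]
      congr 1
      ext y
      simp [hs]
    rw [h4] at h3
    exact Nat.le_floor h3)
  have h3 : (s.image (red g)).card ≤ g ^ 3 := by
    refine le_trans ?_ (ncard_cl_le g hg)
    rw [← Set.ncard_coe_finset]
    refine Set.ncard_le_ncard ?_ (Set.toFinite _)
    intro κ hκ
    obtain ⟨x, hx, rfl⟩ := Finset.mem_image.1 (Finset.mem_coe.1 hκ)
    exact hS x (by simpa [hs] using hx)
  rw [h1]
  calc (s.card : ℝ) ≤ ((⌊b⌋₊ * (s.image (red g)).card : ℕ) : ℝ) := by exact_mod_cast h2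
    _ = (⌊b⌋₊ : ℝ) * ((s.image (red g)).card : ℝ) := by push_cast; ring
    _ ≤ b * g ^ 3 := by
        apply mul_le_mul (Nat.floor_le hb) _ (Nat.cast_nonneg _) hb
        exact_mod_cast h3
    _ = g ^ 3 * b := by ring

theorem ball_class {g : ℕ} (hg : 0 < g) {R : ℝ} (hR : 0 ≤ R) (κ : Fin 6 → ZMod g) :
    (({x : Fin 6 → ℤ | ‖x‖ ≤ R ∧ red g x = κ}.ncard : ℕ) : ℝ) ≤ (2 * R / g + 1) ^ 6 := by
  have := ncard_triangular hg (S := {x : Fin 6 → ℤ | ‖x‖ ≤ R ∧ red g x = κ}) (κ := κ)
    (fun x hx => hx.2) (fun _ _ => 0) (fun _ => R) (fun _ => hR) (by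
      intro x hx i
      rw [sub_zero]
      exact (abs_le_norm x i).trans hx.1) (by
      intro x hx y hy h
      funext i
      refine floor_inj hg ?_ (h i)
      exact red_eq_red.1 (hx.2.trans hy.2.symm) i)
  simpa using this

theorem ball_count {g : ℕ} (hg : 0 < g) {R : ℝ} (hR : (g:ℝ) ≤ 2 * R) :
    (({x : Fin 6 → ℤ | red g x ∈ cl (ZMod g) ∧ ‖x‖ ≤ R}.ncard : ℕ) : ℝ) ≤ 4096 * (R ^ 6 / g ^ 3) := by
  have hg' : (0:ℝ) < g := by exact_mod_cast hg
  have hR0 : 0 < R := by linarith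
  have h1 := ncard_classes hg (S := {x : Fin 6 → ℤ | red g x ∈ cl (ZMod g) ∧ ‖x‖ ≤ R})
    ((finite_ball R).subset fun x hx => hx.2) (fun x hx => hx.1) (b := (2 * R / g + 1) ^ 6)
    (by positivity) (by
      intro κ _
      refine le_trans ?_ (ball_class hg hR0.le κ)
      norm_cast
      refine Set.ncard_le_ncard ?_ ((finite_ball R).subset fun x hx => hx.1)
      rintro x ⟨⟨_, h⟩, h'⟩
      exact ⟨h, h'⟩)
  refine h1.trans ?_
  have h2 : 2 * R / g + 1 ≤ 4 * R / g := by
    rw [div_add_one hg'.ne', div_le_div_iff_of_pos_right hg']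
    linarith
  have h3 : (2 * R / g + 1) ^ 6 ≤ (4 * R / g) ^ 6 := pow_le_pow_left₀ (by positivity) h2 6
  calc (g:ℝ) ^ 3 * (2 * R / g + 1) ^ 6 ≤ g ^ 3 * (4 * R / g) ^ 6 :=
        mul_le_mul_of_nonneg_left h3 (by positivity)
    _ = 4096 * (R ^ 6 / g ^ 3) := by
      field_simp
      ring

/-- the maximal entry of a matrix near the rank one cone is comparable to a diagonal entry -/
theorem exists_diag {x : Fin 6 → ℤ} {R T : ℝ} (hR : 0 < R) (h1 : R / 2 ≤ ‖x‖)
    (h2 : ‖adj x‖ ≤ T * R) (hT : T < R / 16) :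
    R / 4 ≤ |(x 0 : ℝ)| ∨ R / 4 ≤ |(x 1 : ℝ)| ∨ R / 4 ≤ |(x 2 : ℝ)| := by
  by_contra hcon
  push Not at hcon
  obtain ⟨c0, c1, c2⟩ := hcon
  obtain ⟨i, hi⟩ : ∃ i, R / 2 ≤ |(x i : ℝ)| := by
    by_contra h
    push Not at h
    have : ‖x‖ < R / 2 := by
      rw [pi_norm_lt_iff (by positivity)]
      intro i
      rw [Int.norm_eq_abs]
      exact h i
    linarith
  have key : ∀ a b c : ℤ, |(a:ℝ)| < R / 4 → |(b:ℝ)| < R / 4 → R / 2 ≤ |(c:ℝ)| →
      |((a * b - c ^ 2 : ℤ) : ℝ)| ≤ T * R → False := by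
    intro a b c ha hb hc h
    push_cast at h
    have h3 := (abs_le.1 h).1
    have h4 : (a:ℝ) * b ≤ (R / 4) * (R / 4) := by
      calc (a:ℝ) * b ≤ |(a:ℝ) * b| := le_abs_self _
        _ = |(a:ℝ)| * |(b:ℝ)| := abs_mul _ _
        _ ≤ _ := mul_le_mul ha.le hb.le (abs_nonneg _) (by positivity)
    have h5 : (R / 2) ^ 2 ≤ (c:ℝ) ^ 2 := by
      rw [← sq_abs (c:ℝ)]
      exact pow_le_pow_left₀ (by positivity) hc 2
    nlinarith
  have hadj : ∀ j, |((adj x j : ℤ) : ℝ)| ≤ T * R := fun j => (abs_le_norm (adj x) j).trans h2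
  fin_cases i
  · simp only [Fin.zero_eta] at hi
    linarith
  · simp only [Fin.mk_one] at hi
    linarith
  · simp only [Fin.reduceFinMk] at hi
    linarith
  · exact key (x 0) (x 1) (x 3) c0 c1 hi (hadj 2)
  · exact key (x 0) (x 2) (x 4) c0 c2 hi (hadj 1)
  · exact key (x 1) (x 2) (x 5) c1 c2 hi (hadj 0)

theorem div_center {a b s : ℤ} {R T : ℝ} (hR : 0 < R) (ha : R / 4 ≤ |(a:ℝ)|)
    (h : |((a * b - s : ℤ) : ℝ)| ≤ T * R) : |(b:ℝ) - s / a| ≤ 4 * T := by
  have ha0 : (0:ℝ) < |(a:ℝ)| := by linarith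
  have ha1 : (a:ℝ) ≠ 0 := abs_pos.1 ha0
  have h1 : (b:ℝ) - s / a = ((a * b - s : ℤ) : ℝ) / a := by
    push_cast
    field_simp
  rw [h1, abs_div, div_le_iff₀ ha0]
  have hT : 0 ≤ T := by
    have := (abs_nonneg _).trans h
    exact nonneg_of_mul_nonneg_left this hR
  nlinarith

/-- The set of points near the rank one cone whose `k`-th diagonal entry is large. -/
def nearSet (g : ℕ) (R T : ℝ) (k : Fin 6) : Set (Fin 6 → ℤ) :=
  {x | red g x ∈ cl (ZMod g) ∧ ‖x‖ ≤ R ∧ R / 4 ≤ |(x k : ℝ)| ∧ ‖adj x‖ ≤ T * R}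

theorem prod_six (W : Fin 6 → ℝ) : ∏ i, W i = W 0 * W 1 * W 2 * W 3 * W 4 * W 5 := by
  rw [Fin.prod_univ_six]

theorem near_final {g : ℕ} (hg : 0 < g) {R T : ℝ} (hR : (g:ℝ) ≤ 2 * R) (hT : (g:ℝ) ≤ 4 * T)
    {S : Set (Fin 6 → ℤ)} (hfin : S.Finite)
    (hS : ∀ x ∈ S, red g x ∈ cl (ZMod g))
    (h : ∀ κ ∈ cl (ZMod g), (({x ∈ S | red g x = κ}.ncard : ℕ) : ℝ) ≤
      (2 * R / g + 1) ^ 3 * (2 * (4 * T) / g + 1) ^ 3) :
    (S.ncard : ℝ) ≤ 110592 * (R * T / g) ^ 3 := by
  have hg' : (0:ℝ) < g := by exact_mod_cast hg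
  have hR0 : 0 < R := by linarith
  have hT0 : 0 < T := by linarith
  have h1 := ncard_classes hg hfin hS (by positivity) h
  refine h1.trans ?_
  have h2 : 2 * R / g + 1 ≤ 4 * R / g := by
    rw [div_add_one hg'.ne', div_le_div_iff_of_pos_right hg']
    linarith
  have h3 : 2 * (4 * T) / g + 1 ≤ 12 * T / g := by
    rw [div_add_one hg'.ne', div_le_div_iff_of_pos_right hg']
    linarith
  have h4 : (2 * R / g + 1) ^ 3 ≤ (4 * R / g) ^ 3 := pow_le_pow_left₀ (by positivity) h2 3
  have h5 : (2 * (4 * T) / g + 1) ^ 3 ≤ (12 * T / g) ^ 3 := pow_le_pow_left₀ (by positivity) h3 3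
  calc (g:ℝ) ^ 3 * ((2 * R / g + 1) ^ 3 * (2 * (4 * T) / g + 1) ^ 3) ≤
        g ^ 3 * ((4 * R / g) ^ 3 * (12 * T / g) ^ 3) := by
        apply mul_le_mul_of_nonneg_left _ (by positivity)
        exact mul_le_mul h4 h5 (by positivity) (by positivity)
    _ = 110592 * (R * T / g) ^ 3 := by
      field_simp
      ring

theorem near_0 {g : ℕ} (hg : 0 < g) {R T : ℝ} (hR : (g:ℝ) ≤ 2 * R) (hT : (g:ℝ) ≤ 4 * T) :
    ((nearSet g R T 0).ncard : ℝ) ≤ 110592 * (R * T / g) ^ 3 := by
  have hg' : (0:ℝ) < g := by exact_mod_cast hg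
  have hR0 : 0 < R := by linarith
  have hT0 : 0 < T := by linarith
  refine near_final hg hR hT ((finite_ball R).subset fun x hx => hx.2.1) (fun x hx => hx.1) ?_
  intro κ _
  have key := ncard_triangular hg (S := {x ∈ nearSet g R T 0 | red g x = κ}) (κ := κ)
    (fun x hx => hx.2)
    (fun i x => ![0, (x 3 : ℝ) * x 3 / x 0, (x 4 : ℝ) * x 4 / x 0, 0, 0, (x 3 : ℝ) * x 4 / x 0] i)
    (![R, 4 * T, 4 * T, R, R, 4 * T])
    (by intro i; fin_cases i <;> simp <;> linarith)
    (by
      rintro x ⟨⟨_, h1, h2, h3⟩, _⟩ i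
      have hadj : ∀ j, |((adj x j : ℤ) : ℝ)| ≤ T * R := fun j => (abs_le_norm (adj x) j).trans h3
      fin_cases i
      · simpa using (abs_le_norm x 0).trans h1
      · have := div_center (a := x 0) (b := x 1) (s := x 3 * x 3) hR0 h2 (by
          have := hadj 2
          simp only [adj_2] at this
          push_cast at this ⊢
          convert this using 2
          ring)
        simpa using this
      · have := div_center (a := x 0) (b := x 2) (s := x 4 * x 4) hR0 h2 (by
          have := hadj 1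
          simp only [adj_1] at this
          push_cast at this ⊢
          convert this using 2
          ring)
        simpa using this
      · simpa using (abs_le_norm x 3).trans h1
      · simpa using (abs_le_norm x 4).trans h1
      · have := div_center (a := x 0) (b := x 5) (s := x 3 * x 4) hR0 h2 (by
          have := hadj 5
          rw [← abs_neg]
          simp only [adj_5] at this
          push_cast at this ⊢
          convert this using 2
          ring)
        simpa using this)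
    (by
      rintro x ⟨_, hx⟩ y ⟨_, hy⟩ h
      have hc := red_eq_red.1 (hx.trans hy.symm)
      have e0 : x 0 = y 0 := floor_inj hg (hc 0) (t := 0) (w := R) (by simpa using h 0)
      have e3 : x 3 = y 3 := floor_inj hg (hc 3) (t := 0) (w := R) (by simpa using h 3)
      have e4 : x 4 = y 4 := floor_inj hg (hc 4) (t := 0) (w := R) (by simpa using h 4)
      have h1 := h 1
      simp only [Matrix.cons_val] at h1
      rw [e0, e3] at h1
      have e1 : x 1 = y 1 := floor_inj hg (hc 1) h1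
      have h2 := h 2
      simp only [Matrix.cons_val] at h2
      rw [e0, e4] at h2
      have e2 : x 2 = y 2 := floor_inj hg (hc 2) h2
      have h5 := h 5
      simp only [Matrix.cons_val] at h5
      rw [e0, e3, e4] at h5
      have e5 : x 5 = y 5 := floor_inj hg (hc 5) h5
      exact six_ext e0 e1 e2 e3 e4 e5)
  refine key.trans (le_of_eq ?_)
  rw [prod_six]
  simp only [Matrix.cons_val]
  ring

theorem near_1 {g : ℕ} (hg : 0 < g) {R T : ℝ} (hR : (g:ℝ) ≤ 2 * R) (hT : (g:ℝ) ≤ 4 * T) :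
    ((nearSet g R T 1).ncard : ℝ) ≤ 110592 * (R * T / g) ^ 3 := by
  have hg' : (0:ℝ) < g := by exact_mod_cast hg
  have hR0 : 0 < R := by linarith
  have hT0 : 0 < T := by linarith
  refine near_final hg hR hT ((finite_ball R).subset fun x hx => hx.2.1) (fun x hx => hx.1) ?_
  intro κ _
  have key := ncard_triangular hg (S := {x ∈ nearSet g R T 1 | red g x = κ}) (κ := κ)
    (fun x hx => hx.2)
    (fun i x => ![(x 3 : ℝ) * x 3 / x 1, 0, (x 5 : ℝ) * x 5 / x 1, 0, (x 3 : ℝ) * x 5 / x 1, 0] i)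
    (![4 * T, R, 4 * T, R, 4 * T, R])
    (by intro i; fin_cases i <;> simp <;> linarith)
    (by
      rintro x ⟨⟨_, h1, h2, h3⟩, _⟩ i
      have hadj : ∀ j, |((adj x j : ℤ) : ℝ)| ≤ T * R := fun j => (abs_le_norm (adj x) j).trans h3
      fin_cases i
      · have := div_center (a := x 1) (b := x 0) (s := x 3 * x 3) hR0 h2 (by
          have := hadj 2
          simp only [adj_2] at this
          push_cast at this ⊢
          convert this using 2
          ring)
        simpa using this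
      · simpa using (abs_le_norm x 1).trans h1
      · have := div_center (a := x 1) (b := x 2) (s := x 5 * x 5) hR0 h2 (by
          have := hadj 0
          simp only [adj_0] at this
          push_cast at this ⊢
          convert this using 2
          ring)
        simpa using this
      · simpa using (abs_le_norm x 3).trans h1
      · have := div_center (a := x 1) (b := x 4) (s := x 3 * x 5) hR0 h2 (by
          have := hadj 4
          rw [← abs_neg]
          simp only [adj_4] at this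
          push_cast at this ⊢
          convert this using 2
          ring)
        simpa using this
      · simpa using (abs_le_norm x 5).trans h1)
    (by
      rintro x ⟨_, hx⟩ y ⟨_, hy⟩ h
      have hc := red_eq_red.1 (hx.trans hy.symm)
      have e1 : x 1 = y 1 := floor_inj hg (hc 1) (t := 0) (w := R) (by simpa using h 1)
      have e3 : x 3 = y 3 := floor_inj hg (hc 3) (t := 0) (w := R) (by simpa using h 3)
      have e5 : x 5 = y 5 := floor_inj hg (hc 5) (t := 0) (w := R) (by simpa using h 5)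
      have h0 := h 0
      simp only [Matrix.cons_val] at h0
      rw [e1, e3] at h0
      have e0 : x 0 = y 0 := floor_inj hg (hc 0) h0
      have h2 := h 2
      simp only [Matrix.cons_val] at h2
      rw [e1, e5] at h2
      have e2 : x 2 = y 2 := floor_inj hg (hc 2) h2
      have h4 := h 4
      simp only [Matrix.cons_val] at h4
      rw [e1, e3, e5] at h4
      have e4 : x 4 = y 4 := floor_inj hg (hc 4) h4
      exact six_ext e0 e1 e2 e3 e4 e5)
  refine key.trans (le_of_eq ?_)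
  rw [prod_six]
  simp only [Matrix.cons_val]
  ring

theorem near_2 {g : ℕ} (hg : 0 < g) {R T : ℝ} (hR : (g:ℝ) ≤ 2 * R) (hT : (g:ℝ) ≤ 4 * T) :
    ((nearSet g R T 2).ncard : ℝ) ≤ 110592 * (R * T / g) ^ 3 := by
  have hg' : (0:ℝ) < g := by exact_mod_cast hg
  have hR0 : 0 < R := by linarith
  have hT0 : 0 < T := by linarith
  refine near_final hg hR hT ((finite_ball R).subset fun x hx => hx.2.1) (fun x hx => hx.1) ?_
  intro κ _
  have key := ncard_triangular hg (S := {x ∈ nearSet g R T 2 | red g x = κ}) (κ := κ)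
    (fun x hx => hx.2)
    (fun i x => ![(x 4 : ℝ) * x 4 / x 2, (x 5 : ℝ) * x 5 / x 2, 0, (x 4 : ℝ) * x 5 / x 2, 0, 0] i)
    (![4 * T, 4 * T, R, 4 * T, R, R])
    (by intro i; fin_cases i <;> simp <;> linarith)
    (by
      rintro x ⟨⟨_, h1, h2, h3⟩, _⟩ i
      have hadj : ∀ j, |((adj x j : ℤ) : ℝ)| ≤ T * R := fun j => (abs_le_norm (adj x) j).trans h3
      fin_cases i
      · have := div_center (a := x 2) (b := x 0) (s := x 4 * x 4) hR0 h2 (by
          have := hadj 1
          simp only [adj_1] at this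
          push_cast at this ⊢
          convert this using 2
          ring)
        simpa using this
      · have := div_center (a := x 2) (b := x 1) (s := x 5 * x 5) hR0 h2 (by
          have := hadj 0
          simp only [adj_0] at this
          push_cast at this ⊢
          convert this using 2
          ring)
        simpa using this
      · simpa using (abs_le_norm x 2).trans h1
      · have := div_center (a := x 2) (b := x 3) (s := x 4 * x 5) hR0 h2 (by
          have := hadj 3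
          rw [← abs_neg]
          simp only [adj_3] at this
          push_cast at this ⊢
          convert this using 2
          ring)
        simpa using this
      · simpa using (abs_le_norm x 4).trans h1
      · simpa using (abs_le_norm x 5).trans h1)
    (by
      rintro x ⟨_, hx⟩ y ⟨_, hy⟩ h
      have hc := red_eq_red.1 (hx.trans hy.symm)
      have e2 : x 2 = y 2 := floor_inj hg (hc 2) (t := 0) (w := R) (by simpa using h 2)
      have e4 : x 4 = y 4 := floor_inj hg (hc 4) (t := 0) (w := R) (by simpa using h 4)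
      have e5 : x 5 = y 5 := floor_inj hg (hc 5) (t := 0) (w := R) (by simpa using h 5)
      have h0 := h 0
      simp only [Matrix.cons_val] at h0
      rw [e2, e4] at h0
      have e0 : x 0 = y 0 := floor_inj hg (hc 0) h0
      have h1 := h 1
      simp only [Matrix.cons_val] at h1
      rw [e2, e5] at h1
      have e1 : x 1 = y 1 := floor_inj hg (hc 1) h1
      have h3 := h 3
      simp only [Matrix.cons_val] at h3
      rw [e2, e4, e5] at h3
      have e3 : x 3 = y 3 := floor_inj hg (hc 3) h3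
      exact six_ext e0 e1 e2 e3 e4 e5)
  refine key.trans (le_of_eq ?_)
  rw [prod_six]
  simp only [Matrix.cons_val]
  ring

/-- The main upper bound near the cone of matrices of rank one. -/
theorem near_count {g : ℕ} (hg : 0 < g) {R T : ℝ} (hR : (g:ℝ) ≤ 2 * R) (hT : (g:ℝ) ≤ 4 * T) :
    (({x : Fin 6 → ℤ | red g x ∈ cl (ZMod g) ∧ ‖x‖ ≤ R ∧ R / 2 ≤ ‖x‖ ∧ ‖adj x‖ ≤ T * R}.ncard : ℕ) : ℝ) ≤
      20000000 * (R * T / g) ^ 3 := by
  have hg' : (0:ℝ) < g := by exact_mod_cast hg
  have hR0 : 0 < R := by linarith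
  have hT0 : 0 < T := by linarith
  by_cases hTR : T < R / 16
  · have hsub : {x : Fin 6 → ℤ | red g x ∈ cl (ZMod g) ∧ ‖x‖ ≤ R ∧ R / 2 ≤ ‖x‖ ∧ ‖adj x‖ ≤ T * R} ⊆
        (nearSet g R T 0 ∪ nearSet g R T 1) ∪ nearSet g R T 2 := by
      rintro x ⟨h1, h2, h3, h4⟩
      rcases exists_diag hR0 h3 h4 hTR with h | h | h
      · exact Or.inl (Or.inl ⟨h1, h2, h, h4⟩)
      · exact Or.inl (Or.inr ⟨h1, h2, h, h4⟩)
      · exact Or.inr ⟨h1, h2, h, h4⟩
    have hf : ∀ k, (nearSet g R T k).Finite := fun k => (finite_ball R).subset fun x hx => hx.2.1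
    have h1 := Set.ncard_le_ncard hsub (((hf 0).union (hf 1)).union (hf 2))
    have h2 := h1.trans (Set.ncard_union_le _ _)
    have h3 := h2.trans (Nat.add_le_add_right (Set.ncard_union_le _ _) _)
    have h4 : (({x : Fin 6 → ℤ | red g x ∈ cl (ZMod g) ∧ ‖x‖ ≤ R ∧ R / 2 ≤ ‖x‖ ∧
        ‖adj x‖ ≤ T * R}.ncard : ℕ) : ℝ) ≤ (nearSet g R T 0).ncard + (nearSet g R T 1).ncard +
        (nearSet g R T 2).ncard := by exact_mod_cast h3
    have := near_0 hg hR hT
    have := near_1 hg hR hT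
    have := near_2 hg hR hT
    have : 0 ≤ (R * T / g) ^ 3 := by positivity
    linarith
  · push Not at hTR
    have h1 : (({x : Fin 6 → ℤ | red g x ∈ cl (ZMod g) ∧ ‖x‖ ≤ R ∧ R / 2 ≤ ‖x‖ ∧
        ‖adj x‖ ≤ T * R}.ncard : ℕ) : ℝ) ≤ {x : Fin 6 → ℤ | red g x ∈ cl (ZMod g) ∧ ‖x‖ ≤ R}.ncard := by
      norm_cast
      exact Set.ncard_le_ncard (fun x hx => ⟨hx.1, hx.2.1⟩) ((finite_ball R).subset fun x hx => hx.2)
    refine (h1.trans (ball_count hg hR)).trans ?_
    have h2 : R ^ 3 ≤ (16 * T) ^ 3 := pow_le_pow_left₀ hR0.le (by linarith) 3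
    have h3 : R ^ 6 / (g:ℝ) ^ 3 ≤ 4096 * (R * T / g) ^ 3 := by
      have : (4096:ℝ) * (R * T / g) ^ 3 = R ^ 3 * (16 * T) ^ 3 / g ^ 3 := by
        field_simp; ring
      rw [this]
      apply div_le_div_of_nonneg_right _ (by positivity)
      calc R ^ 6 = R ^ 3 * R ^ 3 := by ring
        _ ≤ _ := mul_le_mul_of_nonneg_left h2 (by positivity)
    have : 0 ≤ (R * T / g) ^ 3 := by positivity
    linarith

end Pool.Agent.Lib.MP_1acd66_nt.Conic
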