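import Pool.Agent.Lib.MP_1acd66_nt.Conic.Defs

/-! The product formula. -/

namespace Pool.Agent.Lib.MP_1acd66_nt.Conic

open Filter

/-- the family of `p`-adic absolute values of a rational number -/
noncomputable def pn (r : ℚ) (p : Nat.Primes) : ℝ := ‖(r : ℚ_[(p:ℕ)])‖

theorem pn_mul (r s : ℚ) (p : Nat.Primes) : pn (r * s) p = pn r p * pn s p := by
  simp only [pn]
  rw [Rat.cast_mul, norm_mul]

theorem pn_one (p : Nat.Primes) : pn 1 p = 1 := by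
  simp [pn]

theorem pn_nat_eq_one {n : ℕ} {p : Nat.Primes} (h : ¬ (p:ℕ) ∣ n) : pn (n:ℚ) p = 1 := by
  simp only [pn]
  rw [Padic.eq_padicNorm, (padicNorm.nat_eq_one_iff n).2 h, Rat.cast_one]

theorem pn_int_eq_one {n : ℤ} {p : Nat.Primes} (h : ¬ ((p:ℕ):ℤ) ∣ n) : pn (n:ℚ) p = 1 := by
  simp only [pn]
  rw [Padic.eq_padicNorm, (padicNorm.int_eq_one_iff n).2 h, Rat.cast_one]

theorem pn_int_le_one (n : ℤ) (p : Nat.Primes) : pn (n:ℚ) p ≤ 1 := by
  simp only [pn]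
  rw [Rat.cast_intCast]
  exact Padic.norm_int_le_one n

theorem eventually_not_dvd {n : ℤ} (hn : n ≠ 0) :
    ∀ᶠ p : Nat.Primes in cofinite, ¬ ((p:ℕ):ℤ) ∣ n := by
  rw [Filter.eventually_cofinite]
  have h : Set.Finite {k : ℕ | k ≤ n.natAbs} := Set.finite_le_nat _
  have h2 : {x : Nat.Primes | ¬¬ ((x:ℕ):ℤ) ∣ n} ⊆ (fun p : Nat.Primes => (p:ℕ)) ⁻¹' {k : ℕ | k ≤ n.natAbs} := by
    intro p hp
    have hp' : ((p:ℕ):ℤ) ∣ n := not_not.1 hp
    exact Nat.le_of_dvd (Int.natAbs_pos.2 hn) (Int.natCast_dvd.1 hp')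
  exact (h.preimage (Subtype.val_injective.injOn)).subset h2

theorem pn_eventually {r : ℚ} (hr : r ≠ 0) : ∀ᶠ p : Nat.Primes in cofinite, pn r p = 1 := by
  have h1 := eventually_not_dvd (n := r.num) (by simpa using hr)
  have h2 := eventually_not_dvd (n := (r.den : ℤ)) (by exact_mod_cast r.den_ne_zero)
  filter_upwards [h1, h2] with p h3 h4
  have h5 : pn (r.num : ℚ) p = 1 := pn_int_eq_one h3
  have h6 : pn ((r.den : ℤ) : ℚ) p = 1 := pn_int_eq_one h4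
  have h7 : r * ((r.den : ℤ) : ℚ) = r.num := by
    push_cast
    exact Rat.mul_den_eq_num r
  have h8 := pn_mul r ((r.den : ℤ) : ℚ) p
  rw [h7, h5, h6, mul_one] at h8
  exact h8.symm

theorem hasFinite_of_eventually {f : Nat.Primes → ℝ} (h : ∀ᶠ p in cofinite, f p = 1) :
    Function.HasFiniteMulSupport f := by
  rw [Filter.eventually_cofinite] at h
  exact h

theorem pn_hasFinite {r : ℚ} (hr : r ≠ 0) : Function.HasFiniteMulSupport (pn r) :=
  hasFinite_of_eventually (pn_eventually hr)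

theorem finprod_pn_mul {r s : ℚ} (hr : r ≠ 0) (hs : s ≠ 0) :
    ∏ᶠ p, pn (r * s) p = (∏ᶠ p, pn r p) * ∏ᶠ p, pn s p := by
  rw [← finprod_mul_distrib (pn_hasFinite hr) (pn_hasFinite hs)]
  exact finprod_congr fun p => pn_mul r s p

theorem finprod_pn_prime {q : ℕ} (hq : q.Prime) : ∏ᶠ p, pn (q:ℚ) p = (q:ℝ)⁻¹ := by
  rw [finprod_eq_single (pn (q:ℚ)) ⟨q, hq⟩]
  · simp only [pn]
    rw [Rat.cast_natCast]
    have : Fact q.Prime := ⟨hq⟩
    exact Padic.norm_p (p := q)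
  · rintro ⟨p, hp⟩ hne
    apply pn_nat_eq_one
    intro hdvd
    apply hne
    have : p = q := (Nat.prime_dvd_prime_iff_eq hp hq).1 hdvd
    exact Subtype.ext this

theorem finprod_pn_nat (n : ℕ) : n ≠ 0 → ∏ᶠ p, pn (n:ℚ) p = (n:ℝ)⁻¹ := by
  refine induction_on_primes (motive := fun n => n ≠ 0 → ∏ᶠ p, pn (n:ℚ) p = (n:ℝ)⁻¹) ?_ ?_ ?_ n
  · intro h
    exact absurd rfl h
  · intro _
    rw [Nat.cast_one, Nat.cast_one, inv_one]
    have : ∀ p, pn 1 p = 1 := pn_one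
    rw [finprod_congr this, finprod_one]
  · intro p a hp ih h
    have ha : a ≠ 0 := right_ne_zero_of_mul h
    have hp0 : (p:ℚ) ≠ 0 := by exact_mod_cast hp.ne_zero
    have ha0 : (a:ℚ) ≠ 0 := by exact_mod_cast ha
    rw [Nat.cast_mul, finprod_pn_mul hp0 ha0, ih ha, finprod_pn_prime hp, Nat.cast_mul, mul_inv]

/-- the product formula -/
theorem product_formula {r : ℚ} (hr : r ≠ 0) : ‖(r:ℝ)‖ * ∏ᶠ p, pn r p = 1 := by
  have hd : (r.den : ℚ) ≠ 0 := by exact_mod_cast r.den_ne_zero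
  have hd' : (r.den : ℝ) ≠ 0 := by exact_mod_cast r.den_ne_zero
  have hnum : r.num ≠ 0 := by simpa using hr
  have h1 : r * (r.den : ℚ) = r.num := Rat.mul_den_eq_num r
  have h2 := finprod_pn_mul hr hd
  rw [h1, finprod_pn_nat _ r.den_ne_zero] at h2
  have h3 : ∏ᶠ p, pn (r.num : ℚ) p = ((r.num.natAbs : ℕ) : ℝ)⁻¹ := by
    rw [← finprod_pn_nat _ (Int.natAbs_ne_zero.2 hnum)]
    refine finprod_congr fun p => ?_
    rcases Int.natAbs_eq r.num with h | h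
    · conv_lhs => rw [h]
      rw [Int.cast_natCast]
    · have h' : (r.num : ℚ) = -((r.num.natAbs : ℕ) : ℚ) := by exact_mod_cast h
      simp only [pn]
      rw [h', Rat.cast_neg, norm_neg]
  rw [h3] at h2
  have h4 : ((r.num.natAbs : ℕ) : ℝ) = ‖(r:ℝ)‖ * r.den := by
    have h5 : (r:ℝ) * r.den = r.num := by exact_mod_cast h1
    have h6 : ((r.num.natAbs : ℕ) : ℝ) = |(r.num : ℝ)| := by
      rw [Nat.cast_natAbs, Int.cast_abs]
    rw [h6, ← h5, abs_mul, Real.norm_eq_abs, Nat.abs_cast]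
  have h7 : ‖(r:ℝ)‖ ≠ 0 := by
    rw [norm_ne_zero_iff]
    exact_mod_cast hr
  rw [h4, mul_inv] at h2
  have h8 : ∏ᶠ p, pn r p = (‖(r:ℝ)‖)⁻¹ := by
    have := mul_right_cancel₀ (inv_ne_zero hd') h2
    exact this.symm
  rw [h8, mul_inv_cancel₀ h7]

end Pool.Agent.Lib.MP_1acd66_nt.Conic
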