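import Pool.Agent.Lib.MP_1acd66_nt.Conic.LocalBd
import Pool.Agent.Lib.MP_1acd66_nt.Conic.Prod
import Pool.Agent.Lib.MP_1acd66_nt.Conic.InCl

/-! The finite part of the height on integral vectors. -/

set_option linter.unusedSectionVars false

open Metric Set Filter Topology

namespace Pool.Agent.Lib.MP_1acd66_nt.Conic

/-- vectors whose content is prime to `m` and whose adjugate has content with `m`-part `g` -/
structure Ex (m g : ℕ) (x : Fin 6 → ℤ) : Prop where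
  ne : adj x ≠ 0
  cop : (cont x).Coprime m
  dvd : g ∣ gc x
  exact : (gc x / g).Coprime m

/-- well behaved functions of integral vectors -/
structure TameZ (f : (Fin 6 → ℤ) → ℝ) (m : ℕ) (m0 m1 : ℝ) : Prop where
  pos : 0 < m0
  le : m0 ≤ m1
  lo : ∀ x, adj x ≠ 0 → m0 ≤ f x
  hi : ∀ x, adj x ≠ 0 → f x ≤ m1
  lp : ∀ ε : ℝ, 0 < ε → ∃ J : ℕ, ∀ g : ℕ, 0 < g → ∀ x x' : Fin 6 → ℤ, Ex m g x → Ex m g x' →
    red (m ^ J * g) x = red (m ^ J * g) x' → f x ≤ (1 + ε) * f x'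

theorem red_dvd {a b : ℕ} (h : a ∣ b) {x y : Fin 6 → ℤ} (h1 : red b x = red b y) :
    red a x = red a y := by
  rw [red_eq_red] at h1 ⊢
  intro i
  exact (Int.natCast_dvd_natCast.2 h).trans (h1 i)

theorem TameZ.one (m : ℕ) : TameZ (fun _ => 1) m 1 1 where
  pos := one_pos
  le := le_rfl
  lo _ _ := le_rfl
  hi _ _ := le_rfl
  lp ε hε := ⟨0, fun _ _ _ _ _ _ _ => by linarith⟩

theorem TameZ.mul {f g : (Fin 6 → ℤ) → ℝ} {m : ℕ} {f0 f1 g0 g1 : ℝ} (hf : TameZ f m f0 f1)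
    (hg : TameZ g m g0 g1) : TameZ (fun x => f x * g x) m (f0 * g0) (f1 * g1) where
  pos := mul_pos hf.pos hg.pos
  le := mul_le_mul hf.le hg.le hg.pos.le (hf.pos.le.trans hf.le)
  lo x hx := mul_le_mul (hf.lo x hx) (hg.lo x hx) hg.pos.le (hf.pos.le.trans (hf.lo x hx))
  hi x hx := mul_le_mul (hf.hi x hx) (hg.hi x hx) (hg.pos.le.trans (hg.lo x hx))
    (hf.pos.le.trans hf.le)
  lp ε hε := by
    set ε' := min 1 (ε / 3) with hε'
    have hp : 0 < ε' := lt_min one_pos (by positivity)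
    have h1 : ε' ≤ 1 := min_le_left _ _
    have h3 : ε' ≤ ε / 3 := min_le_right _ _
    obtain ⟨J, hJ⟩ := hf.lp ε' hp
    obtain ⟨L, hL⟩ := hg.lp ε' hp
    refine ⟨max J L, ?_⟩
    intro k hk x x' hx hx' hr
    have e1 := hJ k hk x x' hx hx' (red_dvd (Nat.mul_dvd_mul_right (pow_dvd_pow m (le_max_left J L)) k) hr)
    have e2 := hL k hk x x' hx hx' (red_dvd (Nat.mul_dvd_mul_right (pow_dvd_pow m (le_max_right J L)) k) hr)
    have p1 : 0 < f x' := hf.pos.trans_le (hf.lo _ hx'.ne)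
    have p2 : 0 < g x' := hg.pos.trans_le (hg.lo _ hx'.ne)
    have p3 : 0 < g x := hg.pos.trans_le (hg.lo _ hx.ne)
    calc f x * g x ≤ ((1 + ε') * f x') * ((1 + ε') * g x') :=
          mul_le_mul e1 e2 p3.le (by positivity)
      _ = ((1 + ε') * (1 + ε')) * (f x' * g x') := by ring
      _ ≤ (1 + ε) * (f x' * g x') := by
          apply mul_le_mul_of_nonneg_right _ (by positivity)
          nlinarith

section padic

variable (p : ℕ) [Fact p.Prime]

/-- integral vectors in the `p`-adic numbers -/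
noncomputable def toP (x : Fin 6 → ℤ) : Fin 6 → ℚ_[p] := fun i => ((x i : ℤ) : ℚ_[p])

theorem adj_toP (x : Fin 6 → ℤ) : adj (toP p x) = toP p (adj x) :=
  adj_map (Int.castRingHom ℚ_[p]) x

theorem toP_smul (n : ℤ) (x : Fin 6 → ℤ) : toP p (n • x) = (n : ℚ_[p]) • toP p x := by
  funext i
  simp [toP]

theorem toP_ne_zero {x : Fin 6 → ℤ} (h : x ≠ 0) : toP p x ≠ 0 := by
  intro h0
  apply h
  funext i
  have := congrFun h0 i
  simpa [toP] using this

theorem norm_toP_le (x : Fin 6 → ℤ) : ‖toP p x‖ ≤ 1 := by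
  rw [pi_norm_le_iff_of_nonneg zero_le_one]
  intro i
  exact Padic.norm_int_le_one _

theorem norm_int_eq_one {n : ℤ} (h : ¬ (p:ℤ) ∣ n) : ‖((n:ℤ) : ℚ_[p])‖ = 1 := by
  have h1 : ((n:ℤ) : ℚ_[p]) = (((n:ℤ) : ℚ) : ℚ_[p]) := by push_cast; rfl
  rw [h1, Padic.eq_padicNorm, (padicNorm.int_eq_one_iff n).2 h, Rat.cast_one]

theorem norm_toP_eq_one {x : Fin 6 → ℤ} (h : ¬ p ∣ cont x) : ‖toP p x‖ = 1 := by
  rw [dvd_cont_iff] at h
  push Not at h
  obtain ⟨i, hi⟩ := h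
  refine le_antisymm (norm_toP_le p x) ?_
  rw [← norm_int_eq_one p hi]
  exact norm_le_pi_norm (toP p x) i

theorem norm_sub_toP {x y : Fin 6 → ℤ} {k : ℕ} (h : ∀ i, ((p ^ k : ℕ) : ℤ) ∣ x i - y i) :
    ‖toP p x - toP p y‖ ≤ (p:ℝ) ^ (-(k:ℤ)) := by
  rw [pi_norm_le_iff_of_nonneg (by positivity)]
  intro i
  have h1 : (toP p x - toP p y) i = (((x i - y i : ℤ)) : ℚ_[p]) := by
    simp [toP]
  rw [h1, Padic.norm_int_le_pow_iff_dvd]
  have := h i
  exact_mod_cast this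

/-- the local factor of the height, normalised to be invariant under scaling -/
noncomputable def phi (M : Matrix (Fin 3) (Fin 3) ℚ_[p] → Matrix (Fin 3) (Fin 3) ℚ_[p] → ℝ)
    (x : Fin 6 → ℤ) : ℝ :=
  M (mat (toP p x)) (mat (toP p (adj x))) / (‖toP p x‖ * ‖toP p (adj x)‖) ^ 2

variable {M : Matrix (Fin 3) (Fin 3) ℚ_[p] → Matrix (Fin 3) (Fin 3) ℚ_[p] → ℝ}

theorem isPair_toP {x : Fin 6 → ℤ} (h : adj x ≠ 0) : IsPair (mat (toP p x)) (mat (toP p (adj x))) := by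
  have h1 : adj (toP p x) ≠ 0 := by rw [adj_toP]; exact toP_ne_zero p h
  have h2 := isPair_adj h1
  rwa [adj_toP] at h2

theorem pair_eq {x y : Fin 6 → ℤ} {g : ℕ} (hg : 0 < g) (h : (g:ℤ) • y = adj x) (hx : adj x ≠ 0)
    (hM : IsLocalNorm ℚ_[p] M) (h1 : ¬ p ∣ cont x) (h2 : ¬ p ∣ cont y) :
    (toP p x, toP p y) ∈ unitPairs ℚ_[p] ∧ phi p M x = M (mat (toP p x)) (mat (toP p y)) := by
  have hgp : (g : ℚ_[p]) ≠ 0 := by exact_mod_cast hg.ne'
  have e : toP p (adj x) = (g : ℚ_[p]) • toP p y := by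
    rw [← h, toP_smul]
    push_cast
    rfl
  have hp1 := norm_toP_eq_one p h1
  have hp2 := norm_toP_eq_one p h2
  have hpair : IsPair (mat (toP p x)) (mat (toP p y)) := by
    have h3 := (isPair_toP p hx).smul (one_ne_zero (α := ℚ_[p])) (inv_ne_zero hgp)
    rw [e, mat_smul, smul_smul, inv_mul_cancel₀ hgp, one_smul, one_smul] at h3
    exact h3
  refine ⟨⟨hp1, hp2, hpair⟩, ?_⟩
  have h4 := hM.scale _ _ hpair 1 (g : ℚ_[p]) one_ne_zero hgp
  rw [one_smul, norm_one, one_pow, one_mul] at h4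
  rw [phi, e, mat_smul, h4, norm_smul, hp1, hp2]
  have : ‖(g : ℚ_[p])‖ ≠ 0 := norm_ne_zero_iff.2 hgp
  field_simp

theorem tame_local (hM : IsLocalNorm ℚ_[p] M) {m : ℕ} (hpm : p ∣ m) :
    ∃ m0 m1 : ℝ, TameZ (phi p M) m m0 m1 := by
  have hp : p.Prime := Fact.out
  obtain ⟨m0, m1, h0, h01, hb⟩ := hM.bounds
  have lo : ∀ x, adj x ≠ 0 → m0 ≤ phi p M x := by
    intro x hx
    have h1 := (hb _ _ (isPair_toP p hx)).1
    have h2 : 0 < ‖toP p x‖ := norm_pos_iff.2 (toP_ne_zero p (ne_zero_of_adj hx))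
    have h3 : 0 < ‖toP p (adj x)‖ := norm_pos_iff.2 (toP_ne_zero p hx)
    rw [phi, le_div_iff₀ (by positivity)]
    exact h1
  have hi : ∀ x, adj x ≠ 0 → phi p M x ≤ m1 := by
    intro x hx
    have h1 := (hb _ _ (isPair_toP p hx)).2
    have h2 : 0 < ‖toP p x‖ := norm_pos_iff.2 (toP_ne_zero p (ne_zero_of_adj hx))
    have h3 : 0 < ‖toP p (adj x)‖ := norm_pos_iff.2 (toP_ne_zero p hx)
    rw [phi, div_le_iff₀ (by positivity)]
    exact h1
  refine ⟨m0, m1, h0, h01, lo, hi, ?_⟩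
  intro ε hε
  have huc := isCompact_unitPairs.uniformContinuousOn_of_continuous hM.cont_unit
  rw [Metric.uniformContinuousOn_iff] at huc
  obtain ⟨δ, hδ, hδ2⟩ := huc (ε * m0) (by positivity)
  obtain ⟨k, hk⟩ : ∃ k : ℕ, (p:ℝ) ^ (-(k:ℤ)) < δ := by
    have h1 : (1:ℝ) < p := by exact_mod_cast hp.one_lt
    obtain ⟨k, hk⟩ := exists_pow_lt_of_lt_one hδ (inv_lt_one_of_one_lt₀ h1)
    refine ⟨k, ?_⟩
    rw [zpow_neg, zpow_natCast, ← inv_pow]
    exact hk
  refine ⟨k, ?_⟩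
  intro g hg x x' hx hx' hr
  have hex : ∀ z, Ex m g z → ∃ y : Fin 6 → ℤ, (g:ℤ) • y = adj z ∧ ¬ p ∣ cont z ∧ ¬ p ∣ cont y := by
    intro z hz
    refine ⟨fun i => adj z i / g, ?_, ?_, ?_⟩
    · funext i
      simp only [Pi.smul_apply, smul_eq_mul]
      exact Int.mul_ediv_cancel' ((Int.natCast_dvd_natCast.2 hz.dvd).trans (cont_dvd (adj z) i))
    · intro h
      have := Nat.dvd_gcd h hpm
      rw [hz.cop] at this
      exact hp.one_lt.ne' (Nat.dvd_one.1 this)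
    · have e : (g:ℤ) • (fun i => adj z i / g) = adj z := by
        funext i
        simp only [Pi.smul_apply, smul_eq_mul]
        exact Int.mul_ediv_cancel' ((Int.natCast_dvd_natCast.2 hz.dvd).trans (cont_dvd (adj z) i))
      have e2 : cont (fun i => adj z i / g) = gc z / g := by
        have := cont_smul g (fun i => adj z i / g)
        rw [e] at this
        rw [gc, this, Nat.mul_div_cancel_left _ hg]
      rw [e2]
      intro h
      have := Nat.dvd_gcd h hpm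
      rw [hz.exact] at this
      exact hp.one_lt.ne' (Nat.dvd_one.1 this)
  obtain ⟨y, hy1, hy2, hy3⟩ := hex x hx
  obtain ⟨y', hy1', hy2', hy3'⟩ := hex x' hx'
  obtain ⟨m2, e2⟩ := pair_eq p hg hy1 hx.ne hM hy2 hy3
  obtain ⟨m3, e3⟩ := pair_eq p hg hy1' hx'.ne hM hy2' hy3'
  have hpk : p ^ k ∣ m ^ k := pow_dvd_pow_of_dvd hpm k
  rw [red_eq_red] at hr
  have c1 : ∀ i, ((p ^ k : ℕ) : ℤ) ∣ x i - x' i := by
    intro i
    refine dvd_trans ?_ (hr i)
    exact Int.natCast_dvd_natCast.2 (hpk.mul_right g)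
  have c2 : ∀ i, ((p ^ k : ℕ) : ℤ) ∣ y i - y' i := by
    intro i
    have h5 := adj_congr hr i
    rw [← hy1, ← hy1'] at h5
    simp only [Pi.smul_apply, smul_eq_mul] at h5
    rw [← mul_sub, Nat.cast_mul, mul_comm ((m ^ k : ℕ) : ℤ)] at h5
    have hg' : (g:ℤ) ≠ 0 := by exact_mod_cast hg.ne'
    have h6 := Int.dvd_of_mul_dvd_mul_left hg' h5
    exact (Int.natCast_dvd_natCast.2 hpk).trans h6
  have hd : dist (toP p x, toP p y) (toP p x', toP p y') < δ := by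
    rw [Prod.dist_eq, max_lt_iff, dist_eq_norm, dist_eq_norm]
    exact ⟨(norm_sub_toP p c1).trans_lt hk, (norm_sub_toP p c2).trans_lt hk⟩
  have h7 := hδ2 _ m2 _ m3 hd
  rw [Real.dist_eq] at h7
  have h8 := (abs_lt.1 h7).2
  simp only at h8
  rw [← e2, ← e3] at h8
  have h9 := lo x' hx'.ne
  nlinarith

end padic

/-- the finite part of the height: a finite product of local factors -/
noncomputable def psi (h : AdelicNorm) (S : Finset Nat.Primes) (x : Fin 6 → ℤ) : ℝ :=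
  ∏ p ∈ S, phi (p:ℕ) (h.fin p) x

theorem psi_tame (h : AdelicNorm) {m : ℕ} (S : Finset Nat.Primes)
    (hS : ∀ p ∈ S, (p:ℕ) ∣ m) : ∃ m0 m1 : ℝ, TameZ (psi h S) m m0 m1 := by
  classical
  induction S using Finset.induction_on with
  | empty =>
    refine ⟨1, 1, ?_⟩
    have : psi h ∅ = fun _ => 1 := by
      funext x
      simp [psi]
    rw [this]
    exact TameZ.one m
  | insert a T ha ih =>
    obtain ⟨f0, f1, hf⟩ := ih fun p hp => hS p (Finset.mem_insert_of_mem hp)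
    obtain ⟨g0, g1, hg⟩ := tame_local (a:ℕ) (h.isNorm_fin a) (hS a (Finset.mem_insert_self _ _))
    refine ⟨g0 * f0, g1 * f1, ?_⟩
    have : psi h (insert a T) = fun x => phi (a:ℕ) (h.fin a) x * psi h T x := by
      funext x
      rw [psi, Finset.prod_insert ha]
      rfl
    rw [this]
    exact hg.mul hf

end Pool.Agent.Lib.MP_1acd66_nt.Conic
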