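import Pool.Agent.Lib.MP_1acd66_nt.Conic.Bdry

/-! Pairs of a vector and a divisor of the content of its adjugate. -/

set_option linter.unusedSectionVars false

open Metric Set Filter Topology

namespace Pool.Agent.Lib.MP_1acd66_nt.Conic

/-- the pairs -/
def PR (h : AdelicNorm) (S : Finset Nat.Primes) (B : ℝ) : Set ((Fin 6 → ℤ) × ℕ) :=
  {z | 0 < z.2 ∧ red z.2 z.1 ∈ cl (ZMod z.2) ∧ 0 < dt z.1 ∧
    realF h.inf (castR z.1) * psi h S z.1 ≤ B * (z.2 : ℝ) ^ 2}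

/-- the second excess of a pair -/
def ff (z : (Fin 6 → ℤ) × ℕ) : ℕ := gc z.1 / (z.2 * cont z.1 ^ 2)

theorem phi_smul {p : ℕ} [Fact p.Prime]
    {M : Matrix (Fin 3) (Fin 3) ℚ_[p] → Matrix (Fin 3) (Fin 3) ℚ_[p] → ℝ}
    (hM : IsLocalNorm ℚ_[p] M) {n : ℕ} (hn : 0 < n) {x : Fin 6 → ℤ} (hx : adj x ≠ 0) :
    phi p M ((n:ℤ) • x) = phi p M x := by
  have hn' : ((n:ℤ) : ℚ_[p]) ≠ 0 := by exact_mod_cast hn.ne'
  have h1 : 0 < ‖toP p x‖ := norm_pos_iff.2 (toP_ne_zero p (ne_zero_of_adj hx))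
  have h2 : 0 < ‖toP p (adj x)‖ := norm_pos_iff.2 (toP_ne_zero p hx)
  have h3 : 0 < ‖((n:ℤ) : ℚ_[p])‖ := norm_pos_iff.2 hn'
  have e : toP p (adj ((n:ℤ) • x)) = ((n:ℤ) : ℚ_[p]) ^ 2 • toP p (adj x) := by
    rw [adj_smul, toP_smul]
    push_cast
    rfl
  rw [phi, phi, e, toP_smul, mat_smul, mat_smul,
    hM.scale _ _ (isPair_toP p hx) _ _ hn' (pow_ne_zero 2 hn'), norm_smul, norm_smul, norm_pow]
  field_simp

theorem psi_smul (h : AdelicNorm) (S : Finset Nat.Primes) {n : ℕ} (hn : 0 < n) {x : Fin 6 → ℤ}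
    (hx : adj x ≠ 0) : psi h S ((n:ℤ) • x) = psi h S x := by
  unfold psi
  exact Finset.prod_congr rfl fun p _ => phi_smul (h.isNorm_fin p) hn hx

theorem castR_smul (n : ℤ) (x : Fin 6 → ℤ) : castR (n • x) = (n:ℝ) • castR x := by
  funext i
  simp [castR]

theorem gc_smul (n : ℕ) (x : Fin 6 → ℤ) : gc ((n:ℤ) • x) = n ^ 2 * gc x := by
  rw [gc, adj_smul]
  have : ((n:ℤ) ^ 2) • adj x = ((n ^ 2 : ℕ) : ℤ) • adj x := by push_cast; rfl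
  rw [this, cont_smul]
  rfl

/-- the structure of a pair -/
theorem pair_decomp {h : AdelicNorm} {S : Finset Nat.Primes} {B : ℝ} {z : (Fin 6 → ℤ) × ℕ}
    (hz : z ∈ PR h S B) : ∃ x0 : Fin 6 → ℤ, Pos x0 ∧ 0 < cont z.1 ∧ 0 < ff z ∧
      z.1 = (cont z.1 : ℤ) • x0 ∧ gc x0 = z.2 * ff z ∧ gc z.1 = cont z.1 ^ 2 * (z.2 * ff z) ∧
      hx h S x0 ≤ B / ((cont z.1 : ℝ) ^ 6 * (ff z : ℝ) ^ 2) := by
  obtain ⟨hg, hcl, hdt, hF⟩ := hz
  obtain ⟨x, g⟩ := z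
  simp only at hg hcl hdt hF ⊢
  have hadj := adj_ne_zero_of_dt_pos hdt
  have hx0 : x ≠ 0 := ne_zero_of_adj hadj
  obtain ⟨x0, h1, h2⟩ := exists_prim hx0
  set e := cont x with he
  have hc : 0 < e := cont_pos hx0
  have hd0 : 0 < dt x0 := by
    rw [h2, dt_smul] at hdt
    exact pos_of_mul_pos_right hdt (by positivity)
  have hp : Pos x0 := ⟨h1, hd0⟩
  have hgc : gc x = e ^ 2 * gc x0 := by
    conv_lhs => rw [h2]
    exact gc_smul e x0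
  obtain ⟨h3, h4⟩ := inCl_iff x |>.1 hcl
  have h5 : g ∣ gc x0 := by
    rw [hgc] at h3
    exact Nat.Coprime.dvd_of_dvd_mul_left (Nat.Coprime.pow_right 2 h4.symm) h3
  obtain ⟨f, hf⟩ := h5
  have hf0 : 0 < f := by
    have := hp.gc_pos
    rw [hf] at this
    exact Nat.pos_of_mul_pos_left this
  have hff : ff (x, g) = f := by
    rw [ff]
    simp only
    rw [hgc, hf, ← he]
    have : e ^ 2 * (g * f) = (g * e ^ 2) * f := by ring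
    rw [this, Nat.mul_div_cancel_left _ (by positivity)]
  rw [hff]
  refine ⟨x0, hp, hc, hf0, h2, hf, by rw [hgc, hf], ?_⟩
  rw [hx_le_iff h S hp]
  have hadj0 := hp.adj_ne_zero
  obtain ⟨f0, f1, hFF⟩ := h.isNorm_inf.realF
  have he' : (0:ℝ) < e := by exact_mod_cast hc
  have hf' : (0:ℝ) < f := by exact_mod_cast hf0
  have e1 : realF h.inf (castR x) = (e:ℝ) ^ 6 * realF h.inf (castR x0) := by
    conv_lhs => rw [h2]
    rw [castR_smul]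
    push_cast
    exact hFF.hom _ _ he'
  have e2 : psi h S x = psi h S x0 := by
    conv_lhs => rw [h2]
    exact psi_smul h S hc hadj0
  rw [e1, e2] at hF
  rw [hf]
  have e3 : B / ((e:ℝ) ^ 6 * (f:ℝ) ^ 2) * ((g * f : ℕ) : ℝ) ^ 2 = (B * (g:ℝ) ^ 2) / (e:ℝ) ^ 6 := by
    push_cast
    field_simp
  rw [e3, le_div_iff₀ (by positivity)]
  linarith

/-- the pairs with given excesses -/
def PE (h : AdelicNorm) (S : Finset Nat.Primes) (B : ℝ) (i : ℕ × ℕ) : Set ((Fin 6 → ℤ) × ℕ) :=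
  {z ∈ PR h S B | cont z.1 = i.1 ∧ ff z = i.2}

theorem PE_sub (h : AdelicNorm) (S : Finset Nat.Primes) (B : ℝ) (i : ℕ × ℕ) :
    PE h S B i ⊆ (fun x0 : Fin 6 → ℤ => ((i.1 : ℤ) • x0, gc x0 / i.2)) ''
      NU h S (B / ((i.1 : ℝ) ^ 6 * (i.2 : ℝ) ^ 2)) := by
  rintro z ⟨hz, h1, h2⟩
  obtain ⟨x0, hp, hc, hf, e1, e2, e3, e4⟩ := pair_decomp hz
  rw [h1, h2] at e4
  refine ⟨x0, ⟨hp, e4⟩, ?_⟩
  simp only
  rw [← h1, ← e1, ← h2, e2, Nat.mul_div_cancel _ hf]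

theorem sum_prod_sq (I J : Finset ℕ) : ∑ i ∈ I ×ˢ J, 1 / (i.1:ℝ) ^ 2 * (1 / (i.2:ℝ) ^ 2) =
    (∑ i ∈ I, 1 / (i:ℝ) ^ 2) * ∑ j ∈ J, 1 / (j:ℝ) ^ 2 := by
  rw [Finset.sum_product, Finset.sum_mul_sum]

theorem sum_sq_le (n : ℕ) : ∑ i ∈ Finset.Icc 1 n, 1 / (i:ℝ) ^ 2 ≤ 2 := by
  have h := sum_Ioo_inv_sq_le (α := ℝ) 0 (n + 1)
  have e : Finset.Ioo 0 (n + 1) = Finset.Icc 1 n := by
    ext i
    rw [Finset.mem_Ioo, Finset.mem_Icc]
    omega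
  rw [e] at h
  simp only [one_div]
  refine h.trans (by norm_num)

theorem sum_sq_tail {K : ℕ} (hK : 1 ≤ K) (n : ℕ) :
    ∑ i ∈ (Finset.Icc 1 n).filter (fun i => K < i), 1 / (i:ℝ) ^ 2 ≤ (2:ℝ) / K := by
  have h := sum_Ioo_inv_sq_le (α := ℝ) K (n + 1)
  have e : (Finset.Icc 1 n).filter (fun i => K < i) = Finset.Ioo K (n + 1) := by
    ext i
    rw [Finset.mem_Ioo, Finset.mem_filter, Finset.mem_Icc]
    omega
  rw [← e] at h
  simp only [one_div]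
  refine h.trans ?_
  have hK' : (0:ℝ) < K := by exact_mod_cast hK
  apply div_le_div_of_nonneg_left (by norm_num) hK' (by linarith)

theorem sum_pairs_le (n : ℕ) : ∑ i ∈ (Finset.Icc 1 n ×ˢ Finset.Icc 1 n),
    1 / ((i.1:ℝ) ^ 6 * (i.2:ℝ) ^ 2) ≤ 4 := by
  have h1 : ∑ i ∈ (Finset.Icc 1 n ×ˢ Finset.Icc 1 n), 1 / ((i.1:ℝ) ^ 6 * (i.2:ℝ) ^ 2) ≤
      ∑ i ∈ (Finset.Icc 1 n ×ˢ Finset.Icc 1 n), 1 / (i.1:ℝ) ^ 2 * (1 / (i.2:ℝ) ^ 2) := by
    refine Finset.sum_le_sum fun i hi => ?_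
    rw [Finset.mem_product, Finset.mem_Icc, Finset.mem_Icc] at hi
    have h1 : (1:ℝ) ≤ i.1 := by exact_mod_cast hi.1.1
    have h2 : (1:ℝ) ≤ i.2 := by exact_mod_cast hi.2.1
    rw [← one_div_mul_one_div]
    apply mul_le_mul_of_nonneg_right _ (by positivity)
    apply one_div_le_one_div_of_le (by positivity)
    exact pow_le_pow_right₀ h1 (by norm_num)
  refine h1.trans ?_
  rw [sum_prod_sq]
  have h2 := sum_sq_le n
  have h3 : 0 ≤ ∑ i ∈ Finset.Icc 1 n, 1 / (i:ℝ) ^ 2 := Finset.sum_nonneg fun _ _ => by positivity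
  nlinarith

theorem sum_pairs_tail {K : ℕ} (hK : 1 ≤ K) (n : ℕ) :
    ∑ i ∈ (Finset.Icc 1 n ×ˢ Finset.Icc 1 n).filter (fun i => K < i.1 ∨ K < i.2),
    1 / ((i.1:ℝ) ^ 6 * (i.2:ℝ) ^ 2) ≤ (8:ℝ) / K := by
  classical
  have hK' : (0:ℝ) < K := by exact_mod_cast hK
  set I := Finset.Icc 1 n with hI
  set J := I.filter (fun i => K < i) with hJ
  have hsub : (I ×ˢ I).filter (fun i => K < i.1 ∨ K < i.2) ⊆ (J ×ˢ I) ∪ (I ×ˢ J) := by
    intro i hi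
    rw [Finset.mem_filter, Finset.mem_product] at hi
    rw [Finset.mem_union, Finset.mem_product, Finset.mem_product, Finset.mem_filter,
      Finset.mem_filter]
    rcases hi.2 with h | h
    · exact Or.inl ⟨⟨hi.1.1, h⟩, hi.1.2⟩
    · exact Or.inr ⟨hi.1.1, ⟨hi.1.2, h⟩⟩
  have h1 : ∑ i ∈ (I ×ˢ I).filter (fun i => K < i.1 ∨ K < i.2), 1 / ((i.1:ℝ) ^ 6 * (i.2:ℝ) ^ 2) ≤
      ∑ i ∈ (I ×ˢ I).filter (fun i => K < i.1 ∨ K < i.2), 1 / (i.1:ℝ) ^ 2 * (1 / (i.2:ℝ) ^ 2) := by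
    refine Finset.sum_le_sum fun i hi => ?_
    rw [Finset.mem_filter, Finset.mem_product, Finset.mem_Icc, Finset.mem_Icc] at hi
    have h1 : (1:ℝ) ≤ i.1 := by exact_mod_cast hi.1.1.1
    have h2 : (1:ℝ) ≤ i.2 := by exact_mod_cast hi.1.2.1
    rw [← one_div_mul_one_div]
    apply mul_le_mul_of_nonneg_right _ (by positivity)
    apply one_div_le_one_div_of_le (by positivity)
    exact pow_le_pow_right₀ h1 (by norm_num)
  have h2 : ∑ i ∈ (I ×ˢ I).filter (fun i => K < i.1 ∨ K < i.2), 1 / (i.1:ℝ) ^ 2 * (1 / (i.2:ℝ) ^ 2) ≤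
      ∑ i ∈ (J ×ˢ I) ∪ (I ×ˢ J), 1 / (i.1:ℝ) ^ 2 * (1 / (i.2:ℝ) ^ 2) :=
    Finset.sum_le_sum_of_subset_of_nonneg hsub fun _ _ _ => by positivity
  have h3 : ∑ i ∈ (J ×ˢ I) ∪ (I ×ˢ J), 1 / (i.1:ℝ) ^ 2 * (1 / (i.2:ℝ) ^ 2) ≤
      ∑ i ∈ J ×ˢ I, 1 / (i.1:ℝ) ^ 2 * (1 / (i.2:ℝ) ^ 2) +
      ∑ i ∈ I ×ˢ J, 1 / (i.1:ℝ) ^ 2 * (1 / (i.2:ℝ) ^ 2) := by
    have := Finset.sum_union_inter (s₁ := J ×ˢ I) (s₂ := I ×ˢ J)
      (f := fun i : ℕ × ℕ => 1 / (i.1:ℝ) ^ 2 * (1 / (i.2:ℝ) ^ 2))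
    have h4 : 0 ≤ ∑ i ∈ (J ×ˢ I) ∩ (I ×ˢ J), 1 / (i.1:ℝ) ^ 2 * (1 / (i.2:ℝ) ^ 2) :=
      Finset.sum_nonneg fun _ _ => by positivity
    linarith
  rw [sum_prod_sq J I, sum_prod_sq I J] at h3
  have h4 := sum_sq_le n
  have h5 := sum_sq_tail hK n
  have h6 : 0 ≤ ∑ i ∈ I, 1 / (i:ℝ) ^ 2 := Finset.sum_nonneg fun _ _ => by positivity
  have h7 : 0 ≤ ∑ i ∈ J, 1 / (i:ℝ) ^ 2 := Finset.sum_nonneg fun _ _ => by positivity
  have h8 : (∑ i ∈ J, 1 / (i:ℝ) ^ 2) * (∑ i ∈ I, 1 / (i:ℝ) ^ 2) ≤ (2:ℝ) / K * 2 :=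
    mul_le_mul h5 h4 h6 (by positivity)
  have h9 : (8:ℝ) / K = 2 / K * 2 + 2 / K * 2 := by ring
  linarith

/-- the pairs: finiteness, and the contribution of large excesses -/
theorem PR_bound {h : AdelicNorm} {S : Finset Nat.Primes} (hS : Good h S) :
    ∃ C : ℝ, 0 < C ∧ ∀ B : ℝ, 0 < B → (PR h S B).Finite ∧ ∀ K : ℕ, 1 ≤ K →
      (({z ∈ PR h S B | K < cont z.1 ∨ K < ff z}.ncard : ℕ) : ℝ) ≤
        C * (B * Real.log (2 + B)) / K ∧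
      ((PR h S B).ncard : ℝ) ≤ C * (B * Real.log (2 + B)) / K + K ^ 2 * (NU h S B).ncard := by
  classical
  obtain ⟨C, b, hC, hb, hNU⟩ := NU_bound hS
  refine ⟨8 * C, by positivity, ?_⟩
  intro B hB
  set N := ⌊B / b⌋₊ with hN
  have hL := log_two_add_pos hB
  -- the range of the excesses
  have hrange : ∀ z ∈ PR h S B, cont z.1 ∈ Finset.Icc 1 N ∧ ff z ∈ Finset.Icc 1 N := by
    intro z hz
    obtain ⟨x0, hp, hc, hf, e1, e2, e3, e4⟩ := pair_decomp hz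
    have hc' : (1:ℝ) ≤ cont z.1 := by exact_mod_cast hc
    have hf' : (1:ℝ) ≤ ff z := by exact_mod_cast hf
    have h0 : 0 < (cont z.1 : ℝ) ^ 6 * (ff z : ℝ) ^ 2 := by positivity
    have hge : b ≤ B / ((cont z.1 : ℝ) ^ 6 * (ff z : ℝ) ^ 2) := by
      by_contra hcon
      push Not at hcon
      have h1 := (hNU _ (show 0 < B / ((cont z.1 : ℝ) ^ 6 * (ff z : ℝ) ^ 2) by positivity)).2.2 hcon
      have h2 : x0 ∈ NU h S (B / ((cont z.1 : ℝ) ^ 6 * (ff z : ℝ) ^ 2)) := ⟨hp, e4⟩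
      rw [h1] at h2
      exact h2
    have h3 : (cont z.1 : ℝ) ^ 6 * (ff z : ℝ) ^ 2 ≤ B / b := by
      rw [le_div_iff₀ hb]
      rw [le_div_iff₀ h0] at hge
      linarith
    have h4 : (1:ℝ) ≤ (cont z.1 : ℝ) ^ 6 := one_le_pow₀ hc'
    have h5 : (1:ℝ) ≤ (ff z : ℝ) ^ 2 := one_le_pow₀ hf'
    have h6 : (cont z.1 : ℝ) ≤ (cont z.1 : ℝ) ^ 6 := le_self_pow₀ hc' (by norm_num)
    have h7 : (ff z : ℝ) ≤ (ff z : ℝ) ^ 2 := le_self_pow₀ hf' (by norm_num)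
    rw [Finset.mem_Icc, Finset.mem_Icc]
    refine ⟨⟨hc, Nat.le_floor ?_⟩, ⟨hf, Nat.le_floor ?_⟩⟩
    · nlinarith
    · nlinarith
  have hPEfin : ∀ i : ℕ × ℕ, i ∈ Finset.Icc 1 N ×ˢ Finset.Icc 1 N → (PE h S B i).Finite ∧
      ((PE h S B i).ncard : ℝ) ≤ (NU h S (B / ((i.1 : ℝ) ^ 6 * (i.2 : ℝ) ^ 2))).ncard := by
    intro i hi
    rw [Finset.mem_product, Finset.mem_Icc, Finset.mem_Icc] at hi
    have h1 : (0:ℝ) < i.1 := by exact_mod_cast hi.1.1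
    have h2 : (0:ℝ) < i.2 := by exact_mod_cast hi.2.1
    have h3 := (hNU (B / ((i.1 : ℝ) ^ 6 * (i.2 : ℝ) ^ 2)) (by positivity)).1
    refine ⟨(h3.image _).subset (PE_sub h S B i), ?_⟩
    exact_mod_cast (Set.ncard_le_ncard (PE_sub h S B i) (h3.image _)).trans (Set.ncard_image_le h3)
  have hcover : PR h S B ⊆ ⋃ i ∈ Finset.Icc 1 N ×ˢ Finset.Icc 1 N, PE h S B i := by
    intro z hz
    simp only [Set.mem_iUnion]
    exact ⟨(cont z.1, ff z), Finset.mem_product.2 (hrange z hz), hz, rfl, rfl⟩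
  have hfin : (PR h S B).Finite :=
    (Set.Finite.biUnion (Finset.finite_toSet _) fun i hi => (hPEfin i hi).1).subset hcover
  refine ⟨hfin, ?_⟩
  intro K hK
  have hK' : (0:ℝ) < K := by exact_mod_cast hK
  have htail : (({z ∈ PR h S B | K < cont z.1 ∨ K < ff z}.ncard : ℕ) : ℝ) ≤
      8 * C * (B * Real.log (2 + B)) / K := by
    set D := (Finset.Icc 1 N ×ˢ Finset.Icc 1 N).filter (fun i => K < i.1 ∨ K < i.2) with hD
    have hsub : {z ∈ PR h S B | K < cont z.1 ∨ K < ff z} ⊆ ⋃ i ∈ D, PE h S B i := by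
      rintro z ⟨hz, hz2⟩
      simp only [Set.mem_iUnion]
      refine ⟨(cont z.1, ff z), ?_, hz, rfl, rfl⟩
      rw [hD, Finset.mem_filter]
      exact ⟨Finset.mem_product.2 (hrange z hz), hz2⟩
    have hfinU : (⋃ i ∈ D, PE h S B i).Finite :=
      Set.Finite.biUnion (Finset.finite_toSet _) fun i hi =>
        (hPEfin i (Finset.mem_filter.1 hi).1).1
    have h1 := (Set.ncard_le_ncard hsub hfinU).trans (Finset.set_ncard_biUnion_le _ _)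
    have h2 : (({z ∈ PR h S B | K < cont z.1 ∨ K < ff z}.ncard : ℕ) : ℝ) ≤
        ∑ i ∈ D, ((PE h S B i).ncard : ℝ) := by exact_mod_cast h1
    have h3 : ∑ i ∈ D, ((PE h S B i).ncard : ℝ) ≤
        ∑ i ∈ D, C * (B * Real.log (2 + B)) * (1 / ((i.1:ℝ) ^ 6 * (i.2:ℝ) ^ 2)) := by
      refine Finset.sum_le_sum fun i hi => ?_
      have hi1 := (Finset.mem_filter.1 hi).1
      refine (hPEfin i hi1).2.trans ?_
      rw [Finset.mem_product, Finset.mem_Icc, Finset.mem_Icc] at hi1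
      have h1 : (1:ℝ) ≤ i.1 := by exact_mod_cast hi1.1.1
      have h2 : (1:ℝ) ≤ i.2 := by exact_mod_cast hi1.2.1
      have h3 : 1 ≤ (i.1:ℝ) ^ 6 * (i.2:ℝ) ^ 2 := by
        have a1 : (1:ℝ) ≤ (i.1:ℝ) ^ 6 := one_le_pow₀ h1
        have a2 : (1:ℝ) ≤ (i.2:ℝ) ^ 2 := one_le_pow₀ h2
        nlinarith
      set q := (i.1:ℝ) ^ 6 * (i.2:ℝ) ^ 2 with hq
      have hq0 : 0 < q := by linarith
      refine (hNU (B / q) (by positivity)).2.1.trans ?_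
      have h4 : B / q ≤ B := div_le_self hB.le h3
      have h5 : Real.log (2 + B / q) ≤ Real.log (2 + B) :=
        Real.log_le_log (by positivity) (by linarith)
      have h6 : C * (B / q * Real.log (2 + B / q)) ≤ C * (B / q * Real.log (2 + B)) :=
        mul_le_mul_of_nonneg_left (mul_le_mul_of_nonneg_left h5 (by positivity)) hC.le
      refine h6.trans (le_of_eq (by ring))
    rw [← Finset.mul_sum] at h3
    have h4 := sum_pairs_tail hK N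
    have h5 : C * (B * Real.log (2 + B)) * (∑ i ∈ D, 1 / ((i.1:ℝ) ^ 6 * (i.2:ℝ) ^ 2)) ≤
        C * (B * Real.log (2 + B)) * (8 / K) :=
      mul_le_mul_of_nonneg_left h4 (by positivity)
    have e : C * (B * Real.log (2 + B)) * (8 / K) = 8 * C * (B * Real.log (2 + B)) / K := by ring
    linarith
  refine ⟨htail, ?_⟩
  have hsmall : (({z ∈ PR h S B | ¬ (K < cont z.1 ∨ K < ff z)}.ncard : ℕ) : ℝ) ≤
      K ^ 2 * (NU h S B).ncard := by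
    set D := Finset.Icc 1 K ×ˢ Finset.Icc 1 K with hD
    have hsub : {z ∈ PR h S B | ¬ (K < cont z.1 ∨ K < ff z)} ⊆
        ⋃ i ∈ D, {z ∈ PE h S B i | cont z.1 = i.1 ∧ ff z = i.2} := by
      rintro z ⟨hz, hz2⟩
      push Not at hz2
      simp only [Set.mem_iUnion]
      have h1 := hrange z hz
      rw [Finset.mem_Icc, Finset.mem_Icc] at h1
      exact ⟨(cont z.1, ff z), Finset.mem_product.2 ⟨Finset.mem_Icc.2 ⟨h1.1.1, hz2.1⟩,
        Finset.mem_Icc.2 ⟨h1.2.1, hz2.2⟩⟩, ⟨hz, rfl, rfl⟩, rfl, rfl⟩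
    have hPE : ∀ i ∈ D, (PE h S B i).Finite ∧ ((PE h S B i).ncard ≤ (NU h S B).ncard) := by
      intro i hi
      rw [hD, Finset.mem_product, Finset.mem_Icc, Finset.mem_Icc] at hi
      have h1 : (1:ℝ) ≤ i.1 := by exact_mod_cast hi.1.1
      have h2 : (1:ℝ) ≤ i.2 := by exact_mod_cast hi.2.1
      have h3 : 1 ≤ (i.1:ℝ) ^ 6 * (i.2:ℝ) ^ 2 := by
        have a1 : (1:ℝ) ≤ (i.1:ℝ) ^ 6 := one_le_pow₀ h1
        have a2 : (1:ℝ) ≤ (i.2:ℝ) ^ 2 := one_le_pow₀ h2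
        nlinarith
      have h4 : B / ((i.1:ℝ) ^ 6 * (i.2:ℝ) ^ 2) ≤ B := div_le_self hB.le h3
      have h5 : 0 < B / ((i.1:ℝ) ^ 6 * (i.2:ℝ) ^ 2) := by positivity
      have h6 := (hNU _ h5).1
      refine ⟨(h6.image _).subset (PE_sub h S B i), ?_⟩
      refine ((Set.ncard_le_ncard (PE_sub h S B i) (h6.image _)).trans
        (Set.ncard_image_le h6)).trans ?_
      exact Set.ncard_le_ncard (fun x hx => ⟨hx.1, hx.2.trans h4⟩) (hNU B hB).1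
    have hfinU : (⋃ i ∈ D, {z ∈ PE h S B i | cont z.1 = i.1 ∧ ff z = i.2}).Finite :=
      Set.Finite.biUnion (Finset.finite_toSet _) fun i hi =>
        (hPE i hi).1.subset (fun z hz => hz.1)
    have h1 := (Set.ncard_le_ncard hsub hfinU).trans (Finset.set_ncard_biUnion_le _ _)
    have h2 : ∑ i ∈ D, ({z ∈ PE h S B i | cont z.1 = i.1 ∧ ff z = i.2}).ncard ≤
        ∑ i ∈ D, (NU h S B).ncard := by
      refine Finset.sum_le_sum fun i hi => ?_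
      exact (Set.ncard_le_ncard (fun z hz => hz.1) (hPE i hi).1).trans (hPE i hi).2
    rw [Finset.sum_const, hD, Finset.card_product, Nat.card_Icc, Nat.add_sub_cancel,
      smul_eq_mul] at h2
    have h3 : ({z ∈ PR h S B | ¬ (K < cont z.1 ∨ K < ff z)}.ncard) ≤ K * K * (NU h S B).ncard :=
      h1.trans h2
    have h4 : (({z ∈ PR h S B | ¬ (K < cont z.1 ∨ K < ff z)}.ncard : ℕ) : ℝ) ≤
      K * K * (NU h S B).ncard := by exact_mod_cast h3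
    rw [sq]
    exact h4
  have hsplit : (PR h S B).ncard ≤ {z ∈ PR h S B | K < cont z.1 ∨ K < ff z}.ncard +
      {z ∈ PR h S B | ¬ (K < cont z.1 ∨ K < ff z)}.ncard := by
    refine le_trans (Set.ncard_le_ncard (t := {z ∈ PR h S B | K < cont z.1 ∨ K < ff z} ∪
      {z ∈ PR h S B | ¬ (K < cont z.1 ∨ K < ff z)}) ?_ ?_) (Set.ncard_union_le _ _)
    · intro z hz
      by_cases hc : K < cont z.1 ∨ K < ff z
      · exact Or.inl ⟨hz, hc⟩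
      · exact Or.inr ⟨hz, hc⟩
    · exact (hfin.subset fun z hz => hz.1).union (hfin.subset fun z hz => hz.1)
  have hsplit' : ((PR h S B).ncard : ℝ) ≤ ({z ∈ PR h S B | K < cont z.1 ∨ K < ff z}.ncard : ℝ) +
      ({z ∈ PR h S B | ¬ (K < cont z.1 ∨ K < ff z)}.ncard : ℝ) := by exact_mod_cast hsplit
  linarith

end Pool.Agent.Lib.MP_1acd66_nt.Conic
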