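import Mathlib

/-! Splitting off the part of an integer supported on the primes dividing `m`. -/

namespace Pool.Agent.Lib.MP_1acd66_nt.Conic

open Filter Topology

/-- positive integers all of whose prime factors divide `m` -/
def sm (m : ℕ) : Set ℕ := Nat.factoredNumbers m.primeFactors

theorem mem_sm {m g : ℕ} (hm : 0 < m) : g ∈ sm m ↔ ∀ p : ℕ, p.Prime → p ∣ g → p ∣ m := by
  rw [sm, Nat.mem_factoredNumbers']
  constructor
  · intro h p hp hpg
    exact Nat.dvd_of_mem_primeFactors (h p hp hpg)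
  · intro h p hp hpg
    exact Nat.mem_primeFactors.2 ⟨hp, h p hp hpg, hm.ne'⟩

theorem sm_pos {m g : ℕ} (h : g ∈ sm m) : 0 < g :=
  Nat.pos_of_ne_zero (Nat.ne_zero_of_mem_factoredNumbers h)

theorem coprime_of_sm {m g k : ℕ} (hm : 0 < m) (h : g ∈ sm m) (hk : k.Coprime m) : k.Coprime g := by
  rw [Nat.coprime_comm]
  refine Nat.Coprime.symm (Nat.coprime_of_dvd fun p hp hpk hpg => ?_)
  have h1 := (mem_sm hm).1 h p hp hpg
  have h2 := Nat.dvd_gcd hpk h1
  rw [hk] at h2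
  exact hp.one_lt.ne' (Nat.dvd_one.1 h2)

theorem exists_parts {m : ℕ} (hm : 0 < m) (g : ℕ) : 0 < g →
    ∃ a ∈ sm m, ∃ b : ℕ, b.Coprime m ∧ 0 < b ∧ g = a * b := by
  induction g using Nat.strong_induction_on with
  | _ g ih =>
    intro hg
    by_cases h : g.Coprime m
    · refine ⟨1, (mem_sm hm).2 ?_, g, h, hg, (one_mul g).symm⟩
      intro p hp hp1
      exact absurd (Nat.dvd_one.1 hp1) hp.one_lt.ne'
    · obtain ⟨p, hp, hpg, hpm⟩ := Nat.Prime.not_coprime_iff_dvd.1 h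
      obtain ⟨g', rfl⟩ := hpg
      have hg' : 0 < g' := Nat.pos_of_mul_pos_left hg
      have hlt : g' < p * g' := by
        have := hp.one_lt
        nlinarith
      obtain ⟨a, ha, b, hb, hb0, hab⟩ := ih g' hlt hg'
      refine ⟨p * a, (mem_sm hm).2 ?_, b, hb, hb0, by rw [hab]; ring⟩
      intro q hq hqa
      rcases (Nat.Prime.dvd_mul hq).1 hqa with h1 | h1
      · rw [(Nat.prime_dvd_prime_iff_eq hq hp).1 h1]
        exact hpm
      · exact (mem_sm hm).1 ha q hq h1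

theorem parts_unique {m : ℕ} (hm : 0 < m) {a b a' b' : ℕ} (ha : a ∈ sm m) (ha' : a' ∈ sm m)
    (hb : b.Coprime m) (hb' : b'.Coprime m) (h : a * b = a' * b') : a = a' ∧ b = b' := by
  have h1 : a ∣ a' := by
    have : a ∣ a' * b' := by rw [← h]; exact dvd_mul_right _ _
    exact (coprime_of_sm hm ha hb').symm.dvd_of_dvd_mul_right this
  have h2 : a' ∣ a := by
    have : a' ∣ a * b := by rw [h]; exact dvd_mul_right _ _
    exact (coprime_of_sm hm ha' hb).symm.dvd_of_dvd_mul_right this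
  have h3 := Nat.dvd_antisymm h1 h2
  subst h3
  exact ⟨rfl, Nat.eq_of_mul_eq_mul_left (sm_pos ha) h⟩

theorem sm_tail (m : ℕ) {η : ℝ} (hη : 0 < η) : ∃ T : Finset ℕ, (∀ g ∈ T, g ∈ sm m) ∧
    ∀ D : Finset ℕ, (∀ g ∈ D, g ∈ sm m ∧ g ∉ T) → ∑ g ∈ D, 1 / (g:ℝ) ≤ η := by
  classical
  set f : ℕ →* ℝ := ⟨⟨fun n => (n:ℝ)⁻¹, by simp⟩, fun a b => by simp [mul_comm]⟩ with hf
  have hlt : ∀ {p : ℕ}, p.Prime → ‖f p‖ < 1 := by
    intro p hp
    have h1 : (1:ℝ) < p := by exact_mod_cast hp.one_lt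
    have : f p = (p:ℝ)⁻¹ := rfl
    rw [this, norm_inv, Real.norm_natCast]
    exact inv_lt_one_of_one_lt₀ h1
  have hs := (EulerProduct.summable_and_hasSum_factoredNumbers_prod_filter_prime_geometric hlt
    m.primeFactors).1
  rw [summable_iff_vanishing_norm] at hs
  obtain ⟨s, hs⟩ := hs η hη
  refine ⟨s.map (Function.Embedding.subtype _), ?_, ?_⟩
  · intro g hg
    rw [Finset.mem_map] at hg
    obtain ⟨x, _, rfl⟩ := hg
    exact x.2
  · intro D hD
    have hDm : ∀ g ∈ D, g ∈ Nat.factoredNumbers m.primeFactors := fun g hg => (hD g hg).1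
    set t : Finset (Nat.factoredNumbers m.primeFactors) := D.subtype _ with ht
    have h1 : t.map (Function.Embedding.subtype _) = D := Finset.subtype_map_of_mem hDm
    have h2 : Disjoint t s := by
      rw [Finset.disjoint_left]
      intro x hx hxs
      have h3 : (x:ℕ) ∈ D := Finset.mem_subtype.1 hx
      exact (hD _ h3).2 (Finset.mem_map.2 ⟨x, hxs, rfl⟩)
    have h3 := hs t h2
    rw [Real.norm_eq_abs] at h3
    have h4 := (le_abs_self _).trans h3.le
    rw [← h1, Finset.sum_map]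
    refine le_trans (le_of_eq ?_) h4
    refine Finset.sum_congr rfl fun x _ => ?_
    have : f (x:ℕ) = ((x:ℕ):ℝ)⁻¹ := rfl
    rw [this, norm_inv, Real.norm_natCast]
    simp

theorem exists_limit {a : ℝ → ℝ} (h : ∀ η : ℝ, 0 < η → ∃ lo hi : ℝ, hi - lo ≤ η ∧
    ∀ᶠ B : ℝ in atTop, lo ≤ a B ∧ a B ≤ hi) : ∃ l : ℝ, Tendsto a atTop (𝓝 l) := by
  rw [← cauchy_map_iff_exists_tendsto, Metric.cauchy_iff]
  refine ⟨inferInstance, ?_⟩
  intro ε hε
  obtain ⟨lo, hi, h1, h2⟩ := h (ε / 2) (by positivity)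
  refine ⟨Set.Icc lo hi, ?_, ?_⟩
  · rw [mem_map]
    filter_upwards [h2] with B hB
    exact hB
  · intro x hx y hy
    rw [Real.dist_eq, abs_lt]
    constructor <;> linarith [hx.1, hx.2, hy.1, hy.2]

end Pool.Agent.Lib.MP_1acd66_nt.Conic
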