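import Pool.Agent.Lib.MP_1acd66_nt.Conic.Padic
import Pool.Agent.Lib.MP_1acd66_nt.Conic.Wcount

/-! Points and their heights in terms of primitive integral vectors. -/

set_option linter.unusedSectionVars false

namespace Pool.Agent.Lib.MP_1acd66_nt.Conic

open Filter

theorem Same.refl (a : Rep) : Same a a := ⟨1, 1, one_ne_zero, one_ne_zero, by simp, by simp⟩

theorem Same.symm {a b : Rep} (h : Same a b) : Same b a := by
  obtain ⟨s, t, hs, ht, h1, h2⟩ := h
  refine ⟨s⁻¹, t⁻¹, inv_ne_zero hs, inv_ne_zero ht, ?_, ?_⟩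
  · rw [h1, smul_smul, inv_mul_cancel₀ hs, one_smul]
  · rw [h2, smul_smul, inv_mul_cancel₀ ht, one_smul]

theorem Same.trans {a b c : Rep} (h : Same a b) (h' : Same b c) : Same a c := by
  obtain ⟨s, t, hs, ht, h1, h2⟩ := h
  obtain ⟨s', t', hs', ht', h1', h2'⟩ := h'
  refine ⟨s' * s, t' * t, mul_ne_zero hs' hs, mul_ne_zero ht' ht, ?_, ?_⟩
  · rw [h1', h1, smul_smul]
  · rw [h2', h2, smul_smul]

theorem pt_eq_iff {a b : Rep} : pt a = pt b ↔ Same a b := by
  constructor
  · intro h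
    have h1 := Quot.eqvGen_exact h
    have he : Equivalence Same := ⟨Same.refl, Same.symm, Same.trans⟩
    exact he.eqvGen_iff.1 h1
  · intro h
    exact Quot.sound h

section field

variable {K : Type*} [NormedField K] [CharZero K]

theorem castK_smul (s : ℚ) (x : Matrix (Fin 3) (Fin 3) ℚ) : castK K (s • x) = (s : K) • castK K x := by
  funext i j
  simp [castK]

theorem castK_ne_zero {x : Matrix (Fin 3) (Fin 3) ℚ} (hx : x ≠ 0) : castK K x ≠ 0 := by
  intro h
  apply hx
  funext i j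
  have := congrFun (congrFun h i) j
  simpa [castK] using this

theorem castK_mul (x y : Matrix (Fin 3) (Fin 3) ℚ) : castK K (x * y) = castK K x * castK K y := by
  funext i j
  simp [castK, Matrix.mul_apply, Fin.sum_univ_three]

theorem castK_one : castK K (1 : Matrix (Fin 3) (Fin 3) ℚ) = 1 := by
  funext i j
  by_cases h : i = j
  · subst h
    simp [castK]
  · simp [castK, h]

theorem castK_symm {x : Matrix (Fin 3) (Fin 3) ℚ} (hx : x.IsSymm) : (castK K x).IsSymm := by
  refine Matrix.IsSymm.ext fun i j => ?_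
  simp only [castK]
  rw [hx.apply]

theorem isPair_castK (a : Rep) : IsPair (castK K a.x) (castK K a.y) where
  symm_x := castK_symm a.pair.symm_x
  symm_y := castK_symm a.pair.symm_y
  ne_x := castK_ne_zero a.pair.ne_x
  ne_y := castK_ne_zero a.pair.ne_y
  scalar := by
    obtain ⟨c, hc⟩ := a.pair.scalar
    exact ⟨(c : K), by rw [← castK_mul, hc, castK_smul, castK_one]⟩

theorem local_same {M : Matrix (Fin 3) (Fin 3) K → Matrix (Fin 3) (Fin 3) K → ℝ}
    (hM : IsLocalNorm K M) {a b : Rep} {s t : ℚ} (hs : s ≠ 0) (ht : t ≠ 0) (h1 : b.x = s • a.x)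
    (h2 : b.y = t • a.y) : M (castK K b.x) (castK K b.y) =
      ‖(s : K)‖ ^ 2 * ‖(t : K)‖ ^ 2 * M (castK K a.x) (castK K a.y) := by
  rw [h1, h2, castK_smul, castK_smul]
  exact hM.scale _ _ (isPair_castK a) _ _ (Rat.cast_ne_zero.2 hs) (Rat.cast_ne_zero.2 ht)

end field

/-- the local height at the prime `p` in terms of coordinates -/
noncomputable def AdelicNorm.loc (h : AdelicNorm) (a : Rep) (p : Nat.Primes) : ℝ :=
  h.fin p (castK ℚ_[(p : ℕ)] a.x) (castK ℚ_[(p : ℕ)] a.y)

theorem size_eventually {x : Matrix (Fin 3) (Fin 3) ℚ} (hx : x ≠ 0) :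
    ∀ᶠ p : Nat.Primes in cofinite, size (castK ℚ_[(p : ℕ)] x) = 1 := by
  obtain ⟨i, j, h⟩ : ∃ i j, x i j ≠ 0 := by
    by_contra hcon
    push Not at hcon
    exact hx (by funext i j; exact hcon i j)
  have hle : ∀ r : ℚ, ∀ᶠ p : Nat.Primes in cofinite, pn r p ≤ 1 := by
    intro r
    by_cases hr : r = 0
    · filter_upwards with p
      simp [pn, hr]
    · filter_upwards [pn_eventually hr] with p hp
      exact hp.le
  have e1 : ∀ᶠ p : Nat.Primes in cofinite, ∀ i j, pn (x i j) p ≤ 1 := by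
    rw [Filter.eventually_all]
    intro i
    rw [Filter.eventually_all]
    intro j
    exact hle _
  filter_upwards [e1, pn_eventually h] with p h1 h2
  unfold size
  refine le_antisymm ?_ ?_
  · rw [pi_norm_le_iff_of_nonneg zero_le_one]
    intro i
    rw [pi_norm_le_iff_of_nonneg zero_le_one]
    intro j
    exact h1 i j
  · rw [← h2]
    exact (norm_le_pi_norm ((fun i j => castK ℚ_[(p : ℕ)] x i j : Fin 3 → Fin 3 → ℚ_[(p : ℕ)]) i) j).trans
      (norm_le_pi_norm (fun i j => castK ℚ_[(p : ℕ)] x i j : Fin 3 → Fin 3 → ℚ_[(p : ℕ)]) i)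

theorem AdelicNorm.loc_eventually (h : AdelicNorm) (a : Rep) :
    ∀ᶠ p in cofinite, h.loc a p = 1 := by
  obtain ⟨S, hS⟩ := h.almost
  have e0 : ∀ᶠ p : Nat.Primes in cofinite, p ∉ S := by
    rw [Filter.eventually_cofinite]
    simp only [not_not]
    exact S.finite_toSet
  filter_upwards [e0, size_eventually a.pair.ne_x, size_eventually a.pair.ne_y] with p a0 a1 a2
  rw [AdelicNorm.loc, hS p a0 _ _ (isPair_castK a), a1, a2]
  norm_num

/-- the height is well defined on points -/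
theorem AdelicNorm.height_same (h : AdelicNorm) {a b : Rep} (hab : Same a b) :
    h.height b = h.height a := by
  obtain ⟨s, t, hs, ht, h1, h2⟩ := hab
  have e1 := local_same h.isNorm_inf hs ht h1 h2
  have e2 : ∀ p, h.loc b p = pn s p ^ 2 * (pn t p ^ 2 * h.loc a p) := fun p => by
    rw [← mul_assoc]
    exact local_same (h.isNorm_fin p) hs ht h1 h2
  have f1 : Function.HasFiniteMulSupport (fun p => pn s p ^ 2) :=
    hasFinite_of_eventually (by
      filter_upwards [pn_eventually hs] with p hp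
      rw [hp, one_pow])
  have f2 : Function.HasFiniteMulSupport (fun p => pn t p ^ 2) :=
    hasFinite_of_eventually (by
      filter_upwards [pn_eventually ht] with p hp
      rw [hp, one_pow])
  have f3 : Function.HasFiniteMulSupport (h.loc a) :=
    hasFinite_of_eventually (h.loc_eventually a)
  have f4 : Function.HasFiniteMulSupport (fun p => pn t p ^ 2 * h.loc a p) :=
    hasFinite_of_eventually (by
      filter_upwards [pn_eventually ht, h.loc_eventually a] with p hp hx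
      rw [hp, hx, one_pow, mul_one])
  have e3 : ∏ᶠ p, h.loc b p = (∏ᶠ p, pn s p) ^ 2 * ((∏ᶠ p, pn t p) ^ 2 * ∏ᶠ p, h.loc a p) := by
    rw [finprod_congr e2, finprod_mul_distrib f1 f4, finprod_mul_distrib f2 f3,
      finprod_pow (pn_hasFinite hs), finprod_pow (pn_hasFinite ht)]
  have p1 := product_formula hs
  have p2 := product_formula ht
  have e4 : h.height b = h.inf (castK ℝ b.x) (castK ℝ b.y) * ∏ᶠ p, h.loc b p := rfl
  have e5 : h.height a = h.inf (castK ℝ a.x) (castK ℝ a.y) * ∏ᶠ p, h.loc a p := rfl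
  rw [e4, e5, e3, e1]
  have e6 : ‖(s:ℝ)‖ ^ 2 * ‖(t:ℝ)‖ ^ 2 * h.inf (castK ℝ a.x) (castK ℝ a.y) *
      ((∏ᶠ p, pn s p) ^ 2 * ((∏ᶠ p, pn t p) ^ 2 * ∏ᶠ p, h.loc a p)) =
      (‖(s:ℝ)‖ * ∏ᶠ p, pn s p) ^ 2 * ((‖(t:ℝ)‖ * ∏ᶠ p, pn t p) ^ 2 *
        (h.inf (castK ℝ a.x) (castK ℝ a.y) * ∏ᶠ p, h.loc a p)) := by
    ring
  rw [e6, p1, p2, one_pow, one_mul, one_mul]

/-- integral vectors as rational ones -/
def castQ (x : Fin 6 → ℤ) : Fin 6 → ℚ := fun i => (x i : ℚ)

theorem adj_castQ (x : Fin 6 → ℤ) : adj (castQ x) = castQ (adj x) := adj_map (Int.castRingHom ℚ) x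

theorem dt_castQ (x : Fin 6 → ℤ) : dt (castQ x) = ((dt x : ℤ) : ℚ) := dt_map (Int.castRingHom ℚ) x

theorem castQ_smul (n : ℤ) (x : Fin 6 → ℤ) : castQ (n • x) = (n:ℚ) • castQ x := by
  funext i
  simp [castQ]

theorem castQ_inj {x y : Fin 6 → ℤ} (h : castQ x = castQ y) : x = y := by
  funext i
  have := congrFun h i
  simpa [castQ] using this

theorem castQ_ne_zero {x : Fin 6 → ℤ} (h : x ≠ 0) : castQ x ≠ 0 := by
  intro h0
  apply h
  apply castQ_inj
  rw [h0]
  funext i
  simp [castQ]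

theorem castK_mat {K : Type*} [Field K] (x : Fin 6 → ℤ) :
    castK K (mat (castQ x)) = mat (fun i => ((x i : ℤ) : K)) := by
  funext i j
  fin_cases i <;> fin_cases j <;> simp [castK, mat, castQ]

/-- the coordinates given by a primitive vector -/
def rep (x : Fin 6 → ℤ) (h : Pos x) : Rep :=
  ⟨mat (castQ x), mat (castQ (adj x)), by
    rw [← adj_castQ]
    exact isPair_adj (by rw [adj_castQ]; exact castQ_ne_zero h.adj_ne_zero)⟩

theorem rep_det (x : Fin 6 → ℤ) (h : Pos x) : (rep x h).x.det ≠ 0 := by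
  have : (rep x h).x = mat (castQ x) := rfl
  rw [this, det_mat, dt_castQ]
  exact_mod_cast h.det.ne'

/-- every nondegenerate point has primitive coordinates of positive determinant -/
theorem exists_rep (a : Rep) (ha : a.x.det ≠ 0) : ∃ x, ∃ h : Pos x, Same (rep x h) a := by
  obtain ⟨t, ht, hy⟩ := a.pair.eq_smul_adj ha
  set v := vec a.x with hv
  have hx : a.x = mat v := (mat_vec a.pair.symm_x).symm
  -- clear denominators
  obtain ⟨N, hN, w, hw⟩ : ∃ N : ℕ, 0 < N ∧ ∃ w : Fin 6 → ℤ, castQ w = (N:ℚ) • v := by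
    refine ⟨∏ i, (v i).den, Finset.prod_pos fun i _ => (v i).den_pos, ?_⟩
    have hex : ∀ i, ∃ n : ℤ, (n:ℚ) = ((∏ j, (v j).den : ℕ) : ℚ) * v i := by
      intro i
      refine ⟨(∏ j ∈ Finset.univ.erase i, (v j).den : ℕ) * (v i).num, ?_⟩
      rw [← Finset.mul_prod_erase Finset.univ (fun j => (v j).den) (Finset.mem_univ i)]
      push_cast
      have := Rat.mul_den_eq_num (v i)
      calc _ = (∏ j ∈ Finset.univ.erase i, ((v j).den : ℚ)) * (v i * (v i).den) := by rw [this]
        _ = _ := by ring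
    choose n hn using hex
    refine ⟨n, ?_⟩
    funext i
    simp only [castQ, Pi.smul_apply, smul_eq_mul]
    exact hn i
  have hN' : (N:ℚ) ≠ 0 := by exact_mod_cast hN.ne'
  have hdv : dt v ≠ 0 := by rw [← det_mat, ← hx]; exact ha
  have hdw : dt w ≠ 0 := by
    have h1 := dt_castQ w
    rw [hw, dt_smul] at h1
    intro h0
    rw [h0, Int.cast_zero] at h1
    exact (mul_ne_zero (pow_ne_zero 3 hN') hdv) h1
  have hw0 : w ≠ 0 := by
    rintro rfl
    exact hdw (by simp [dt])
  obtain ⟨x0, hx0, hwx⟩ := exists_prim hw0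
  have hc := cont_pos hw0
  have hd0 : dt x0 ≠ 0 := by
    intro h0
    apply hdw
    rw [hwx, dt_smul, h0, mul_zero]
  -- choose the sign
  obtain ⟨x, hxp, e, he, hxe⟩ : ∃ x, Pos x ∧ ∃ e : ℤ, e ≠ 0 ∧ w = e • x := by
    rcases lt_or_gt_of_ne hd0 with h | h
    · refine ⟨-x0, ⟨by rw [cont_neg, hx0], by rw [dt_neg]; linarith⟩, -(cont w : ℤ), ?_, ?_⟩
      · have : (0:ℤ) < cont w := by exact_mod_cast hc
        linarith
      · rw [smul_neg, neg_smul, neg_neg]
        exact hwx
    · exact ⟨x0, ⟨hx0, h⟩, cont w, by exact_mod_cast hc.ne', hwx⟩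
  have he' : (e:ℚ) ≠ 0 := by exact_mod_cast he
  set r : ℚ := (N:ℚ)⁻¹ * e with hr
  have hr0 : r ≠ 0 := mul_ne_zero (inv_ne_zero hN') he'
  have hvr : v = r • castQ x := by
    have : v = (N:ℚ)⁻¹ • castQ w := by rw [hw, smul_smul, inv_mul_cancel₀ hN', one_smul]
    rw [this, hxe, castQ_smul, smul_smul]
  refine ⟨x, hxp, r, t * r ^ 2, hr0, mul_ne_zero ht (pow_ne_zero 2 hr0), ?_, ?_⟩
  · change a.x = r • mat (castQ x)
    rw [hx, hvr, mat_smul]
  · change a.y = (t * r ^ 2) • mat (castQ (adj x))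
    rw [hy, hvr, adj_smul, mat_smul, smul_smul, adj_castQ]

theorem rep_inj {x y : Fin 6 → ℤ} (hx : Pos x) (hy : Pos y) (h : pt (rep x hx) = pt (rep y hy)) :
    x = y := by
  rw [pt_eq_iff] at h
  obtain ⟨s, t, hs, ht, h1, h2⟩ := h
  change mat (castQ y) = s • mat (castQ x) at h1
  rw [← mat_smul] at h1
  have h3 := mat_inj h1
  have hs' : 0 < s := by
    have h4 := congrArg dt h3
    rw [dt_smul, dt_castQ, dt_castQ] at h4
    have h5 : (0:ℚ) < ((dt y : ℤ) : ℚ) := by exact_mod_cast hy.det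
    have h6 : (0:ℚ) < ((dt x : ℤ) : ℚ) := by exact_mod_cast hx.det
    rw [h4] at h5
    have h7 : 0 < s ^ 3 := pos_of_mul_pos_left h5 h6.le
    by_contra hcon
    push Not at hcon
    have : s ^ 3 ≤ 0 := Odd.pow_nonpos (by decide) hcon
    linarith
  have h8 : (s.den : ℤ) • y = s.num • x := by
    apply castQ_inj
    rw [castQ_smul, castQ_smul, h3, smul_smul]
    congr 1
    push_cast
    rw [mul_comm]
    exact Rat.mul_den_eq_num s
  exact (prim_unique hy.prim hx.prim (by exact_mod_cast s.den_pos) (Rat.num_pos.2 hs') h8).symm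

end Pool.Agent.Lib.MP_1acd66_nt.Conic
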