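import Pool.Agent.Lib.MP_1acd66_nt.Conic.Pairs

/-! The lower bound for the counting function. -/

set_option linter.unusedSectionVars false

open Metric Set Filter Topology

namespace Pool.Agent.Lib.MP_1acd66_nt.Conic

theorem fiber_sum_le {W : Set ((Fin 6 → ℤ) × ℕ)} (hW : W.Finite) (D : Finset ℕ)
    (T : ℕ → Set (Fin 6 → ℤ)) (h : ∀ g ∈ D, ∀ x ∈ T g, (x, g) ∈ W) :
    ∑ g ∈ D, ((T g).ncard : ℝ) ≤ W.ncard := by
  classical
  set w := hW.toFinset with hw
  have h1 : W.ncard = w.card := Set.ncard_eq_toFinset_card _ hW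
  have h2 : (w.filter fun z => z.2 ∈ D).card = ∑ g ∈ D, ((w.filter fun z => z.2 ∈ D).filter
      fun z => z.2 = g).card := by
    refine Finset.card_eq_sum_card_fiberwise fun z hz => ?_
    rw [Finset.mem_coe, Finset.mem_filter] at hz
    exact hz.2
  have h3 : ∀ g ∈ D, (T g).ncard ≤ ((w.filter fun z => z.2 ∈ D).filter fun z => z.2 = g).card := by
    intro g hg
    rw [← Set.ncard_coe_finset]
    have hinj : Function.Injective (fun x : Fin 6 → ℤ => (x, g)) := fun x y hxy => (Prod.mk.inj hxy).1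
    rw [← Set.ncard_image_of_injective (T g) hinj]
    refine Set.ncard_le_ncard ?_ (Finset.finite_toSet _)
    rintro z ⟨x, hx, rfl⟩
    rw [Finset.mem_coe, Finset.mem_filter, Finset.mem_filter]
    exact ⟨⟨hW.mem_toFinset.2 (h g hg x hx), hg⟩, rfl⟩
  have h4 : ∑ g ∈ D, (T g).ncard ≤ W.ncard := by
    rw [h1]
    refine le_trans ?_ (Finset.card_filter_le w fun z => z.2 ∈ D)
    rw [h2]
    exact Finset.sum_le_sum h3
  exact_mod_cast h4

theorem fiber_sum_ge {W : Set ((Fin 6 → ℤ) × ℕ)} (D : Finset ℕ)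
    (T : ℕ → Set (Fin 6 → ℤ)) (hT : ∀ g ∈ D, (T g).Finite) (h : ∀ z ∈ W, z.2 ∈ D ∧ z.1 ∈ T z.2) :
    (W.ncard : ℝ) ≤ ∑ g ∈ D, ((T g).ncard : ℝ) := by
  have hsub : W ⊆ ⋃ g ∈ D, (fun x : Fin 6 → ℤ => (x, g)) '' T g := by
    intro z hz
    obtain ⟨h1, h2⟩ := h z hz
    simp only [Set.mem_iUnion]
    exact ⟨z.2, h1, z.1, h2, rfl⟩
  have hfin : (⋃ g ∈ D, (fun x : Fin 6 → ℤ => (x, g)) '' T g).Finite :=
    Set.Finite.biUnion (Finset.finite_toSet _) fun g hg => (hT g hg).image _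
  have h1 := (Set.ncard_le_ncard hsub hfin).trans (Finset.set_ncard_biUnion_le _ _)
  have h2 : ∑ g ∈ D, ((fun x : Fin 6 → ℤ => (x, g)) '' T g).ncard ≤ ∑ g ∈ D, (T g).ncard :=
    Finset.sum_le_sum fun g hg => Set.ncard_image_le (hT g hg)
  exact_mod_cast h1.trans h2

theorem log_two_add_le {B : ℝ} (hB : 2 ≤ B) : Real.log (2 + B) ≤ 2 * Real.log B := by
  have h1 : (2:ℝ) + B ≤ B ^ 2 := by nlinarith
  calc Real.log (2 + B) ≤ Real.log (B ^ 2) := Real.log_le_log (by linarith) h1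
    _ = 2 * Real.log B := by rw [Real.log_pow]; norm_num

theorem NU_lower {h : AdelicNorm} {S : Finset Nat.Primes} (hS : Good h S) :
    ∃ c : ℝ, 0 < c ∧ ∀ᶠ B : ℝ in atTop, c * (B * Real.log B) ≤ (NU h S B).ncard := by
  obtain ⟨f0, f1, m0, m1, D⟩ := exists_dat h S
  obtain ⟨C, hC, hPR⟩ := PR_bound hS
  have hm1 : 0 < m1 := D.pos.trans_le D.le
  have hcl1 : red 1 (0 : Fin 6 → ℤ) ∈ cl (ZMod 1) := by
    rw [inCl_iff]
    exact ⟨one_dvd _, Nat.coprime_one_right _⟩
  obtain ⟨κ0, hκ0, hsum⟩ := sumC D.real (M := 1) one_pos (c := 0) (g1 := 1) one_pos hcl1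
    dvd_rfl (P := 1) le_rfl (fun p hp hp1 => absurd hp1 (not_le.2 hp.one_lt))
  obtain ⟨κ, hκ, hev⟩ := hsum (κ0 / 4) (by positivity)
  set θ := 1 / m1 with hθ
  have hθ0 : 0 < θ := by positivity
  obtain ⟨K, hK⟩ := exists_nat_ge (16 * C / (κ0 * θ) + 1)
  have hK1 : (1:ℝ) ≤ K := by
    have : 0 < 16 * C / (κ0 * θ) := by positivity
    linarith
  have hK0 : (0:ℝ) < K := by linarith
  have hKn : 1 ≤ K := by exact_mod_cast hK1
  have hKC : 2 * C / K ≤ κ0 * θ / 8 := by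
    rw [div_le_iff₀ hK0]
    have h1 : 16 * C / (κ0 * θ) ≤ K := by linarith
    rw [div_le_iff₀ (by positivity)] at h1
    linarith
  refine ⟨κ0 * θ / 8 / K ^ 2, by positivity, ?_⟩
  filter_upwards [hev θ hθ0, eventually_ge_atTop (2:ℝ)] with B hB hB2
  have hB0 : 0 < B := by linarith
  have hlog : 0 < Real.log B := Real.log_pos (by linarith)
  obtain ⟨hfin, hbd⟩ := hPR B hB0
  obtain ⟨_, h2⟩ := hbd K hKn
  obtain ⟨N, hN⟩ := exists_nat_ge B
  have h3 := hB.2 N hN
  have h4 := fiber_sum_le hfin ((Finset.Icc 1 N).filter (fun g => g.Coprime 1))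
    (fun g => tset (realF h.inf) 1 0 1 g (θ * B * g ^ 2)) (by
      intro g hg x hx
      rw [Finset.mem_filter, Finset.mem_Icc] at hg
      obtain ⟨_, h5, h6, _, h8⟩ := hx
      refine ⟨by simp only; omega, h5, h6, ?_⟩
      simp only
      have h9 := D.hi x (adj_ne_zero_of_dt_pos h6)
      have h10 := D.lo x (adj_ne_zero_of_dt_pos h6)
      have h11 : 0 ≤ realF h.inf (castR x) := le_trans (mul_nonneg D.real.pos.le (by positivity))
        (D.real.lo (castR x))
      calc realF h.inf (castR x) * psi h S x ≤ (θ * B * (g:ℝ) ^ 2) * m1 :=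
            mul_le_mul h8 h9 (D.pos.le.trans h10) (by positivity)
        _ = B * (g:ℝ) ^ 2 := by rw [hθ]; field_simp)
  have h5 : κ0 / 4 * θ * (B * Real.log B) ≤ (PR h S B).ncard := by
    refine le_trans ?_ (h3.trans h4)
    apply mul_le_mul_of_nonneg_right _ (by positivity)
    apply mul_le_mul_of_nonneg_right _ hθ0.le
    norm_num
    linarith
  have h6 : C * (B * Real.log (2 + B)) / K ≤ κ0 * θ / 8 * (B * Real.log B) := by
    have h7 := log_two_add_le hB2
    calc C * (B * Real.log (2 + B)) / K ≤ C * (B * (2 * Real.log B)) / K := by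
          apply div_le_div_of_nonneg_right _ hK0.le
          exact mul_le_mul_of_nonneg_left (mul_le_mul_of_nonneg_left h7 hB0.le) hC.le
      _ = (2 * C / K) * (B * Real.log B) := by ring
      _ ≤ _ := mul_le_mul_of_nonneg_right hKC (by positivity)
  have h7 : κ0 * θ / 8 * (B * Real.log B) ≤ K ^ 2 * (NU h S B).ncard := by linarith
  rw [div_mul_eq_mul_div, div_le_iff₀ (by positivity)]
  linarith

end Pool.Agent.Lib.MP_1acd66_nt.Conic
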