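import Pool.Agent.Lib.MP_1acd66_nt.Conic.Positive
import Pool.Agent.Lib.MP_1acd66_nt.Conic.Parts

/-! The pairs with conditions at the primes dividing `m`. -/

set_option linter.unusedSectionVars false

open Metric Set Filter Topology

namespace Pool.Agent.Lib.MP_1acd66_nt.Conic

/-- the pairs with the conditions at `m` -/
def TT (h : AdelicNorm) (S : Finset Nat.Primes) (m : ℕ) (B : ℝ) : Set ((Fin 6 → ℤ) × ℕ) :=
  {z ∈ PR h S B | (cont z.1).Coprime m ∧ (gc z.1 / z.2).Coprime m ∧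
    (z.2 : ℝ) * ‖z.1‖ ≤ ‖adj z.1‖}

/-- the fibres -/
def tg (h : AdelicNorm) (S : Finset Nat.Primes) (m : ℕ) (B : ℝ) (g : ℕ) : Set (Fin 6 → ℤ) :=
  {x | (x, g) ∈ TT h S m B}

theorem AF_le_TT {h : AdelicNorm} {S : Finset Nat.Primes} (hS : Good h S) (m : ℕ) {B : ℝ}
    (hB : 0 < B) : (AF (realF h.inf) (psi h S) B).ncard ≤ (TT h S m B).ncard := by
  obtain ⟨C, hC, hPR⟩ := PR_bound hS
  have hfin : (TT h S m B).Finite := (hPR B hB).1.subset fun z hz => hz.1
  have hinj : Function.Injective (fun x : Fin 6 → ℤ => (x, gc x)) := fun x y hxy =>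
    (Prod.mk.inj hxy).1
  rw [← Set.ncard_image_of_injective _ hinj]
  refine Set.ncard_le_ncard ?_ hfin
  rintro z ⟨x, ⟨h1, h2, h3⟩, rfl⟩
  refine ⟨⟨h1.gc_pos, red_gc_mem h1, h1.det, h2⟩, ?_, ?_, h3⟩
  · simp only
    rw [h1.prim]
    exact Nat.coprime_one_left _
  · simp only
    rw [Nat.div_self h1.gc_pos]
    exact Nat.coprime_one_left _

theorem eq_one_of_coprime {m P n : ℕ} (hPm : ∀ p, p.Prime → p ≤ P → p ∣ m) (hn : 0 < n)
    (hnP : n ≤ P) (hc : n.Coprime m) : n = 1 := by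
  by_contra hne
  obtain ⟨p, hp, hpn⟩ := Nat.exists_prime_and_dvd hne
  have h1 := hPm p hp ((Nat.le_of_dvd hn hpn).trans hnP)
  have h2 := Nat.dvd_gcd hpn h1
  rw [hc] at h2
  exact hp.one_lt.ne' (Nat.dvd_one.1 h2)

theorem TT_le {h : AdelicNorm} {S : Finset Nat.Primes} {m P : ℕ}
    (hPm : ∀ p, p.Prime → p ≤ P → p ∣ m) {B : ℝ} (hfinPR : (PR h S B).Finite)
    (hfinA : (AF (realF h.inf) (psi h S) B).Finite) :
    ((TT h S m B).ncard : ℝ) ≤ (AF (realF h.inf) (psi h S) B).ncard +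
      (({z ∈ PR h S B | P < cont z.1 ∨ P < ff z}.ncard : ℕ) : ℝ) := by
  have hsub : TT h S m B ⊆ (fun x : Fin 6 → ℤ => (x, gc x)) '' (AF (realF h.inf) (psi h S) B) ∪
      {z ∈ PR h S B | P < cont z.1 ∨ P < ff z} := by
    rintro z ⟨hz, h1, h2, h3⟩
    by_cases hc : P < cont z.1 ∨ P < ff z
    · exact Or.inr ⟨hz, hc⟩
    · left
      push Not at hc
      obtain ⟨x0, hp, c0, f0, e1, e2, e3, e4⟩ := pair_decomp hz
      have hg0 : 0 < z.2 := hz.1
      have hc1 : cont z.1 = 1 := eq_one_of_coprime hPm c0 hc.1 h1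
      have e5 : gc z.1 / z.2 = cont z.1 ^ 2 * ff z := by
        rw [e3]
        have : cont z.1 ^ 2 * (z.2 * ff z) = z.2 * (cont z.1 ^ 2 * ff z) := by ring
        rw [this, Nat.mul_div_cancel_left _ hg0]
      have hf1 : ff z = 1 := by
        refine eq_one_of_coprime hPm f0 hc.2 ?_
        rw [e5] at h2
        exact Nat.Coprime.coprime_mul_left h2
      have e6 : z.1 = x0 := by rw [e1, hc1]; simp
      have e7 : gc z.1 = z.2 := by rw [e3, hc1, hf1]; ring
      refine ⟨z.1, ⟨by rw [e6]; exact hp, ?_, ?_⟩, ?_⟩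
      · rw [e7]; exact hz.2.2.2
      · rw [e7]; exact h3
      · simp only
        rw [e7]
  have hfin : ((fun x : Fin 6 → ℤ => (x, gc x)) '' (AF (realF h.inf) (psi h S) B) ∪
      {z ∈ PR h S B | P < cont z.1 ∨ P < ff z}).Finite :=
    (hfinA.image _).union (hfinPR.subset fun z hz => hz.1)
  have h1 := (Set.ncard_le_ncard hsub hfin).trans ((Set.ncard_union_le _ _).trans
    (Nat.add_le_add_right (Set.ncard_image_le hfinA) _))
  exact_mod_cast h1

theorem lower_sum {h : AdelicNorm} {S : Finset Nat.Primes} {m : ℕ} (hm : 0 < m) {B : ℝ}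
    (hfin : (TT h S m B).Finite) (T : Finset ℕ) (hT : ∀ g ∈ T, g ∈ sm m) (N : ℕ) :
    ∑ a ∈ T, ∑ b ∈ (Finset.Icc 1 N).filter (fun g => g.Coprime m),
      ((tg h S m B (a * b)).ncard : ℝ) ≤ (TT h S m B).ncard := by
  classical
  rw [← Finset.sum_product']
  set I := T ×ˢ (Finset.Icc 1 N).filter (fun g => g.Coprime m) with hI
  have hinj : Set.InjOn (fun i : ℕ × ℕ => i.1 * i.2) I := by
    intro i hi j hj hij
    rw [Finset.mem_coe, hI, Finset.mem_product, Finset.mem_filter] at hi hj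
    obtain ⟨h1, h2⟩ := parts_unique hm (hT _ hi.1) (hT _ hj.1) hi.2.2 hj.2.2 hij
    exact Prod.ext h1 h2
  have e : ∑ i ∈ I, ((tg h S m B (i.1 * i.2)).ncard : ℝ) =
      ∑ g ∈ I.image (fun i : ℕ × ℕ => i.1 * i.2), ((tg h S m B g).ncard : ℝ) := by
    rw [Finset.sum_image hinj]
  rw [e]
  exact fiber_sum_le hfin _ _ fun g _ x hx => hx

theorem tg_sub_hs {h : AdelicNorm} {S : Finset Nat.Primes} {f0 f1 m0 m1 : ℝ}
    (D : Dat (realF h.inf) (psi h S) f0 f1 m0 m1) {m : ℕ} {B : ℝ} {g : ℕ} :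
    tg h S m B g ⊆ hs g (B / (f0 * m0)) := by
  rintro x ⟨⟨_, h1, h2, h3⟩, _, _, h4⟩
  simp only at h1 h2 h3 h4
  have hadj := adj_ne_zero_of_dt_pos h2
  exact ⟨h1, ne_zero_of_adj hadj, h4, (D.prod_le hadj h3).trans (le_of_eq (by ring))⟩

theorem hs_sum_mul {a : ℝ} (ha : 0 < a) {k : ℕ} (hk : 0 < k) (N : ℕ) :
    ∑ b ∈ Finset.Icc 1 N, ((hs (k * b) a).ncard : ℝ) ≤
      6400000000 * (a * Real.log (2 + a)) * (1 / k) := by
  have hk' : (1:ℝ) ≤ k := by exact_mod_cast hk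
  have h1 : ∑ b ∈ Finset.Icc 1 N, ((hs (k * b) a).ncard : ℝ) =
      ∑ b ∈ (Finset.Icc 1 N).filter (fun g : ℕ => (g:ℝ) ^ 4 ≤ 16 * a), ((hs (k * b) a).ncard : ℝ) := by
    symm
    refine Finset.sum_filter_of_ne fun g hg hne => ?_
    rw [Finset.mem_Icc] at hg
    by_contra hcon
    push Not at hcon
    apply hne
    have hg' : (0:ℝ) < g := by exact_mod_cast hg.1
    rw [(hs_bound (Nat.mul_pos hk hg.1) ha).2.2 ?_, Set.ncard_empty, Nat.cast_zero]
    refine hcon.trans_le ?_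
    apply pow_le_pow_left₀ hg'.le
    push_cast
    nlinarith
  rw [h1]
  calc _ ≤ ∑ b ∈ (Finset.Icc 1 N).filter (fun g : ℕ => (g:ℝ) ^ 4 ≤ 16 * a),
        640000000 * a * (1 / k) * (1 / (b:ℝ)) := by
        refine Finset.sum_le_sum fun g hg => ?_
        rw [Finset.mem_filter, Finset.mem_Icc] at hg
        refine ((hs_bound (Nat.mul_pos hk hg.1.1) ha).2.1).trans (le_of_eq ?_)
        push_cast
        have hg' : (g:ℝ) ≠ 0 := by
          have := hg.1.1
          positivity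
        field_simp
    _ = 640000000 * a * (1 / k) * ∑ b ∈ (Finset.Icc 1 N).filter (fun g : ℕ => (g:ℝ) ^ 4 ≤ 16 * a),
        1 / (b:ℝ) := by rw [Finset.mul_sum]
    _ ≤ 640000000 * a * (1 / k) * (10 * Real.log (2 + a)) :=
        mul_le_mul_of_nonneg_left (harmonic_sum_le N ha) (by positivity)
    _ = _ := by ring

theorem upper_sum {h : AdelicNorm} {S : Finset Nat.Primes} {f0 f1 m0 m1 : ℝ}
    (D : Dat (realF h.inf) (psi h S) f0 f1 m0 m1) {m : ℕ} (hm : 0 < m) {B : ℝ} (hB : 0 < B)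
    (T : Finset ℕ) {η : ℝ}
    (hη : ∀ D : Finset ℕ, (∀ g ∈ D, g ∈ sm m ∧ g ∉ T) → ∑ g ∈ D, 1 / (g:ℝ) ≤ η) :
    ∃ N : ℕ, ((TT h S m B).ncard : ℝ) ≤
      ∑ a ∈ T, ∑ b ∈ (Finset.Icc 1 N).filter (fun g => g.Coprime m),
        ((tg h S m B (a * b)).ncard : ℝ) +
      6400000000 * (B / (f0 * m0) * Real.log (2 + B / (f0 * m0))) * η := by
  classical
  have hfm : 0 < f0 * m0 := mul_pos D.real.pos D.pos
  set α := B / (f0 * m0) with hα
  have hα0 : 0 < α := by positivity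
  set N := ⌊16 * α⌋₊ with hN
  refine ⟨N, ?_⟩
  set E := (Finset.Icc 1 N).filter (fun g => g ∈ sm m ∧ g ∉ T) with hE
  set I := T ×ˢ (Finset.Icc 1 N).filter (fun g => g.Coprime m) with hI
  set J := E ×ˢ Finset.Icc 1 N with hJ
  have hsub : TT h S m B ⊆ (⋃ i ∈ I, (fun x : Fin 6 → ℤ => (x, i.1 * i.2)) '' tg h S m B (i.1 * i.2)) ∪
      ⋃ i ∈ J, (fun x : Fin 6 → ℤ => (x, i.1 * i.2)) '' hs (i.1 * i.2) α := by
    intro z hz
    have hg0 : 0 < z.2 := hz.1.1
    have hzt : z.1 ∈ tg h S m B z.2 := hz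
    have hzh : z.1 ∈ hs z.2 α := tg_sub_hs D hzt
    have hzN : z.2 ≤ N := by
      by_contra hcon
      push Not at hcon
      have h1 : 16 * α < z.2 := by
        have := Nat.lt_floor_add_one (16 * α)
        have h2 : ((N + 1 : ℕ) : ℝ) ≤ z.2 := by exact_mod_cast hcon
        push_cast at h2
        linarith
      have h2 : (1:ℝ) ≤ z.2 := by exact_mod_cast hg0
      have h3 : 16 * α < (z.2:ℝ) ^ 4 := h1.trans_le (le_self_pow₀ h2 (by norm_num))
      rw [(hs_bound hg0 hα0).2.2 h3] at hzh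
      exact hzh
    obtain ⟨a, ha, b, hb, hb0, hab⟩ := exists_parts hm z.2 hg0
    have ha0 := sm_pos ha
    have haN : a ≤ N := le_trans (Nat.le_of_dvd hg0 (by rw [hab]; exact dvd_mul_right _ _)) hzN
    have hbN : b ≤ N := le_trans (Nat.le_of_dvd hg0 (by rw [hab]; exact dvd_mul_left _ _)) hzN
    by_cases haT : a ∈ T
    · left
      simp only [Set.mem_iUnion]
      refine ⟨(a, b), ?_, z.1, ?_, ?_⟩
      · rw [hI, Finset.mem_product, Finset.mem_filter, Finset.mem_Icc]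
        exact ⟨haT, ⟨hb0, hbN⟩, hb⟩
      · simp only
        rw [← hab]
        exact hzt
      · simp only
        rw [← hab]
    · right
      simp only [Set.mem_iUnion]
      refine ⟨(a, b), ?_, z.1, ?_, ?_⟩
      · rw [hJ, Finset.mem_product, hE, Finset.mem_filter, Finset.mem_Icc, Finset.mem_Icc]
        exact ⟨⟨⟨ha0, haN⟩, ha, haT⟩, hb0, hbN⟩
      · simp only
        rw [← hab]
        exact hzh
      · simp only
        rw [← hab]
  have hhs : ∀ g : ℕ, (hs g α).Finite ∨ g = 0 := by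
    intro g
    rcases Nat.eq_zero_or_pos g with h1 | h1
    · exact Or.inr h1
    · exact Or.inl (hs_bound h1 hα0).1
  have hfinJ : ∀ i ∈ J, (hs (i.1 * i.2) α).Finite := by
    intro i hi
    rw [hJ, Finset.mem_product, hE, Finset.mem_filter, Finset.mem_Icc, Finset.mem_Icc] at hi
    exact (hs_bound (Nat.mul_pos hi.1.1.1 hi.2.1) hα0).1
  have hfinI : ∀ i ∈ I, (tg h S m B (i.1 * i.2)).Finite := by
    intro i hi
    rcases hhs (i.1 * i.2) with h1 | h1
    · exact h1.subset (tg_sub_hs D)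
    · rw [h1]
      have : tg h S m B 0 = ∅ := by
        rw [Set.eq_empty_iff_forall_notMem]
        intro x hx
        exact absurd hx.1.1 (lt_irrefl 0)
      rw [this]
      exact Set.finite_empty
  have hfin1 : (⋃ i ∈ I, (fun x : Fin 6 → ℤ => (x, i.1 * i.2)) '' tg h S m B (i.1 * i.2)).Finite :=
    Set.Finite.biUnion (Finset.finite_toSet _) fun i hi => (hfinI i hi).image _
  have hfin2 : (⋃ i ∈ J, (fun x : Fin 6 → ℤ => (x, i.1 * i.2)) '' hs (i.1 * i.2) α).Finite :=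
    Set.Finite.biUnion (Finset.finite_toSet _) fun i hi => (hfinJ i hi).image _
  have h1 := (Set.ncard_le_ncard hsub (hfin1.union hfin2)).trans (Set.ncard_union_le _ _)
  have h2 : (⋃ i ∈ I, (fun x : Fin 6 → ℤ => (x, i.1 * i.2)) '' tg h S m B (i.1 * i.2)).ncard ≤
      ∑ i ∈ I, (tg h S m B (i.1 * i.2)).ncard :=
    (Finset.set_ncard_biUnion_le _ _).trans (Finset.sum_le_sum fun i hi =>
      Set.ncard_image_le (hfinI i hi))
  have h3 : (⋃ i ∈ J, (fun x : Fin 6 → ℤ => (x, i.1 * i.2)) '' hs (i.1 * i.2) α).ncard ≤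
      ∑ i ∈ J, (hs (i.1 * i.2) α).ncard :=
    (Finset.set_ncard_biUnion_le _ _).trans (Finset.sum_le_sum fun i hi =>
      Set.ncard_image_le (hfinJ i hi))
  have h4 : ((TT h S m B).ncard : ℝ) ≤ ∑ i ∈ I, ((tg h S m B (i.1 * i.2)).ncard : ℝ) +
      ∑ i ∈ J, ((hs (i.1 * i.2) α).ncard : ℝ) := by
    exact_mod_cast h1.trans (Nat.add_le_add h2 h3)
  have h5 : ∑ i ∈ J, ((hs (i.1 * i.2) α).ncard : ℝ) ≤
      6400000000 * (α * Real.log (2 + α)) * η := by
    rw [hJ, Finset.sum_product]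
    calc _ ≤ ∑ a ∈ E, 6400000000 * (α * Real.log (2 + α)) * (1 / (a:ℝ)) := by
          refine Finset.sum_le_sum fun a ha => ?_
          rw [hE, Finset.mem_filter, Finset.mem_Icc] at ha
          exact hs_sum_mul hα0 ha.1.1 N
      _ = 6400000000 * (α * Real.log (2 + α)) * ∑ a ∈ E, 1 / (a:ℝ) := by rw [Finset.mul_sum]
      _ ≤ _ := by
          have hl := log_two_add_pos hα0
          apply mul_le_mul_of_nonneg_left _ (by positivity)
          exact hη E fun g hg => (Finset.mem_filter.1 hg).2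
  rw [hI, Finset.sum_product] at h4
  linarith

end Pool.Agent.Lib.MP_1acd66_nt.Conic
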