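import Pool.Agent.Lib.MP_1acd66_nt.Conic.Defs

/-! Symmetric `3 × 3` matrices as vectors with six coordinates. -/

set_option linter.unusedSectionVars false

namespace Pool.Agent.Lib.MP_1acd66_nt.Conic

variable {R : Type*} [CommRing R]

/-- the adjugate -/
def adj (u : Fin 6 → R) : Fin 6 → R :=
  ![u 1 * u 2 - u 5 ^ 2, u 0 * u 2 - u 4 ^ 2, u 0 * u 1 - u 3 ^ 2,
    u 4 * u 5 - u 2 * u 3, u 3 * u 5 - u 1 * u 4, u 3 * u 4 - u 0 * u 5]

/-- the determinant -/
def dt (u : Fin 6 → R) : R :=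
  u 0 * u 1 * u 2 + 2 * u 3 * u 4 * u 5 - u 0 * u 5 ^ 2 - u 1 * u 4 ^ 2 - u 2 * u 3 ^ 2

/-- the symmetric matrix with given coordinates -/
def mat (u : Fin 6 → R) : Matrix (Fin 3) (Fin 3) R :=
  !![u 0, u 3, u 4; u 3, u 1, u 5; u 4, u 5, u 2]

/-- the coordinates of a matrix -/
def vec (x : Matrix (Fin 3) (Fin 3) R) : Fin 6 → R :=
  ![x 0 0, x 1 1, x 2 2, x 0 1, x 0 2, x 1 2]

@[simp] theorem adj_0 (u : Fin 6 → R) : adj u 0 = u 1 * u 2 - u 5 ^ 2 := rfl
@[simp] theorem adj_1 (u : Fin 6 → R) : adj u 1 = u 0 * u 2 - u 4 ^ 2 := rfl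
@[simp] theorem adj_2 (u : Fin 6 → R) : adj u 2 = u 0 * u 1 - u 3 ^ 2 := rfl
@[simp] theorem adj_3 (u : Fin 6 → R) : adj u 3 = u 4 * u 5 - u 2 * u 3 := rfl
@[simp] theorem adj_4 (u : Fin 6 → R) : adj u 4 = u 3 * u 5 - u 1 * u 4 := rfl
@[simp] theorem adj_5 (u : Fin 6 → R) : adj u 5 = u 3 * u 4 - u 0 * u 5 := rfl

theorem six_ext {u v : Fin 6 → R} (h0 : u 0 = v 0) (h1 : u 1 = v 1) (h2 : u 2 = v 2)
    (h3 : u 3 = v 3) (h4 : u 4 = v 4) (h5 : u 5 = v 5) : u = v := by
  funext i
  fin_cases i <;> assumption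

theorem adj_adj (u : Fin 6 → R) : adj (adj u) = dt u • u := by
  apply six_ext <;> simp [dt] <;> ring

theorem dt_adj (u : Fin 6 → R) : dt (adj u) = dt u ^ 2 := by
  simp only [dt, adj_0, adj_1, adj_2, adj_3, adj_4, adj_5]; ring

theorem adj_smul (s : R) (u : Fin 6 → R) : adj (s • u) = s ^ 2 • adj u := by
  apply six_ext <;> simp <;> ring

theorem dt_smul (s : R) (u : Fin 6 → R) : dt (s • u) = s ^ 3 * dt u := by
  simp only [dt, Pi.smul_apply, smul_eq_mul]; ring

theorem adj_neg (u : Fin 6 → R) : adj (-u) = adj u := by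
  apply six_ext <;> simp

theorem adj_zero : adj (0 : Fin 6 → R) = 0 := by
  apply six_ext <;> simp

theorem dt_neg (u : Fin 6 → R) : dt (-u) = - dt u := by
  simp only [dt, Pi.neg_apply]; ring

theorem det_mat (u : Fin 6 → R) : (mat u).det = dt u := by
  simp [mat, dt, Matrix.det_fin_three]; ring

theorem mat_symm (u : Fin 6 → R) : (mat u).IsSymm := by
  ext i j
  fin_cases i <;> fin_cases j <;> rfl

theorem mat_mul_adj (u : Fin 6 → R) : mat u * mat (adj u) = dt u • (1 : Matrix (Fin 3) (Fin 3) R) := by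
  ext i j
  fin_cases i <;> fin_cases j <;>
    simp [mat, dt, Matrix.mul_apply, Fin.sum_univ_three] <;> ring

theorem adj_mul_mat (u : Fin 6 → R) : mat (adj u) * mat u = dt u • (1 : Matrix (Fin 3) (Fin 3) R) := by
  ext i j
  fin_cases i <;> fin_cases j <;>
    simp [mat, dt, Matrix.mul_apply, Fin.sum_univ_three] <;> ring

theorem vec_mat (u : Fin 6 → R) : vec (mat u) = u := by
  apply six_ext <;> rfl

theorem mat_vec {x : Matrix (Fin 3) (Fin 3) R} (hx : x.IsSymm) : mat (vec x) = x := by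
  have h : ∀ i j, x i j = x j i := fun i j => (hx.apply i j).symm
  ext i j
  fin_cases i <;> fin_cases j <;> simp [mat, vec] <;> first | rfl | exact h _ _

theorem mat_smul (s : R) (u : Fin 6 → R) : mat (s • u) = s • mat u := by
  ext i j
  fin_cases i <;> fin_cases j <;> rfl

theorem mat_inj {u v : Fin 6 → R} (h : mat u = mat v) : u = v := by
  rw [← vec_mat u, ← vec_mat v, h]

theorem mat_zero : mat (0 : Fin 6 → R) = 0 := by
  ext i j
  fin_cases i <;> fin_cases j <;> rfl

theorem mat_ne_zero {u : Fin 6 → R} (h : u ≠ 0) : mat u ≠ 0 := by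
  intro h0
  apply h
  apply mat_inj
  rw [h0, mat_zero]

theorem adj_map {S : Type*} [CommRing S] (f : R →+* S) (u : Fin 6 → R) :
    adj (fun i => f (u i)) = fun i => f (adj u i) := by
  apply six_ext <;> simp

theorem dt_map {S : Type*} [CommRing S] (f : R →+* S) (u : Fin 6 → R) :
    dt (fun i => f (u i)) = f (dt u) := by
  simp only [dt, map_add, map_sub, map_mul, map_pow, map_ofNat]

/-- adjugates of congruent vectors -/
theorem adj_congr {d : R} {u v : Fin 6 → R} (h : ∀ i, d ∣ u i - v i) (i : Fin 6) :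
    d ∣ adj u i - adj v i := by
  have key : ∀ a b a' b' : R, d ∣ a - a' → d ∣ b - b' → d ∣ a * b - a' * b' := by
    intro a b a' b' h1 h2
    have : a * b - a' * b' = (a - a') * b + a' * (b - b') := by ring
    rw [this]
    exact dvd_add (h1.mul_right _) (h2.mul_left _)
  have sub4 : ∀ a b a' b' : R, d ∣ a - a' → d ∣ b - b' → d ∣ (a - b) - (a' - b') := by
    intro a b a' b' h1 h2
    have : (a - b) - (a' - b') = (a - a') - (b - b') := by ring
    rw [this]
    exact dvd_sub h1 h2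
  have sq : ∀ a a' : R, d ∣ a - a' → d ∣ a ^ 2 - a' ^ 2 := by
    intro a a' h1
    have := key a a a' a' h1 h1
    simpa [sq] using this
  fin_cases i
  · exact sub4 _ _ _ _ (key _ _ _ _ (h 1) (h 2)) (sq _ _ (h 5))
  · exact sub4 _ _ _ _ (key _ _ _ _ (h 0) (h 2)) (sq _ _ (h 4))
  · exact sub4 _ _ _ _ (key _ _ _ _ (h 0) (h 1)) (sq _ _ (h 3))
  · exact sub4 _ _ _ _ (key _ _ _ _ (h 4) (h 5)) (key _ _ _ _ (h 2) (h 3))
  · exact sub4 _ _ _ _ (key _ _ _ _ (h 3) (h 5)) (key _ _ _ _ (h 1) (h 4))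
  · exact sub4 _ _ _ _ (key _ _ _ _ (h 3) (h 4)) (key _ _ _ _ (h 0) (h 5))

section field

variable {K : Type*} [Field K]

/-- If `x` is nondegenerate then `y` is a multiple of the adjugate. -/
theorem IsPair.eq_smul_adj {x y : Matrix (Fin 3) (Fin 3) K} (h : IsPair x y) (hx : x.det ≠ 0) :
    ∃ t : K, t ≠ 0 ∧ y = t • mat (adj (vec x)) := by
  obtain ⟨c, hc⟩ := h.scalar
  have e1 : mat (vec x) = x := mat_vec h.symm_x
  have e2 : dt (vec x) = x.det := by rw [← det_mat, e1]
  have e3 : mat (adj (vec x)) * x = x.det • (1 : Matrix (Fin 3) (Fin 3) K) := by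
    have := adj_mul_mat (vec x)
    rwa [e1, e2] at this
  have e4 : x.det • y = c • mat (adj (vec x)) := by
    calc x.det • y = (x.det • (1 : Matrix (Fin 3) (Fin 3) K)) * y := by simp
      _ = mat (adj (vec x)) * (x * y) := by rw [← e3, Matrix.mul_assoc]
      _ = c • mat (adj (vec x)) := by rw [hc]; simp
  refine ⟨x.det⁻¹ * c, ?_, ?_⟩
  · intro h0
    have hc0 : c = 0 := by
      rcases mul_eq_zero.1 h0 with h1 | h1
      · exact absurd h1 (inv_ne_zero hx)
      · exact h1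
    apply h.ne_y
    rw [hc0, zero_smul] at e4
    exact (smul_eq_zero.1 e4).resolve_left hx
  · rw [mul_smul, ← e4, smul_smul, inv_mul_cancel₀ hx, one_smul]

theorem adj_ne_zero_of_dt {u : Fin 6 → K} (h : dt u ≠ 0) : adj u ≠ 0 := by
  intro h0
  have := dt_adj u
  rw [h0] at this
  have h1 : dt (0 : Fin 6 → K) = 0 := by simp [dt]
  rw [h1] at this
  exact h (pow_eq_zero_iff (two_ne_zero) |>.1 this.symm)

theorem ne_zero_of_adj {u : Fin 6 → R} (h : adj u ≠ 0) : u ≠ 0 := by
  rintro rfl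
  exact h adj_zero

/-- the pair given by a vector with nonzero adjugate -/
theorem isPair_adj {u : Fin 6 → K} (h : adj u ≠ 0) : IsPair (mat u) (mat (adj u)) where
  symm_x := mat_symm _
  symm_y := mat_symm _
  ne_x := mat_ne_zero (ne_zero_of_adj h)
  ne_y := mat_ne_zero h
  scalar := ⟨dt u, mat_mul_adj u⟩

theorem IsPair.smul {x y : Matrix (Fin 3) (Fin 3) K} (h : IsPair x y) {s t : K} (hs : s ≠ 0)
    (ht : t ≠ 0) : IsPair (s • x) (t • y) where
  symm_x := by
    have := h.symm_x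
    unfold Matrix.IsSymm at *
    rw [Matrix.transpose_smul, this]
  symm_y := by
    have := h.symm_y
    unfold Matrix.IsSymm at *
    rw [Matrix.transpose_smul, this]
  ne_x := smul_ne_zero hs h.ne_x
  ne_y := smul_ne_zero ht h.ne_y
  scalar := by
    obtain ⟨c, hc⟩ := h.scalar
    refine ⟨s * t * c, ?_⟩
    rw [Matrix.smul_mul, Matrix.mul_smul, hc, smul_smul, smul_smul]

theorem IsPair.symm {x y : Matrix (Fin 3) (Fin 3) K} (h : IsPair x y) : IsPair y x where
  symm_x := h.symm_y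
  symm_y := h.symm_x
  ne_x := h.ne_y
  ne_y := h.ne_x
  scalar := by
    obtain ⟨c, hc⟩ := h.scalar
    refine ⟨c, ?_⟩
    have h1 := congrArg Matrix.transpose hc
    rw [Matrix.transpose_mul, h.symm_x, h.symm_y, Matrix.transpose_smul,
      Matrix.transpose_one] at h1
    exact h1

end field

section norm

variable {K : Type*} [NormedField K]

theorem size_mat (u : Fin 6 → K) : size (mat u) = ‖u‖ := by
  unfold size
  apply le_antisymm
  · rw [pi_norm_le_iff_of_nonneg (norm_nonneg _)]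
    intro i
    rw [pi_norm_le_iff_of_nonneg (norm_nonneg _)]
    intro j
    fin_cases i <;> fin_cases j <;> exact norm_le_pi_norm u _
  · rw [pi_norm_le_iff_of_nonneg (norm_nonneg _)]
    have key : ∀ i j, ‖mat u i j‖ ≤ ‖(fun i j => mat u i j : Fin 3 → Fin 3 → K)‖ := by
      intro i j
      exact (norm_le_pi_norm ((fun i j => mat u i j : Fin 3 → Fin 3 → K) i) j).trans
        (norm_le_pi_norm (fun i j => mat u i j : Fin 3 → Fin 3 → K) i)
    intro i
    fin_cases i
    · exact key 0 0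
    · exact key 1 1
    · exact key 2 2
    · exact key 0 1
    · exact key 0 2
    · exact key 1 2

end norm

end Pool.Agent.Lib.MP_1acd66_nt.Conic
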